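import Mathlib

/-!
# Laurent series over `ℚ` with the operators `D = q d/dq`, `V : q ↦ q^7`, `U = U_7`
-/

set_option autoImplicit false

namespace Pool.Agent.H47.Fad

open HahnSeries

noncomputable section

/-- Laurent series in `q` over `ℚ` -/
abbrev K := LaurentSeries ℚ

/-- power series in `q` over `ℚ` -/
abbrev A := PowerSeries ℚ

instance instCharZeroK : CharZero K := algebraRat.charZero K

theorem coeff_C_mul' (r : ℚ) (f : K) (n : ℤ) : (HahnSeries.C r * f).coeff n = r * f.coeff n := by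
  rw [HahnSeries.C_mul_eq_smul, HahnSeries.coeff_smul, smul_eq_mul]

/-- `q d/dq` as a function -/
def Dfun (f : K) : K where
  coeff n := (n : ℚ) * f.coeff n
  isPWO_support' := f.isPWO_support.mono fun n hn => by
    rw [Function.mem_support] at hn
    exact right_ne_zero_of_mul hn

@[simp] theorem coeff_Dfun (f : K) (n : ℤ) : (Dfun f).coeff n = n * f.coeff n := rfl

theorem supp_Dfun (f : K) : (Dfun f).support ⊆ f.support := fun n hn => by
  rw [mem_support, coeff_Dfun] at hn
  exact right_ne_zero_of_mul hn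

theorem Dfun_add (f g : K) : Dfun (f + g) = Dfun f + Dfun g := by
  ext n; simp [mul_add]

theorem Dfun_mul (f g : K) : Dfun (f * g) = f * Dfun g + g * Dfun f := by
  ext n
  rw [mul_comm g (Dfun f), coeff_Dfun, HahnSeries.coeff_add, coeff_mul,
    coeff_mul_left' f.isPWO_support (supp_Dfun f),
    coeff_mul_right' g.isPWO_support (supp_Dfun g), Finset.mul_sum,
    ← Finset.sum_add_distrib]
  refine Finset.sum_congr rfl fun p hp => ?_
  simp only [Finset.mem_antidiagonal, mem_support] at hp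
  rw [coeff_Dfun, coeff_Dfun, ← hp.2.2]
  push_cast
  ring

theorem Dfun_one : Dfun 1 = 0 := by
  ext n
  rw [coeff_Dfun, HahnSeries.coeff_one]
  split_ifs with h
  · simp [h]
  · simp

/-- `D = q d/dq`, additive -/
def D : K →+ K where
  toFun := Dfun
  map_zero' := by ext n; simp
  map_add' := Dfun_add

@[simp] theorem coeff_D (f : K) (n : ℤ) : (D f).coeff n = n * f.coeff n := rfl

theorem D_mul (f g : K) : D (f * g) = D f * g + f * D g := by
  rw [mul_comm (D f) g, add_comm]
  exact Dfun_mul f g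

theorem D_one : D 1 = 0 := Dfun_one

theorem D_C (r : ℚ) : D (HahnSeries.C r) = 0 := by
  ext n
  rw [coeff_D, HahnSeries.C_apply, HahnSeries.coeff_single]
  split_ifs with h
  · simp [h]
  · simp

theorem D_ratCast (r : ℚ) : D (r : K) = 0 := by
  have h : (r : K) = HahnSeries.C r := (map_ratCast HahnSeries.C r).symm
  rw [h, D_C]

theorem D_natCast (r : ℕ) : D (r : K) = 0 := by
  have := D_ratCast (r : ℚ)
  simpa using this

theorem D_intCast (r : ℤ) : D (r : K) = 0 := by
  have := D_ratCast (r : ℚ)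
  simpa using this

theorem D_ofNat (r : ℕ) [r.AtLeastTwo] : D (OfNat.ofNat r : K) = 0 := by
  have := D_natCast r
  exact_mod_cast this

theorem D_pow (f : K) (n : ℕ) : D (f ^ (n + 1)) = (n + 1) * f ^ n * D f := by
  induction n with
  | zero => simp
  | succ n ih =>
    rw [pow_succ, D_mul, ih]
    push_cast
    ring

theorem D_inv (f : K) : D f⁻¹ = - D f / f ^ 2 := by
  by_cases hf : f = 0
  · simp [hf]
  · have h : D (f * f⁻¹) = 0 := by rw [mul_inv_cancel₀ hf, D_one]
    rw [D_mul] at h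
    field_simp
    field_simp at h
    linear_combination h

theorem D_div (f g : K) (hg : g ≠ 0) : D (f / g) = (D f * g - f * D g) / g ^ 2 := by
  rw [div_eq_mul_inv, D_mul, D_inv]
  field_simp
  ring

/-- `V : q ↦ q^7` -/
def V : K →+* K :=
  HahnSeries.embDomainRingHom (AddMonoidHom.mulLeft (7 : ℤ))
    (fun a b h => by simpa using h) (fun a b => by simp)

theorem coeff_V_mul (f : K) (n : ℤ) : (V f).coeff (7 * n) = f.coeff n := by
  exact HahnSeries.embDomain_coeff (f := ⟨⟨(AddMonoidHom.mulLeft (7 : ℤ)), _⟩, _⟩) (a := n)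

theorem coeff_V_of_not_dvd (f : K) {m : ℤ} (h : ¬ (7 : ℤ) ∣ m) : (V f).coeff m = 0 := by
  refine HahnSeries.embDomain_of_notMem_range ?_
  rintro ⟨a, ha⟩
  exact h ⟨a, ha.symm⟩

/-- `U_7` as a function -/
def Ufun (f : K) : K :=
  HahnSeries.ofSuppBddBelow (fun n => f.coeff (7 * n)) ⟨-|f.order|, fun n hn => by
    rw [Function.mem_support] at hn
    by_contra h
    push Not at h
    refine hn (coeff_eq_zero_of_lt_order ?_)
    have := neg_abs_le f.order
    linarith [abs_nonneg f.order]⟩

@[simp] theorem coeff_Ufun (f : K) (n : ℤ) : (Ufun f).coeff n = f.coeff (7 * n) := rfl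

/-- `U = U_7` -/
def U : K →+ K where
  toFun := Ufun
  map_zero' := by ext n; simp
  map_add' f g := by ext n; simp

@[simp] theorem coeff_U (f : K) (n : ℤ) : (U f).coeff n = f.coeff (7 * n) := rfl

theorem U_V_mul (f g : K) : U (V f * g) = f * U g := by
  ext n
  rw [coeff_U, coeff_mul, coeff_mul]
  refine Finset.sum_nbij' (fun p => (p.1 / 7, p.2 / 7)) (fun p => (7 * p.1, 7 * p.2)) ?_ ?_ ?_ ?_ ?_
  · rintro ⟨a, b⟩ hp
    simp only [Finset.mem_antidiagonal, mem_support] at hp ⊢
    obtain ⟨h1, h2, h3⟩ := hp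
    have hd : (7 : ℤ) ∣ a := by
      by_contra h
      exact h1 (coeff_V_of_not_dvd f h)
    obtain ⟨c, rfl⟩ := hd
    rw [coeff_V_mul] at h1
    have hb : b = 7 * (n - c) := by linarith
    subst hb
    have e1 : 7 * c / 7 = c := by omega
    have e2 : 7 * (n - c) / 7 = n - c := by omega
    rw [e1, e2]
    exact ⟨h1, by rw [coeff_U]; exact h2, by ring⟩
  · rintro ⟨a, b⟩ hp
    simp only [Finset.mem_antidiagonal, mem_support] at hp ⊢
    obtain ⟨h1, h2, h3⟩ := hp
    refine ⟨by rw [coeff_V_mul]; exact h1, by rw [coeff_U] at h2; exact h2, by linarith⟩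
  · rintro ⟨a, b⟩ hp
    simp only [Finset.mem_antidiagonal, mem_support] at hp ⊢
    obtain ⟨h1, h2, h3⟩ := hp
    have hd : (7 : ℤ) ∣ a := by
      by_contra h
      exact h1 (coeff_V_of_not_dvd f h)
    obtain ⟨c, rfl⟩ := hd
    have hb : b = 7 * (n - c) := by linarith
    subst hb
    have e1 : 7 * c / 7 = c := by omega
    have e2 : 7 * (n - c) / 7 = n - c := by omega
    rw [e1, e2]
  · rintro ⟨a, b⟩ hp
    have e1 : 7 * a / 7 = a := by omega
    have e2 : 7 * b / 7 = b := by omega
    simp only [e1, e2]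
  · rintro ⟨a, b⟩ hp
    simp only [Finset.mem_antidiagonal, mem_support] at hp ⊢
    obtain ⟨h1, h2, h3⟩ := hp
    have hd : (7 : ℤ) ∣ a := by
      by_contra h
      exact h1 (coeff_V_of_not_dvd f h)
    obtain ⟨c, rfl⟩ := hd
    have hb : b = 7 * (n - c) := by linarith
    subst hb
    have e1 : 7 * c / 7 = c := by omega
    have e2 : 7 * (n - c) / 7 = n - c := by omega
    rw [e1, e2, coeff_V_mul, coeff_U]

theorem U_one : U 1 = 1 := by
  ext n
  rw [coeff_U, HahnSeries.coeff_one, HahnSeries.coeff_one]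
  simp

theorem U_V (f : K) : U (V f) = f := by
  have := U_V_mul f 1
  rwa [mul_one, U_one, mul_one] at this

theorem D_V (f : K) : D (V f) = 7 * V (D f) := by
  ext n
  have h7 : (7 : K) = HahnSeries.C (7 : ℚ) := by rw [map_ofNat]
  rw [coeff_D, h7, coeff_C_mul']
  by_cases h : (7 : ℤ) ∣ n
  · obtain ⟨m, rfl⟩ := h
    rw [coeff_V_mul, coeff_V_mul, coeff_D]
    push_cast
    ring
  · rw [coeff_V_of_not_dvd _ h, coeff_V_of_not_dvd _ h]
    simp

theorem U_D (f : K) : U (D f) = 7 * D (U f) := by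
  ext n
  have h7 : (7 : K) = HahnSeries.C (7 : ℚ) := by rw [map_ofNat]
  rw [coeff_U, coeff_D, h7, coeff_C_mul', coeff_D, coeff_U]
  push_cast
  ring

end

end Pool.Agent.H47.Fad
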