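import Mathlib

/-!
# The coloured generalised Frobenius partition functions `cψ_{6,β}`
-/

set_option autoImplicit false

namespace Pool.Agent.H47.Fad.Cp

open PowerSeries
open scoped PowerSeries.WithPiTopology

/-- The series `∑_{m ∈ ℤ} q^{m(m+1)/2} ζ^{m+1/2}`, as a power series in `q` whose coefficients are
Laurent polynomials in `T = ζ^{1/2}` (so that `ζ^{m+1/2} = T^{2m+1}`). The coefficient of `q^n` is
the sum of `T^{2m+1}` over the integers `m` with `m(m+1)/2 = n`; all of them satisfy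
`-n-1 ≤ m ≤ n`. -/
noncomputable def thetaNum : PowerSeries (LaurentPolynomial ℤ) :=
  PowerSeries.mk fun n => ∑ m ∈ (Finset.Icc (-(n : ℤ) - 1) n).filter
    (fun m => m * (m + 1) = 2 * (n : ℤ)), LaurentPolynomial.T (2 * m + 1)

/-- The Euler product `∏_{j ≥ 1} (1 - q^j)` -/
noncomputable def eulerProd : PowerSeries ℤ := ∏' j : ℕ, (1 - X ^ (j + 1))

/-- The series `F_6 = (∑_m q^{m(m+1)/2} ζ^{m+1/2})^6 / ∏_{j ≥ 1} (1 - q^j)^6`; here
`invOfUnit eulerProd 1` is the inverse of the Euler product, whose constant term is `1`. -/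
noncomputable def F6 : PowerSeries (LaurentPolynomial ℤ) :=
  thetaNum ^ 6 * PowerSeries.map LaurentPolynomial.C (invOfUnit eulerProd 1) ^ 6

/-- `cψ_{6,β}(n)`: the coefficient of `q^n ζ^β = q^n T^{2β}` in `F_6`, and `0` for `n < 0` -/
noncomputable def cpsi (β n : ℤ) : ℤ :=
  if n < 0 then 0 else (PowerSeries.coeff n.toNat F6).coeff (2 * β)

end Pool.Agent.H47.Fad.Cp
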