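import Pool.Agent.H47.Fad.Trunc
import Pool.Agent.H47.Fad.Lib.Eta
import Pool.Agent.H47.Fad.Lib.Ram2

/-!
# Eisenstein series and the Euler product as Laurent series
-/

set_option autoImplicit false

namespace Pool.Agent.H47.Fad

open HahnSeries Pool.Agent.Q279.SC Filter

noncomputable section

/-- the inclusion of `ℤ⟦q⟧` -/
def ofZ : PowerSeries ℤ →+* K :=
  (ofPowerSeries ℤ ℚ).comp (PowerSeries.map (Int.castRingHom ℚ))

theorem coeff_ofZ (f : PowerSeries ℤ) (n : ℕ) : (ofZ f).coeff (n : ℤ) = PowerSeries.coeff n f := by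
  rw [ofZ, RingHom.comp_apply, LaurentSeries.coeff_coe_powerSeries, PowerSeries.coeff_map]
  rfl

theorem ps_ofZ (f : PowerSeries ℤ) : Ps (ofZ f) := Ps.coe _

theorem lead_ofZ (f : PowerSeries ℤ) : Lead (ofZ f) (PowerSeries.constantCoeff f : ℤ) := by
  refine ⟨ps_ofZ f, ?_⟩
  have := coeff_ofZ f 0
  rw [PowerSeries.coeff_zero_eq_constantCoeff_apply] at this
  exact this

/-- extensionality for power series -/
theorem ps_ext {f g : K} (hf : Ps f) (hg : Ps g) (h : ∀ n : ℕ, f.coeff (n : ℤ) = g.coeff (n : ℤ)) :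
    f = g := by
  ext n
  rcases lt_or_ge n 0 with hn | hn
  · rw [hf n hn, hg n hn]
  · obtain ⟨m, rfl⟩ := Int.eq_ofNat_of_zero_le hn
    exact h m

theorem Ps.D {f : K} (hf : Ps f) : Ps (D f) := fun n hn => by rw [coeff_D, hf n hn, mul_zero]

theorem D_ofZ (f : PowerSeries ℤ) : D (ofZ f) = ofZ (th f) := by
  refine ps_ext (ps_ofZ f).D (ps_ofZ _) fun n => ?_
  rw [coeff_D, coeff_ofZ, coeff_ofZ, th, PowerSeries.coeff_mk]
  push_cast
  rfl

theorem Ps.V {f : K} (hf : Ps f) : Ps (V f) := by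
  intro n hn
  by_cases h : (7 : ℤ) ∣ n
  · obtain ⟨m, rfl⟩ := h
    rw [coeff_V_mul]
    exact hf m (by omega)
  · exact coeff_V_of_not_dvd _ h

theorem V_ofZ (f : PowerSeries ℤ) : V (ofZ f) = ofZ (PowerSeries.expand 7 (by norm_num) f) := by
  refine ps_ext (ps_ofZ f).V (ps_ofZ _) fun n => ?_
  rw [coeff_ofZ, PowerSeries.coeff_expand]
  split_ifs with h
  · obtain ⟨m, rfl⟩ := h
    have h2 := coeff_V_mul (ofZ f) m
    rw [coeff_ofZ] at h2
    rw [Nat.mul_div_cancel_left m (by norm_num), ← h2]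
    push_cast
    rfl
  · rw [coeff_V_of_not_dvd]
    · simp
    · intro h2
      exact h (by exact_mod_cast h2)

/-- `E_2` -/
def E2 : K := ofZ z2

/-- `E_4` -/
def E4 : K := ofZ z4

/-- `E_6` -/
def E6 : K := ofZ z6

theorem DE2 : D E2 = (E2 ^ 2 - E4) / 12 := by
  have h := congrArg ofZ Pool.Agent.Q237.SX.z_th2
  rw [map_mul, map_sub, map_pow, ← D_ofZ, map_ofNat] at h
  change 12 * D E2 = E2 ^ 2 - E4 at h
  rw [eq_div_iff (by norm_num)]
  linear_combination h

theorem DE4 : D E4 = (E2 * E4 - E6) / 3 := by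
  have h := congrArg ofZ Pool.Agent.Q237.SX.z_th4
  rw [map_mul, map_sub, map_mul, ← D_ofZ, map_ofNat] at h
  change 3 * D E4 = E2 * E4 - E6 at h
  rw [eq_div_iff (by norm_num)]
  linear_combination h

theorem DE6 : D E6 = (E2 * E6 - E4 ^ 2) / 2 := by
  have h := congrArg ofZ Pool.Agent.Q237.SX.z_th6
  rw [map_mul, map_sub, map_mul, map_pow, ← D_ofZ, map_ofNat] at h
  change 2 * D E6 = E2 * E6 - E4 ^ 2 at h
  rw [eq_div_iff (by norm_num)]
  linear_combination h

theorem tr_ofZ (f : PowerSeries ℤ) (l : List ℤ)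
    (h : ∀ i : ℕ, i < 8 → PowerSeries.coeff i f = l.getD i 0) : Tr (ofZ f) l :=
  ⟨ps_ofZ f, fun i hi => by rw [coeff_ofZ, h i hi]⟩

theorem coeff_z2 (i : ℕ) : PowerSeries.coeff i z2 =
    (if i = 0 then 1 else 0) - 24 * ((∑ d ∈ i.divisors, d : ℕ) : ℤ) := by
  have h24 : (24 : PowerSeries ℤ) = PowerSeries.C 24 := by rw [map_ofNat]
  rw [z2, map_sub, PowerSeries.coeff_one, h24, PowerSeries.coeff_C_mul, zS, PowerSeries.coeff_mk]

theorem coeff_z4 (i : ℕ) : PowerSeries.coeff i z4 =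
    (if i = 0 then 1 else 0) + 240 * ((∑ d ∈ i.divisors, d ^ 3 : ℕ) : ℤ) := by
  have h24 : (240 : PowerSeries ℤ) = PowerSeries.C 240 := by rw [map_ofNat]
  rw [z4, map_add, PowerSeries.coeff_one, h24, PowerSeries.coeff_C_mul, zA, PowerSeries.coeff_mk]

theorem coeff_z6 (i : ℕ) : PowerSeries.coeff i z6 =
    (if i = 0 then 1 else 0) - 504 * ((∑ d ∈ i.divisors, d ^ 5 : ℕ) : ℤ) := by
  have h24 : (504 : PowerSeries ℤ) = PowerSeries.C 504 := by rw [map_ofNat]
  rw [z6, map_sub, PowerSeries.coeff_one, h24, PowerSeries.coeff_C_mul, zB, PowerSeries.coeff_mk]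

theorem tr_E2 : Tr E2 [1, -24, -72, -96, -168, -144, -288, -192] := by
  refine tr_ofZ _ _ fun i hi => ?_
  rw [coeff_z2]
  have h : ∀ i : ℕ, i < 8 → (if i = 0 then (1 : ℤ) else 0) - 24 * ((∑ d ∈ i.divisors, d : ℕ) : ℤ) =
      [1, -24, -72, -96, -168, -144, -288, -192].getD i 0 := by decide
  exact h i hi

theorem tr_E4 : Tr E4 [1, 240, 2160, 6720, 17520, 30240, 60480, 82560] := by
  refine tr_ofZ _ _ fun i hi => ?_
  rw [coeff_z4]
  have h : ∀ i : ℕ, i < 8 → (if i = 0 then (1 : ℤ) else 0) + 240 * ((∑ d ∈ i.divisors, d ^ 3 : ℕ) : ℤ) =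
      [1, 240, 2160, 6720, 17520, 30240, 60480, 82560].getD i 0 := by decide
  exact h i hi

theorem tr_E6 : Tr E6 [1, -504, -16632, -122976, -532728, -1575504, -4058208, -8471232] := by
  refine tr_ofZ _ _ fun i hi => ?_
  rw [coeff_z6]
  have h : ∀ i : ℕ, i < 8 → (if i = 0 then (1 : ℤ) else 0) - 504 * ((∑ d ∈ i.divisors, d ^ 5 : ℕ) : ℤ) =
      [1, -504, -16632, -122976, -532728, -1575504, -4058208, -8471232].getD i 0 := by decide
  exact h i hi

theorem Tr.lead {f : K} {l : List ℤ} (h : Tr f l) : Lead f (l.getD 0 0 : ℤ) := ⟨h.1, by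
  have := h.2 0 (by norm_num)
  exact_mod_cast this⟩

theorem lead_E2 : Lead E2 1 := tr_E2.lead.cast (by simp)
theorem lead_E4 : Lead E4 1 := tr_E4.lead.cast (by simp)
theorem lead_E6 : Lead E6 1 := tr_E6.lead.cast (by simp)

/-! ## The Euler product -/

/-- `φ = ∏ (1 - q^n)` -/
def φ : K := ofZ (Q279.QS.eul 1)

/-- `∑_{m | n, n ≠ 0} m q^n` -/
def geo (m : ℕ) : PowerSeries ℤ := PowerSeries.mk fun n => if m ∣ n ∧ n ≠ 0 then (m : ℤ) else 0

theorem th_mulZ (f g : PowerSeries ℤ) : th (f * g) = th f * g + f * th g :=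
  Pool.Agent.Q237.SX.th_mul f g

theorem geo_mul (m : ℕ) (hm : 1 ≤ m) :
    th (1 - PowerSeries.X ^ m : PowerSeries ℤ) = -(geo m * (1 - PowerSeries.X ^ m)) := by
  ext n
  rw [mul_sub, mul_one, map_neg, map_sub, PowerSeries.coeff_mul_X_pow', th, PowerSeries.coeff_mk,
    map_sub, PowerSeries.coeff_one, PowerSeries.coeff_X_pow, geo, PowerSeries.coeff_mk,
    PowerSeries.coeff_mk]
  by_cases h0 : n = 0
  · subst h0
    have : ¬ m ≤ 0 := by omega
    simp [this]
  by_cases h1 : n = m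
  · subst h1
    simp [h0]
  by_cases h2 : m ≤ n
  · have h3 : n - m ≠ 0 := by omega
    have h4 : (m ∣ n - m) ↔ m ∣ n := by
      rw [Nat.dvd_sub_iff_left h2 (dvd_refl m)]
    simp [h0, h1, h2, h3, h4]
  · have h5 : ¬ m ∣ n := fun h => h2 (Nat.le_of_dvd (by omega) h)
    simp [h0, h1, h2, h5]

theorem th_prod (N : ℕ) :
    th (∏ i ∈ Finset.range N, (1 - PowerSeries.X ^ (1 * (i + 1)) : PowerSeries ℤ)) =
      -((∑ i ∈ Finset.range N, geo (i + 1)) *
        ∏ i ∈ Finset.range N, (1 - PowerSeries.X ^ (1 * (i + 1)) : PowerSeries ℤ)) := by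
  induction N with
  | zero =>
    rw [Finset.prod_range_zero, Finset.sum_range_zero, zero_mul, neg_zero]
    ext n
    rw [th, PowerSeries.coeff_mk, PowerSeries.coeff_one]
    split_ifs with h
    · simp [h]
    · simp
  | succ N ih =>
    rw [Finset.prod_range_succ, th_mulZ, ih, one_mul, geo_mul (N + 1) (by omega),
      Finset.sum_range_succ]
    ring

theorem coeff_sum_geo {N n : ℕ} (h : n ≤ N) :
    PowerSeries.coeff n (∑ i ∈ Finset.range N, geo (i + 1)) = PowerSeries.coeff n zS := by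
  rw [map_sum, zS, PowerSeries.coeff_mk, Nat.cast_sum]
  simp only [geo, PowerSeries.coeff_mk]
  by_cases h0 : n = 0
  · subst h0
    simp
  rw [Finset.sum_ite, Finset.sum_const_zero, add_zero]
  refine Finset.sum_nbij' (fun i => i + 1) (fun d => d - 1) ?_ ?_ ?_ ?_ ?_
  · intro i hi
    rw [Finset.mem_filter] at hi
    rw [Nat.mem_divisors]
    exact hi.2
  · intro d hd
    rw [Nat.mem_divisors] at hd
    have h1 : 0 < d := Nat.pos_of_dvd_of_pos hd.1 (by omega)
    have h2 : d ≤ n := Nat.le_of_dvd (by omega) hd.1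
    rw [Finset.mem_filter, Finset.mem_range]
    have h3 : d - 1 + 1 = d := by omega
    rw [h3]
    exact ⟨by omega, hd.1, h0⟩
  · intro i _
    rfl
  · intro d hd
    rw [Nat.mem_divisors] at hd
    have h1 : 0 < d := Nat.pos_of_dvd_of_pos hd.1 (by omega)
    change d - 1 + 1 = d
    omega
  · intro i _
    push_cast
    rfl

theorem th_eul : th (Q279.QS.eul 1) = -(zS * Q279.QS.eul 1) := by
  ext n
  have hm := Q279.QS.mult_eul 1 le_rfl
  have h1 : ∀ᶠ N in atTop, ∀ k ≤ n, PowerSeries.coeff k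
      (∏ i ∈ Finset.range N, (1 - PowerSeries.X ^ (1 * (i + 1)) : PowerSeries ℤ)) =
        PowerSeries.coeff k (Q279.QS.eul 1) := by
    have h2 : ∀ k ∈ Finset.range (n + 1), ∀ᶠ N in atTop, PowerSeries.coeff k
      (∏ i ∈ Finset.range N, (1 - PowerSeries.X ^ (1 * (i + 1)) : PowerSeries ℤ)) =
        PowerSeries.coeff k (Q279.QS.eul 1) := fun k _ => Q279.QS.eventually_coeff hm k
    have h3 := (Filter.eventually_all_finset (Finset.range (n + 1))).2 h2
    filter_upwards [h3] with N hN k hk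
    exact hN k (Finset.mem_range.2 (by omega))
  obtain ⟨N, h2, h3⟩ := (h1.and (eventually_ge_atTop n)).exists
  have h4 := congrArg (PowerSeries.coeff n) (th_prod N)
  have e1 : PowerSeries.coeff n (th (Q279.QS.eul 1)) = PowerSeries.coeff n
      (th (∏ i ∈ Finset.range N, (1 - PowerSeries.X ^ (1 * (i + 1)) : PowerSeries ℤ))) := by
    rw [th, th, PowerSeries.coeff_mk, PowerSeries.coeff_mk, h2 n le_rfl]
  rw [e1, h4, map_neg, map_neg, PowerSeries.coeff_mul, PowerSeries.coeff_mul]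
  congr 1
  refine Finset.sum_congr rfl fun p hp => ?_
  rw [Finset.HasAntidiagonal.mem_antidiagonal] at hp
  rw [coeff_sum_geo (by omega), h2 _ (by omega)]

theorem Dφ : D φ = φ * (E2 - 1) / 24 := by
  have h := congrArg ofZ th_eul
  rw [← D_ofZ, map_neg, map_mul] at h
  have h2 : E2 = 1 - 24 * ofZ zS := by
    rw [E2, z2, map_sub, map_mul, map_one, map_ofNat]
  change D φ = -(ofZ zS * φ) at h
  rw [h, h2, eq_div_iff (by norm_num)]
  ring

theorem coeff_eul (m : ℕ) (hm : m < 8) : PowerSeries.coeff m (Q279.QS.eul 1) =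
    (∑ n ∈ Finset.range 8, if Q279.QS.te 1 2 (n : ℤ) = (m : ℤ) then (-1) ^ n else 0) +
    (∑ n ∈ Finset.range 8, if Q279.QS.te 1 2 (-((n : ℤ) + 1)) = (m : ℤ) then (-1) ^ (n + 1) else 0) := by
  rw [Q279.QS.pentagonal, Q279.QS.TS_int (Q279.QS.FF_te le_rfl (by norm_num)), map_add,
    Q279.QS.coeff_TS_nat (K := 8) _ _ hm, Q279.QS.coeff_TS_nat (K := 8) _ _ hm]
  · congr 1
  · intro n
    have := Q279.QS.natAbs_le_te (a := 1) (b := 2) le_rfl (by norm_num) (-(n + 1))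
    omega
  · intro n
    have := Q279.QS.natAbs_le_te (a := 1) (b := 2) le_rfl (by norm_num) n
    omega

theorem tr_φ : Tr φ [1, -1, -1, 0, 0, 1, 0, 1] := by
  refine tr_ofZ _ _ fun i hi => ?_
  rw [coeff_eul i hi]
  have h : ∀ i : ℕ, i < 8 →
      (∑ n ∈ Finset.range 8, if Q279.QS.te 1 2 (n : ℤ) = (i : ℤ) then ((-1) ^ n : ℤ) else 0) +
      (∑ n ∈ Finset.range 8, if Q279.QS.te 1 2 (-((n : ℤ) + 1)) = (i : ℤ) then ((-1) ^ (n + 1) : ℤ) else 0) =
      [1, -1, -1, 0, 0, 1, 0, 1].getD i 0 := by decide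
  exact h i hi

theorem lead_φ : Lead φ 1 := tr_φ.lead.cast (by simp)

end

end Pool.Agent.H47.Fad
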