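import Pool.Agent.H47.Fad.Mu

/-!
# The transformation of the theta vector: proof by uniqueness
-/

set_option autoImplicit false
set_option linter.unusedSimpArgs false
set_option linter.unusedVariables false

namespace Pool.Agent.H47.Fad

open Q279.QS

noncomputable section

/-! ### expansions of the theta series -/

theorem le_u {r : ℕ} (h : r ≤ 3) (n : ℕ) : (n : ℤ) ≤ u (r : ℤ) (n : ℤ) := by
  unfold u
  have h1 : (n : ℤ) ≤ (n : ℤ) ^ 2 := Int.le_self_sq _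
  have h2 : 0 ≤ (n : ℤ) * r := by positivity
  have h3 : 0 ≤ (n : ℤ) ^ 2 := by positivity
  linarith

theorem le_u' {r : ℕ} (h : r ≤ 3) (n : ℕ) : (n : ℤ) ≤ u (r : ℤ) (-((n : ℤ) + 1)) := by
  unfold u
  have h0 : (r : ℤ) ≤ 3 := by exact_mod_cast h
  have h1 : 0 ≤ (n : ℤ) ^ 2 := by positivity
  have h2 : 0 ≤ (n : ℤ) := by positivity
  nlinarith [mul_nonneg h2 (show (0 : ℤ) ≤ 3 - r by linarith)]

theorem coeff_H0 (r : Fin 4) (m : ℕ) (hm : m < 8) :
    (sv 0 r).coeff (m : ℤ) = ((((∑ n ∈ Finset.range 8, if u ((r : ℕ) : ℤ) (n : ℤ) = (m : ℤ) then 1 else 0) +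
    (∑ n ∈ Finset.range 8, if u ((r : ℕ) : ℤ) (-((n : ℤ) + 1)) = (m : ℤ) then 1 else 0) : ℤ)) : ℚ) := by
  have hr := r.2
  change (kk (TS (u ((r : ℕ) : ℤ)) (fun k => ((6 * (k : ℚ) + (r : ℕ)) ^ 2 / 12) ^ 0))).coeff (m : ℤ) = _
  rw [coeff_kk, TS_int (FF_u4 r), map_add,
    coeff_TS_nat (K := 8) (le_u (by omega)) _ hm, coeff_TS_nat (K := 8) (le_u' (by omega)) _ hm]
  push_cast
  simp only [pow_zero]

theorem tr_H0 (r : Fin 4) (l : List ℤ) (h : ∀ m : ℕ, m < 8 →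
    (∑ n ∈ Finset.range 8, if u ((r : ℕ) : ℤ) (n : ℤ) = (m : ℤ) then (1 : ℤ) else 0) +
    (∑ n ∈ Finset.range 8, if u ((r : ℕ) : ℤ) (-((n : ℤ) + 1)) = (m : ℤ) then (1 : ℤ) else 0) = l.getD m 0) :
    Tr (sv 0 r) l := by
  refine ⟨ps_kk _, fun m hm => ?_⟩
  rw [coeff_H0 r m hm, h m hm]

theorem rr_0 : rr 0 = 0 := rfl
theorem rr_1 : rr 1 = 1 / 12 := rfl
theorem rr_2 : rr 2 = 4 / 12 := rfl
theorem rr_3 : rr 3 = 9 / 12 := rfl

/-- scaled derivatives -/
def Sv (k : ℕ) (r : Fin 4) : K := (24 : K) ^ k * sv k r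

theorem D_24 (k : ℕ) (x : K) : D ((24 : K) ^ k * x) = (24 : K) ^ k * D x := by
  rw [D_mul, D_pow', D_ofNat]
  ring

theorem tr_Sv_succ {k : ℕ} {r : Fin 4} {l l' : List ℤ} (a b : ℤ) (ha : (a : K) = 24 * rr r)
    (hb : (b : K) = -(4 * (k : K) + 1)) (h : Tr (Sv k r) l)
    (hc : addL (addL (smulL 24 (derL l)) (smulL a l))
      (smulL b (mulL [1, -24, -72, -96, -168, -144, -288, -192] l)) = l') : Tr (Sv (k + 1) r) l' := by
  refine ((((h.D rfl).smul 24 rfl).add (h.smul a rfl) rfl).add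
    ((tr_E2.mul h rfl).smul b rfl) hc).congr ?_
  rw [ha, hb, Sv, Sv, D_24, sv_succ, pow_succ]
  push_cast
  ring

theorem tr_sv0_0 : Tr (sv 0 0) [1, 0, 0, 2, 0, 0, 0, 0] := tr_H0 0 _ (by decide)

theorem tr_S0_0 : Tr (Sv 0 0) [1, 0, 0, 2, 0, 0, 0, 0] := tr_sv0_0.congr (by rw [Sv]; simp)

theorem tr_S1_0 : Tr (Sv 1 0) [-1, 24, 72, 238, 216, 288, 480, 528] :=
  tr_Sv_succ 0 (-1) (by norm_num [rr_0]) (by norm_num) tr_S0_0 (by decide +kernel)

theorem tr_S2_0 : Tr (Sv 2 0) [5, 336, 5616, 32746, 84816, 198720, 369600, 636384] :=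
  tr_Sv_succ 0 (-5) (by norm_num [rr_0]) (by norm_num) tr_S1_0 (by decide +kernel)

theorem tr_S3_0 : Tr (Sv 3 0) [-45, 6120, 294840, 3498102, 18389160, 66964320, 185012640, 440740080] :=
  tr_Sv_succ 0 (-9) (by norm_num [rr_0]) (by norm_num) tr_S2_0 (by decide +kernel)

theorem tr_sv0_1 : Tr (sv 0 1) [1, 0, 1, 0, 1, 0, 0, 0] := tr_H0 1 _ (by decide)

theorem tr_S0_1 : Tr (Sv 0 1) [1, 0, 1, 0, 1, 0, 0, 0] := tr_sv0_1.congr (by rw [Sv]; simp)

theorem tr_S1_1 : Tr (Sv 1 1) [1, 24, 121, 120, 337, 264, 528, 432] :=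
  tr_Sv_succ 2 (-1) (by norm_num [rr_1]) (by norm_num) tr_S0_1 (by decide +kernel)

theorem tr_S2_1 : Tr (Sv 2 1) [-3, 624, 8685, 31920, 101661, 193488, 405408, 614880] :=
  tr_Sv_succ 2 (-5) (by norm_num [rr_1]) (by norm_num) tr_S1_1 (by decide +kernel)

theorem tr_S3_1 : Tr (Sv 3 1) [21, 9960, 488925, 4352520, 22105029, 72950520, 204722160, 460910160] :=
  tr_Sv_succ 2 (-9) (by norm_num [rr_1]) (by norm_num) tr_S2_1 (by decide +kernel)

theorem tr_sv0_2 : Tr (sv 0 2) [1, 1, 0, 0, 0, 1, 0, 0] := tr_H0 2 _ (by decide)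

theorem tr_S0_2 : Tr (Sv 0 2) [1, 1, 0, 0, 0, 1, 0, 0] := tr_sv0_2.congr (by rw [Sv]; simp)

theorem tr_S1_2 : Tr (Sv 1 2) [7, 55, 96, 168, 264, 439, 456, 552] :=
  tr_Sv_succ 8 (-1) (by norm_num [rr_2]) (by norm_num) tr_S0_2 (by decide +kernel)

theorem tr_S2_2 : Tr (Sv 2 2) [21, 2325, 14016, 47280, 113136, 243477, 425712, 730032] :=
  tr_Sv_succ 8 (-5) (by norm_num [rr_2]) (by norm_num) tr_S1_2 (by decide +kernel)

theorem tr_S3_2 : Tr (Sv 3 2) [-21, 58011, 1174560, 7909080, 32083320, 99701019, 251889720, 565106520] :=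
  tr_Sv_succ 8 (-9) (by norm_num [rr_2]) (by norm_num) tr_S2_2 (by decide +kernel)

theorem tr_sv0_3 : Tr (sv 0 3) [2, 0, 0, 0, 0, 0, 2, 0] := tr_H0 3 _ (by decide)

theorem tr_S0_3 : Tr (Sv 0 3) [2, 0, 0, 0, 0, 0, 2, 0] := tr_sv0_3.congr (by rw [Sv]; simp)

theorem tr_S1_3 : Tr (Sv 1 3) [34, 48, 144, 192, 336, 288, 898, 432] :=
  tr_Sv_succ 18 (-1) (by norm_num [rr_3]) (by norm_num) tr_S0_3 (by decide +kernel)

theorem tr_S2_3 : Tr (Sv 2 3) [442, 5856, 26784, 67200, 163104, 281664, 593146, 817632] :=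
  tr_Sv_succ 18 (-5) (by norm_num [rr_3]) (by norm_num) tr_S1_3 (by decide +kernel)

theorem tr_S3_3 : Tr (Sv 3 3) [3978, 288720, 3078000, 15405120, 54725040, 147679200, 364575402, 748541520] :=
  tr_Sv_succ 18 (-9) (by norm_num [rr_3]) (by norm_num) tr_S2_3 (by decide +kernel)

/-! ### homogeneous polynomials -/

theorem tr_one' : Tr (1 : K) [1, 0, 0, 0, 0, 0, 0, 0] :=
  ⟨tr_one.1, fun i hi => by rw [tr_one.2 i hi]; interval_cases i <;> simp⟩

theorem tr_PP_p0 : Tr (PP ^ 0) [1, 0, 0, 0, 0, 0, 0, 0] := tr_one'.congr (by simp)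
theorem tr_PP_p1 : Tr (PP ^ 1) [1, -4, 2, 8, -5, -4, -10, 8] := (tr_PP_p0.mul tr_PP (by decide +kernel)).congr (by ring)
theorem tr_PP_p2 : Tr (PP ^ 2) [1, -8, 20, 0, -70, 64, 56, 0] := (tr_PP_p1.mul tr_PP (by decide +kernel)).congr (by ring)
theorem tr_PP_p3 : Tr (PP ^ 3) [1, -12, 54, -88, -99, 540, -418, -648] := (tr_PP_p2.mul tr_PP (by decide +kernel)).congr (by ring)
theorem tr_PP_p4 : Tr (PP ^ 4) [1, -16, 104, -320, 260, 1248, -3712, 1664] := (tr_PP_p3.mul tr_PP (by decide +kernel)).congr (by ring)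
theorem tr_PP_p5 : Tr (PP ^ 5) [1, -20, 170, -760, 1615, 476, -11210, 22440] := (tr_PP_p4.mul tr_PP (by decide +kernel)).congr (by ring)
theorem tr_PP_p6 : Tr (PP ^ 6) [1, -24, 252, -1472, 4830, -6048, -16744, 84480] := (tr_PP_p5.mul tr_PP (by decide +kernel)).congr (by ring)
theorem tr_RR_p0 : Tr (RR ^ 0) [1, 0, 0, 0, 0, 0, 0, 0] := tr_one'.congr (by simp)
theorem tr_RR_p1 : Tr (RR ^ 1) [0, 1, 0, 0, 0, 0, 0, 0] := (tr_RR_p0.mul tr_RR (by decide +kernel)).congr (by ring)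
theorem tr_RR_p2 : Tr (RR ^ 2) [0, 0, 1, 0, 0, 0, 0, 0] := (tr_RR_p1.mul tr_RR (by decide +kernel)).congr (by ring)
theorem tr_RR_p3 : Tr (RR ^ 3) [0, 0, 0, 1, 0, 0, 0, 0] := (tr_RR_p2.mul tr_RR (by decide +kernel)).congr (by ring)
theorem tr_RR_p4 : Tr (RR ^ 4) [0, 0, 0, 0, 1, 0, 0, 0] := (tr_RR_p3.mul tr_RR (by decide +kernel)).congr (by ring)
theorem tr_RR_p5 : Tr (RR ^ 5) [0, 0, 0, 0, 0, 1, 0, 0] := (tr_RR_p4.mul tr_RR (by decide +kernel)).congr (by ring)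
theorem tr_RR_p6 : Tr (RR ^ 6) [0, 0, 0, 0, 0, 0, 1, 0] := (tr_RR_p5.mul tr_RR (by decide +kernel)).congr (by ring)
theorem tr_m2_0 : Tr (PP ^ 2 * RR ^ 0) [1, -8, 20, 0, -70, 64, 56, 0] := tr_PP_p2.mul tr_RR_p0 (by decide +kernel)
theorem tr_m2_1 : Tr (PP ^ 1 * RR ^ 1) [0, 1, -4, 2, 8, -5, -4, -10] := tr_PP_p1.mul tr_RR_p1 (by decide +kernel)
theorem tr_m2_2 : Tr (PP ^ 0 * RR ^ 2) [0, 0, 1, 0, 0, 0, 0, 0] := tr_PP_p0.mul tr_RR_p2 (by decide +kernel)
theorem tr_m4_0 : Tr (PP ^ 4 * RR ^ 0) [1, -16, 104, -320, 260, 1248, -3712, 1664] := tr_PP_p4.mul tr_RR_p0 (by decide +kernel)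
theorem tr_m4_1 : Tr (PP ^ 3 * RR ^ 1) [0, 1, -12, 54, -88, -99, 540, -418] := tr_PP_p3.mul tr_RR_p1 (by decide +kernel)
theorem tr_m4_2 : Tr (PP ^ 2 * RR ^ 2) [0, 0, 1, -8, 20, 0, -70, 64] := tr_PP_p2.mul tr_RR_p2 (by decide +kernel)
theorem tr_m4_3 : Tr (PP ^ 1 * RR ^ 3) [0, 0, 0, 1, -4, 2, 8, -5] := tr_PP_p1.mul tr_RR_p3 (by decide +kernel)
theorem tr_m4_4 : Tr (PP ^ 0 * RR ^ 4) [0, 0, 0, 0, 1, 0, 0, 0] := tr_PP_p0.mul tr_RR_p4 (by decide +kernel)
theorem tr_m6_0 : Tr (PP ^ 6 * RR ^ 0) [1, -24, 252, -1472, 4830, -6048, -16744, 84480] := tr_PP_p6.mul tr_RR_p0 (by decide +kernel)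
theorem tr_m6_1 : Tr (PP ^ 5 * RR ^ 1) [0, 1, -20, 170, -760, 1615, 476, -11210] := tr_PP_p5.mul tr_RR_p1 (by decide +kernel)
theorem tr_m6_2 : Tr (PP ^ 4 * RR ^ 2) [0, 0, 1, -16, 104, -320, 260, 1248] := tr_PP_p4.mul tr_RR_p2 (by decide +kernel)
theorem tr_m6_3 : Tr (PP ^ 3 * RR ^ 3) [0, 0, 0, 1, -12, 54, -88, -99] := tr_PP_p3.mul tr_RR_p3 (by decide +kernel)
theorem tr_m6_4 : Tr (PP ^ 2 * RR ^ 4) [0, 0, 0, 0, 1, -8, 20, 0] := tr_PP_p2.mul tr_RR_p4 (by decide +kernel)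
theorem tr_m6_5 : Tr (PP ^ 1 * RR ^ 5) [0, 0, 0, 0, 0, 1, -4, 2] := tr_PP_p1.mul tr_RR_p5 (by decide +kernel)
theorem tr_m6_6 : Tr (PP ^ 0 * RR ^ 6) [0, 0, 0, 0, 0, 0, 1, 0] := tr_PP_p0.mul tr_RR_p6 (by decide +kernel)

theorem tr_n00 : Tr (PP ^ 6 * evL n00) [32256, -40988160, -891869184, -28108085760, -202155291648, -942986824704, -2438026956288, -4682516166144] := by
  refine (((((((tr_m6_0.smul (32256) rfl).add (tr_m6_1.smul (-40214016) rfl) rfl).add (tr_m6_2.smul (-1704278016) rfl) rfl).add (tr_m6_3.smul (-48492670464) rfl) rfl).add (tr_m6_4.smul (-637540872192) rfl) rfl).add (tr_m6_5.smul (-3904937842176) rfl) rfl).add (tr_m6_6.smul (-9111521631744) rfl) (by decide +kernel)).congr ?_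
  have := PP_ne
  simp only [n00, evL_cons, evL_nil, t_eq]
  field_simp
  push_cast
  ring

theorem tr_n01 : Tr (PP ^ 6 * evL n01) [-1437696, -778457088, -15703621632, -235017400320, -1413594243072, -5497183936512, -14845620916224, -29796502966272] := by
  refine (((((((tr_m6_0.smul (-1437696) rfl).add (tr_m6_1.smul (-812961792) rfl) rfl).add (tr_m6_2.smul (-31600558080) rfl) rfl).add (tr_m6_3.smul (-604539113472) rfl) rfl).add (tr_m6_4.smul (-5992512454656) rfl) rfl).add (tr_m6_5.smul (-29600111923200) rfl) rfl).add (tr_m6_6.smul (-58016219369472) rfl) (by decide +kernel)).congr ?_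
  have := PP_ne
  simp only [n01, evL_cons, evL_nil, t_eq]
  field_simp
  push_cast
  ring

theorem tr_n02 : Tr (PP ^ 4 * evL n02) [13271040, -1990656000, -33854423040, -157500702720, -493589790720, -827024670720, -1127905689600, -306242519040] := by
  refine (((((tr_m4_0.smul (13271040) rfl).add (tr_m4_1.smul (-1778319360) rfl) rfl).add (tr_m4_2.smul (-56574443520) rfl) rfl).add (tr_m4_3.smul (-509820272640) rfl) rfl).add (tr_m4_4.smul (-1561324584960) rfl) (by decide +kernel)).congr ?_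
  have := PP_ne
  simp only [n02, evL_cons, evL_nil, t_eq]
  field_simp
  push_cast
  ring

theorem tr_n03 : Tr (PP ^ 2 * evL n03) [63700992, 2611740672, 10638065664, 6242697216, 20511719424, -11529879552, -8918138880, -31213486080] := by
  refine (((tr_m2_0.smul (63700992) rfl).add (tr_m2_1.smul (3121348608) rfl) rfl).add (tr_m2_2.smul (21849440256) rfl) (by decide +kernel)).congr ?_
  have := PP_ne
  simp only [n03, evL_cons, evL_nil, t_eq]
  field_simp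
  push_cast
  ring

theorem tr_Wh : Tr (PP ^ 2 * W) [1, 5, 17, 26, 34, -1, 4, -130] := by
  refine (((tr_m2_0.smul (1) rfl).add (tr_m2_1.smul (13) rfl) rfl).add (tr_m2_2.smul (49) rfl) (by decide +kernel)).congr ?_
  have := PP_ne
  simp only [W, evL_cons, evL_nil, t_eq]
  field_simp
  push_cast
  ring

theorem tr_W2h : Tr (PP ^ 2 * W * (PP ^ 2 * W)) [1, 10, 59, 222, 617, 1222, 1830, 1514] := tr_Wh.mul tr_Wh (by decide +kernel)
theorem tr_n02W : Tr (PP ^ 4 * evL n02 * (PP ^ 2 * W)) [13271040, -1924300800, -43582095360, -360268922880, -1907924336640, -6920396144640, -18898080399360, -38169382256640] := tr_n02.mul tr_Wh (by decide +kernel)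
theorem tr_n03W : Tr (PP ^ 2 * evL n03 * (PP ^ 2 * W * (PP ^ 2 * W))) [63700992, 3248750592, 40513830912, 280857673728, 1329694507008, 4612843634688, 12343659724800, 25480333099008] := tr_n03.mul tr_W2h (by decide +kernel)
theorem tr_n00Y : Tr (PP ^ 6 * evL n00 * (Y * Y * Y)) [32256, -40601088, -1381017600, -42240619008, -630716986368, -6147034057728, -43474205818368, -239874085891584] := tr_n00.mul tr_Y3 (by decide +kernel)
theorem tr_n01Y : Tr (PP ^ 6 * evL n01 * (Y * Y)) [-1437696, -789958656, -21988786176, -391968681984, -4021992382464, -28472974516224, -151112293355520, -637725457649664] := tr_n01.mul tr_Y2 (by decide +kernel)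
theorem tr_n02Y : Tr (PP ^ 4 * evL n02 * (PP ^ 2 * W) * Y) [13271040, -1871216640, -51120046080, -557476577280, -3902402396160, -19626196008960, -76504904663040, -238559060459520] := tr_n02W.mul tr_Y (by decide +kernel)

theorem tr_f21 : Tr (PP ^ 5 * φ) [1, -21, 189, -910, 2205, -378, -13321, 33345] := tr_PP_p5.mul tr_φ (by decide +kernel)
theorem tr_f72 : Tr (φ7 * φ7 * φ7) [1, 0, 0, 0, 0, 0, 0, -3] := tr_φ72.mul tr_φ7 (by decide +kernel)
theorem tr_fac : Tr (PP ^ 5 * φ * (φ7 * φ7 * φ7) * (Y * Y * Y)) [1, -9, 21, -6, 237, -1362, 1279, 582] :=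
  (tr_f21.mul tr_f72 rfl).mul tr_Y3 (by decide +kernel)

/-- the difference -/
def uv (r : Fin 4) : Fin 4 → K := fun j => 26542080 * lv r j - RR4 (zv r) j

theorem Sys2.smul_sub {ρ : K} {x y : Fin 4 → K} (hx : Sys2 ρ x) (hy : Sys2 ρ y) :
    Sys2 ρ (fun j => 26542080 * x j - y j) := by
  obtain ⟨h0, h1, h2, h3⟩ := hx
  obtain ⟨k0, k1, k2, k3⟩ := hy
  constructor
  · simp only [map_sub, D_mul, D_ofNat']
    linear_combination 26542080 * h0 - k0
  · simp only [map_sub, D_mul, D_ofNat']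
    linear_combination 26542080 * h1 - k1
  · simp only [map_sub, D_mul, D_ofNat']
    linear_combination 26542080 * h2 - k2
  · simp only [map_sub, D_mul, D_ofNat']
    linear_combination 26542080 * h3 - k3

theorem uv_sys (r : Fin 4) : Sys2 (rr r) (uv r) := (lv_sys r).smul_sub (RR4_sys (zv_sys r))

theorem tr_q0 : Tr (qq ^ 6) [0, 0, 0, 0, 0, 0, 1, 0] := (((tr_qq.mul tr_qq rfl).mul tr_qq rfl).mul ((tr_qq.mul tr_qq rfl).mul tr_qq rfl) (by decide +kernel)).congr (by ring)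

theorem tr_u0 : Tr (Y ^ 3 * PP ^ 6 * uv 0 0) [0, 0, 0, 0, 0, 0, 0, 0] := by
  refine Tr.of_smul (a := [0, 0, 0, 0, 0, 0, 0, 0]) 13824 (by norm_num) ?_ rfl
  refine (((((((tr_fac.mul tr_sv0_3.V rfl).mul tr_q0 rfl).smul (-366917713920) rfl).add
    ((tr_n00Y.mul tr_S0_0 rfl).smul (-13824) rfl) rfl).add
    ((tr_n01Y.mul tr_S1_0 rfl).smul (-576) rfl) rfl).add
    ((tr_n02Y.mul tr_S2_0 rfl).smul (-24) rfl) rfl).add
    ((tr_n03W.mul tr_S3_0 rfl).smul (-1) rfl) (by decide +kernel)).congr ?_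
  have hP := PP_ne
  have hφ := φ_ne
  have hY := Y_ne
  have hW := W_ne
  have hPP : PP = φ ^ 4 := rfl
  simp only [uv, lv, RR4, zv, Sv, Cr, rf, Matrix.cons_val, Fin.isValue]
  push_cast
  rw [hPP]
  field_simp
  ring

theorem tr_q1 : Tr (qq ^ 3) [0, 0, 0, 1, 0, 0, 0, 0] := ((tr_qq.mul tr_qq rfl).mul tr_qq (by decide +kernel)).congr (by ring)

theorem tr_u1 : Tr (Y ^ 3 * PP ^ 6 * uv 1 0) [0, 0, 0, 0, 0, 0, 0, 0] := by
  refine Tr.of_smul (a := [0, 0, 0, 0, 0, 0, 0, 0]) 13824 (by norm_num) ?_ rfl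
  refine (((((((tr_fac.mul tr_sv0_2.V rfl).mul tr_q1 rfl).smul (366917713920) rfl).add
    ((tr_n00Y.mul tr_S0_1 rfl).smul (-13824) rfl) rfl).add
    ((tr_n01Y.mul tr_S1_1 rfl).smul (-576) rfl) rfl).add
    ((tr_n02Y.mul tr_S2_1 rfl).smul (-24) rfl) rfl).add
    ((tr_n03W.mul tr_S3_1 rfl).smul (-1) rfl) (by decide +kernel)).congr ?_
  have hP := PP_ne
  have hφ := φ_ne
  have hY := Y_ne
  have hW := W_ne
  have hPP : PP = φ ^ 4 := rfl
  simp only [uv, lv, RR4, zv, Sv, Cr, rf, Matrix.cons_val, Fin.isValue]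
  push_cast
  rw [hPP]
  field_simp
  ring

theorem tr_q2 : Tr (qq ^ 1) [0, 1, 0, 0, 0, 0, 0, 0] := ⟨by rw [pow_one]; exact tr_qq.1, fun i hi => by rw [pow_one, tr_qq.2 i hi]; interval_cases i <;> simp⟩

theorem tr_u2 : Tr (Y ^ 3 * PP ^ 6 * uv 2 0) [0, 0, 0, 0, 0, 0, 0, 0] := by
  refine Tr.of_smul (a := [0, 0, 0, 0, 0, 0, 0, 0]) 13824 (by norm_num) ?_ rfl
  refine (((((((tr_fac.mul tr_sv0_1.V rfl).mul tr_q2 rfl).smul (-366917713920) rfl).add
    ((tr_n00Y.mul tr_S0_2 rfl).smul (-13824) rfl) rfl).add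
    ((tr_n01Y.mul tr_S1_2 rfl).smul (-576) rfl) rfl).add
    ((tr_n02Y.mul tr_S2_2 rfl).smul (-24) rfl) rfl).add
    ((tr_n03W.mul tr_S3_2 rfl).smul (-1) rfl) (by decide +kernel)).congr ?_
  have hP := PP_ne
  have hφ := φ_ne
  have hY := Y_ne
  have hW := W_ne
  have hPP : PP = φ ^ 4 := rfl
  simp only [uv, lv, RR4, zv, Sv, Cr, rf, Matrix.cons_val, Fin.isValue]
  push_cast
  rw [hPP]
  field_simp
  ring

theorem tr_q3 : Tr (qq ^ 0) [1, 0, 0, 0, 0, 0, 0, 0] := tr_one'.congr (by simp)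

theorem tr_u3 : Tr (Y ^ 3 * PP ^ 6 * uv 3 0) [0, 0, 0, 0, 0, 0, 0, 0] := by
  refine Tr.of_smul (a := [0, 0, 0, 0, 0, 0, 0, 0]) 13824 (by norm_num) ?_ rfl
  refine (((((((tr_fac.mul tr_sv0_0.V rfl).mul tr_q3 rfl).smul (366917713920) rfl).add
    ((tr_n00Y.mul tr_S0_3 rfl).smul (-13824) rfl) rfl).add
    ((tr_n01Y.mul tr_S1_3 rfl).smul (-576) rfl) rfl).add
    ((tr_n02Y.mul tr_S2_3 rfl).smul (-24) rfl) rfl).add
    ((tr_n03W.mul tr_S3_3 rfl).smul (-1) rfl) (by decide +kernel)).congr ?_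
  have hP := PP_ne
  have hφ := φ_ne
  have hY := Y_ne
  have hW := W_ne
  have hPP : PP = φ ^ 4 := rfl
  simp only [uv, lv, RR4, zv, Sv, Cr, rf, Matrix.cons_val, Fin.isValue]
  push_cast
  rw [hPP]
  field_simp
  ring


theorem tr_u (r : Fin 4) : Tr (Y ^ 3 * PP ^ 6 * uv r 0) [0, 0, 0, 0, 0, 0, 0, 0] := by
  fin_cases r
  · exact tr_u0
  · exact tr_u1
  · exact tr_u2
  · exact tr_u3

/-- the matrix of the system, times `W` -/
def Λs (ρ : K) : Fin 4 → Fin 4 → K := ![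
  ![W * (E2 / 24 - ρ + 3 / 4 * Y) + Y * (W / 4), Y * (7 * W), 0, 0],
  ![0, W * (E2 / 24 - ρ + 3 / 4 * Y) + Y * (-dd / 6 + 5 / 4 * W), Y * 7, 0],
  ![0, 0, W * (E2 / 24 - ρ + 3 / 4 * Y) + Y * (-dd / 12 + 5 / 2 * W), Y * 7],
  ![Y * (833 / 331776 * W * pb ^ 2), Y * (-77 / 864 * W * pr7), Y * (203 / 288 * W * pb),
    W * (E2 / 24 - ρ + 3 / 4 * Y) + Y * (15 / 4 * W)]]

/-- its constant terms -/
def Ls (ρ : ℚ) : Fin 4 → Fin 4 → ℚ := ![
  ![1 / 24 - ρ + 3 / 4 + 1 / 4, 7, 0, 0],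
  ![0, 1 / 24 - ρ + 3 / 4 + (1 / 6 + 5 / 4), 7, 0],
  ![0, 0, 1 / 24 - ρ + 3 / 4 + (1 / 12 + 5 / 2), 7],
  ![833 / 331776, -77 / 864, 203 / 288, 1 / 24 - ρ + 3 / 4 + 15 / 4]]

theorem lead_q (a b : ℕ) [a.AtLeastTwo] [b.AtLeastTwo] :
    Lead ((OfNat.ofNat a : K) / (OfNat.ofNat b : K)) ((OfNat.ofNat a : ℚ) / (OfNat.ofNat b : ℚ)) :=
  (lead_ofNat a).div (lead_ofNat b) (OfNat.ofNat_ne_zero b)

theorem lead_Λs {ρ : K} {ρ' : ℚ} (hρ : Lead ρ ρ') (i j : Fin 4) : Lead (Λs ρ i j / W) (Ls ρ' i j) := by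
  have b0 : Lead (W * (E2 / 24 - ρ + 3 / 4 * Y)) (1 * (1 / 24 - ρ' + 3 / 4 * 1)) :=
    lead_W.mul (((lead_E2.div (lead_ofNat 24) (by norm_num)).sub hρ).add ((lead_q 3 4).mul lead_Y))
  fin_cases i <;> fin_cases j
  · exact ((b0.add (lead_Y.mul (lead_W.div (lead_ofNat 4) (by norm_num)))).div lead_W one_ne_zero).cast
      (by norm_num [Ls])
  · exact ((lead_Y.mul ((lead_ofNat 7).mul lead_W)).div lead_W one_ne_zero).cast (by norm_num [Ls])
  · exact (lead_zero.div lead_W one_ne_zero).cast (by norm_num [Ls])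
  · exact (lead_zero.div lead_W one_ne_zero).cast (by norm_num [Ls])
  · exact (lead_zero.div lead_W one_ne_zero).cast (by norm_num [Ls])
  · exact ((b0.add (lead_Y.mul ((lead_dd.neg.div (lead_ofNat 6) (by norm_num)).add
      ((lead_q 5 4).mul lead_W)))).div lead_W one_ne_zero).cast (by norm_num [Ls]; try ring)
  · exact ((lead_Y.mul (lead_ofNat 7)).div lead_W one_ne_zero).cast (by norm_num [Ls])
  · exact (lead_zero.div lead_W one_ne_zero).cast (by norm_num [Ls])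
  · exact (lead_zero.div lead_W one_ne_zero).cast (by norm_num [Ls])
  · exact (lead_zero.div lead_W one_ne_zero).cast (by norm_num [Ls])
  · exact ((b0.add (lead_Y.mul ((lead_dd.neg.div (lead_ofNat 12) (by norm_num)).add
      ((lead_q 5 2).mul lead_W)))).div lead_W one_ne_zero).cast (by norm_num [Ls]; try ring)
  · exact ((lead_Y.mul (lead_ofNat 7)).div lead_W one_ne_zero).cast (by norm_num [Ls])
  · exact ((lead_Y.mul (((lead_q 833 331776).mul lead_W).mul (lead_pb.pow 2))).div lead_W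
      one_ne_zero).cast (by norm_num [Ls])
  · exact ((lead_Y.mul ((((lead_ofNat 77).neg.div (lead_ofNat 864) (by norm_num)).mul lead_W).mul lead_pr7)).div lead_W
      one_ne_zero).cast (by norm_num [Ls])
  · exact ((lead_Y.mul (((lead_q 203 288).mul lead_W).mul lead_pb)).div lead_W
      one_ne_zero).cast (by norm_num [Ls])
  · exact ((b0.add (lead_Y.mul ((lead_q 15 4).mul lead_W))).div lead_W one_ne_zero).cast
      (by norm_num [Ls])

theorem uv_zero (r : Fin 4) (j : Fin 4) : uv r j = 0 := by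
  obtain ⟨ρ', hρ, h0, h9⟩ : ∃ ρ' : ℚ, Lead (rr r) ρ' ∧ 0 ≤ ρ' ∧ ρ' ≤ 3 / 4 := by
    fin_cases r
    · exact ⟨0, lead_zero, le_rfl, by norm_num⟩
    · exact ⟨1 / 12, lead_one.div (lead_ofNat 12) (by norm_num), by norm_num, by norm_num⟩
    · exact ⟨4 / 12, lead_q 4 12, by norm_num, by norm_num⟩
    · exact ⟨9 / 12, lead_q 9 12, by norm_num, by norm_num⟩
  revert j
  refine ode_uniq (uv r) (fun i j => Λs (rr r) i j / W) (fun i j => (lead_Λs hρ i j).1)
    (fun i => ?_) (fun e hlow he => ?_)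
  · have hW := W_ne
    obtain ⟨h0, h1, h2, h3⟩ := uv_sys r
    have key : W * D (uv r i) = ∑ j, Λs (rr r) i j * uv r j := by
      rw [Fin.sum_univ_four]
      fin_cases i
      · simp only [Λs, Matrix.cons_val, Fin.zero_eta, Fin.isValue]
        linear_combination h0
      · simp only [Λs, Matrix.cons_val, Fin.mk_one, Fin.isValue]
        linear_combination h1
      · simp only [Λs, Matrix.cons_val, Fin.reduceFinMk, Fin.isValue]
        linear_combination h2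
      · simp only [Λs, Matrix.cons_val, Fin.reduceFinMk, Fin.isValue]
        linear_combination h3
    have h2 : D (uv r i) = (∑ j, Λs (rr r) i j * uv r j) / W := by
      rw [← key]
      field_simp
    rw [h2, Finset.sum_div]
    exact Finset.sum_congr rfl fun j _ => by ring
  · simp only [fun i j => (lead_Λs hρ i j).2, Fin.sum_univ_four] at he
    have e0 := he 0
    have e1 := he 1
    have e2 := he 2
    have e3 := he 3
    simp only [Ls, Matrix.cons_val, Fin.isValue] at e0 e1 e2 e3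
    have z0 : (uv r 0).coeff e = 0 := by
      rcases lt_or_ge e 8 with h8 | h8
      · refine coeff_zero_of_tr (((lead_Y.pow 3).mul (lead_PP.pow 6)).cast (by norm_num)) ?_ h8 (hlow 0)
        exact tr_u r
      · have he8 : (8 : ℚ) ≤ (e : ℚ) := by exact_mod_cast h8
        generalize (uv r 0).coeff e = x0 at e0 e1 e2 e3 ⊢
        generalize (uv r 1).coeff e = x1 at e0 e1 e2 e3 ⊢
        generalize (uv r 2).coeff e = x2 at e0 e1 e2 e3 ⊢
        generalize (uv r 3).coeff e = x3 at e0 e1 e2 e3 ⊢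
        obtain ⟨x, hx⟩ : ∃ x : ℚ, x = (e : ℚ) - 19 / 24 + ρ' := ⟨_, rfl⟩
        have hx6 : 6 < x := by rw [hx]; linarith
        have f1 : x1 = (x - 1 / 4) / 7 * x0 := by rw [hx]; linear_combination (-1 / 7) * e0
        have f2 : x2 = (x - 17 / 12) / 7 * x1 := by rw [hx]; linear_combination (-1 / 7) * e1
        have f3 : x3 = (x - 31 / 12) / 7 * x2 := by rw [hx]; linear_combination (-1 / 7) * e2
        have f4 : (x - 15 / 4) * x3 = 833 / 331776 * x0 + -77 / 864 * x1 + 203 / 288 * x2 := by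
          rw [hx]; linear_combination e3
        rw [f3, f2, f1] at f4
        have f5 : (x + 1 / 24) * (x - 13 / 24) * (x - 55 / 24) * (x - 125 / 24) * x0 = 0 := by
          linear_combination 343 * f4
        have g1 : x + 1 / 24 ≠ 0 := by linarith
        have g2 : x - 13 / 24 ≠ 0 := by linarith
        have g3 : x - 55 / 24 ≠ 0 := by linarith
        have g4 : x - 125 / 24 ≠ 0 := by linarith
        exact (mul_eq_zero.1 f5).resolve_left (mul_ne_zero (mul_ne_zero (mul_ne_zero g1 g2) g3) g4)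
    have z1 : (uv r 1).coeff e = 0 := by
      rw [z0] at e0; linear_combination (-1 / 7) * e0
    have z2 : (uv r 2).coeff e = 0 := by
      rw [z1] at e1; linear_combination (-1 / 7) * e1
    have z3 : (uv r 3).coeff e = 0 := by
      rw [z2] at e2; linear_combination (-1 / 7) * e2
    intro i
    fin_cases i
    · exact z0
    · exact z1
    · exact z2
    · exact z3

end

end Pool.Agent.H47.Fad
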