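import Pool.Agent.H47.Fad.Ktab
import Pool.Agent.H47.Fad.Mu2

/-!
# The polynomials `U(R_j v^m)`
-/

set_option autoImplicit false

namespace Pool.Agent.H47.Fad

open Polynomial

noncomputable section

/-- polynomial with given coefficients -/
def pl (l : List ℤ) : ℤ[X] := l.foldr (fun c p => C c + X * p) 0

@[simp] theorem pl_nil : pl [] = 0 := rfl
@[simp] theorem pl_cons (c : ℤ) (l : List ℤ) : pl (c :: l) = C c + X * pl l := rfl

theorem coeff_pl (l : List ℤ) (b : ℕ) : (pl l).coeff b = l.getD b 0 := by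
  induction l generalizing b with
  | nil => simp
  | cons c l ih =>
    rw [pl_cons, coeff_add]
    rcases b with _ | b
    · simp
    · rw [coeff_C_succ, coeff_X_mul, ih]
      simp

/-- evaluation at the Hauptmodul -/
def ev : ℤ[X] →+* K := Polynomial.eval₂RingHom (Int.castRingHom K) t

theorem ev_C (c : ℤ) : ev (C c) = (c : K) := by
  rw [ev, coe_eval₂RingHom, eval₂_C, eq_intCast]

theorem ev_X : ev X = t := by
  rw [ev, coe_eval₂RingHom, eval₂_X]

theorem ev_pl (l : List ℤ) : ev (pl l) = evL l := by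
  induction l with
  | nil => rw [pl_nil, map_zero, evL_nil]
  | cons c l ih => rw [pl_cons, map_add, map_mul, ih, ev_C, ev_X, evL_cons]

/-- initial values -/
def giL : List (List (List ℤ)) := [
  [[1],
   [-1],
   [1],
   [0, 7, 49],
   [0, 10, 441, 4802, 16807],
   [0, 3, 798, 29155, 403368, 2470629, 5764801],
   [0, 0, 574, 60368, 2028845, 32000528, 265180846, 1129900996, 1977326743]],
  [[-7],
   [7],
   [1],
   [0, 147, 2401],
   [0, 70, 9261, 168070, 823543],
   [0, 7, 9310, 612255, 12235496, 98001617, 282475249],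
   [0, 0, 4018, 845152, 42605745, 896014784, 9281329610, 47455841832, 96889010407]],
  [[0, 0, 2401],
   [8, 0, -2401],
   [1, 245, 2058],
   [0, -56, -343],
   [0, 0, 49],
   [0, -2, -49],
   [0, 0, -7]],
  [[260, 0, 0, 0, -823543],
   [90, -980, -30870, 0, 823543],
   [1, -490, -21609, -235298, -705894],
   [0, 728, 11466, 62426, 117649],
   [0, -88, 0, 0, -16807],
   [0, -11, -77, 3773, 16807],
   [0, 0, 0, 0, 2401]]]

/-- initial values -/
def gi (j : Fin 4) (s : ℕ) : List ℤ := (giL.getD (j : ℕ) []).getD s []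

/-- the polynomials -/
def ge (j : Fin 4) : ℕ → ℤ[X]
  | 0 => pl (gi j 0)
  | 1 => pl (gi j 1)
  | 2 => pl (gi j 2)
  | 3 => pl (gi j 3)
  | 4 => pl (gi j 4)
  | 5 => pl (gi j 5)
  | 6 => pl (gi j 6)
  | s + 7 => X ^ 2 * (ge j s + C 7 * ge j (s + 1) + C 21 * ge j (s + 2) + C 49 * ge j (s + 3) +
      C 147 * ge j (s + 4) + C 343 * ge j (s + 5) + C 343 * ge j (s + 6)) +
      X ^ 1 * (C 7 * ge j (s + 4) + C 35 * ge j (s + 5) + C 49 * ge j (s + 6))

theorem ge_low (j : Fin 4) {s : ℕ} (hs : s < 7) : ge j s = pl (gi j s) := by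
  interval_cases s <;> rw [ge]

theorem ge_rec (j : Fin 4) (s : ℕ) : ge j (s + 7) =
    X ^ 2 * (ge j s + C 7 * ge j (s + 1) + C 21 * ge j (s + 2) + C 49 * ge j (s + 3) +
      C 147 * ge j (s + 4) + C 343 * ge j (s + 5) + C 343 * ge j (s + 6)) +
      X ^ 1 * (C 7 * ge j (s + 4) + C 35 * ge j (s + 5) + C 49 * ge j (s + 6)) := by
  rw [ge]

theorem ge_coeff (j : Fin 4) (s b : ℕ) : (ge j (s + 7)).coeff b =
    (if 2 ≤ b then (ge j s).coeff (b - 2) + 7 * (ge j (s + 1)).coeff (b - 2) +
      21 * (ge j (s + 2)).coeff (b - 2) + 49 * (ge j (s + 3)).coeff (b - 2) +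
      147 * (ge j (s + 4)).coeff (b - 2) + 343 * (ge j (s + 5)).coeff (b - 2) +
      343 * (ge j (s + 6)).coeff (b - 2) else 0) +
    (if 1 ≤ b then 7 * (ge j (s + 4)).coeff (b - 1) + 35 * (ge j (s + 5)).coeff (b - 1) +
      49 * (ge j (s + 6)).coeff (b - 1) else 0) := by
  rw [ge_rec, coeff_add, coeff_X_pow_mul', coeff_X_pow_mul']
  simp only [coeff_add, coeff_C_mul]

/-- low coefficients vanish -/
theorem ge_zero (j : Fin 4) (s : ℕ) : ∀ b : ℕ, 7 * b + 4 < 2 * s → (ge j s).coeff b = 0 := by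
  induction s using Nat.strong_induction_on with
  | _ s ih =>
    intro b hb
    rcases lt_or_ge s 7 with hs | hs
    · rw [ge_low j hs, coeff_pl]
      have h : ∀ j : Fin 4, ∀ s : ℕ, s < 7 → ∀ b : ℕ, b < 2 → 7 * b + 4 < 2 * s →
          (gi j s).getD b 0 = 0 := by decide +kernel
      exact h j s hs b (by omega) hb
    · obtain ⟨s, rfl⟩ : ∃ s', s = s' + 7 := ⟨s - 7, by omega⟩
      rw [ge_coeff]
      have e1 : 2 ≤ b → (ge j s).coeff (b - 2) + 7 * (ge j (s + 1)).coeff (b - 2) +
          21 * (ge j (s + 2)).coeff (b - 2) + 49 * (ge j (s + 3)).coeff (b - 2) +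
          147 * (ge j (s + 4)).coeff (b - 2) + 343 * (ge j (s + 5)).coeff (b - 2) +
          343 * (ge j (s + 6)).coeff (b - 2) = 0 := fun h => by
        rw [ih s (by omega) _ (by omega), ih (s + 1) (by omega) _ (by omega),
          ih (s + 2) (by omega) _ (by omega), ih (s + 3) (by omega) _ (by omega),
          ih (s + 4) (by omega) _ (by omega), ih (s + 5) (by omega) _ (by omega),
          ih (s + 6) (by omega) _ (by omega)]
        norm_num
      have e2 : 1 ≤ b → 7 * (ge j (s + 4)).coeff (b - 1) + 35 * (ge j (s + 5)).coeff (b - 1) +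
          49 * (ge j (s + 6)).coeff (b - 1) = 0 := fun h => by
        rw [ih (s + 4) (by omega) _ (by omega), ih (s + 5) (by omega) _ (by omega),
          ih (s + 6) (by omega) _ (by omega)]
        norm_num
      split_ifs with h1 h2 h2
      · rw [e1 h1, e2 h2]; norm_num
      · omega
      · rw [e2 h2]; norm_num
      · norm_num

theorem dvd_mul_aux {a x : ℤ} {e v : ℕ} (ha : (7 : ℤ) ^ v ∣ a)
    (hx : v < e → (7 : ℤ) ^ (e - v) ∣ x) : (7 : ℤ) ^ e ∣ a * x := by
  rcases lt_or_ge v e with h | h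
  · have h1 := mul_dvd_mul ha (hx h)
    rw [← pow_add] at h1
    exact (pow_dvd_pow 7 (by omega)).trans h1
  · exact ((pow_dvd_pow 7 h).trans ha).mul_right x

/-- the valuation bound -/
theorem ge_val (j : Fin 4) (s : ℕ) : ∀ b e : ℕ, 4 * e + 2 * s < 7 * b + 4 →
    (7 : ℤ) ^ e ∣ (ge j s).coeff b := by
  induction s using Nat.strong_induction_on with
  | _ s ih =>
    intro b e hb
    rcases lt_or_ge s 7 with hs | hs
    · rw [ge_low j hs, coeff_pl]
      have h : ∀ j : Fin 4, ∀ s : ℕ, s < 7 → ∀ b : ℕ, b < 9 → 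
          (7 : ℤ) ^ ((7 * b + 7 - 2 * s) / 4 - 0) ∣ 7 * (gi j s).getD b 0 := by decide +kernel
      have hl : ∀ j : Fin 4, ∀ s : ℕ, s < 7 → (gi j s).length < 10 := by decide +kernel
      rcases lt_or_ge b 9 with hb9 | hb9
      · have h1 := h j s hs b hb9
        have h2 : e + 1 ≤ (7 * b + 7 - 2 * s) / 4 - 0 := by omega
        have h3 := (pow_dvd_pow (7 : ℤ) h2).trans h1
        rw [pow_succ, mul_comm] at h3
        exact Int.dvd_of_mul_dvd_mul_left (by norm_num) h3
      · have := hl j s hs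
        rw [List.getD_eq_default _ _ (by omega)]
        exact dvd_zero _
    · obtain ⟨s, rfl⟩ : ∃ s', s = s' + 7 := ⟨s - 7, by omega⟩
      rw [ge_coeff]
      have e1 : 2 ≤ b → (7 : ℤ) ^ e ∣ (ge j s).coeff (b - 2) + 7 * (ge j (s + 1)).coeff (b - 2) +
          21 * (ge j (s + 2)).coeff (b - 2) + 49 * (ge j (s + 3)).coeff (b - 2) +
          147 * (ge j (s + 4)).coeff (b - 2) + 343 * (ge j (s + 5)).coeff (b - 2) +
          343 * (ge j (s + 6)).coeff (b - 2) := fun h => by
        refine dvd_add (dvd_add (dvd_add (dvd_add (dvd_add (dvd_add ?_ ?_) ?_) ?_) ?_) ?_) ?_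
        · exact ih s (by omega) _ _ (by omega)
        · exact dvd_mul_aux (v := 1) (by norm_num) (fun hv => ih (s + 1) (by omega) _ _ (by omega))
        · exact dvd_mul_aux (v := 1) (by norm_num) (fun hv => ih (s + 2) (by omega) _ _ (by omega))
        · exact dvd_mul_aux (v := 2) (by norm_num) (fun hv => ih (s + 3) (by omega) _ _ (by omega))
        · exact dvd_mul_aux (v := 2) (by norm_num) (fun hv => ih (s + 4) (by omega) _ _ (by omega))
        · exact dvd_mul_aux (v := 3) (by norm_num) (fun hv => ih (s + 5) (by omega) _ _ (by omega))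
        · exact dvd_mul_aux (v := 3) (by norm_num) (fun hv => ih (s + 6) (by omega) _ _ (by omega))
      have e2 : 1 ≤ b → (7 : ℤ) ^ e ∣ 7 * (ge j (s + 4)).coeff (b - 1) +
          35 * (ge j (s + 5)).coeff (b - 1) + 49 * (ge j (s + 6)).coeff (b - 1) := fun h => by
        refine dvd_add (dvd_add ?_ ?_) ?_
        · exact dvd_mul_aux (v := 1) (by norm_num) (fun hv => ih (s + 4) (by omega) _ _ (by omega))
        · exact dvd_mul_aux (v := 1) (by norm_num) (fun hv => ih (s + 5) (by omega) _ _ (by omega))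
        · exact dvd_mul_aux (v := 2) (by norm_num) (fun hv => ih (s + 6) (by omega) _ _ (by omega))
      split_ifs with h1 h2 h2
      · exact dvd_add (e1 h1) (e2 h2)
      · omega
      · exact dvd_add (dvd_zero _) (e2 h2)
      · exact dvd_add (dvd_zero _) (dvd_zero _)

/-- the four ratios -/
def Rj (j : Fin 4) : K := (![1, R1, R2, R3] : Fin 4 → K) j

theorem ge_init (j : Fin 4) (s : ℕ) (hs : s < 7) : ev (pl (gi j s)) = Gs (Rj j) ((s : ℤ) - 2) := by
  rw [ev_pl]
  fin_cases j
  · interval_cases s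
    · change evL [1] = g0 (((0 : ℕ) : ℤ) - 2)
      rw [show ((((0 : ℕ) : ℤ)) - 2) = (-2) by norm_num, w2]
      simp only [evL_cons, evL_nil]
      push_cast
      ring
    · change evL [-1] = g0 (((1 : ℕ) : ℤ) - 2)
      rw [show ((((1 : ℕ) : ℤ)) - 2) = (-1) by norm_num, w1]
      simp only [evL_cons, evL_nil]
      push_cast
      ring
    · change evL [1] = g0 (((2 : ℕ) : ℤ) - 2)
      rw [show ((((2 : ℕ) : ℤ)) - 2) = 0 by norm_num, w0]
      simp only [evL_cons, evL_nil]
      push_cast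
      ring
    · change evL [0, 7, 49] = g0 (((3 : ℕ) : ℤ) - 2)
      rw [show ((((3 : ℕ) : ℤ)) - 2) = 1 by norm_num, wm1]
      simp only [evL_cons, evL_nil]
      push_cast
      ring
    · change evL [0, 10, 441, 4802, 16807] = g0 (((4 : ℕ) : ℤ) - 2)
      rw [show ((((4 : ℕ) : ℤ)) - 2) = 2 by norm_num, wm2]
      simp only [evL_cons, evL_nil]
      push_cast
      ring
    · change evL [0, 3, 798, 29155, 403368, 2470629, 5764801] = g0 (((5 : ℕ) : ℤ) - 2)
      rw [show ((((5 : ℕ) : ℤ)) - 2) = 3 by norm_num, wm3]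
      simp only [evL_cons, evL_nil]
      push_cast
      ring
    · change evL [0, 0, 574, 60368, 2028845, 32000528, 265180846, 1129900996, 1977326743] = g0 (((6 : ℕ) : ℤ) - 2)
      rw [show ((((6 : ℕ) : ℤ)) - 2) = 4 by norm_num, wm4]
      simp only [evL_cons, evL_nil]
      push_cast
      ring
  · interval_cases s
    · change evL [-7] = g1 (((0 : ℕ) : ℤ) - 2)
      rw [show ((((0 : ℕ) : ℤ)) - 2) = (-2) by norm_num, j2]
      simp only [evL_cons, evL_nil]
      push_cast
      ring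
    · change evL [7] = g1 (((1 : ℕ) : ℤ) - 2)
      rw [show ((((1 : ℕ) : ℤ)) - 2) = (-1) by norm_num, j1]
      simp only [evL_cons, evL_nil]
      push_cast
      ring
    · change evL [1] = g1 (((2 : ℕ) : ℤ) - 2)
      rw [show ((((2 : ℕ) : ℤ)) - 2) = 0 by norm_num, j0]
      simp only [evL_cons, evL_nil]
      push_cast
      ring
    · change evL [0, 147, 2401] = g1 (((3 : ℕ) : ℤ) - 2)
      rw [show ((((3 : ℕ) : ℤ)) - 2) = 1 by norm_num, jm1]
      simp only [evL_cons, evL_nil]
      push_cast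
      ring
    · change evL [0, 70, 9261, 168070, 823543] = g1 (((4 : ℕ) : ℤ) - 2)
      rw [show ((((4 : ℕ) : ℤ)) - 2) = 2 by norm_num, jm2]
      simp only [evL_cons, evL_nil]
      push_cast
      ring
    · change evL [0, 7, 9310, 612255, 12235496, 98001617, 282475249] = g1 (((5 : ℕ) : ℤ) - 2)
      rw [show ((((5 : ℕ) : ℤ)) - 2) = 3 by norm_num, jm3]
      simp only [evL_cons, evL_nil]
      push_cast
      ring
    · change evL [0, 0, 4018, 845152, 42605745, 896014784, 9281329610, 47455841832, 96889010407] = g1 (((6 : ℕ) : ℤ) - 2)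
      rw [show ((((6 : ℕ) : ℤ)) - 2) = 4 by norm_num, jm4]
      simp only [evL_cons, evL_nil]
      push_cast
      ring
  · interval_cases s
    · change evL [0, 0, 2401] = g2 (((0 : ℕ) : ℤ) - 2)
      rw [show ((((0 : ℕ) : ℤ)) - 2) = (-2) by norm_num, g2_m2]
      simp only [evL_cons, evL_nil]
      push_cast
      ring
    · change evL [8, 0, -2401] = g2 (((1 : ℕ) : ℤ) - 2)
      rw [show ((((1 : ℕ) : ℤ)) - 2) = (-1) by norm_num, g2_m1]
      simp only [evL_cons, evL_nil]
      push_cast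
      ring
    · change evL [1, 245, 2058] = g2 (((2 : ℕ) : ℤ) - 2)
      rw [show ((((2 : ℕ) : ℤ)) - 2) = 0 by norm_num, g2_0]
      simp only [evL_cons, evL_nil]
      push_cast
      ring
    · change evL [0, -56, -343] = g2 (((3 : ℕ) : ℤ) - 2)
      rw [show ((((3 : ℕ) : ℤ)) - 2) = 1 by norm_num, g2_1]
      simp only [evL_cons, evL_nil]
      push_cast
      ring
    · change evL [0, 0, 49] = g2 (((4 : ℕ) : ℤ) - 2)
      rw [show ((((4 : ℕ) : ℤ)) - 2) = 2 by norm_num, g2_2]
      simp only [evL_cons, evL_nil]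
      push_cast
      ring
    · change evL [0, -2, -49] = g2 (((5 : ℕ) : ℤ) - 2)
      rw [show ((((5 : ℕ) : ℤ)) - 2) = 3 by norm_num, g2_3]
      simp only [evL_cons, evL_nil]
      push_cast
      ring
    · change evL [0, 0, -7] = g2 (((6 : ℕ) : ℤ) - 2)
      rw [show ((((6 : ℕ) : ℤ)) - 2) = 4 by norm_num, g2_4]
      simp only [evL_cons, evL_nil]
      push_cast
      ring
  · interval_cases s
    · change evL [260, 0, 0, 0, -823543] = g3 (((0 : ℕ) : ℤ) - 2)
      rw [show ((((0 : ℕ) : ℤ)) - 2) = (-2) by norm_num, g3_m2]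
      simp only [evL_cons, evL_nil]
      push_cast
      ring
    · change evL [90, -980, -30870, 0, 823543] = g3 (((1 : ℕ) : ℤ) - 2)
      rw [show ((((1 : ℕ) : ℤ)) - 2) = (-1) by norm_num, g3_m1]
      simp only [evL_cons, evL_nil]
      push_cast
      ring
    · change evL [1, -490, -21609, -235298, -705894] = g3 (((2 : ℕ) : ℤ) - 2)
      rw [show ((((2 : ℕ) : ℤ)) - 2) = 0 by norm_num, g3_0]
      simp only [evL_cons, evL_nil]
      push_cast
      ring
    · change evL [0, 728, 11466, 62426, 117649] = g3 (((3 : ℕ) : ℤ) - 2)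
      rw [show ((((3 : ℕ) : ℤ)) - 2) = 1 by norm_num, g3_1]
      simp only [evL_cons, evL_nil]
      push_cast
      ring
    · change evL [0, -88, 0, 0, -16807] = g3 (((4 : ℕ) : ℤ) - 2)
      rw [show ((((4 : ℕ) : ℤ)) - 2) = 2 by norm_num, g3_2]
      simp only [evL_cons, evL_nil]
      push_cast
      ring
    · change evL [0, -11, -77, 3773, 16807] = g3 (((5 : ℕ) : ℤ) - 2)
      rw [show ((((5 : ℕ) : ℤ)) - 2) = 3 by norm_num, g3_3]
      simp only [evL_cons, evL_nil]
      push_cast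
      ring
    · change evL [0, 0, 0, 0, 2401] = g3 (((6 : ℕ) : ℤ) - 2)
      rw [show ((((6 : ℕ) : ℤ)) - 2) = 4 by norm_num, g3_4]
      simp only [evL_cons, evL_nil]
      push_cast
      ring

theorem ev_ge (j : Fin 4) (s : ℕ) : ev (ge j s) = Gs (Rj j) ((s : ℤ) - 2) := by
  induction s using Nat.strong_induction_on with
  | _ s ih =>
    rcases lt_or_ge s 7 with hs | hs
    · rw [ge_low j hs, ge_init j s hs]
    · obtain ⟨s, rfl⟩ : ∃ s', s = s' + 7 := ⟨s - 7, by omega⟩
      have h := Gs_rec (Rj j) ((s : ℤ) - 2)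
      have i0 := ih s (by omega)
      have i1 := ih (s + 1) (by omega)
      have i2 := ih (s + 2) (by omega)
      have i3 := ih (s + 3) (by omega)
      have i4 := ih (s + 4) (by omega)
      have i5 := ih (s + 5) (by omega)
      have i6 := ih (s + 6) (by omega)
      push_cast at i1 i2 i3 i4 i5 i6 ⊢
      rw [show (s : ℤ) + 1 - 2 = s - 2 + 1 by ring] at i1
      rw [show (s : ℤ) + 2 - 2 = s - 2 + 2 by ring] at i2
      rw [show (s : ℤ) + 3 - 2 = s - 2 + 3 by ring] at i3
      rw [show (s : ℤ) + 4 - 2 = s - 2 + 4 by ring] at i4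
      rw [show (s : ℤ) + 5 - 2 = s - 2 + 5 by ring] at i5
      rw [show (s : ℤ) + 6 - 2 = s - 2 + 6 by ring] at i6
      rw [show (s : ℤ) + 7 - 2 = s - 2 + 7 by ring, h, ← i0, ← i1, ← i2, ← i3, ← i4, ← i5, ← i6,
        ge_rec]
      simp only [map_add, map_mul, map_pow, ev_C, ev_X]
      push_cast
      ring

end

end Pool.Agent.H47.Fad
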