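import Pool.Agent.H47.Fad.Wtab

/-!
# The weight four and weight six sequences
-/

set_option autoImplicit false

namespace Pool.Agent.H47.Fad

open HahnSeries Q279.QS

noncomputable section

/-- `pa` at `T` -/
def paT : K := 1 + 245 * T + 2401 * T ^ 2
/-- `W` at `T` -/
def WT : K := 1 + 13 * T + 49 * T ^ 2

theorem V_pa : V pa = paT := by
  rw [pa, paT, T]
  simp only [map_add, map_mul, map_pow, map_one, map_ofNat]

theorem V_W : V W = WT := by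
  rw [W, WT, T]
  simp only [map_add, map_mul, map_pow, map_one, map_ofNat]

/-- weight four ratio -/
def R2 : K := (Y ^ 2 / W) / V (Y ^ 2 / W)

theorem lead_Y2W : Lead (Y ^ 2 / W) 1 := ((lead_Y.pow 2).div lead_W one_ne_zero).cast (by norm_num)

theorem V_Y2W_ne : V (Y ^ 2 / W) ≠ 0 := lead_Y2W.V.ne one_ne_zero

theorem R2_pb : R2 * pb = paT := by
  have h1 : F4 = Y ^ 2 / W * pb := by rw [F4_eq]; ring
  have h2 : F4 = V (Y ^ 2 / W) * paT := by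
    rw [F4, E4_eq, ← V_pa, ← map_mul]
    congr 1
    ring
  have h3 := V_Y2W_ne
  rw [R2, div_mul_eq_mul_div, ← h1, h2, mul_div_cancel_left₀ _ h3]

theorem R2_rel : R2 * (T ^ 2 + 5 * T * vv ^ 4 + vv ^ 8) = paT * T ^ 2 := by
  have h := R2_pb
  have h1 : T ^ 2 * pb = T ^ 2 + 5 * T * vv ^ 4 + vv ^ 8 := by
    have e1 : vv ^ 8 = (t * T) ^ 2 := by rw [tT]; ring
    rw [e1, ← tT, pb]
    ring
  rw [← h1]
  linear_combination T ^ 2 * h

theorem den_ne : T ^ 2 + 5 * T * vv ^ 4 + vv ^ 8 ≠ 0 := by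
  have h1 : T ^ 2 * pb = T ^ 2 + 5 * T * vv ^ 4 + vv ^ 8 := by
    have e1 : vv ^ 8 = (t * T) ^ 2 := by rw [tT]; ring
    rw [e1, ← tT, pb]
    ring
  rw [← h1]
  exact mul_ne_zero (pow_ne_zero _ T_ne) (lead_pb.ne one_ne_zero)

/-- the certificate polynomial -/
def Pc (T v : K) : K := 2 * v ^ 4 - 24 * v ^ 5 + 174 * v ^ 6 + 1 * T - 4 * T * v + 54 * T * v ^ 2 - 238 * T * v ^ 3 -
      5754 * T * v ^ 4 - 6860 * T * v ^ 5 - 686 * T * v ^ 6 - 826 * T ^ 2 - 2184 * T ^ 2 * v -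
      1372 * T ^ 2 * v ^ 2 - 24206 * T ^ 2 * v ^ 3 - 128282 * T ^ 2 * v ^ 4 + 17150 * T ^ 2 * v ^ 5 -
      72030 * T ^ 2 * v ^ 6 - 9947 * T ^ 3 - 686 * T ^ 3 * v + 52822 * T ^ 3 * v ^ 2 -
      216090 * T ^ 3 * v ^ 3 - 33614 * T ^ 3 * v ^ 4 + 4000066 * T ^ 3 * v ^ 5 -
      470596 * T ^ 3 * v ^ 6 + 67228 * T ^ 4 + 705894 * T ^ 4 * v + 1882384 * T ^ 4 * v ^ 2 +
      2352980 * T ^ 4 * v ^ 3 + 14823774 * T ^ 4 * v ^ 4 + 47765494 * T ^ 4 * v ^ 5 +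
      823543 * T ^ 5 + 4941258 * T ^ 5 * v + 11529602 * T ^ 5 * v ^ 2 + 23059204 * T ^ 5 * v ^ 3 +
      80707214 * T ^ 5 * v ^ 4 + 161414428 * T ^ 5 * v ^ 5

/-- the cofactor -/
def Qc (T v : K) : K := -2 * v ^ 5 + 24 * v ^ 6 - 174 * v ^ 7 + 1 * T - 11 * T * v + 110 * T * v ^ 2 - 826 * T * v ^ 3 -
      238 * T * v ^ 4 + 840 * T * v ^ 5 - 1666 * T * v ^ 6 + 686 * T * v ^ 7 - 826 * T ^ 2 +
      3598 * T ^ 2 * v - 9212 * T ^ 2 * v ^ 2 + 5194 * T ^ 2 * v ^ 3 - 6174 * T ^ 2 * v ^ 4 +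
      19208 * T ^ 2 * v ^ 5 - 43218 * T ^ 2 * v ^ 6 + 72030 * T ^ 2 * v ^ 7 - 9947 * T ^ 3 +
      68943 * T ^ 3 * v - 220892 * T ^ 3 * v ^ 2 + 369754 * T ^ 3 * v ^ 3 - 33614 * T ^ 3 * v ^ 4 +
      100842 * T ^ 3 * v ^ 5 - 235298 * T ^ 3 * v ^ 6 + 470596 * T ^ 3 * v ^ 7 +
      67228 * T ^ 4 + 235298 * T ^ 4 * v - 1176490 * T ^ 4 * v ^ 2 + 2352980 * T ^ 4 * v ^ 3 +
      823543 * T ^ 5 - 823543 * T ^ 5 * v

theorem cert (T v : K) : T * (1 + 13 * T + 49 * T ^ 2) * (1 + 245 * T + 2401 * T ^ 2) ^ 2 * v ^ 7 -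
    Pc T v * (T ^ 2 + 5 * T * v ^ 4 + v ^ 8) =
    (v ^ 7 - (T ^ 2 + 7 * T ^ 2 * v + 21 * T ^ 2 * v ^ 2 + 49 * T ^ 2 * v ^ 3 +
    (147 * T ^ 2 + 7 * T) * v ^ 4 + (343 * T ^ 2 + 35 * T) * v ^ 5 +
    (343 * T ^ 2 + 49 * T) * v ^ 6)) * Qc T v := by
  rw [Pc, Qc]
  ring

theorem R2_cert : T * WT * paT * vv ^ 7 * R2 = T ^ 2 * Pc T vv := by
  have h := cert T vv
  rw [mod_eq, sub_self, zero_mul] at h
  refine mul_right_cancel₀ den_ne ?_
  have h2 := R2_rel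
  rw [← mod_eq] at h
  have h3 : T * WT * paT * vv ^ 7 * R2 * (T ^ 2 + 5 * T * vv ^ 4 + vv ^ 8) =
      T * WT * paT * vv ^ 7 * (paT * T ^ 2) := by rw [← h2]; ring
  rw [h3, WT, paT]
  linear_combination T ^ 2 * h

/-- `U(R_2 v^m)` -/
def g2 (m : ℤ) : K := Gs R2 m

/-- coefficient of `v^0` in the certificate -/
def k0 : K := 1 * t ^ 3 - 826 * t ^ 4 - 9947 * t ^ 5 + 67228 * t ^ 6 + 823543 * t ^ 7

/-- coefficient of `v^1` in the certificate -/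
def k1 : K := -4 * t ^ 3 - 2184 * t ^ 4 - 686 * t ^ 5 + 705894 * t ^ 6 + 4941258 * t ^ 7

/-- coefficient of `v^2` in the certificate -/
def k2 : K := 54 * t ^ 3 - 1372 * t ^ 4 + 52822 * t ^ 5 + 1882384 * t ^ 6 + 11529602 * t ^ 7

/-- coefficient of `v^3` in the certificate -/
def k3 : K := -238 * t ^ 3 - 24206 * t ^ 4 - 216090 * t ^ 5 + 2352980 * t ^ 6 + 23059204 * t ^ 7

/-- coefficient of `v^4` in the certificate -/
def k4 : K := 2 * t ^ 2 - 5754 * t ^ 3 - 128282 * t ^ 4 - 33614 * t ^ 5 + 14823774 * t ^ 6 + 80707214 * t ^ 7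

/-- coefficient of `v^5` in the certificate -/
def k5 : K := -24 * t ^ 2 - 6860 * t ^ 3 + 17150 * t ^ 4 + 4000066 * t ^ 5 + 47765494 * t ^ 6 + 161414428 * t ^ 7

/-- coefficient of `v^6` in the certificate -/
def k6 : K := 174 * t ^ 2 - 686 * t ^ 3 - 72030 * t ^ 4 - 470596 * t ^ 5

theorem g2_cert (m : ℤ) : t * W * pa * g2 m = k0 * g0 (m - 7) + k1 * g0 (m - 7 + 1) + k2 * g0 (m - 7 + 2) + k3 * g0 (m - 7 + 3) + k4 * g0 (m - 7 + 4) + k5 * g0 (m - 7 + 5) + k6 * g0 (m - 7 + 6) := by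
  have e : ∀ k : ℕ, vv ^ (m - 7 + (k : ℤ)) = vv ^ (m - 7) * vv ^ k := fun k => zpow_step (m - 7) k
  have e1 := e 1
  have e2 := e 2
  have e3 := e 3
  have e4 := e 4
  have e5 := e 5
  have e6 := e 6
  have e7 := e 7
  rw [Nat.cast_one, pow_one] at e1
  rw [Nat.cast_ofNat] at e2 e3 e4 e5 e6 e7
  have e8 : m - 7 + 7 = m := by ring
  rw [e8] at e7
  have h1 : V (t * W * pa) * (R2 * vv ^ m) = V k0 * vv ^ (m - 7) + V k1 * vv ^ (m - 7 + 1) +
      V k2 * vv ^ (m - 7 + 2) + V k3 * vv ^ (m - 7 + 3) + V k4 * vv ^ (m - 7 + 4) +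
      V k5 * vv ^ (m - 7 + 5) + V k6 * vv ^ (m - 7 + 6) := by
    have h := R2_cert
    rw [Pc] at h
    rw [e1, e2, e3, e4, e5, e6, e7, map_mul, map_mul, V_t, V_W, V_pa, k0, k1, k2, k3, k4, k5, k6]
    simp only [map_add, map_sub, map_neg, map_mul, map_pow, map_ofNat, map_one, V_t]
    linear_combination vv ^ (m - 7) * h
  have h2 := congrArg U h1
  rw [U_V_mul, map_add, map_add, map_add, map_add, map_add, map_add, U_V_mul, U_V_mul, U_V_mul,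
    U_V_mul, U_V_mul, U_V_mul, U_V_mul] at h2
  simp only [g0, g2, Gs, one_mul]
  exact h2

theorem tWa_ne : t * W * pa ≠ 0 :=
  mul_ne_zero (mul_ne_zero t_ne W_ne) (lead_pa.ne one_ne_zero)

theorem g2_m2 : g2 (-2) = 2401 * t ^ 2 := by
  have ht := t_ne
  have h := g2_cert (-2)
  norm_num only [Int.reduceNeg, Int.reduceAdd, Int.reduceSub] at h
  refine mul_left_cancel₀ tWa_ne ?_
  rw [h, w9, w8, w7, w6, w5, w4, w3, k0, k1, k2, k3, k4, k5, k6, W, pa]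
  field_simp
  ring

theorem g2_m1 : g2 (-1) = 8 - 2401 * t ^ 2 := by
  have ht := t_ne
  have h := g2_cert (-1)
  norm_num only [Int.reduceNeg, Int.reduceAdd, Int.reduceSub] at h
  refine mul_left_cancel₀ tWa_ne ?_
  rw [h, w8, w7, w6, w5, w4, w3, w2, k0, k1, k2, k3, k4, k5, k6, W, pa]
  field_simp
  ring

theorem g2_0 : g2 0 = 1 + 245 * t + 2058 * t ^ 2 := by
  have ht := t_ne
  have h := g2_cert 0
  norm_num only [Int.reduceNeg, Int.reduceAdd, Int.reduceSub] at h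
  refine mul_left_cancel₀ tWa_ne ?_
  rw [h, w7, w6, w5, w4, w3, w2, w1, k0, k1, k2, k3, k4, k5, k6, W, pa]
  field_simp
  ring

theorem g2_1 : g2 1 = -56 * t - 343 * t ^ 2 := by
  have ht := t_ne
  have h := g2_cert 1
  norm_num only [Int.reduceNeg, Int.reduceAdd, Int.reduceSub] at h
  refine mul_left_cancel₀ tWa_ne ?_
  rw [h, w6, w5, w4, w3, w2, w1, w0, k0, k1, k2, k3, k4, k5, k6, W, pa]
  field_simp
  ring

theorem g2_2 : g2 2 = 49 * t ^ 2 := by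
  have ht := t_ne
  have h := g2_cert 2
  norm_num only [Int.reduceNeg, Int.reduceAdd, Int.reduceSub] at h
  refine mul_left_cancel₀ tWa_ne ?_
  rw [h, w5, w4, w3, w2, w1, w0, wm1, k0, k1, k2, k3, k4, k5, k6, W, pa]
  field_simp
  ring

theorem g2_3 : g2 3 = -2 * t - 49 * t ^ 2 := by
  have ht := t_ne
  have h := g2_cert 3
  norm_num only [Int.reduceNeg, Int.reduceAdd, Int.reduceSub] at h
  refine mul_left_cancel₀ tWa_ne ?_
  rw [h, w4, w3, w2, w1, w0, wm1, wm2, k0, k1, k2, k3, k4, k5, k6, W, pa]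
  field_simp
  ring

theorem g2_4 : g2 4 = -7 * t ^ 2 := by
  have ht := t_ne
  have h := g2_cert 4
  norm_num only [Int.reduceNeg, Int.reduceAdd, Int.reduceSub] at h
  refine mul_left_cancel₀ tWa_ne ?_
  rw [h, w3, w2, w1, w0, wm1, wm2, wm3, k0, k1, k2, k3, k4, k5, k6, W, pa]
  field_simp
  ring

/-- weight six ratio -/
def R3 : K := (Y ^ 3 / W ^ 2) / V (Y ^ 3 / W ^ 2)

/-- `U(R_3 v^m)` -/
def g3 (m : ℤ) : K := Gs R3 m

theorem R3_eq : R3 * vv ^ 14 = T ^ 4 := by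
  have hW := W_ne
  have h := Ee_vv
  have h3 := VEe_ne
  have h1 : Y ^ 3 / W ^ 2 = Ee ^ 2 := by
    rw [Y3_eq]
    field_simp
  rw [R3, h1, map_pow, div_mul_eq_mul_div, div_eq_iff (pow_ne_zero _ h3)]
  linear_combination (Ee * vv ^ 7 + V Ee * T ^ 2) * h

theorem g3_eq (m : ℤ) : g3 m = t ^ 4 * g0 (m - 14) := by
  have e7 : vv ^ m = vv ^ (m - 14) * vv ^ 14 := by
    have h := zpow_step (m - 14) 14
    rw [Nat.cast_ofNat] at h
    have e8 : m - 14 + 14 = m := by ring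
    rwa [e8] at h
  have h1 : R3 * vv ^ m = V (t ^ 4) * vv ^ (m - 14) := by
    rw [e7, map_pow, V_t]
    linear_combination vv ^ (m - 14) * R3_eq
  rw [g3, g0, Gs, Gs, h1, U_V_mul, one_mul]

theorem g3_m2 : g3 (-2) = 260 - 823543 * t ^ 4 := by
  have ht := t_ne
  have h := g3_eq (-2)
  norm_num only [Int.reduceNeg, Int.reduceAdd, Int.reduceSub] at h
  rw [h, w16]
  field_simp

theorem g3_m1 : g3 (-1) = 90 - 980 * t - 30870 * t ^ 2 + 823543 * t ^ 4 := by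
  have ht := t_ne
  have h := g3_eq (-1)
  norm_num only [Int.reduceNeg, Int.reduceAdd, Int.reduceSub] at h
  rw [h, w15]
  field_simp

theorem g3_0 : g3 0 = 1 - 490 * t - 21609 * t ^ 2 - 235298 * t ^ 3 - 705894 * t ^ 4 := by
  have ht := t_ne
  have h := g3_eq 0
  norm_num only [Int.reduceNeg, Int.reduceAdd, Int.reduceSub] at h
  rw [h, w14]
  field_simp

theorem g3_1 : g3 1 = 728 * t + 11466 * t ^ 2 + 62426 * t ^ 3 + 117649 * t ^ 4 := by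
  have ht := t_ne
  have h := g3_eq 1
  norm_num only [Int.reduceNeg, Int.reduceAdd, Int.reduceSub] at h
  rw [h, w13]
  field_simp

theorem g3_2 : g3 2 = -88 * t - 16807 * t ^ 4 := by
  have ht := t_ne
  have h := g3_eq 2
  norm_num only [Int.reduceNeg, Int.reduceAdd, Int.reduceSub] at h
  rw [h, w12]
  field_simp

theorem g3_3 : g3 3 = -11 * t - 77 * t ^ 2 + 3773 * t ^ 3 + 16807 * t ^ 4 := by
  have ht := t_ne
  have h := g3_eq 3
  norm_num only [Int.reduceNeg, Int.reduceAdd, Int.reduceSub] at h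
  rw [h, w11]
  field_simp

theorem g3_4 : g3 4 = 2401 * t ^ 4 := by
  have ht := t_ne
  have h := g3_eq 4
  norm_num only [Int.reduceNeg, Int.reduceAdd, Int.reduceSub] at h
  rw [h, w10]
  field_simp

end

end Pool.Agent.H47.Fad
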