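import Pool.Agent.H47.Fad.Rop

/-!
# The 7-adic contraction
-/

set_option autoImplicit false

namespace Pool.Agent.H47.Fad

open Polynomial

noncomputable section

/-! ### numerical facts on the matrices -/

theorem Et_int : ∀ c : ℕ, c < 2 → ∀ k j : Fin 4, ∀ i : ℕ, i < 5 → ∀ a : ℕ, a < 5 → i + a < 5 →
    (7 : ℤ) ^ wt j a ∣ 7 ^ wt k i * Et (c + 1) k i j a := by decide +kernel

theorem Et_ns : ∀ c : ℕ, c < 2 → ∀ k j : Fin 4, ∀ i : ℕ, i < 5 → ∀ a : ℕ, a < 5 → i + a < 5 →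
    1 ≤ wt k i → (7 : ℤ) ^ (wt j a + 1) ∣ 7 ^ wt k i * Et (c + 1) k i j a := by decide +kernel

theorem Et_two : ∀ k j : Fin 4, ∀ i : ℕ, i < 5 → ∀ a : ℕ, a < 5 → i + a < 5 →
    (1 ≤ a ∨ j = 1) → (7 : ℤ) ^ (wt j a + 1) ∣ 7 ^ wt k i * Et 2 k i j a := by decide +kernel

theorem Et_one : ∀ j : Fin 4, ∀ a : ℕ, a < 5 →
    (7 : ℤ) ^ (wt j a + 1) ∣ Et 1 0 0 j a - 6 * Et 1 3 0 j a ∧
    (7 : ℤ) ^ (wt j a + 1) ∣ Et 1 2 0 j a - 2 * Et 1 3 0 j a := by decide +kernel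

/-- the reduced value of `(Rop 2 w s).coeff 0` -/
def yt (s : Fin 4) : ℤ := Et 1 3 0 0 0 * Et 2 0 0 s 0 + Et 1 3 0 0 1 * Et 2 0 1 s 0 +
  (Et 1 3 0 1 0 * Et 2 1 0 s 0 + Et 1 3 0 1 1 * Et 2 1 1 s 0) +
  (Et 1 3 0 2 0 * Et 2 2 0 s 0 + Et 1 3 0 2 1 * Et 2 2 1 s 0) +
  (Et 1 3 0 3 0 * Et 2 3 0 s 0 + Et 1 3 0 3 1 * Et 2 3 1 s 0)

theorem yt_val : (6 * yt 0 + 2 * yt 2 + yt 3) % 7 = 3 := by decide +kernel

theorem dvd_of_approx {m u E E' : ℤ} (h1 : m ∣ u * (E - E')) (h2 : m ∣ u * E') : m ∣ u * E := by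
  have := dvd_add h1 h2
  rwa [mul_sub, sub_add_cancel] at this

theorem ent_int (c : ℕ) (hc : 1 ≤ c) (hc2 : c ≤ 2) (k : Fin 4) (i : ℕ) (j : Fin 4) (a : ℕ) :
    (7 : ℤ) ^ wt j a ∣ 7 ^ wt k i * Ee4 c k i j a := by
  rcases lt_or_ge (i + a) 5 with h | h
  · obtain ⟨c, rfl⟩ : ∃ c', c = c' + 1 := ⟨c - 1, by omega⟩
    exact dvd_of_approx ((pow_dvd_pow 7 (Nat.le_succ _)).trans (Ee4_approx (c + 1) hc hc2 k i j a h))
      (Et_int c (by omega) k j i (by omega) a (by omega) h)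
  · exact (pow_dvd_pow 7 (Nat.le_succ _)).trans (Ee4_high c hc hc2 k i j a h)

theorem ent_ns (c : ℕ) (hc : 1 ≤ c) (hc2 : c ≤ 2) (k : Fin 4) (i : ℕ) (j : Fin 4) (a : ℕ)
    (hk : 1 ≤ wt k i) : (7 : ℤ) ^ (wt j a + 1) ∣ 7 ^ wt k i * Ee4 c k i j a := by
  rcases lt_or_ge (i + a) 5 with h | h
  · obtain ⟨c, rfl⟩ : ∃ c', c = c' + 1 := ⟨c - 1, by omega⟩
    exact dvd_of_approx (Ee4_approx (c + 1) hc hc2 k i j a h)
      (Et_ns c (by omega) k j i (by omega) a (by omega) h hk)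
  · exact Ee4_high c hc hc2 k i j a h

theorem ent_two (k : Fin 4) (i : ℕ) (j : Fin 4) (a : ℕ)
    (hk : 1 ≤ a ∨ j = 1) : (7 : ℤ) ^ (wt j a + 1) ∣ 7 ^ wt k i * Ee4 2 k i j a := by
  rcases lt_or_ge (i + a) 5 with h | h
  · exact dvd_of_approx (Ee4_approx 2 (by norm_num) le_rfl k i j a h)
      (Et_two k j i (by omega) a (by omega) h hk)
  · exact Ee4_high 2 (by norm_num) le_rfl k i j a h

theorem wt_zero (j : Fin 4) : wt j 0 = 0 := by
  unfold wt; split_ifs <;> rfl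

theorem ent_one (j : Fin 4) (a : ℕ) :
    (7 : ℤ) ^ (wt j a + 1) ∣ Ee4 1 0 0 j a - 6 * Ee4 1 3 0 j a ∧
    (7 : ℤ) ^ (wt j a + 1) ∣ Ee4 1 2 0 j a - 2 * Ee4 1 3 0 j a := by
  rcases lt_or_ge a 5 with h | h
  · have h0 := Ee4_approx 1 le_rfl (by norm_num) 0 0 j a (by omega)
    have h2 := Ee4_approx 1 le_rfl (by norm_num) 2 0 j a (by omega)
    have h3 := Ee4_approx 1 le_rfl (by norm_num) 3 0 j a (by omega)
    rw [wt_zero, pow_zero, one_mul] at h0 h2 h3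
    obtain ⟨e1, e2⟩ := Et_one j a h
    constructor
    · have := dvd_add (dvd_sub h0 (h3.mul_left 6)) e1
      rwa [show Ee4 1 0 0 j a - Et 1 0 0 j a - 6 * (Ee4 1 3 0 j a - Et 1 3 0 j a) +
        (Et 1 0 0 j a - 6 * Et 1 3 0 j a) = Ee4 1 0 0 j a - 6 * Ee4 1 3 0 j a by ring] at this
    · have := dvd_add (dvd_sub h2 (h3.mul_left 2)) e2
      rwa [show Ee4 1 2 0 j a - Et 1 2 0 j a - 2 * (Ee4 1 3 0 j a - Et 1 3 0 j a) +
        (Et 1 2 0 j a - 2 * Et 1 3 0 j a) = Ee4 1 2 0 j a - 2 * Ee4 1 3 0 j a by ring] at this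
  · have h0 := Ee4_high 1 le_rfl (by norm_num) 0 0 j a (by omega)
    have h2 := Ee4_high 1 le_rfl (by norm_num) 2 0 j a (by omega)
    have h3 := Ee4_high 1 le_rfl (by norm_num) 3 0 j a (by omega)
    rw [wt_zero, pow_zero, one_mul] at h0 h2 h3
    exact ⟨dvd_sub h0 (h3.mul_left 6), dvd_sub h2 (h3.mul_left 2)⟩

/-! ### the lattice -/

/-- `7^n` times the lattice -/
def InL (n : ℕ) (b : Fin 4 → ℤ[X]) : Prop := ∀ j a, (7 : ℤ) ^ (wt j a + n) ∣ (b j).coeff a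

theorem InL.add {n : ℕ} {b b' : Fin 4 → ℤ[X]} (h : InL n b) (h' : InL n b') : InL n (b + b') :=
  fun j a => by
    rw [Pi.add_apply, coeff_add]
    exact dvd_add (h j a) (h' j a)

theorem InL.sub {n : ℕ} {b b' : Fin 4 → ℤ[X]} (h : InL n b) (h' : InL n b') : InL n (b - b') :=
  fun j a => by
    rw [Pi.sub_apply, coeff_sub]
    exact dvd_sub (h j a) (h' j a)

theorem InL.smul {n m : ℕ} {x : ℤ} {b : Fin 4 → ℤ[X]} (hx : (7 : ℤ) ^ m ∣ x) (h : InL n b) :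
    InL (m + n) (x • b) := fun j a => by
  rw [Pi.smul_apply, coeff_smul, smul_eq_mul]
  have := mul_dvd_mul hx (h j a)
  rwa [← pow_add, show m + (wt j a + n) = wt j a + (m + n) by ring] at this

theorem InL.smul' {n : ℕ} (x : ℤ) {b : Fin 4 → ℤ[X]} (h : InL n b) : InL n (x • b) := by
  have := h.smul (m := 0) (x := x) (by simp)
  rwa [zero_add] at this

theorem term_dvd {n u v : ℕ} {x E : ℤ} (hx : (7 : ℤ) ^ (u + n) ∣ x) (hE : (7 : ℤ) ^ v ∣ 7 ^ u * E) :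
    (7 : ℤ) ^ (v + n) ∣ x * E := by
  obtain ⟨y, rfl⟩ := hx
  obtain ⟨z, hz⟩ := hE
  exact ⟨y * z, by
    rw [pow_add, pow_add]
    linear_combination 7 ^ n * y * hz⟩

theorem InL.Rop {n : ℕ} {b : Fin 4 → ℤ[X]} (h : InL n b) (c : ℕ) (hc : 1 ≤ c) (hc2 : c ≤ 2) :
    InL n (Rop c b) := fun j a => by
  rw [Rop_coeff]
  exact Finset.dvd_sum fun k _ => Finset.dvd_sum fun i _ =>
    term_dvd (h k i) (ent_int c hc hc2 k i j a)

/-- basis vectors -/
def es (s : Fin 4) : Fin 4 → ℤ[X] := fun k => if k = s then 1 else 0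

theorem Rop_es (c : ℕ) (s j : Fin 4) (a : ℕ) : (Rop c (es s) j).coeff a = Ee4 c s 0 j a := by
  rw [Rop, Ee4, pow_zero]
  congr 1
  rw [Finset.sum_eq_single s]
  · rw [es, if_pos rfl]
  · intro k _ hk
    rw [es, if_neg hk, mul_zero, map_zero]
  · intro h
    exact absurd (Finset.mem_univ s) h

theorem es_coeff (s : Fin 4) (x : ℤ) (j : Fin 4) (a : ℕ) :
    ((x • es s) j).coeff a = if j = s ∧ a = 0 then x else 0 := by
  rw [Pi.smul_apply, coeff_smul, smul_eq_mul, es]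
  by_cases h : j = s
  · by_cases ha : a = 0
    · subst ha
      simp [h]
    · simp [h, ha, coeff_one]
  · simp [h]

theorem InL_es (s : Fin 4) : InL 0 (es s) := fun j a => by
  have h := es_coeff s 1 j a
  rw [one_smul] at h
  rw [h]
  split_ifs with h1
  · rw [h1.2, wt_zero]
    simp
  · exact dvd_zero _

/-- the limit vector -/
def wv : Fin 4 → ℤ[X] := Rop 1 (es 3)

/-- the two-step operator -/
def TT (b : Fin 4 → ℤ[X]) : Fin 4 → ℤ[X] := Rop 1 (Rop 2 b)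

theorem TT_sub (b b' : Fin 4 → ℤ[X]) : TT (b - b') = TT b - TT b' := by
  rw [TT, Rop_sub, Rop_sub]; rfl

theorem TT_smul (x : ℤ) (b : Fin 4 → ℤ[X]) : TT (x • b) = x • TT b := by
  rw [TT, Rop_smul, Rop_smul]; rfl

theorem InL_wv : InL 0 wv := (InL_es 3).Rop 1 le_rfl (by norm_num)

theorem InL.TT {n : ℕ} {b : Fin 4 → ℤ[X]} (h : InL n b) : InL n (TT b) :=
  (h.Rop 2 (by norm_num) le_rfl).Rop 1 le_rfl (by norm_num)

/-- the functional -/
def yy (b : Fin 4 → ℤ[X]) : ℤ := 6 * (Rop 2 b 0).coeff 0 + 2 * (Rop 2 b 2).coeff 0 +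
  (Rop 2 b 3).coeff 0

theorem Rop2_red {n : ℕ} {b : Fin 4 → ℤ[X]} (h : InL n b) : InL (n + 1) (Rop 2 b -
    ((Rop 2 b 0).coeff 0 • es 0 + (Rop 2 b 2).coeff 0 • es 2 + (Rop 2 b 3).coeff 0 • es 3)) := by
  intro j a
  rw [Pi.sub_apply, Pi.add_apply, Pi.add_apply, coeff_sub, coeff_add, coeff_add, es_coeff, es_coeff,
    es_coeff]
  by_cases ha : 1 ≤ a ∨ j = 1
  · have h1 : (7 : ℤ) ^ (wt j a + (n + 1)) ∣ (Rop 2 b j).coeff a := by
      rw [Rop_coeff]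
      refine Finset.dvd_sum fun k _ => Finset.dvd_sum fun i _ => ?_
      have := term_dvd (h k i) (ent_two k i j a ha)
      rwa [show wt j a + 1 + n = wt j a + (n + 1) by ring] at this
    have h2 : ∀ s : Fin 4, s ≠ 1 → ¬ (j = s ∧ a = 0) := by
      intro s hs hh
      rcases ha with h3 | h3
      · omega
      · exact hs (hh.1.symm.trans h3)
    rw [if_neg (h2 0 (by decide)), if_neg (h2 2 (by decide)), if_neg (h2 3 (by decide))]
    simpa using h1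
  · push Not at ha
    obtain ⟨h1, h2⟩ := ha
    have h3 : a = 0 := by omega
    subst h3
    have h4 : j = 0 ∨ j = 2 ∨ j = 3 := by
      revert h2; revert j; decide
    rcases h4 with rfl | rfl | rfl
    · simp
    · simp
    · simp

theorem TT_red {n : ℕ} {b : Fin 4 → ℤ[X]} (h : InL n b) : InL (n + 1) (TT b - yy b • wv) ∧
    (7 : ℤ) ^ n ∣ yy b := by
  have hR := h.Rop 2 (by norm_num) le_rfl
  have hy : ∀ s : Fin 4, (7 : ℤ) ^ n ∣ (Rop 2 b s).coeff 0 := fun s => by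
    have := hR s 0
    rwa [wt_zero, zero_add] at this
  constructor
  · have h1 := (Rop2_red h).Rop 1 le_rfl (by norm_num)
    rw [Rop_sub, Rop_add, Rop_add, Rop_smul, Rop_smul, Rop_smul] at h1
    have e0 : InL 1 (Rop 1 (es 0) - (6 : ℤ) • wv) := fun j a => by
      rw [Pi.sub_apply, Pi.smul_apply, coeff_sub, coeff_smul, Rop_es, wv, Rop_es, smul_eq_mul]
      exact (ent_one j a).1
    have e2 : InL 1 (Rop 1 (es 2) - (2 : ℤ) • wv) := fun j a => by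
      rw [Pi.sub_apply, Pi.smul_apply, coeff_sub, coeff_smul, Rop_es, wv, Rop_es, smul_eq_mul]
      exact (ent_one j a).2
    have f0 := e0.smul (hy 0)
    have f2 := e2.smul (hy 2)
    have := (h1.add f0).add f2
    have e : Rop 1 (Rop 2 b) - ((Rop 2 b 0).coeff 0 • Rop 1 (es 0) +
        (Rop 2 b 2).coeff 0 • Rop 1 (es 2) + (Rop 2 b 3).coeff 0 • Rop 1 (es 3)) +
        (Rop 2 b 0).coeff 0 • (Rop 1 (es 0) - (6 : ℤ) • wv) +
        (Rop 2 b 2).coeff 0 • (Rop 1 (es 2) - (2 : ℤ) • wv) = TT b - yy b • wv := by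
      rw [TT, yy, wv]
      simp only [smul_sub, add_smul, smul_smul]
      rw [mul_comm _ (6 : ℤ), mul_comm _ (2 : ℤ)]
      abel
    rwa [e] at this
  · rw [yy]
    exact dvd_add (dvd_add ((hy 0).mul_left 6) ((hy 2).mul_left 2)) (hy 3)

theorem as_range (p : ℤ[X]) (L : ℤ[X] →ₗ[ℤ] ℤ[X]) (a : ℕ) : ∃ N : ℕ, (L p).coeff a =
    ∑ i ∈ Finset.range (N + 2), p.coeff i * (L (X ^ i)).coeff a := by
  refine ⟨p.natDegree, ?_⟩
  rw [lin_coeff]
  refine Finset.sum_subset (fun i hi => ?_) fun i _ hi => ?_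
  · rw [Finset.mem_range]
    have := le_natDegree_of_mem_supp i hi
    omega
  · rw [notMem_support_iff.1 hi, zero_mul]

theorem sum_mod {N : ℕ} {f : ℕ → ℤ} (h : ∀ i, (7 : ℤ) ∣ f (i + 2)) :
    (7 : ℤ) ∣ ∑ i ∈ Finset.range (N + 2), f i - (f 0 + f 1) := by
  rw [Finset.sum_range_succ', Finset.sum_range_succ']
  have : ∑ k ∈ Finset.range N, f (k + 1 + 1) + f (0 + 1) + f 0 - (f 0 + f 1) =
      ∑ k ∈ Finset.range N, f (k + 2) := by
    rw [show f (0 + 1) = f 1 from rfl]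
    ring_nf
  rw [this]
  exact Finset.dvd_sum fun i _ => h i

theorem wv_coeff (k : Fin 4) (i : ℕ) : (wv k).coeff i = Ee4 1 3 0 k i := Rop_es 1 3 k i

theorem yw_val (s : Fin 4) : (7 : ℤ) ∣ (Rop 2 wv s).coeff 0 - yt s := by
  have hk : ∀ k : Fin 4, (7 : ℤ) ∣ (Lam 2 s (Np s k * wv k)).coeff 0 -
      (Et 1 3 0 k 0 * Et 2 k 0 s 0 + Et 1 3 0 k 1 * Et 2 k 1 s 0) := by
    intro k
    obtain ⟨N, hN⟩ := as_range (wv k) ((Lam 2 s).comp (LinearMap.mulLeft ℤ (Np s k))) 0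
    have hN' : (Lam 2 s (Np s k * wv k)).coeff 0 =
      ∑ i ∈ Finset.range (N + 2), (wv k).coeff i * Ee4 2 k i s 0 := hN
    rw [hN']
    have h1 := sum_mod (N := N) (f := fun i => (wv k).coeff i * Ee4 2 k i s 0) (fun i => by
      have hw := InL_wv k (i + 2)
      have hE : (7 : ℤ) ^ 1 ∣ 7 ^ wt k (i + 2) * Ee4 2 k (i + 2) s 0 := by
        have := ent_ns 2 (by norm_num) le_rfl k (i + 2) s 0 (by have := le_wt k (i + 2); omega)
        rwa [wt_zero] at this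
      have := term_dvd hw hE
      simpa using this)
    have h2 : ∀ i, i ≤ 1 → (7 : ℤ) ∣ (wv k).coeff i * Ee4 2 k i s 0 -
        Et 1 3 0 k i * Et 2 k i s 0 := by
      intro i hi
      by_cases hw : 1 ≤ wt k i
      · have h3 := InL_wv k i
        have h4 := ent_ns 2 (by norm_num) le_rfl k i s 0 hw
        rw [wt_zero] at h4
        have h5 := term_dvd h3 h4
        have h6 : (7 : ℤ) ∣ Et 1 3 0 k i := by
          have h7 := Ee4_approx 1 le_rfl (by norm_num) 3 0 k i (by omega)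
          rw [wt_zero, pow_zero, one_mul, ← wv_coeff] at h7
          have h8 : (7 : ℤ) ∣ (wv k).coeff i := (dvd_pow_self 7 (by omega)).trans h3
          have h9 : (7 : ℤ) ∣ (wv k).coeff i - Et 1 3 0 k i := (dvd_pow_self 7 (by omega)).trans h7
          have := dvd_sub h8 h9
          rwa [sub_sub_cancel] at this
        refine dvd_sub ?_ (h6.mul_right _)
        simpa using h5
      · have h0 : wt k i = 0 := by omega
        have h7 := Ee4_approx 1 le_rfl (by norm_num) 3 0 k i (by omega)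
        rw [wt_zero, pow_zero, one_mul, ← wv_coeff, h0, zero_add, pow_one] at h7
        have h8 := Ee4_approx 2 (by norm_num) le_rfl k i s 0 (by omega)
        rw [wt_zero, h0, pow_zero, one_mul, zero_add, pow_one] at h8
        have := dvd_add (h7.mul_right (Ee4 2 k i s 0)) (h8.mul_left (Et 1 3 0 k i))
        rwa [show ((wv k).coeff i - Et 1 3 0 k i) * Ee4 2 k i s 0 +
          Et 1 3 0 k i * (Ee4 2 k i s 0 - Et 2 k i s 0) = (wv k).coeff i * Ee4 2 k i s 0 -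
          Et 1 3 0 k i * Et 2 k i s 0 by ring] at this
    obtain ⟨u1, h1⟩ := h1
    obtain ⟨u2, h2'⟩ := h2 0 (by norm_num)
    obtain ⟨u3, h3'⟩ := h2 1 le_rfl
    exact ⟨u1 + u2 + u3, by linear_combination h1 + h2' + h3'⟩
  have h0 := hk 0
  have h1 := hk 1
  have h2 := hk 2
  have h3 := hk 3
  rw [Rop, finsetSum_coeff, Fin.sum_univ_four, yt]
  obtain ⟨u0, h0⟩ := h0
  obtain ⟨u1, h1⟩ := h1
  obtain ⟨u2, h2⟩ := h2
  obtain ⟨u3, h3⟩ := h3
  exact ⟨u0 + u1 + u2 + u3, by linear_combination h0 + h1 + h2 + h3⟩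

theorem yy_wv : ¬ (7 : ℤ) ∣ yy wv := by
  intro h
  have h0 := yw_val 0
  have h2 := yw_val 2
  have h3 := yw_val 3
  have h4 := yt_val
  rw [yy] at h
  omega

theorem exists_inv (x : ℤ) (h : ¬ (7 : ℤ) ∣ x) : ∃ y : ℤ, (7 : ℤ) ∣ 1 - y * x := by
  have h1 : x % 7 = 1 ∨ x % 7 = 2 ∨ x % 7 = 3 ∨ x % 7 = 4 ∨ x % 7 = 5 ∨ x % 7 = 6 := by omega
  rcases h1 with h1 | h1 | h1 | h1 | h1 | h1
  · exact ⟨1, by omega⟩
  · exact ⟨4, by omega⟩
  · exact ⟨5, by omega⟩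
  · exact ⟨2, by omega⟩
  · exact ⟨3, by omega⟩
  · exact ⟨6, by omega⟩

/-- modulo 7 everything is a multiple of `w` -/
theorem back (α : ℕ) : ∃ z : ℤ, InL 1 (wv - z • TT^[α] wv) := by
  induction α with
  | zero =>
    refine ⟨1, ?_⟩
    rw [one_smul, Function.iterate_zero, id, sub_self]
    intro j a
    simp
  | succ α ih =>
    obtain ⟨z, hz⟩ := ih
    obtain ⟨y, hy⟩ := exists_inv (yy wv) yy_wv
    have h1 := (TT_red InL_wv).1
    rw [zero_add] at h1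
    have h2 := hz.TT
    rw [TT_sub, TT_smul, ← Function.iterate_succ_apply' TT] at h2
    refine ⟨y * z, ?_⟩
    have h3 : InL 1 ((1 - y * yy wv) • wv) := by
      have := InL_wv.smul (m := 1) (x := 1 - y * yy wv) (by simpa using hy)
      simpa using this
    have h4 := ((h3.sub (h1.smul' y))).add (h2.smul' y)
    have e : (1 - y * yy wv) • wv - y • (TT wv - yy wv • wv) + y • (TT wv - z • TT^[α + 1] wv) =
        wv - (y * z) • TT^[α + 1] wv := by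
      simp only [smul_sub, sub_smul, smul_smul, one_smul]
      abel
    rwa [e] at h4

/-- the contraction -/
theorem main_lattice (α : ℕ) : ∃ x : ℤ, InL (α + 1) (TT^[α + 1] wv - x • TT^[α] wv) := by
  induction α with
  | zero =>
    refine ⟨yy wv, ?_⟩
    have h1 := (TT_red InL_wv).1
    simpa using h1
  | succ α ih =>
    obtain ⟨x, hx⟩ := ih
    have h1 := TT_red hx
    obtain ⟨h2, h3⟩ := h1
    obtain ⟨z, hz⟩ := back (α + 1)
    rw [TT_sub, TT_smul, ← Function.iterate_succ_apply' TT, ← Function.iterate_succ_apply' TT] at h2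
    set Y := yy (TT^[α + 1] wv - x • TT^[α] wv) with hY
    have h4 := hz.smul h3
    refine ⟨x + Y * z, ?_⟩
    have h5 := h2.add h4
    have e : TT^[α + 1 + 1] wv - x • TT^[α + 1] wv - Y • wv + Y • (wv - z • TT^[α + 1] wv) =
        TT^[α + 1 + 1] wv - (x + Y * z) • TT^[α + 1] wv := by
      simp only [smul_sub, add_smul, smul_smul]
      abel
    rwa [e] at h5

end

end Pool.Agent.H47.Fad
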