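import Pool.Agent.H47.Fad.Eis

/-!
# The differential ring of level 7
-/

set_option autoImplicit false

namespace Pool.Agent.H47.Fad

open HahnSeries

noncomputable section

theorem D_pow' (f : K) (n : ℕ) : D (f ^ n) = n * f ^ (n - 1) * D f := by
  rcases n with _ | n
  · simp [D_one]
  · rw [D_pow]
    simp

/-- `q` -/
def qq : K := HahnSeries.single 1 1

theorem D_qq : D qq = qq := by
  ext n
  rw [coeff_D, qq]
  by_cases h : n = 1
  · subst h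
    simp
  · rw [HahnSeries.coeff_single_of_ne h, mul_zero]

theorem tr_qq : Tr qq [0, 1] := by
  constructor
  · intro n hn
    rw [qq, HahnSeries.coeff_single_of_ne (by omega)]
  · intro i hi
    by_cases h : i = 1
    · subst h
      simp [qq]
    · rw [qq, HahnSeries.coeff_single_of_ne (by exact_mod_cast h)]
      interval_cases i <;> simp_all

theorem lead_qq : Lead qq 0 := tr_qq.lead.cast (by simp)

theorem qq_ne : qq ≠ 0 := by
  intro h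
  have := tr_qq.2 1 (by norm_num)
  rw [h] at this
  simp at this

/-- `φ(q^7)` -/
def φ7 : K := V φ
/-- `E_2(q^7)` -/
def F2 : K := V E2
/-- `E_4(q^7)` -/
def F4 : K := V E4
/-- `E_6(q^7)` -/
def F6 : K := V E6
/-- the weight two form -/
def Y : K := (7 * F2 - E2) / 6
/-- the Hauptmodul -/
def t : K := qq * (φ7 / φ) ^ 4
/-- `1 + 13 t + 49 t^2` -/
def W : K := 1 + 13 * t + 49 * t ^ 2

theorem lead_φ7 : Lead φ7 1 := lead_φ.V
theorem φ_ne : φ ≠ 0 := lead_φ.ne one_ne_zero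
theorem φ7_ne : φ7 ≠ 0 := lead_φ7.ne one_ne_zero
theorem lead_F2 : Lead F2 1 := lead_E2.V
theorem lead_F4 : Lead F4 1 := lead_E4.V
theorem lead_F6 : Lead F6 1 := lead_E6.V

theorem lead_Y : Lead Y 1 :=
  ((((lead_ofNat 7).mul lead_F2).sub lead_E2).div (lead_ofNat 6) (by norm_num)).cast (by norm_num)

theorem Y_ne : Y ≠ 0 := lead_Y.ne one_ne_zero

theorem lead_t : Lead t 0 :=
  (lead_qq.mul ((lead_φ7.div lead_φ one_ne_zero).pow 4)).cast (by norm_num)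

theorem lead_W : Lead W 1 :=
  ((lead_one.add ((lead_ofNat 13).mul lead_t)).add ((lead_ofNat 49).mul (lead_t.pow 2))).cast
    (by norm_num)

theorem W_ne : W ≠ 0 := lead_W.ne one_ne_zero

theorem t_ne : t ≠ 0 := mul_ne_zero qq_ne (pow_ne_zero _ (div_ne_zero φ7_ne φ_ne))

theorem Dφ7 : D φ7 = 7 * φ7 * (F2 - 1) / 24 := by
  rw [φ7, D_V, Dφ, map_div₀, map_mul, map_sub, map_one, map_ofNat, F2]
  ring

theorem Dt : D t = Y * t := by
  have h1 := φ_ne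
  rw [t, D_mul, D_pow', D_div _ _ h1, D_qq, Dφ, Dφ7, Y]
  push_cast
  field_simp
  ring

theorem DF2 : D F2 = 7 * (F2 ^ 2 - F4) / 12 := by
  rw [F2, D_V, DE2, map_div₀, map_sub, map_pow, map_ofNat, F4]
  ring

theorem DF4 : D F4 = 7 * (F2 * F4 - F6) / 3 := by
  rw [F4, D_V, DE4, map_div₀, map_sub, map_mul, map_ofNat, F2, F6]
  ring

theorem DF6 : D F6 = 7 * (F2 * F6 - F4 ^ 2) / 2 := by
  rw [F6, D_V, DE6, map_div₀, map_sub, map_mul, map_pow, map_ofNat, F2, F4]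
  ring

theorem F2_eq : F2 = (E2 + 6 * Y) / 7 := by
  rw [Y]; ring

theorem DY' : D Y = (12 * E2 * Y + 36 * Y ^ 2 + E4 - 49 * F4) / 72 := by
  have h6 : D Y = (7 * D F2 - D E2) / 6 := by
    rw [Y, D_div _ _ (by norm_num), map_sub, D_mul, D_ofNat, D_ofNat]
    ring
  rw [h6, DF2, DE2, F2_eq]
  ring

theorem DW : D W = Y * (13 * t + 98 * t ^ 2) := by
  rw [W, map_add, map_add, D_one, D_mul, D_mul, D_pow', D_ofNat, D_ofNat, Dt]
  push_cast
  ring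

/-- the polynomial `a` -/
def pa : K := 1 + 245 * t + 2401 * t ^ 2
/-- the polynomial `b` -/
def pb : K := 1 + 5 * t + t ^ 2
/-- the polynomial `r` -/
def pr : K := 1 - 490 * t - 21609 * t ^ 2 - 235298 * t ^ 3 - 823543 * t ^ 4
/-- the polynomial `r_7` -/
def pr7 : K := 1 + 14 * t + 63 * t ^ 2 + 70 * t ^ 3 - 7 * t ^ 4

theorem Dpa : D pa = Y * (245 * t + 4802 * t ^ 2) := by
  rw [pa, map_add, map_add, D_one, D_mul, D_mul, D_pow', D_ofNat, D_ofNat, Dt]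
  push_cast
  ring

theorem Dpb : D pb = Y * (5 * t + 2 * t ^ 2) := by
  rw [pb, map_add, map_add, D_one, D_mul, D_pow', D_ofNat, Dt]
  push_cast
  ring

theorem Dpr : D pr = Y * (- 490 * t - 43218 * t ^ 2 - 705894 * t ^ 3 - 3294172 * t ^ 4) := by
  rw [pr, map_sub, map_sub, map_sub, map_sub, D_one, D_mul, D_mul, D_mul, D_mul, D_pow', D_pow',
    D_pow', D_ofNat, D_ofNat, D_ofNat, D_ofNat, Dt]
  push_cast
  ring

theorem Dpr7 : D pr7 = Y * (14 * t + 126 * t ^ 2 + 210 * t ^ 3 - 28 * t ^ 4) := by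
  rw [pr7, map_sub, map_add, map_add, map_add, D_one, D_mul, D_mul, D_mul, D_mul, D_pow', D_pow',
    D_pow', D_ofNat, D_ofNat, D_ofNat, D_ofNat, Dt]
  push_cast
  ring

theorem lead_pa : Lead pa 1 :=
  ((lead_one.add ((lead_ofNat 245).mul lead_t)).add ((lead_ofNat 2401).mul (lead_t.pow 2))).cast
    (by norm_num)

theorem lead_pb : Lead pb 1 :=
  ((lead_one.add ((lead_ofNat 5).mul lead_t)).add (lead_t.pow 2)).cast (by norm_num)

theorem lead_pr : Lead pr 1 :=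
  ((((lead_one.sub ((lead_ofNat 490).mul lead_t)).sub ((lead_ofNat 21609).mul (lead_t.pow 2))).sub
    ((lead_ofNat 235298).mul (lead_t.pow 3))).sub ((lead_ofNat 823543).mul (lead_t.pow 4))).cast
    (by norm_num)

theorem lead_pr7 : Lead pr7 1 :=
  ((((lead_one.add ((lead_ofNat 14).mul lead_t)).add ((lead_ofNat 63).mul (lead_t.pow 2))).add
    ((lead_ofNat 70).mul (lead_t.pow 3))).sub ((lead_ofNat 7).mul (lead_t.pow 4))).cast
    (by norm_num)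

/-- the four relations -/
def yv : Fin 4 → K := ![E4 * W - Y ^ 2 * pa, F4 * W - Y ^ 2 * pb, E6 * W ^ 2 - Y ^ 3 * pr,
  F6 * W ^ 2 - Y ^ 3 * pr7]

/-- the matrix of the differential system, times `W` -/
def Λ7 : Fin 4 → Fin 4 → K := ![
  ![E2 / 3 * W + Y * (13 * t + 98 * t ^ 2) - Y * pa / 36, 49 / 36 * (Y * pa), -1 / 3, 0],
  ![-(Y * pb) / 36, E2 / 3 * W + 2 * Y * W + Y * (13 * t + 98 * t ^ 2) + 49 / 36 * Y * pb, 0, -7 / 3],
  ![-(W * (W * E4 + Y ^ 2 * pa)) / 2 - Y ^ 2 * pr / 24, 49 / 24 * Y ^ 2 * pr,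
    E2 / 2 * W + 2 * Y * (13 * t + 98 * t ^ 2), 0],
  ![-(Y ^ 2 * pr7) / 24, -(7 * W * (W * F4 + Y ^ 2 * pb)) / 2 + 49 / 24 * Y ^ 2 * pr7, 0,
    E2 / 2 * W + 3 * Y * W + 2 * Y * (13 * t + 98 * t ^ 2)]]

section alg

variable {F : Type} [Field F] [CharZero F] (t Y E2 E4 E6 F4 F6 : F)

theorem alg0 :
    (1 + 13 * t + 49 * t ^ 2) * ((E2 * E4 - E6) / 3 * (1 + 13 * t + 49 * t ^ 2) + E4 * (Y * (13 * t + 98 * t ^ 2)) -
      (2 * Y * ((12 * E2 * Y + 36 * Y ^ 2 + E4 - 49 * F4) / 72) * (1 + 245 * t + 2401 * t ^ 2) +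
        Y ^ 2 * (Y * (245 * t + 4802 * t ^ 2)))) =
    (E2 / 3 * (1 + 13 * t + 49 * t ^ 2) + Y * (13 * t + 98 * t ^ 2) -
      Y * (1 + 245 * t + 2401 * t ^ 2) / 36) *
      (E4 * (1 + 13 * t + 49 * t ^ 2) - Y ^ 2 * (1 + 245 * t + 2401 * t ^ 2)) +
    49 / 36 * (Y * (1 + 245 * t + 2401 * t ^ 2)) *
      (F4 * (1 + 13 * t + 49 * t ^ 2) - Y ^ 2 * (1 + 5 * t + t ^ 2)) +
    -1 / 3 * (E6 * (1 + 13 * t + 49 * t ^ 2) ^ 2 -
      Y ^ 3 * (1 - 490 * t - 21609 * t ^ 2 - 235298 * t ^ 3 - 823543 * t ^ 4)) := by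
  ring

theorem alg1 :
    (1 + 13 * t + 49 * t ^ 2) * (7 * ((E2 + 6 * Y) / 7 * F4 - F6) / 3 * (1 + 13 * t + 49 * t ^ 2) +
      F4 * (Y * (13 * t + 98 * t ^ 2)) -
      (2 * Y * ((12 * E2 * Y + 36 * Y ^ 2 + E4 - 49 * F4) / 72) * (1 + 5 * t + t ^ 2) +
        Y ^ 2 * (Y * (5 * t + 2 * t ^ 2)))) =
    -(Y * (1 + 5 * t + t ^ 2)) / 36 *
      (E4 * (1 + 13 * t + 49 * t ^ 2) - Y ^ 2 * (1 + 245 * t + 2401 * t ^ 2)) +
    (E2 / 3 * (1 + 13 * t + 49 * t ^ 2) + 2 * Y * (1 + 13 * t + 49 * t ^ 2) + Y * (13 * t + 98 * t ^ 2) +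
      49 / 36 * Y * (1 + 5 * t + t ^ 2)) *
      (F4 * (1 + 13 * t + 49 * t ^ 2) - Y ^ 2 * (1 + 5 * t + t ^ 2)) +
    -7 / 3 * (F6 * (1 + 13 * t + 49 * t ^ 2) ^ 2 -
      Y ^ 3 * (1 + 14 * t + 63 * t ^ 2 + 70 * t ^ 3 - 7 * t ^ 4)) := by
  ring

theorem alg2 :
    (1 + 13 * t + 49 * t ^ 2) * ((E2 * E6 - E4 ^ 2) / 2 * (1 + 13 * t + 49 * t ^ 2) ^ 2 +
      E6 * (2 * (1 + 13 * t + 49 * t ^ 2) * (Y * (13 * t + 98 * t ^ 2))) -
      (3 * Y ^ 2 * ((12 * E2 * Y + 36 * Y ^ 2 + E4 - 49 * F4) / 72) *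
        (1 - 490 * t - 21609 * t ^ 2 - 235298 * t ^ 3 - 823543 * t ^ 4) +
        Y ^ 3 * (Y * (- 490 * t - 43218 * t ^ 2 - 705894 * t ^ 3 - 3294172 * t ^ 4)))) =
    (-((1 + 13 * t + 49 * t ^ 2) * ((1 + 13 * t + 49 * t ^ 2) * E4 + Y ^ 2 * (1 + 245 * t + 2401 * t ^ 2))) / 2 -
      Y ^ 2 * (1 - 490 * t - 21609 * t ^ 2 - 235298 * t ^ 3 - 823543 * t ^ 4) / 24) *
      (E4 * (1 + 13 * t + 49 * t ^ 2) - Y ^ 2 * (1 + 245 * t + 2401 * t ^ 2)) +
    49 / 24 * Y ^ 2 * (1 - 490 * t - 21609 * t ^ 2 - 235298 * t ^ 3 - 823543 * t ^ 4) *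
      (F4 * (1 + 13 * t + 49 * t ^ 2) - Y ^ 2 * (1 + 5 * t + t ^ 2)) +
    (E2 / 2 * (1 + 13 * t + 49 * t ^ 2) + 2 * Y * (13 * t + 98 * t ^ 2)) *
      (E6 * (1 + 13 * t + 49 * t ^ 2) ^ 2 -
      Y ^ 3 * (1 - 490 * t - 21609 * t ^ 2 - 235298 * t ^ 3 - 823543 * t ^ 4)) := by
  ring

theorem alg3 :
    (1 + 13 * t + 49 * t ^ 2) * (7 * ((E2 + 6 * Y) / 7 * F6 - F4 ^ 2) / 2 * (1 + 13 * t + 49 * t ^ 2) ^ 2 +
      F6 * (2 * (1 + 13 * t + 49 * t ^ 2) * (Y * (13 * t + 98 * t ^ 2))) -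
      (3 * Y ^ 2 * ((12 * E2 * Y + 36 * Y ^ 2 + E4 - 49 * F4) / 72) *
        (1 + 14 * t + 63 * t ^ 2 + 70 * t ^ 3 - 7 * t ^ 4) +
        Y ^ 3 * (Y * (14 * t + 126 * t ^ 2 + 210 * t ^ 3 - 28 * t ^ 4)))) =
    -(Y ^ 2 * (1 + 14 * t + 63 * t ^ 2 + 70 * t ^ 3 - 7 * t ^ 4)) / 24 *
      (E4 * (1 + 13 * t + 49 * t ^ 2) - Y ^ 2 * (1 + 245 * t + 2401 * t ^ 2)) +
    (-(7 * (1 + 13 * t + 49 * t ^ 2) * ((1 + 13 * t + 49 * t ^ 2) * F4 + Y ^ 2 * (1 + 5 * t + t ^ 2))) / 2 +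
      49 / 24 * Y ^ 2 * (1 + 14 * t + 63 * t ^ 2 + 70 * t ^ 3 - 7 * t ^ 4)) *
      (F4 * (1 + 13 * t + 49 * t ^ 2) - Y ^ 2 * (1 + 5 * t + t ^ 2)) +
    (E2 / 2 * (1 + 13 * t + 49 * t ^ 2) + 3 * Y * (1 + 13 * t + 49 * t ^ 2) + 2 * Y * (13 * t + 98 * t ^ 2)) *
      (F6 * (1 + 13 * t + 49 * t ^ 2) ^ 2 -
      Y ^ 3 * (1 + 14 * t + 63 * t ^ 2 + 70 * t ^ 3 - 7 * t ^ 4)) := by
  ring

end alg

theorem yv_ode (i : Fin 4) : W * D (yv i) = ∑ j, Λ7 i j * yv j := by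
  rw [Fin.sum_univ_four]
  fin_cases i
  · have h := alg0 t Y E2 E4 E6 F4
    simp only [yv, Λ7, Matrix.cons_val, Fin.zero_eta, Fin.isValue]
    rw [map_sub, D_mul, D_mul, D_pow', DE4, DW, DY', Dpa, pa, pb, pr, W]
    push_cast
    rw [zero_mul, add_zero, ← h]
    ring
  · have h := alg1 t Y E2 E4 F4 F6
    simp only [yv, Λ7, Matrix.cons_val, Fin.mk_one, Fin.isValue]
    rw [map_sub, D_mul, D_mul, D_pow', DF4, F2_eq, DW, DY', Dpb, pa, pb, pr7, W]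
    push_cast
    rw [zero_mul, add_zero, ← h]
    ring
  · have h := alg2 t Y E2 E4 E6 F4
    simp only [yv, Λ7, Matrix.cons_val, Fin.reduceFinMk, Fin.isValue]
    rw [map_sub, D_mul, D_mul, D_pow', D_pow', DE6, DW, DY', Dpr, pa, pb, pr, W]
    push_cast
    rw [zero_mul, add_zero, ← h]
    ring
  · have h := alg3 t Y E2 E4 F4 F6
    simp only [yv, Λ7, Matrix.cons_val, Fin.reduceFinMk, Fin.isValue]
    rw [map_sub, D_mul, D_mul, D_pow', D_pow', DF6, F2_eq, DW, DY', Dpr7, pa, pb, pr7, W]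
    push_cast
    rw [zero_mul, add_zero, ← h]
    ring


/-! ### expansions -/

theorem Tr.V {f : K} {a b : ℤ} {l : List ℤ} (h : Tr f (a :: b :: l)) :
    Tr (V f) [a, 0, 0, 0, 0, 0, 0, b] := by
  refine ⟨h.1.V, fun i hi => ?_⟩
  have h0 : (Fad.V f).coeff 0 = a := by
    have := coeff_V_mul f 0
    rw [mul_zero] at this
    rw [this]
    have := h.2 0 (by norm_num)
    exact_mod_cast this
  have h7 : (Fad.V f).coeff 7 = b := by
    have := coeff_V_mul f 1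
    rw [mul_one] at this
    rw [this]
    have := h.2 1 (by norm_num)
    exact_mod_cast this
  interval_cases i
  · exact_mod_cast h0
  all_goals first
    | exact_mod_cast h7
    | (rw [coeff_V_of_not_dvd _ (by norm_num)]; simp)

theorem Tr.sub {f g : K} {a b c : List ℤ} (hf : Tr f a) (hg : Tr g b)
    (h : addL a (smulL (-1) b) = c) : Tr (f - g) c := by
  have h1 := hf.add (hg.smul (-1) rfl) h
  refine h1.congr ?_
  push_cast
  ring

/-- `φ^4` -/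
def PP : K := φ ^ 4
/-- `q φ(q^7)^4` -/
def RR : K := qq * φ7 ^ 4

theorem t_eq : t = RR / PP := by
  have := φ_ne
  rw [t, RR, PP]
  field_simp

theorem tr_φ7 : Tr φ7 [1, 0, 0, 0, 0, 0, 0, -1] := tr_φ.V

theorem tr_F2 : Tr F2 [1, 0, 0, 0, 0, 0, 0, -24] := tr_E2.V

theorem tr_φ2 : Tr (φ * φ) [1, -2, -1, 2, 1, 2, -2, 0] := tr_φ.mul tr_φ (by decide +kernel)
theorem tr_PP : Tr PP [1, -4, 2, 8, -5, -4, -10, 8] := (tr_φ2.mul tr_φ2 (by decide +kernel)).congr (by rw [PP]; ring)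
theorem tr_φ72 : Tr (φ7 * φ7) [1, 0, 0, 0, 0, 0, 0, -2] := tr_φ7.mul tr_φ7 (by decide +kernel)
theorem tr_φ74 : Tr (φ7 * φ7 * (φ7 * φ7)) [1, 0, 0, 0, 0, 0, 0, -4] := tr_φ72.mul tr_φ72 (by decide +kernel)
theorem tr_RR : Tr RR [0, 1, 0, 0, 0, 0, 0, 0] := (tr_qq.mul tr_φ74 (by decide +kernel)).congr (by rw [RR]; ring)

/-- division of a truncated series by an integer -/
theorem Tr.of_smul {f : K} {a b : List ℤ} (r : ℤ) (hr : r ≠ 0) (h : Tr ((r : K) * f) a)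
    (hb : smulL r b = a) : Tr f b := by
  subst hb
  have h1 : (r : K) = HahnSeries.C (r : ℚ) := (map_intCast HahnSeries.C r).symm
  have hr' : (r : ℚ) ≠ 0 := by exact_mod_cast hr
  refine ⟨fun n hn => ?_, fun k hk => ?_⟩
  · have := h.1 n hn
    rw [h1, coeff_C_mul'] at this
    exact (mul_eq_zero.1 this).resolve_left hr'
  · have := h.2 k hk
    rw [h1, coeff_C_mul', smulL, getD_map_range _ hk, Int.cast_mul] at this
    exact mul_left_cancel₀ hr' this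

theorem tr_Y : Tr Y [1, 4, 12, 16, 28, 24, 48, 4] := by
  refine Tr.of_smul (a := [6, 24, 72, 96, 168, 144, 288, 24]) 6 (by norm_num) ?_ (by decide +kernel)
  refine ((tr_F2.smul 7 rfl).sub tr_E2 (by decide +kernel)).congr ?_
  rw [Y]
  push_cast
  ring

theorem tr_PP2 : Tr (PP * PP) [1, -8, 20, 0, -70, 64, 56, 0] := tr_PP.mul tr_PP (by decide +kernel)
theorem tr_PR : Tr (PP * RR) [0, 1, -4, 2, 8, -5, -4, -10] := tr_PP.mul tr_RR (by decide +kernel)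
theorem tr_RR2 : Tr (RR * RR) [0, 0, 1, 0, 0, 0, 0, 0] := tr_RR.mul tr_RR (by decide +kernel)

theorem tr_W : Tr (PP * PP + ((13 : ℤ) : K) * (PP * RR) + ((49 : ℤ) : K) * (RR * RR)) [1, 5, 17, 26, 34, -1, 4, -130] :=
  (tr_PP2.add (tr_PR.smul 13 rfl) rfl).add (tr_RR2.smul 49 rfl) (by decide +kernel)

theorem tr_a : Tr (PP * PP + ((245 : ℤ) : K) * (PP * RR) + ((2401 : ℤ) : K) * (RR * RR)) [1, 237, 1441, 490, 1890, -1161, -924, -2450] :=
  (tr_PP2.add (tr_PR.smul 245 rfl) rfl).add (tr_RR2.smul 2401 rfl) (by decide +kernel)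

theorem tr_Y2 : Tr (Y * Y) [1, 8, 40, 128, 328, 656, 1216, 1864] := tr_Y.mul tr_Y (by decide +kernel)
theorem tr_Y3 : Tr (Y * Y * Y) [1, 12, 84, 400, 1476, 4392, 11184, 24780] := tr_Y2.mul tr_Y (by decide +kernel)

theorem PP_ne : PP ≠ 0 := pow_ne_zero _ φ_ne

theorem tr_y0 : Tr (PP ^ 2 * (E4 * W - Y ^ 2 * pa)) [0, 0, 0, 0, 0, 0, 0, 0] := by
  refine ((tr_E4.mul tr_W rfl).sub (tr_Y2.mul tr_a rfl) (by decide +kernel)).congr ?_
  have := PP_ne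
  rw [W, pa, t_eq]
  field_simp
  push_cast
  ring

theorem tr_W2 : Tr ((PP * PP + ((13 : ℤ) : K) * (PP * RR) + ((49 : ℤ) : K) * (RR * RR)) *
    (PP * PP + ((13 : ℤ) : K) * (PP * RR) + ((49 : ℤ) : K) * (RR * RR))) [1, 10, 59, 222, 617, 1222, 1830, 1514] :=
  tr_W.mul tr_W (by decide +kernel)

theorem tr_PPPP : Tr (PP * PP * (PP * PP)) [1, -16, 104, -320, 260, 1248, -3712, 1664] := tr_PP2.mul tr_PP2 (by decide +kernel)
theorem tr_PPPR : Tr (PP * PP * (PP * RR)) [0, 1, -12, 54, -88, -99, 540, -418] := tr_PP2.mul tr_PR (by decide +kernel)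
theorem tr_PPRR : Tr (PP * PP * (RR * RR)) [0, 0, 1, -8, 20, 0, -70, 64] := tr_PP2.mul tr_RR2 (by decide +kernel)
theorem tr_PRRR : Tr (PP * RR * (RR * RR)) [0, 0, 0, 1, -4, 2, 8, -5] := tr_PR.mul tr_RR2 (by decide +kernel)
theorem tr_RRRR : Tr (RR * RR * (RR * RR)) [0, 0, 0, 0, 1, 0, 0, 0] := tr_RR2.mul tr_RR2 (by decide +kernel)

theorem tr_r : Tr (PP * PP * (PP * PP) + ((-490 : ℤ) : K) * (PP * PP * (PP * RR)) +
    ((-21609 : ℤ) : K) * (PP * PP * (RR * RR)) + ((-235298 : ℤ) : K) * (PP * RR * (RR * RR)) +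
    ((-823543 : ℤ) : K) * (RR * RR * (RR * RR))) [1, -506, -15625, -89206, -271151, -420838, -638066, -2] :=
  (((tr_PPPP.add (tr_PPPR.smul (-490) rfl) rfl).add (tr_PPRR.smul (-21609) rfl) rfl).add
    (tr_PRRR.smul (-235298) rfl) rfl).add (tr_RRRR.smul (-823543) rfl) (by decide +kernel)

theorem tr_y2 : Tr (PP ^ 4 * (E6 * W ^ 2 - Y ^ 3 * pr)) [0, 0, 0, 0, 0, 0, 0, 0] := by
  refine ((tr_E6.mul tr_W2 rfl).sub (tr_Y3.mul tr_r rfl) (by decide +kernel)).congr ?_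
  have := PP_ne
  rw [W, pr, t_eq]
  field_simp
  push_cast
  ring

theorem lead_PP : Lead PP 1 := (lead_φ.pow 4).cast (by norm_num)

/-- coefficients of `u * y` with `u` a unit -/
theorem coeff_zero_of_tr {u y : K} (hu : Lead u 1) (h : Tr (u * y) [0, 0, 0, 0, 0, 0, 0, 0]) {e : ℤ}
    (he : e < 8) (hy : ∀ n < e, y.coeff n = 0) : y.coeff e = 0 := by
  have h1 := (coeff_mul_low hu.1 hy).1
  rw [hu.2, one_mul] at h1
  rw [← h1]
  rcases lt_or_ge e 0 with h2 | h2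
  · exact h.1 e h2
  · obtain ⟨m, rfl⟩ := Int.eq_ofNat_of_zero_le h2
    have h3 : m < 8 := by exact_mod_cast he
    rw [h.2 m h3]
    interval_cases m <;> simp


/-! ### the relations hold -/

theorem lead_dW : Lead (13 * t + 98 * t ^ 2) 0 :=
  (((lead_ofNat 13).mul lead_t).add ((lead_ofNat 98).mul (lead_t.pow 2))).cast (by norm_num)

/-- constant terms of the matrix -/
def L7 : Fin 4 → Fin 4 → ℚ := ![![11 / 36, 49 / 36, -1 / 3, 0], ![-1 / 36, 133 / 36, 0, -7 / 3],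
  ![-25 / 24, 49 / 24, 1 / 2, 0], ![-1 / 24, -119 / 24, 0, 7 / 2]]

theorem lead_neg_one : Lead (-1 : K) (-1) := lead_one.neg

theorem lead_Λ7 (i j : Fin 4) : Lead (Λ7 i j / W) (L7 i j) := by
  have n36 : (36 : ℚ) ≠ 0 := by norm_num
  have n3 : (3 : ℚ) ≠ 0 := by norm_num
  have n2 : (2 : ℚ) ≠ 0 := by norm_num
  have n24 : (24 : ℚ) ≠ 0 := by norm_num
  have l49_36 : Lead (49 / 36 : K) (49 / 36) := (lead_ofNat 49).div (lead_ofNat 36) n36
  have l49_24 : Lead (49 / 24 : K) (49 / 24) := (lead_ofNat 49).div (lead_ofNat 24) n24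
  fin_cases i <;> fin_cases j
  · exact ((((lead_E2.div (lead_ofNat 3) n3).mul lead_W).add (lead_Y.mul lead_dW)).sub
      ((lead_Y.mul lead_pa).div (lead_ofNat 36) n36)).div lead_W one_ne_zero |>.cast (by
        norm_num [L7])
  · exact ((l49_36.mul (lead_Y.mul lead_pa)).div lead_W one_ne_zero).cast (by norm_num [L7])
  · exact ((lead_neg_one.div (lead_ofNat 3) n3).div lead_W one_ne_zero).cast (by norm_num [L7])
  · exact (lead_zero.div lead_W one_ne_zero).cast (by norm_num [L7])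
  · exact ((((lead_Y.mul lead_pb).neg).div (lead_ofNat 36) n36).div lead_W one_ne_zero).cast
      (by norm_num [L7])
  · exact ((((((lead_E2.div (lead_ofNat 3) n3).mul lead_W).add (((lead_ofNat 2).mul lead_Y).mul lead_W)).add
      (lead_Y.mul lead_dW)).add ((l49_36.mul lead_Y).mul lead_pb)).div lead_W one_ne_zero).cast
      (by norm_num [L7])
  · exact (lead_zero.div lead_W one_ne_zero).cast (by norm_num [L7])
  · exact ((((lead_ofNat 7).neg).div (lead_ofNat 3) n3).div lead_W one_ne_zero).cast (by norm_num [L7])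
  · exact ((((lead_W.mul ((lead_W.mul lead_E4).add ((lead_Y.pow 2).mul lead_pa))).neg.div
      (lead_ofNat 2) n2).sub (((lead_Y.pow 2).mul lead_pr).div (lead_ofNat 24) n24)).div
      lead_W one_ne_zero).cast (by norm_num [L7])
  · exact (((l49_24.mul (lead_Y.pow 2)).mul lead_pr).div lead_W one_ne_zero).cast (by norm_num [L7])
  · exact ((((lead_E2.div (lead_ofNat 2) n2).mul lead_W).add
      ((((lead_ofNat 2).mul lead_Y)).mul lead_dW)).div lead_W one_ne_zero).cast (by norm_num [L7])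
  · exact (lead_zero.div lead_W one_ne_zero).cast (by norm_num [L7])
  · exact ((((lead_Y.pow 2).mul lead_pr7).neg.div (lead_ofNat 24) n24).div lead_W one_ne_zero).cast
      (by norm_num [L7])
  · exact ((((((lead_ofNat 7).mul lead_W).mul ((lead_W.mul lead_F4).add
      ((lead_Y.pow 2).mul lead_pb))).neg.div (lead_ofNat 2) n2).add
      ((l49_24.mul (lead_Y.pow 2)).mul lead_pr7)).div lead_W one_ne_zero).cast (by norm_num [L7])
  · exact (lead_zero.div lead_W one_ne_zero).cast (by norm_num [L7])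
  · exact (((((lead_E2.div (lead_ofNat 2) n2).mul lead_W).add (((lead_ofNat 3).mul lead_Y).mul lead_W)).add
      ((((lead_ofNat 2).mul lead_Y)).mul lead_dW)).div lead_W one_ne_zero).cast (by norm_num [L7])

theorem inj7_0 {e z0 z1 z2 z3 : ℚ} (h0 : e * z0 = 11 / 36 * z0 + 49 / 36 * z1 + -1 / 3 * z2 + 0 * z3)
    (h1 : e * z1 = -1 / 36 * z0 + 133 / 36 * z1 + 0 * z2 + -7 / 3 * z3)
    (h2 : e * z2 = -25 / 24 * z0 + 49 / 24 * z1 + 1 / 2 * z2 + 0 * z3)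
    (h3 : e * z3 = -1 / 24 * z0 + -119 / 24 * z1 + 0 * z2 + 7 / 2 * z3) :
    e * e * (e - 1) * (e - 7) * z0 = 0 := by
  linear_combination ((-49/72) * e ^ 0 + (119/24) * e ^ 1 + (-277/36) * e ^ 2 + (1/1) * e ^ 3) * h0 + ((343/72) * e ^ 0 + (-49/8) * e ^ 1 + (49/36) * e ^ 2) * h1 + ((-49/108) * e ^ 0 + (259/108) * e ^ 1 + (-1/3) * e ^ 2) * h2 + ((343/108) * e ^ 0 + (-343/108) * e ^ 1) * h3

theorem inj7_1 {e z0 z1 z2 z3 : ℚ} (h0 : e * z0 = 11 / 36 * z0 + 49 / 36 * z1 + -1 / 3 * z2 + 0 * z3)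
    (h1 : e * z1 = -1 / 36 * z0 + 133 / 36 * z1 + 0 * z2 + -7 / 3 * z3)
    (h2 : e * z2 = -25 / 24 * z0 + 49 / 24 * z1 + 1 / 2 * z2 + 0 * z3)
    (h3 : e * z3 = -1 / 24 * z0 + -119 / 24 * z1 + 0 * z2 + 7 / 2 * z3) :
    e * e * (e - 1) * (e - 7) * z1 = 0 := by
  linear_combination ((-7/72) * e ^ 0 + (5/24) * e ^ 1 + (-1/36) * e ^ 2) * h0 + ((49/72) * e ^ 0 + (21/8) * e ^ 1 + (-155/36) * e ^ 2 + (1/1) * e ^ 3) * h1 + ((-7/108) * e ^ 0 + (1/108) * e ^ 1) * h2 + ((49/108) * e ^ 0 + (203/108) * e ^ 1 + (-7/3) * e ^ 2) * h3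

theorem inj7_2 {e z0 z1 z2 z3 : ℚ} (h0 : e * z0 = 11 / 36 * z0 + 49 / 36 * z1 + -1 / 3 * z2 + 0 * z3)
    (h1 : e * z1 = -1 / 36 * z0 + 133 / 36 * z1 + 0 * z2 + -7 / 3 * z3)
    (h2 : e * z2 = -25 / 24 * z0 + 49 / 24 * z1 + 1 / 2 * z2 + 0 * z3)
    (h3 : e * z3 = -1 / 24 * z0 + -119 / 24 * z1 + 0 * z2 + 7 / 2 * z3) :
    e * e * (e - 1) * (e - 7) * z2 = 0 := by
  linear_combination ((-49/48) * e ^ 0 + (119/16) * e ^ 1 + (-25/24) * e ^ 2) * h0 + ((343/48) * e ^ 0 + (-147/16) * e ^ 1 + (49/24) * e ^ 2) * h1 + ((-49/72) * e ^ 0 + (259/72) * e ^ 1 + (-15/2) * e ^ 2 + (1/1) * e ^ 3) * h2 + ((343/72) * e ^ 0 + (-343/72) * e ^ 1) * h3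

theorem inj7_3 {e z0 z1 z2 z3 : ℚ} (h0 : e * z0 = 11 / 36 * z0 + 49 / 36 * z1 + -1 / 3 * z2 + 0 * z3)
    (h1 : e * z1 = -1 / 36 * z0 + 133 / 36 * z1 + 0 * z2 + -7 / 3 * z3)
    (h2 : e * z2 = -25 / 24 * z0 + 49 / 24 * z1 + 1 / 2 * z2 + 0 * z3)
    (h3 : e * z3 = -1 / 24 * z0 + -119 / 24 * z1 + 0 * z2 + 7 / 2 * z3) :
    e * e * (e - 1) * (e - 7) * z3 = 0 := by
  linear_combination ((-7/48) * e ^ 0 + (5/16) * e ^ 1 + (-1/24) * e ^ 2) * h0 + ((49/48) * e ^ 0 + (63/16) * e ^ 1 + (-119/24) * e ^ 2) * h1 + ((-7/72) * e ^ 0 + (1/72) * e ^ 1) * h2 + ((49/72) * e ^ 0 + (203/72) * e ^ 1 + (-9/2) * e ^ 2 + (1/1) * e ^ 3) * h3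

theorem yv_zero (i : Fin 4) : yv i = 0 := by
  revert i
  refine ode_uniq yv (fun i j => Λ7 i j / W) (fun i j => (lead_Λ7 i j).1) (fun i => ?_)
    (fun e hlow he => ?_)
  · have h := yv_ode i
    have hW := W_ne
    have h2 : D (yv i) = (∑ j, Λ7 i j * yv j) / W := by
      rw [← h]
      field_simp
    rw [h2, Finset.sum_div]
    exact Finset.sum_congr rfl fun j _ => by ring
  · simp only [fun i j => (lead_Λ7 i j).2, Fin.sum_univ_four] at he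
    have h0 := he 0
    have h1 := he 1
    have h2 := he 2
    have h3 := he 3
    simp only [L7, Matrix.cons_val, Fin.isValue] at h0 h1 h2 h3
    rcases lt_or_ge e 8 with h8 | h8
    · have z0 : (yv 0).coeff e = 0 := by
        refine coeff_zero_of_tr ((lead_PP.pow 2).cast (by norm_num)) ?_ h8 (hlow 0)
        exact tr_y0
      have z2 : (yv 2).coeff e = 0 := by
        refine coeff_zero_of_tr ((lead_PP.pow 4).cast (by norm_num)) ?_ h8 (hlow 2)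
        exact tr_y2
      have z1 : (yv 1).coeff e = 0 := by
        rw [z0, z2] at h0
        linear_combination (-36 / 49) * h0
      have z3 : (yv 3).coeff e = 0 := by
        rw [z0, z1, z2] at h1
        linear_combination (3 / 7) * h1
      intro i
      fin_cases i
      · exact z0
      · exact z1
      · exact z2
      · exact z3
    · have he8 : (8 : ℚ) ≤ (e : ℚ) := by exact_mod_cast h8
      have hne : (e : ℚ) * e * (e - 1) * (e - 7) ≠ 0 := by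
        have a1 : (e : ℚ) ≠ 0 := by linarith
        have a2 : (e : ℚ) - 1 ≠ 0 := by linarith
        have a3 : (e : ℚ) - 7 ≠ 0 := by linarith
        exact mul_ne_zero (mul_ne_zero (mul_ne_zero a1 a1) a2) a3
      intro i
      fin_cases i
      · exact (mul_eq_zero.1 (inj7_0 h0 h1 h2 h3)).resolve_left hne
      · exact (mul_eq_zero.1 (inj7_1 h0 h1 h2 h3)).resolve_left hne
      · exact (mul_eq_zero.1 (inj7_2 h0 h1 h2 h3)).resolve_left hne
      · exact (mul_eq_zero.1 (inj7_3 h0 h1 h2 h3)).resolve_left hne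

theorem E4_eq : E4 = Y ^ 2 * pa / W := by
  have h := yv_zero 0
  simp only [yv, Matrix.cons_val, Fin.isValue] at h
  rw [eq_div_iff W_ne]
  linear_combination h

theorem F4_eq : F4 = Y ^ 2 * pb / W := by
  have h := yv_zero 1
  simp only [yv, Matrix.cons_val, Fin.isValue] at h
  rw [eq_div_iff W_ne]
  linear_combination h

theorem E6_eq : E6 = Y ^ 3 * pr / W ^ 2 := by
  have h := yv_zero 2
  simp only [yv, Matrix.cons_val, Fin.isValue] at h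
  rw [eq_div_iff (pow_ne_zero _ W_ne)]
  linear_combination h

theorem F6_eq : F6 = Y ^ 3 * pr7 / W ^ 2 := by
  have h := yv_zero 3
  simp only [yv, Matrix.cons_val, Fin.isValue] at h
  rw [eq_div_iff (pow_ne_zero _ W_ne)]
  linear_combination h

/-- `η^7 / η(7τ)` -/
def Ee : K := φ ^ 7 / φ7

theorem lead_Ee : Lead Ee 1 := ((lead_φ.pow 7).div lead_φ7 one_ne_zero).cast (by norm_num)

theorem Ee_ne : Ee ≠ 0 := lead_Ee.ne one_ne_zero

theorem DEe : D Ee = Ee * (E2 - Y) / 4 := by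
  have h1 := φ7_ne
  have h2 := φ_ne
  rw [Ee, D_div _ _ h1, D_pow', Dφ, Dφ7, F2_eq]
  push_cast
  field_simp
  ring

theorem DY : D Y = Y * (E2 / 6 + Y * (-1 + 39 * t + 343 * t ^ 2) / (6 * W)) := by
  have hW := W_ne
  rw [DY', E4_eq, F4_eq, pa, pb]
  field_simp
  rw [W]
  ring

theorem Y3_eq : Y ^ 3 = Ee ^ 2 * W ^ 2 := by
  have hW := W_ne
  have hl : Lead (E2 / 2 + Y * (-1 + 39 * t + 343 * t ^ 2) / (2 * W)) 0 :=
    ((lead_E2.div (lead_ofNat 2) two_ne_zero).add ((lead_Y.mul ((lead_neg_one.add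
      ((lead_ofNat 39).mul lead_t)).add ((lead_ofNat 343).mul (lead_t.pow 2)))).div
      ((lead_ofNat 2).mul lead_W) (by norm_num))).cast (by norm_num)
  have h : Y ^ 3 - Ee ^ 2 * W ^ 2 = 0 := by
    refine ode_uniq1 hl ?_ ?_
    · rw [map_sub, D_mul, D_pow', D_pow', D_pow', DY, DEe, DW]
      push_cast
      field_simp
      rw [W]
      ring
    · intro e he _
      have he0 : e = 0 := by exact_mod_cast he
      subst he0
      have := (((lead_Y.pow 3).sub ((lead_Ee.pow 2).mul (lead_W.pow 2)))).2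
      rw [this]
      norm_num
  exact sub_eq_zero.1 h

end

end Pool.Agent.H47.Fad
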