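import Pool.Agent.H47.Fad.Step

/-!
# Recovering the coefficients 7-adically
-/

set_option autoImplicit false

namespace Pool.Agent.H47.Fad

open HahnSeries Q279.QS

noncomputable section

/-- `7^n` times a 7-integral rational -/
def Iq (n : ℕ) (x : ℚ) : Prop := ∃ d z : ℤ, ¬ (7 : ℤ) ∣ d ∧ (d : ℚ) * x = 7 ^ n * z

theorem prime7 : Prime (7 : ℤ) := by norm_num

theorem not_dvd_mul {a b : ℤ} (ha : ¬ (7 : ℤ) ∣ a) (hb : ¬ (7 : ℤ) ∣ b) : ¬ (7 : ℤ) ∣ a * b :=
  fun h => (prime7.dvd_or_dvd h).elim ha hb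

theorem Iq.add {n : ℕ} {x y : ℚ} (hx : Iq n x) (hy : Iq n y) : Iq n (x + y) := by
  obtain ⟨d, z, hd, h⟩ := hx
  obtain ⟨d', z', hd', h'⟩ := hy
  refine ⟨d * d', z * d' + z' * d, not_dvd_mul hd hd', ?_⟩
  push_cast
  linear_combination (d' : ℚ) * h + (d : ℚ) * h'

theorem Iq.neg {n : ℕ} {x : ℚ} (hx : Iq n x) : Iq n (-x) := by
  obtain ⟨d, z, hd, h⟩ := hx
  refine ⟨d, -z, hd, ?_⟩
  push_cast
  linear_combination -h

theorem Iq.sub {n : ℕ} {x y : ℚ} (hx : Iq n x) (hy : Iq n y) : Iq n (x - y) := by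
  rw [sub_eq_add_neg]
  exact hx.add hy.neg

theorem Iq.mul {n m : ℕ} {x y : ℚ} (hx : Iq n x) (hy : Iq m y) : Iq (n + m) (x * y) := by
  obtain ⟨d, z, hd, h⟩ := hx
  obtain ⟨d', z', hd', h'⟩ := hy
  refine ⟨d * d', z * z', not_dvd_mul hd hd', ?_⟩
  push_cast
  rw [_root_.pow_add]
  linear_combination ((d' : ℚ) * y) * h + (7 ^ n * (z : ℚ)) * h'

theorem Iq_zero (n : ℕ) : Iq n 0 := ⟨1, 0, by norm_num, by simp⟩

theorem Iq_int (z : ℤ) : Iq 0 (z : ℚ) := ⟨1, z, by norm_num, by simp⟩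

theorem Iq_frac (a b : ℤ) (hb : ¬ (7 : ℤ) ∣ b) : Iq 0 ((a : ℚ) / b) := by
  refine ⟨b, a, hb, ?_⟩
  have : (b : ℚ) ≠ 0 := by
    intro h
    have h2 : b = 0 := by exact_mod_cast h
    exact hb (h2 ▸ dvd_zero _)
  field_simp

theorem Iq.sum {ι : Type*} {n : ℕ} (s : Finset ι) (f : ι → ℚ) (h : ∀ i ∈ s, Iq n (f i)) :
    Iq n (∑ i ∈ s, f i) := by
  classical
  induction s using Finset.induction_on with
  | empty => simpa using Iq_zero n
  | insert a s ha ih =>
    rw [Finset.sum_insert ha]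
    exact (h a (Finset.mem_insert_self _ _)).add (ih fun i hi => h i (Finset.mem_insert_of_mem hi))

theorem Iq.mul' {n : ℕ} {x y : ℚ} (hx : Iq 0 x) (hy : Iq n y) : Iq n (x * y) := by
  have := hx.mul hy
  rwa [zero_add] at this

theorem Iq.int_dvd {n : ℕ} {a : ℤ} (h : Iq n (a : ℚ)) : (7 : ℤ) ^ n ∣ a := by
  obtain ⟨d, z, hd, h⟩ := h
  have h1 : d * a = 7 ^ n * z := by exact_mod_cast h
  have h2 : IsCoprime ((7 : ℤ) ^ n) d := by
    apply IsCoprime.pow_left
    exact (Prime.coprime_iff_not_dvd prime7).2 hd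
  exact h2.dvd_of_dvd_mul_left (Dvd.intro z h1.symm)

/-- series with coefficients divisible by `7^n` -/
def In (n : ℕ) (f : K) : Prop := Ps f ∧ ∀ m : ℤ, Iq n (f.coeff m)

theorem In.add {n : ℕ} {f g : K} (hf : In n f) (hg : In n g) : In n (f + g) :=
  ⟨hf.1.add hg.1, fun m => by rw [HahnSeries.coeff_add]; exact (hf.2 m).add (hg.2 m)⟩

theorem In.sub {n : ℕ} {f g : K} (hf : In n f) (hg : In n g) : In n (f - g) :=
  ⟨hf.1.sub hg.1, fun m => by rw [HahnSeries.coeff_sub]; exact (hf.2 m).sub (hg.2 m)⟩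

theorem In.mul {n m : ℕ} {f g : K} (hf : In n f) (hg : In m g) : In (n + m) (f * g) := by
  refine ⟨hf.1.mul hg.1, fun k => ?_⟩
  rcases lt_or_ge k 0 with h | h
  · rw [(hf.1.mul hg.1) k h]
    exact Iq_zero _
  · obtain ⟨k, rfl⟩ := Int.eq_ofNat_of_zero_le h
    rw [coeff_mul_nat hf.1 hg.1]
    exact Iq.sum _ _ fun i _ => (hf.2 _).mul (hg.2 _)

theorem In.mul' {n : ℕ} {f g : K} (hf : In 0 f) (hg : In n g) : In n (f * g) := by
  have := hf.mul hg
  rwa [zero_add] at this

theorem In.pow {f : K} (hf : In 0 f) (k : ℕ) : In 0 (f ^ k) := by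
  induction k with
  | zero =>
    rw [pow_zero]
    refine ⟨lead_one.1, fun m => ?_⟩
    rw [HahnSeries.coeff_one]
    split_ifs
    · exact_mod_cast Iq_int 1
    · exact Iq_zero 0
  | succ k ih =>
    rw [pow_succ]
    exact ih.mul' hf

theorem In_rat {r : ℚ} (hr : Iq 0 r) : In 0 (r : K) := by
  have h : (r : K) = HahnSeries.C r := (map_ratCast HahnSeries.C r).symm
  refine ⟨(lead_rat r).1, fun m => ?_⟩
  rw [h, HahnSeries.C_apply]
  by_cases hm : m = 0
  · subst hm
    rw [HahnSeries.coeff_single_same]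
    exact hr
  · rw [HahnSeries.coeff_single_of_ne hm]
    exact Iq_zero 0

theorem In_int (z : ℤ) : In 0 (z : K) := by
  have := In_rat (Iq_int z)
  rwa [Rat.cast_intCast] at this

theorem In_ofNat (z : ℕ) [z.AtLeastTwo] : In 0 (OfNat.ofNat z : K) := by
  have := In_int (OfNat.ofNat z)
  exact_mod_cast this

theorem In.div_int {n : ℕ} {f : K} (hf : In n f) (d : ℤ) (hd : ¬ (7 : ℤ) ∣ d) : In n (f / (d : K)) := by
  have h1 : f / (d : K) = (((1 : ℤ) / (d : ℤ) : ℚ) : K) * f := by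
    push_cast
    rw [one_div, div_eq_mul_inv, mul_comm]
  rw [h1]
  refine (In_rat ?_).mul' hf
  exact Iq_frac 1 d hd

theorem In_ofZ (f : PowerSeries ℤ) : In 0 (ofZ f) := by
  refine ⟨ps_ofZ f, fun m => ?_⟩
  rcases lt_or_ge m 0 with h | h
  · rw [ps_ofZ f m h]
    exact Iq_zero 0
  · obtain ⟨k, rfl⟩ := Int.eq_ofNat_of_zero_le h
    rw [coeff_ofZ]
    exact Iq_int _

theorem In.V {n : ℕ} {f : K} (hf : In n f) : In n (V f) := by
  refine ⟨hf.1.V, fun m => ?_⟩
  by_cases h : (7 : ℤ) ∣ m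
  · obtain ⟨k, rfl⟩ := h
    rw [coeff_V_mul]
    exact hf.2 k
  · rw [coeff_V_of_not_dvd _ h]
    exact Iq_zero n

theorem In.D {n : ℕ} {f : K} (hf : In n f) : In n (D f) := by
  refine ⟨hf.1.D, fun m => ?_⟩
  rw [coeff_D]
  exact (Iq_int m).mul' (hf.2 m)

theorem In.inv {f : K} (hf : In 0 f) (h1 : f.coeff 0 = 1) : In 0 f⁻¹ := by
  have hl : Lead f 1 := ⟨hf.1, h1⟩
  have hi := hl.inv one_ne_zero
  have hne := hl.ne one_ne_zero
  refine ⟨hi.1, fun m => ?_⟩
  rcases lt_or_ge m 0 with h | h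
  · rw [hi.1 m h]
    exact Iq_zero 0
  · obtain ⟨k, rfl⟩ := Int.eq_ofNat_of_zero_le h
    clear h
    induction k using Nat.strong_induction_on with
    | _ k ih =>
      have h2 := coeff_mul_nat hf.1 hi.1 k
      rw [mul_inv_cancel₀ hne, Finset.sum_range_succ'] at h2
      have h3 : f⁻¹.coeff ((k : ℕ) : ℤ) = (1 : K).coeff (k : ℤ) -
          ∑ i ∈ Finset.range k, f.coeff ((i + 1 : ℕ) : ℤ) * f⁻¹.coeff ((k - (i + 1) : ℕ) : ℤ) := by
        rw [h2, Nat.cast_zero, h1, Nat.sub_zero]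
        ring
      rw [h3]
      refine Iq.sub ?_ (Iq.sum _ _ fun i hi => (hf.2 _).mul' (ih _ (by
        rw [Finset.mem_range] at hi
        omega)))
      rw [HahnSeries.coeff_one]
      split_ifs
      · exact_mod_cast Iq_int 1
      · exact Iq_zero 0

theorem In_φ : In 0 φ := In_ofZ _
theorem In_φ7 : In 0 φ7 := In_φ.V
theorem In_sg : In 0 sg := by
  rw [sg, div_eq_mul_inv]
  exact In_φ7.mul' (In_φ.inv lead_φ.2)

theorem In_qq : In 0 qq := by
  refine ⟨tr_qq.1, fun m => ?_⟩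
  rw [qq]
  by_cases hm : m = 1
  · subst hm
    rw [HahnSeries.coeff_single_same]
    exact_mod_cast Iq_int 1
  · rw [HahnSeries.coeff_single_of_ne hm]
    exact Iq_zero 0

theorem In_t : In 0 t := by
  rw [t, ← sg]
  exact In_qq.mul' (In_sg.pow 4)

theorem In_W : In 0 W :=
  ((by simpa using In_int 1 : In 0 (1 : K)).add ((In_ofNat 13).mul' In_t)).add
    ((In_ofNat 49).mul' (In_t.pow 2))

theorem In_E2 : In 0 E2 := In_ofZ _
theorem In_E4 : In 0 E4 := In_ofZ _

theorem In_Y : In 0 Y := by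
  have h := (((In_ofNat 7).mul' In_E2.V).sub In_E2).div_int 6 (by norm_num)
  have e : Y = (OfNat.ofNat 7 * V E2 - E2) / ((6 : ℤ) : K) := by
    rw [Y, F2]
    norm_num
  rw [e]
  exact h

theorem In_Winv : In 0 W⁻¹ := In_W.inv lead_W.2

theorem In_sv (k : ℕ) (r : Fin 4) : In 0 (sv k r) := by
  induction k with
  | zero =>
    refine ⟨ps_kk _, fun m => ?_⟩
    rcases lt_or_ge m 0 with h | h
    · have h2 : (sv 0 r).coeff m = 0 := ps_kk _ m h
      rw [h2]
      exact Iq_zero 0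
    · obtain ⟨n, rfl⟩ := Int.eq_ofNat_of_zero_le h
      change Iq 0 ((kk (TS (u ((r : ℕ) : ℤ)) (fun k => ((6 * (k : ℚ) + (r : ℕ)) ^ 2 / 12) ^ 0))).coeff
        (n : ℤ))
      rw [coeff_kk, coeff_TS' (FF_u4 r)]
      refine Iq.sum _ _ fun i _ => ?_
      rw [pow_zero]
      exact_mod_cast Iq_int 1
  | succ k ih =>
    rw [sv_succ]
    have hr : In 0 (rr r) := by
      fin_cases r
      · change In 0 (0 : K)
        simpa using In_int 0
      · change In 0 (1 / 12 : K)
        have := (In_int 1).div_int 12 (by norm_num)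
        simpa using this
      · change In 0 (4 / 12 : K)
        have := (In_int 4).div_int 12 (by norm_num)
        simpa using this
      · change In 0 (9 / 12 : K)
        have := (In_int 9).div_int 12 (by norm_num)
        simpa using this
    have hk : In 0 ((4 * (k : K) + 1) / 24) := by
      have := (In_int (4 * (k : ℤ) + 1)).div_int 24 (by norm_num)
      push_cast at this
      exact this
    exact (ih.D.add (hr.mul' ih)).sub ((hk.mul' In_E2).mul' ih)

theorem In_Sv (k : ℕ) (r : Fin 4) : In 0 (Sv k r) := ((In_ofNat 24).pow k).mul' (In_sv k r)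

/-- leading terms -/
def sl (j : Fin 4) (r : Fin 4) : ℚ := (![![1, 1, 1, 2], ![-1, 1, 7, 34], ![5, -3, 21, 442],
  ![-45, 21, -21, 3978]] : Fin 4 → Fin 4 → ℚ) j r

theorem Sv_zero (j r : Fin 4) : (Sv (j : ℕ) r).coeff 0 = sl j r := by
  have key : ∀ {f : K} {l : List ℤ}, Tr f l → f.coeff 0 = (l.getD 0 0 : ℤ) := fun h => h.lead.2
  fin_cases j <;> fin_cases r
  · exact (key tr_S0_0).trans (by norm_num [sl])
  · exact (key tr_S0_1).trans (by norm_num [sl])
  · exact (key tr_S0_2).trans (by norm_num [sl])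
  · exact (key tr_S0_3).trans (by norm_num [sl])
  · exact (key tr_S1_0).trans (by norm_num [sl])
  · exact (key tr_S1_1).trans (by norm_num [sl])
  · exact (key tr_S1_2).trans (by norm_num [sl])
  · exact (key tr_S1_3).trans (by norm_num [sl])
  · exact (key tr_S2_0).trans (by norm_num [sl])
  · exact (key tr_S2_1).trans (by norm_num [sl])
  · exact (key tr_S2_2).trans (by norm_num [sl])
  · exact (key tr_S2_3).trans (by norm_num [sl])
  · exact (key tr_S3_0).trans (by norm_num [sl])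
  · exact (key tr_S3_1).trans (by norm_num [sl])
  · exact (key tr_S3_2).trans (by norm_num [sl])
  · exact (key tr_S3_3).trans (by norm_num [sl])

/-- multiplicities as integers -/
def mz (r : Fin 4) : ℤ := (![1, 2, 2, 1] : Fin 4 → ℤ) r

theorem mv_mz (r : Fin 4) : mv r = (mz r : K) := by
  fin_cases r
  · change (1 : K) = ((1 : ℤ) : K)
    norm_num
  · change (2 : K) = ((2 : ℤ) : K)
    norm_num
  · change (2 : K) = ((2 : ℤ) : K)
    norm_num
  · change (1 : K) = ((1 : ℤ) : K)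
    norm_num

theorem coeff_int_mul (z : ℤ) (f : K) (n : ℤ) : ((z : K) * f).coeff n = z * f.coeff n := by
  have h1 : (z : K) = HahnSeries.C (z : ℚ) := (map_intCast HahnSeries.C z).symm
  rw [h1, coeff_C_mul']

theorem recover {n : ℕ} {X : Fin 4 → K} (hX : ∀ r, Ps (X r))
    (hZ : ∀ j : Fin 4, In n (pr4 X (Sv (j : ℕ)))) (m : ℕ) : ∀ r, Iq n ((X r).coeff (m : ℤ)) := by
  induction m using Nat.strong_induction_on with
  | _ m ih =>
    have h1 : ∀ j : Fin 4, Iq n (∑ r, (mz r : ℚ) * (X r).coeff (m : ℤ) * sl j r) := by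
      intro j
      have h2 := (hZ j).2 m
      rw [pr4, coeff_sum'] at h2
      have h3 : ∀ r, (mv r * X r * Sv (j : ℕ) r).coeff (m : ℤ) =
          (∑ i ∈ Finset.range m, (mz r : ℚ) * (X r).coeff (i : ℤ) *
            (Sv (j : ℕ) r).coeff ((m - i : ℕ) : ℤ)) + (mz r : ℚ) * (X r).coeff (m : ℤ) * sl j r := by
        intro r
        rw [mv_mz, coeff_mul_nat ((In_int (mz r)).1.mul (hX r)) (In_Sv _ _).1, Finset.sum_range_succ]
        congr 1
        · refine Finset.sum_congr rfl fun i _ => ?_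
          rw [coeff_int_mul]
        · rw [coeff_int_mul, Nat.sub_self, Nat.cast_zero, Sv_zero]
      rw [Finset.sum_congr rfl fun r _ => h3 r, Finset.sum_add_distrib] at h2
      have h4 : Iq n (∑ r, ∑ i ∈ Finset.range m, (mz r : ℚ) * (X r).coeff (i : ℤ) *
            (Sv (j : ℕ) r).coeff ((m - i : ℕ) : ℤ)) := by
        refine Iq.sum _ _ fun r _ => Iq.sum _ _ fun i hi => ?_
        rw [Finset.mem_range] at hi
        have h5 := ((Iq_int (mz r)).mul' (ih i hi r)).mul ((In_Sv (j : ℕ) r).2 ((m - i : ℕ) : ℤ))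
        exact h5
      have h5 := h2.sub h4
      rwa [add_sub_cancel_left] at h5
    have e0 : ∑ r, (mz r : ℚ) * (X r).coeff (m : ℤ) * sl 0 r = (X 0).coeff (m : ℤ) +
        2 * (X 1).coeff (m : ℤ) + 2 * (X 2).coeff (m : ℤ) + 2 * (X 3).coeff (m : ℤ) := by
      simp only [Fin.sum_univ_four, mz, sl, Matrix.cons_val, Fin.isValue]
      push_cast
      ring
    have e1 : ∑ r, (mz r : ℚ) * (X r).coeff (m : ℤ) * sl 1 r = -(X 0).coeff (m : ℤ) +
        2 * (X 1).coeff (m : ℤ) + 14 * (X 2).coeff (m : ℤ) + 34 * (X 3).coeff (m : ℤ) := by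
      simp only [Fin.sum_univ_four, mz, sl, Matrix.cons_val, Fin.isValue]
      push_cast
      ring
    have e2 : ∑ r, (mz r : ℚ) * (X r).coeff (m : ℤ) * sl 2 r = 5 * (X 0).coeff (m : ℤ) -
        6 * (X 1).coeff (m : ℤ) + 42 * (X 2).coeff (m : ℤ) + 442 * (X 3).coeff (m : ℤ) := by
      simp only [Fin.sum_univ_four, mz, sl, Matrix.cons_val, Fin.isValue]
      push_cast
      ring
    have e3 : ∑ r, (mz r : ℚ) * (X r).coeff (m : ℤ) * sl 3 r = -45 * (X 0).coeff (m : ℤ) +
        42 * (X 1).coeff (m : ℤ) - 42 * (X 2).coeff (m : ℤ) + 3978 * (X 3).coeff (m : ℤ) := by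
      simp only [Fin.sum_univ_four, mz, sl, Matrix.cons_val, Fin.isValue]
      push_cast
      ring
    have z0 := h1 0
    have z1 := h1 1
    have z2 := h1 2
    have z3 := h1 3
    rw [e0] at z0
    rw [e1] at z1
    rw [e2] at z2
    rw [e3] at z3
    have hc : ∀ a b : ℤ, ¬ (7 : ℤ) ∣ b → ∀ {x : ℚ}, Iq n x → Iq n ((a : ℚ) / b * x) :=
      fun a b hb x hx => (Iq_frac a b hb).mul' hx
    intro r
    fin_cases r
    · have := (((hc 119 288 (by norm_num) z0).add (hc (-59) 288 (by norm_num) z1)).add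
        (hc 13 288 (by norm_num) z2)).add (hc (-1) 288 (by norm_num) z3)
      change Iq n ((X 0).coeff (m : ℤ))
      convert this using 1
      push_cast
      ring
    · have := (((hc 119 384 (by norm_num) z0).add (hc 19 384 (by norm_num) z1)).add
        (hc (-11) 384 (by norm_num) z2)).add (hc 1 384 (by norm_num) z3)
      change Iq n ((X 1).coeff (m : ℤ))
      convert this using 1
      push_cast
      ring
    · have := (((hc (-17) 960 (by norm_num) z0).add (hc 53 960 (by norm_num) z1)).add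
        (hc 1 192 (by norm_num) z2)).add (hc (-1) 960 (by norm_num) z3)
      change Iq n ((X 2).coeff (m : ℤ))
      convert this using 1
      push_cast
      ring
    · have := (((hc 7 5760 (by norm_num) z0).add (hc (-13) 5760 (by norm_num) z1)).add
        (hc 1 1152 (by norm_num) z2)).add (hc 1 5760 (by norm_num) z3)
      change Iq n ((X 3).coeff (m : ℤ))
      convert this using 1
      push_cast
      ring

/-! ### the conclusion for the vectors -/

theorem In_ev {n : ℕ} (p : Polynomial ℤ) (h : ∀ i, (7 : ℤ) ^ n ∣ p.coeff i) : In n (ev p) := by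
  have h1 : ev p = ∑ i ∈ p.support, (p.coeff i : K) * t ^ i := by
    conv_lhs => rw [p.as_sum_support_C_mul_X_pow]
    rw [map_sum]
    refine Finset.sum_congr rfl fun i _ => ?_
    rw [map_mul, map_pow, ev_C, ev_X]
  rw [h1]
  have h2 : ∀ s : Finset ℕ, In n (∑ i ∈ s, (p.coeff i : K) * t ^ i) := by
    classical
    intro s
    induction s using Finset.induction_on with
    | empty =>
      rw [Finset.sum_empty]
      exact ⟨lead_zero.1, fun m => by rw [HahnSeries.coeff_zero]; exact Iq_zero n⟩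
    | insert a s ha ih =>
      rw [Finset.sum_insert ha]
      refine In.add ?_ ih
      obtain ⟨z, hz⟩ := h a
      have h3 : In n ((p.coeff a : K)) := by
        refine ⟨(In_int _).1, fun m => ?_⟩
        rw [show (p.coeff a : K) = HahnSeries.C (p.coeff a : ℚ) from (map_intCast HahnSeries.C _).symm,
          HahnSeries.C_apply]
        by_cases hm : m = 0
        · subst hm
          rw [HahnSeries.coeff_single_same]
          exact ⟨1, z, by norm_num, by rw [hz]; push_cast; ring⟩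
        · rw [HahnSeries.coeff_single_of_ne hm]
          exact Iq_zero n
      have := h3.mul (In_t.pow a)
      rwa [add_zero] at this
  exact h2 _

theorem In_κv (α : ℕ) : In 0 (κv α) := by
  induction α with
  | zero =>
    have := ((In_int (-5)).div_int 12 (by norm_num)).div_int 26542080 (by norm_num)
    change In 0 (-5 / 12 / 26542080)
    push_cast at this
    exact this
  | succ α ih =>
    have := (ih.div_int 26542080 (by norm_num)).div_int 26542080 (by norm_num)
    change In 0 (κv α / 26542080 / 26542080)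
    push_cast at this
    exact this

theorem Ps_stepU (c : ℕ) (hc : c ≤ 2) (F : Fin 4 → K) (hF : ∀ r, Ps (F r)) (r : Fin 4) :
    Ps (stepU c F r) := by
  intro n hn
  rw [coeff_stepU, hF, mul_zero]
  have : (0 : ℤ) ≤ er r := by positivity
  omega

theorem Ps_CC (β : ℤ) : Ps (CC β) := by
  rw [CC, div_eq_mul_inv]
  exact (ps_kk _).mul (((lead_φ.pow 6).cast (by norm_num)).inv one_ne_zero).1

theorem Ps_neg {f : K} (hf : Ps f) : Ps (-f) := fun n hn => by
  rw [HahnSeries.coeff_neg, hf n hn, neg_zero]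

theorem Ps_Fv (r : Fin 4) : Ps (Fv r) := by
  fin_cases r
  · exact Ps_CC 0
  · exact Ps_neg (Ps_CC 1)
  · exact Ps_CC 2
  · exact Ps_neg (Ps_CC 3)

theorem Ps_Av (α : ℕ) (r : Fin 4) : Ps (Av α r) := by
  induction α generalizing r with
  | zero => exact Ps_stepU 1 (by norm_num) _ Ps_Fv r
  | succ α ih => exact Ps_stepU 1 (by norm_num) _ (fun r => Ps_stepU 2 le_rfl _ ih r) r

/-- the congruence between the vectors -/
theorem Av_congr (α : ℕ) : ∃ x : ℤ, ∀ r : Fin 4, ∀ m : ℕ,
    Iq (α + 1) (26542080 ^ 2 * (Av (α + 1) r).coeff (m : ℤ) - x * (Av α r).coeff (m : ℤ)) := by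
  obtain ⟨x, hx⟩ := main_lattice α
  refine ⟨x, fun r m => ?_⟩
  set X : Fin 4 → K := fun r => ((26542080 ^ 2 : ℤ) : K) * Av (α + 1) r - (x : K) * Av α r with hXdef
  have hX : ∀ r, Ps (X r) := fun r => by
    rw [hXdef]
    exact ((In_int _).1.mul (Ps_Av _ _)).sub ((In_int _).1.mul (Ps_Av _ _))
  have hP : ∀ j, PJ X j = sg ^ 1 * κv α * ev ((TT^[α + 1] wv - x • TT^[α] wv) j) := by
    intro j
    have h1 : PJ X j = ((26542080 ^ 2 : ℤ) : K) * PJ (Av (α + 1)) j - (x : K) * PJ (Av α) j := by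
      rw [PJ, PJ, PJ, pr4_eq, pr4_eq, pr4_eq, hXdef]
      ring
    have h2 : κv (α + 1) = κv α / 26542080 / 26542080 := rfl
    have h3 : ev ((TT^[α + 1] wv - x • TT^[α] wv) j) = ev (TT^[α + 1] wv j) - x * ev (TT^[α] wv j) := by
      rw [Pi.sub_apply, Pi.smul_apply, map_sub, zsmul_eq_mul, map_mul, map_intCast]
    rw [h1, PJ_Av, PJ_Av, h3, h2]
    push_cast
    ring
  have hI : ∀ j, In (α + 1) (PJ X j) := by
    intro j
    rw [hP]
    refine ((In_sg.pow 1).mul' (In_κv α)).mul' (In_ev _ fun i => ?_)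
    exact (pow_dvd_pow 7 (by omega)).trans (hx j i)
  have hZ : ∀ j : Fin 4, In (α + 1) (pr4 X (Sv (j : ℕ))) := by
    have hY := Y_ne
    have hW := W_ne
    intro j
    fin_cases j
    · have e : pr4 X (Sv 0) = PJ X 0 := by
        rw [PJ, pr4_eq, pr4_eq]
        simp only [Sv, zv, pow_zero, one_mul, Matrix.cons_val, Fin.isValue]
      change In (α + 1) (pr4 X (Sv 0))
      rw [e]
      exact hI 0
    · have e : pr4 X (Sv 1) = OfNat.ofNat 24 * Y * PJ X 1 := by
        rw [PJ, pr4_eq, pr4_eq]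
        simp only [Sv, zv, pow_one, Matrix.cons_val, Fin.isValue]
        field_simp
      change In (α + 1) (pr4 X (Sv 1))
      rw [e]
      exact ((In_ofNat 24).mul' In_Y).mul' (hI 1)
    · have e : pr4 X (Sv 2) = OfNat.ofNat 24 ^ 2 * (Y ^ 2 * W⁻¹) * PJ X 2 := by
        rw [PJ, pr4_eq, pr4_eq]
        simp only [Sv, zv, Matrix.cons_val, Fin.isValue]
        field_simp
      change In (α + 1) (pr4 X (Sv 2))
      rw [e]
      exact (((In_ofNat 24).pow 2).mul' ((In_Y.pow 2).mul' In_Winv)).mul' (hI 2)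
    · have e : pr4 X (Sv 3) = OfNat.ofNat 24 ^ 3 * (Y ^ 3 * W⁻¹ ^ 2) * PJ X 3 := by
        rw [PJ, pr4_eq, pr4_eq]
        simp only [Sv, zv, Matrix.cons_val, Fin.isValue]
        field_simp
      change In (α + 1) (pr4 X (Sv 3))
      rw [e]
      exact (((In_ofNat 24).pow 3).mul' ((In_Y.pow 3).mul' (In_Winv.pow 2))).mul' (hI 3)
  have h := recover hX hZ m r
  rw [hXdef] at h
  simp only [HahnSeries.coeff_sub, coeff_int_mul] at h
  push_cast at h
  exact h

end

end Pool.Agent.H47.Fad
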