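import Pool.Agent.H47.Fad.Defs
import Pool.Agent.H47.Fad.Recover

/-!
# The generating functions and the final congruence
-/

set_option autoImplicit false

namespace Pool.Agent.H47.Fad

open PowerSeries Q279.QS
open scoped PowerSeries.WithPiTopology

noncomputable section

theorem eulerProd_eq : Cp.eulerProd = eul 1 := by
  unfold Cp.eulerProd eul
  refine tprod_congr fun i => ?_
  rw [Nat.one_mul]

theorem thetaNum_eq : Cp.thetaNum = TS e1 (fun m => LaurentPolynomial.T (2 * m + 1)) := by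
  ext1 n
  rw [Cp.thetaNum, coeff_mk, coeff_TS' FF_e1]
  refine Finset.sum_congr ?_ fun _ _ => rfl
  ext m
  rw [Finset.mem_filter, Finset.mem_Icc, Set.Finite.mem_toFinset]
  have h1 := two_e1 m
  have h2 := e1_bound m
  constructor
  · rintro ⟨_, h⟩
    change e1 m = n
    omega
  · intro h
    have h' : e1 m = n := h
    rw [h'] at h1 h2
    exact ⟨by omega, h1.symm⟩

theorem theta_six : Cp.thetaNum ^ 6 = TS e6 (fun p => LaurentPolynomial.T (2 * s6 p + 6)) := by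
  rw [thetaNum_eq, TS_pow_six]
  refine TS_congr (fun _ => rfl) fun p => ?_
  obtain ⟨a, b, c, d, e, f⟩ := p
  rw [← LaurentPolynomial.T_add, ← LaurentPolynomial.T_add, ← LaurentPolynomial.T_add,
    ← LaurentPolynomial.T_add, ← LaurentPolynomial.T_add]
  congr 1
  simp only [s6]
  ring

/-- coefficient extraction -/
def chi (β : ℤ) : LaurentPolynomial ℤ →+ ℤ where
  toFun f := f.coeff (2 * β)
  map_zero' := by simp
  map_add' f g := by simp

theorem chi_C (β : ℤ) (a : LaurentPolynomial ℤ) (b : ℤ) :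
    chi β (a * LaurentPolynomial.C b) = chi β a * b := by
  rw [mul_comm a, ← LaurentPolynomial.smul_eq_C_mul, mul_comm]
  rfl

theorem chi_T (β m : ℤ) : chi β (LaurentPolynomial.T m) = if m = 2 * β then 1 else 0 := by
  change (LaurentPolynomial.T m : LaurentPolynomial ℤ).coeff (2 * β) = _
  rw [LaurentPolynomial.T_apply]

theorem chi_mul (β : ℤ) (A : PowerSeries (LaurentPolynomial ℤ)) (P : PowerSeries ℤ) (m : ℕ) :
    chi β (coeff m (A * PowerSeries.map LaurentPolynomial.C P)) =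
      coeff m ((PowerSeries.mk fun i => chi β (coeff i A)) * P) := by
  rw [PowerSeries.coeff_mul, PowerSeries.coeff_mul, map_sum]
  refine Finset.sum_congr rfl fun p _ => ?_
  rw [PowerSeries.coeff_map, chi_C, coeff_mk]

theorem chi_theta (β : ℤ) : (PowerSeries.mk fun i => chi β (coeff i (Cp.thetaNum ^ 6))) = num ℤ β := by
  ext n
  rw [coeff_mk, theta_six, num, coeff_TS' FF_e6, coeff_TS' FF_e6, map_sum]
  refine Finset.sum_congr rfl fun p _ => ?_
  rw [chi_T]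
  refine if_congr ?_ rfl rfl
  constructor <;> intro h <;> omega

theorem cpsi_eq (β : ℤ) (m : ℕ) : Cp.cpsi β m =
    coeff m (num ℤ β * invOfUnit Cp.eulerProd 1 ^ 6) := by
  have h : Cp.cpsi β m = chi β (coeff m Cp.F6) := by
    rw [Cp.cpsi, if_neg (by omega)]
    rfl
  rw [h, Cp.F6, ← map_pow, chi_mul, chi_theta]

theorem kk_num (β : ℤ) : kk (num ℚ β) = ofZ (num ℤ β) := by
  have h : num ℚ β = PowerSeries.map (Int.castRingHom ℚ) (num ℤ β) := by
    rw [num, num, map_TS _ FF_e6]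
    refine TS_congr (fun _ => rfl) fun p => ?_
    split_ifs <;> simp
  rw [h]
  rfl

theorem φ_inv : φ⁻¹ = ofZ (invOfUnit Cp.eulerProd 1) := by
  apply inv_eq_of_mul_eq_one_right
  rw [φ, ← map_mul, eulerProd_eq, PowerSeries.mul_invOfUnit, map_one]
  rw [constCoeff_eul le_rfl]
  simp

/-- the coefficients of `CC β` are the values of `cψ` -/
theorem coeff_CC (β n : ℤ) : (CC β).coeff n = (Cp.cpsi β n : ℚ) := by
  rcases lt_or_ge n 0 with hn | hn
  · rw [Ps_CC β n hn, Cp.cpsi, if_pos hn]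
    simp
  · obtain ⟨m, rfl⟩ := Int.eq_ofNat_of_zero_le hn
    have h : CC β = ofZ (num ℤ β * invOfUnit Cp.eulerProd 1 ^ 6) := by
      rw [CC, kk_num, map_mul, map_pow, ← φ_inv, inv_pow, div_eq_mul_inv]
    rw [h, coeff_ofZ, cpsi_eq]

theorem final (α : ℕ) (hα : 1 ≤ α) : ∃ x : ℤ, ∀ β : ℤ, 0 ≤ β → β ≤ 3 → ∀ n : ℤ,
    12 * n ≡ β ^ 2 - 6 [ZMOD 7 ^ (2 * α - 1)] →
    Cp.cpsi β (49 * n + 24 - 4 * β ^ 2) ≡ x * Cp.cpsi β n [ZMOD 7 ^ α] := by
  obtain ⟨a, rfl⟩ : ∃ a, α = a + 1 := ⟨α - 1, by omega⟩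
  obtain ⟨x, hx⟩ := Av_congr a
  -- an inverse of `26542080^2`
  obtain ⟨u, v, huv⟩ : IsCoprime ((26542080 : ℤ) ^ 2) (7 ^ (a + 1)) := by
    apply IsCoprime.pow
    rw [Int.isCoprime_iff_gcd_eq_one]
    norm_num
  refine ⟨-(u * x), fun β hβ0 hβ3 n hn => ?_⟩
  obtain ⟨r, hr⟩ : ∃ r : Fin 4, ((r : ℕ) : ℤ) = 3 - β := by
    have : β = 0 ∨ β = 1 ∨ β = 2 ∨ β = 3 := by omega
    rcases this with rfl | rfl | rfl | rfl
    · exact ⟨3, rfl⟩
    · exact ⟨2, rfl⟩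
    · exact ⟨1, rfl⟩
    · exact ⟨0, rfl⟩
  -- the index
  have hd : (7 : ℤ) ^ (2 * a + 1) ∣ 12 * n + 6 - β ^ 2 := by
    have h1 := hn.symm.dvd
    rw [show 2 * (a + 1) - 1 = 2 * a + 1 by omega] at h1
    rwa [show 12 * n - (β ^ 2 - 6) = 12 * n + 6 - β ^ 2 by ring] at h1
  obtain ⟨w, hw⟩ := hd
  have h7 : (7 : ℤ) ^ (2 * a + 1) % 12 = 7 := by
    clear hw hn hx huv
    induction a with
    | zero => norm_num
    | succ a ih =>
      have : (7 : ℤ) ^ (2 * (a + 1) + 1) = 49 * 7 ^ (2 * a + 1) := by ring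
      rw [this]
      omega
  have hw2 : ∃ n' : ℤ, w = 12 * n' + 3 - (3 - β) ^ 2 := by
    have h1 : (7 * w - (6 - β ^ 2)) % 12 = 0 := by
      have h2 : (7 : ℤ) ^ (2 * a + 1) * w = 12 * (n) + (6 - β ^ 2) := by rw [← hw]; ring
      obtain ⟨c, hc⟩ : ∃ c, (7 : ℤ) ^ (2 * a + 1) = 12 * c + 7 := ⟨(7 : ℤ) ^ (2 * a + 1) / 12, by omega⟩
      rw [hc] at h2
      have h3 : 7 * w - (6 - β ^ 2) = 12 * (n - c * w) := by linear_combination h2
      rw [h3]
      omega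
    have : β = 0 ∨ β = 1 ∨ β = 2 ∨ β = 3 := by omega
    rcases this with rfl | rfl | rfl | rfl
    · exact ⟨(w + 6) / 12, by norm_num at h1 ⊢; omega⟩
    · exact ⟨(w + 1) / 12, by norm_num at h1 ⊢; omega⟩
    · exact ⟨(w - 2) / 12, by norm_num at h1 ⊢; omega⟩
    · exact ⟨(w - 3) / 12, by norm_num at h1 ⊢; omega⟩
  obtain ⟨n', hn'⟩ := hw2
  have e1 : (Av a r).coeff n' = (-1) ^ (a + 1) * (Cp.cpsi β n : ℚ) := by
    rw [coeff_Av a r n' n, coeff_CC, hr, sub_sub_cancel]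
    rw [hr, sub_sub_cancel, hw, hn']
  have e2 : (Av (a + 1) r).coeff n' =
      (-1) ^ (a + 1 + 1) * (Cp.cpsi β (49 * n + 24 - 4 * β ^ 2) : ℚ) := by
    rw [coeff_Av (a + 1) r n' (49 * n + 24 - 4 * β ^ 2), coeff_CC, hr, sub_sub_cancel]
    rw [hr, sub_sub_cancel]
    have : (7 : ℤ) ^ (2 * (a + 1) + 1) = 49 * 7 ^ (2 * a + 1) := by ring
    rw [this]
    rw [hn'] at hw
    linear_combination 49 * hw
  have key : (7 : ℤ) ^ (a + 1) ∣ 26542080 ^ 2 * Cp.cpsi β (49 * n + 24 - 4 * β ^ 2) +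
      x * Cp.cpsi β n := by
    rcases lt_or_ge n' 0 with h0 | h0
    · have z1 : (Av a r).coeff n' = 0 := Ps_Av a r n' h0
      have z2 : (Av (a + 1) r).coeff n' = 0 := Ps_Av (a + 1) r n' h0
      rw [e1] at z1
      rw [e2] at z2
      have p1 : (Cp.cpsi β n : ℚ) = 0 := (mul_eq_zero.1 z1).resolve_left (pow_ne_zero _ (by norm_num))
      have p2 : (Cp.cpsi β (49 * n + 24 - 4 * β ^ 2) : ℚ) = 0 :=
        (mul_eq_zero.1 z2).resolve_left (pow_ne_zero _ (by norm_num))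
      have q1 : Cp.cpsi β n = 0 := by exact_mod_cast p1
      have q2 : Cp.cpsi β (49 * n + 24 - 4 * β ^ 2) = 0 := by exact_mod_cast p2
      rw [q1, q2]
      simp
    · obtain ⟨m, rfl⟩ := Int.eq_ofNat_of_zero_le h0
      have h1 := hx r m
      rw [e1, e2] at h1
      have h2 : (26542080 : ℚ) ^ 2 * ((-1) ^ (a + 1 + 1) * (Cp.cpsi β (49 * n + 24 - 4 * β ^ 2) : ℚ)) -
          x * ((-1) ^ (a + 1) * (Cp.cpsi β n : ℚ)) = (((-1) ^ (a + 1 + 1) *
          (26542080 ^ 2 * Cp.cpsi β (49 * n + 24 - 4 * β ^ 2) + x * Cp.cpsi β n) : ℤ) : ℚ) := by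
        push_cast
        ring
      rw [h2] at h1
      have h3 := h1.int_dvd
      have h4 := h3.mul_left ((-1) ^ (a + 1 + 1))
      rw [← mul_assoc, ← pow_add, Even.neg_one_pow ⟨a + 1 + 1, rfl⟩, one_mul] at h4
      exact h4
  obtain ⟨y, hy⟩ := key
  refine (Int.modEq_iff_dvd.2 ⟨?_, ?_⟩ : Cp.cpsi β (49 * n + 24 - 4 * β ^ 2) ≡
    -(u * x) * Cp.cpsi β n [ZMOD 7 ^ (a + 1)])
  · exact -(u * y) - v * Cp.cpsi β (49 * n + 24 - 4 * β ^ 2)
  · linear_combination (-u) * hy + (Cp.cpsi β (49 * n + 24 - 4 * β ^ 2)) * huv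

end

end Pool.Agent.H47.Fad
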