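import Pool.Agent.H47.Fad.Level7

/-!
# The modular equation of degree 7
-/

set_option autoImplicit false

namespace Pool.Agent.H47.Fad

open HahnSeries

noncomputable section

/-- `φ(q^49)` -/
def φ49 : K := V φ7

/-- `t(q^7)` -/
def T : K := V t

/-- `q^2 φ(q^49)/φ(q)` -/
def vv : K := qq ^ 2 * (φ49 / φ)

theorem lead_φ49 : Lead φ49 1 := lead_φ7.V
theorem φ49_ne : φ49 ≠ 0 := lead_φ49.ne one_ne_zero

theorem V_qq : V qq = qq ^ 7 := by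
  have h : ∀ n : ℕ, (qq ^ n : K) = HahnSeries.single (n : ℤ) (1 : ℚ) := by
    intro n
    rw [qq, HahnSeries.single_pow, one_pow]
    simp
  rw [h 7]
  have h1 : (V qq) = HahnSeries.single (7 : ℤ) (1 : ℚ) := by
    ext n
    by_cases hn : (7 : ℤ) ∣ n
    · obtain ⟨m, rfl⟩ := hn
      rw [coeff_V_mul, qq]
      by_cases hm : m = 1
      · subst hm
        simp
      · rw [HahnSeries.coeff_single_of_ne hm, HahnSeries.coeff_single_of_ne (by omega)]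
    · rw [coeff_V_of_not_dvd _ hn, HahnSeries.coeff_single_of_ne]
      rintro rfl
      exact hn (dvd_refl _)
  rw [h1]
  norm_num

theorem V_φ : V φ = φ7 := rfl
theorem V_φ7 : V φ7 = φ49 := rfl

theorem T_eq : T = qq ^ 7 * (φ49 / φ7) ^ 4 := by
  rw [T, t, map_mul, map_pow, map_div₀, V_qq, V_φ7, V_φ]

theorem vv_ne : vv ≠ 0 := mul_ne_zero (pow_ne_zero _ qq_ne) (div_ne_zero φ49_ne φ_ne)

theorem T_ne : T ≠ 0 := by
  rw [T_eq]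
  exact mul_ne_zero (pow_ne_zero _ qq_ne) (pow_ne_zero _ (div_ne_zero φ49_ne φ7_ne))

theorem tT : t * T = vv ^ 4 := by
  have h1 := φ_ne
  have h2 := φ7_ne
  rw [T_eq, t, vv]
  field_simp

theorem VEe : V Ee = φ7 ^ 7 / φ49 := by
  rw [Ee, map_div₀, map_pow, V_φ, V_φ7]

theorem VEe_ne : V Ee ≠ 0 := (lead_Ee.V).ne one_ne_zero

theorem Ee_vv : Ee * vv ^ 7 = V Ee * T ^ 2 := by
  have h1 := φ_ne
  have h2 := φ7_ne
  have h3 := φ49_ne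
  rw [VEe, Ee, vv, T_eq]
  field_simp

theorem F6_eq1 : F6 = Ee ^ 2 * pr7 := by
  have h := W_ne
  rw [F6_eq, Y3_eq]
  field_simp

/-- the polynomial `pr` at `T` -/
def prT : K := 1 - 490 * T - 21609 * T ^ 2 - 235298 * T ^ 3 - 823543 * T ^ 4

theorem V_pr : V pr = prT := by
  rw [pr, prT, T]
  simp only [map_sub, map_mul, map_pow, map_one, map_ofNat]

theorem F6_eq2 : F6 = (V Ee) ^ 2 * prT := by
  have h := W_ne
  have h1 : Ee ^ 2 * W ^ 2 * pr / W ^ 2 = Ee ^ 2 * pr := by field_simp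
  rw [F6, E6_eq, Y3_eq, ← V_pr, h1, map_mul, map_pow]

theorem G_zero : vv ^ 14 * prT - (T ^ 4 + 14 * T ^ 3 * vv ^ 4 + 63 * T ^ 2 * vv ^ 8 +
    70 * T * vv ^ 12 - 7 * vv ^ 16) = 0 := by
  have h1 : Ee ^ 2 * pr7 = (V Ee) ^ 2 * prT := by rw [← F6_eq1, F6_eq2]
  have h2 := Ee_vv
  have h3 := VEe_ne
  have h5 : T ^ 4 * pr7 = T ^ 4 + 14 * T ^ 3 * vv ^ 4 + 63 * T ^ 2 * vv ^ 8 +
    70 * T * vv ^ 12 - 7 * vv ^ 16 := by
    have e1 : vv ^ 8 = (t * T) ^ 2 := by rw [tT]; ring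
    have e2 : vv ^ 12 = (t * T) ^ 3 := by rw [tT]; ring
    have e3 : vv ^ 16 = (t * T) ^ 4 := by rw [tT]; ring
    rw [e1, e2, e3, ← tT, pr7]
    ring
  rw [← h5]
  have h4 : (V Ee) ^ 2 * (vv ^ 14 * prT - T ^ 4 * pr7) = 0 := by
    linear_combination (-vv ^ 14) * h1 + pr7 * (Ee * vv ^ 7 + V Ee * T ^ 2) * h2
  rcases mul_eq_zero.1 h4 with h6 | h6
  · exact absurd h6 (pow_ne_zero _ h3)
  · exact h6

/-- the cofactor -/
def Hc : K := T ^ 2 - 7 * vv * T ^ 2 + 28 * vv ^ 2 * T ^ 2 - 98 * vv ^ 3 * T ^ 2 + 7 * vv ^ 4 * T +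
  294 * vv ^ 4 * T ^ 2 - 35 * vv ^ 5 * T - 686 * vv ^ 5 * T ^ 2 + 98 * vv ^ 6 * T +
  1372 * vv ^ 6 * T ^ 2 + vv ^ 7 - 245 * vv ^ 7 * T - 2401 * vv ^ 7 * T ^ 2 + 343 * vv ^ 8 * T +
  2401 * vv ^ 8 * T ^ 2 + 7 * vv ^ 9

/-- `φ(q^49)/φ(q)` -/
def v' : K := φ49 / φ
/-- `(φ(q^49)/φ(q^7))^4` -/
def T' : K := (φ49 / φ7) ^ 4

theorem lead_v' : Lead v' 1 := (lead_φ49.div lead_φ one_ne_zero).cast (by norm_num)
theorem lead_T' : Lead T' 1 := ((lead_φ49.div lead_φ7 one_ne_zero).pow 4).cast (by norm_num)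

theorem Hc_ne : Hc ≠ 0 := by
  have h1 : Hc = qq ^ 14 * (T' ^ 2 + v' ^ 7 + qq * (- 7 * qq * v' * T' ^ 2 + 28 * qq ^ 3 * v' ^ 2 * T' ^ 2 -
      98 * qq ^ 5 * v' ^ 3 * T' ^ 2 + 7 * v' ^ 4 * T' +
      294 * qq ^ 7 * v' ^ 4 * T' ^ 2 - 35 * qq ^ 2 * v' ^ 5 * T' - 686 * qq ^ 9 * v' ^ 5 * T' ^ 2 +
      98 * qq ^ 4 * v' ^ 6 * T' + 1372 * qq ^ 11 * v' ^ 6 * T' ^ 2 - 245 * qq ^ 6 * v' ^ 7 * T' -
      2401 * qq ^ 13 * v' ^ 7 * T' ^ 2 + 343 * qq ^ 8 * v' ^ 8 * T' +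
      2401 * qq ^ 15 * v' ^ 8 * T' ^ 2 + 7 * qq ^ 3 * v' ^ 9)) := by
    rw [Hc, vv, T_eq, ← v', ← T']
    ring
  rw [h1]
  refine mul_ne_zero (pow_ne_zero _ qq_ne) ?_
  have l1 := lead_v'
  have l2 := lead_T'
  have l3 := lead_qq
  have l4 :=
    ((((((((((((((((lead_ofNat 7).neg.mul l3).mul l1).mul (l2.pow 2)).add
      ((((lead_ofNat 28).mul (l3.pow 3)).mul (l1.pow 2)).mul (l2.pow 2))).sub
      ((((lead_ofNat 98).mul (l3.pow 5)).mul (l1.pow 3)).mul (l2.pow 2))).add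
      (((lead_ofNat 7).mul (l1.pow 4)).mul l2)).add
      ((((lead_ofNat 294).mul (l3.pow 7)).mul (l1.pow 4)).mul (l2.pow 2))).sub
      ((((lead_ofNat 35).mul (l3.pow 2)).mul (l1.pow 5)).mul l2)).sub
      ((((lead_ofNat 686).mul (l3.pow 9)).mul (l1.pow 5)).mul (l2.pow 2))).add
      ((((lead_ofNat 98).mul (l3.pow 4)).mul (l1.pow 6)).mul l2)).add
      ((((lead_ofNat 1372).mul (l3.pow 11)).mul (l1.pow 6)).mul (l2.pow 2))).sub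
      ((((lead_ofNat 245).mul (l3.pow 6)).mul (l1.pow 7)).mul l2)).sub
      ((((lead_ofNat 2401).mul (l3.pow 13)).mul (l1.pow 7)).mul (l2.pow 2))).add
      ((((lead_ofNat 343).mul (l3.pow 8)).mul (l1.pow 8)).mul l2)).add
      ((((lead_ofNat 2401).mul (l3.pow 15)).mul (l1.pow 8)).mul (l2.pow 2))).add
      (((lead_ofNat 7).mul (l3.pow 3)).mul (l1.pow 9))
  have l5 := ((l2.pow 2).add (l1.pow 7)).add (l3.mul l4)
  exact l5.ne (by norm_num)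

/-- the modular equation -/
theorem mod_eq : vv ^ 7 = T ^ 2 + 7 * T ^ 2 * vv + 21 * T ^ 2 * vv ^ 2 + 49 * T ^ 2 * vv ^ 3 +
    (147 * T ^ 2 + 7 * T) * vv ^ 4 + (343 * T ^ 2 + 35 * T) * vv ^ 5 +
    (343 * T ^ 2 + 49 * T) * vv ^ 6 := by
  have h : (vv ^ 7 - (T ^ 2 + 7 * T ^ 2 * vv + 21 * T ^ 2 * vv ^ 2 + 49 * T ^ 2 * vv ^ 3 +
    (147 * T ^ 2 + 7 * T) * vv ^ 4 + (343 * T ^ 2 + 35 * T) * vv ^ 5 +
    (343 * T ^ 2 + 49 * T) * vv ^ 6)) * Hc = 0 := by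
    rw [← G_zero, Hc, prT]
    ring
  rcases mul_eq_zero.1 h with h1 | h1
  · exact sub_eq_zero.1 h1
  · exact absurd h1 Hc_ne

end

end Pool.Agent.H47.Fad
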