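import Pool.Agent.H47.Fad.Taylor

/-!
# The differential equation of order four of the unary theta series
-/

set_option autoImplicit false
set_option linter.unusedSimpArgs false

namespace Pool.Agent.H47.Fad

noncomputable section

theorem D_ofNat' (m : ℕ) [m.AtLeastTwo] : D (ofNat(m) : K) = 0 := D_ofNat m

/-- derivatives of the vector `Fv` -/
def Fh : ℕ → Fin 4 → K
  | 0 => Fv
  | k + 1 => fun r => D (Fh k r) + (1 / 2 - rr r) * Fh k r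

theorem pr4_rule (k j : ℕ) : pr4 (Fh (k + 1)) (Hv j) =
    D (pr4 (Fh k) (Hv j)) + pr4 (Fh k) (Hv j) / 2 - pr4 (Fh k) (Hv (j + 1)) := by
  have h1 : ∀ r, Fh (k + 1) r = D (Fh k r) + (1 / 2 - rr r) * Fh k r := fun r => rfl
  have h2 := fun r => Hv_succ j r
  rw [pr4_eq, pr4_eq, pr4_eq]
  simp only [map_add, D_mul, D_ofNat', h1, h2]
  ring

theorem D_phi12 (x : K) : D (φ ^ 12 * x) = φ ^ 12 * (D x + E2 / 2 * x - x / 2) := by
  rw [D_mul, D_pow', Dφ]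
  push_cast
  ring

theorem N_0_0 : pr4 (Fh 0) (Hv 0) = 0 := T_0

theorem N_0_1 : pr4 (Fh 0) (Hv 1) = 0 := T_1

theorem N_0_2 : pr4 (Fh 0) (Hv 2) = 0 := T_2

theorem N_0_3 : pr4 (Fh 0) (Hv 3) = φ ^ 12 * ((-5) / 12) := T_3

theorem N_0_4 : pr4 (Fh 0) (Hv 4) = φ ^ 12 * ((-35 * E2) / 72) := T_4

theorem N_0_5 : pr4 (Fh 0) (Hv 5) = φ ^ 12 * ((-525 * E2 ^ 2 + 35 * E4) / 1152) := T_5

theorem N_0_6 : pr4 (Fh 0) (Hv 6) = φ ^ 12 * ((-17325 * E2 ^ 3 + 3465 * E2 * E4 - 220 * E6) / 41472) := T_6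

theorem N_0_7 : pr4 (Fh 0) (Hv 7) = φ ^ 12 * ((-1576575 * E2 ^ 4 + 630630 * E2 ^ 2 * E4 - 80080 * E2 * E6 - 15015 * E4 ^ 2) / 3981312) := T_7

theorem N_1_0 : pr4 (Fh 1) (Hv 0) = 0 := by
  rw [pr4_rule, N_0_0, N_0_1]
  simp only [map_zero, Dφ, D_ofNat_mul, D_div_ofNat, D_mul, D_pow', map_add, map_sub, map_neg, DE2, DE4, DE6, D_ofNat']
  try push_cast
  try ring

theorem N_1_1 : pr4 (Fh 1) (Hv 1) = 0 := by
  rw [pr4_rule, N_0_1, N_0_2]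
  simp only [map_zero, Dφ, D_ofNat_mul, D_div_ofNat, D_mul, D_pow', map_add, map_sub, map_neg, DE2, DE4, DE6, D_ofNat']
  try push_cast
  try ring

theorem N_1_2 : pr4 (Fh 1) (Hv 2) = φ ^ 12 * ((5) / 12) := by
  rw [pr4_rule, N_0_2, N_0_3]
  simp only [map_zero, Dφ, D_ofNat_mul, D_div_ofNat, D_mul, D_pow', map_add, map_sub, map_neg, DE2, DE4, DE6, D_ofNat']
  try push_cast
  try ring

theorem N_1_3 : pr4 (Fh 1) (Hv 3) = φ ^ 12 * ((5 * E2) / 18) := by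
  rw [pr4_rule, N_0_3, N_0_4]
  simp only [map_zero, Dφ, D_ofNat_mul, D_div_ofNat, D_mul, D_pow', map_add, map_sub, map_neg, DE2, DE4, DE6, D_ofNat']
  try push_cast
  try ring

theorem N_1_4 : pr4 (Fh 1) (Hv 4) = φ ^ 12 * ((595 * E2 ^ 2 + 35 * E4) / 3456) := by
  rw [pr4_rule, N_0_4, N_0_5]
  simp only [map_zero, Dφ, D_ofNat_mul, D_div_ofNat, D_mul, D_pow', map_add, map_sub, map_neg, DE2, DE4, DE6, D_ofNat']
  try push_cast
  try ring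

theorem N_1_5 : pr4 (Fh 1) (Hv 5) = φ ^ 12 * ((4725 * E2 ^ 3 + 735 * E2 * E4 - 200 * E6) / 41472) := by
  rw [pr4_rule, N_0_5, N_0_6]
  simp only [map_zero, Dφ, D_ofNat_mul, D_div_ofNat, D_mul, D_pow', map_add, map_sub, map_neg, DE2, DE4, DE6, D_ofNat']
  try push_cast
  try ring

theorem N_1_6 : pr4 (Fh 1) (Hv 6) = φ ^ 12 * ((329175 * E2 ^ 4 + 90090 * E2 ^ 2 * E4 - 51920 * E2 * E6 - 2145 * E4 ^ 2) / 3981312) := by
  rw [pr4_rule, N_0_6, N_0_7]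
  simp only [map_zero, Dφ, D_ofNat_mul, D_div_ofNat, D_mul, D_pow', map_add, map_sub, map_neg, DE2, DE4, DE6, D_ofNat']
  try push_cast
  try ring

theorem N_2_0 : pr4 (Fh 2) (Hv 0) = 0 := by
  rw [pr4_rule, N_1_0, N_1_1]
  simp only [map_zero, Dφ, D_ofNat_mul, D_div_ofNat, D_mul, D_pow', map_add, map_sub, map_neg, DE2, DE4, DE6, D_ofNat']
  try push_cast
  try ring

theorem N_2_1 : pr4 (Fh 2) (Hv 1) = φ ^ 12 * ((-5) / 12) := by
  rw [pr4_rule, N_1_1, N_1_2]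
  simp only [map_zero, Dφ, D_ofNat_mul, D_div_ofNat, D_mul, D_pow', map_add, map_sub, map_neg, DE2, DE4, DE6, D_ofNat']
  try push_cast
  try ring

theorem N_2_2 : pr4 (Fh 2) (Hv 2) = φ ^ 12 * ((-5 * E2) / 72) := by
  rw [pr4_rule, N_1_2, N_1_3]
  simp only [map_zero, Dφ, D_ofNat_mul, D_div_ofNat, D_mul, D_pow', map_add, map_sub, map_neg, DE2, DE4, DE6, D_ofNat']
  try push_cast
  try ring

theorem N_2_3 : pr4 (Fh 2) (Hv 3) = φ ^ 12 * ((-35 * E2 ^ 2 - 115 * E4) / 3456) := by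
  rw [pr4_rule, N_1_3, N_1_4]
  simp only [map_zero, Dφ, D_ofNat_mul, D_div_ofNat, D_mul, D_pow', map_add, map_sub, map_neg, DE2, DE4, DE6, D_ofNat']
  try push_cast
  try ring

theorem N_2_4 : pr4 (Fh 2) (Hv 4) = φ ^ 12 * ((35 * E2 ^ 3 - 1575 * E2 * E4 + 60 * E6) / 41472) := by
  rw [pr4_rule, N_1_4, N_1_5]
  simp only [map_zero, Dφ, D_ofNat_mul, D_div_ofNat, D_mul, D_pow', map_add, map_sub, map_neg, DE2, DE4, DE6, D_ofNat']
  try push_cast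
  try ring

theorem N_2_5 : pr4 (Fh 2) (Hv 5) = φ ^ 12 * ((11025 * E2 ^ 4 - 138810 * E2 ^ 2 * E4 + 9200 * E2 * E6 + 5865 * E4 ^ 2) / 3981312) := by
  rw [pr4_rule, N_1_5, N_1_6]
  simp only [map_zero, Dφ, D_ofNat_mul, D_div_ofNat, D_mul, D_pow', map_add, map_sub, map_neg, DE2, DE4, DE6, D_ofNat']
  try push_cast
  try ring

theorem N_3_0 : pr4 (Fh 3) (Hv 0) = φ ^ 12 * ((5) / 12) := by
  rw [pr4_rule, N_2_0, N_2_1]
  simp only [map_zero, Dφ, D_ofNat_mul, D_div_ofNat, D_mul, D_pow', map_add, map_sub, map_neg, DE2, DE4, DE6, D_ofNat']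
  try push_cast
  try ring

theorem N_3_1 : pr4 (Fh 3) (Hv 1) = φ ^ 12 * ((-5 * E2) / 36) := by
  rw [pr4_rule, N_2_1, N_2_2]
  simp only [map_zero, Dφ, D_ofNat_mul, D_div_ofNat, D_mul, D_pow', map_add, map_sub, map_neg, DE2, DE4, DE6, D_ofNat']
  try push_cast
  try ring

theorem N_3_2 : pr4 (Fh 3) (Hv 2) = φ ^ 12 * ((-35 * E2 ^ 2 + 45 * E4) / 1152) := by
  rw [pr4_rule, N_2_2, N_2_3]
  simp only [map_zero, Dφ, D_ofNat_mul, D_div_ofNat, D_mul, D_pow', map_add, map_sub, map_neg, DE2, DE4, DE6, D_ofNat']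
  try push_cast
  try ring

theorem N_3_3 : pr4 (Fh 3) (Hv 3) = φ ^ 12 * ((-315 * E2 ^ 3 + 495 * E2 * E4 + 400 * E6) / 41472) := by
  rw [pr4_rule, N_2_3, N_2_4]
  simp only [map_zero, Dφ, D_ofNat_mul, D_div_ofNat, D_mul, D_pow', map_add, map_sub, map_neg, DE2, DE4, DE6, D_ofNat']
  try push_cast
  try ring

theorem N_3_4 : pr4 (Fh 3) (Hv 4) = φ ^ 12 * ((-8505 * E2 ^ 4 - 630 * E2 ^ 2 * E4 + 46960 * E2 * E6 + 3855 * E4 ^ 2) / 3981312) := by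
  rw [pr4_rule, N_2_4, N_2_5]
  simp only [map_zero, Dφ, D_ofNat_mul, D_div_ofNat, D_mul, D_pow', map_add, map_sub, map_neg, DE2, DE4, DE6, D_ofNat']
  try push_cast
  try ring

/-- the operator of order four applied to the theta series -/
def Zv : Fin 4 → K := fun r => Hv 4 r + ((-7 * E2) / 6) * Hv 3 r + ((105 * E2 ^ 2 - 7 * E4) / 288) * Hv 2 r +
  ((-35 * E2 ^ 3 + 7 * E2 * E4 + 4 * E6) / 1152) * Hv 1 r + ((35 * E2 ^ 4 - 14 * E2 ^ 2 * E4 - 16 * E2 * E6 - 5 * E4 ^ 2) / 110592) * Hv 0 r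

theorem pr4_Zv (F : Fin 4 → K) : pr4 F Zv = pr4 F (Hv 4) + ((-7 * E2) / 6) * pr4 F (Hv 3) +
    ((105 * E2 ^ 2 - 7 * E4) / 288) * pr4 F (Hv 2) + ((-35 * E2 ^ 3 + 7 * E2 * E4 + 4 * E6) / 1152) * pr4 F (Hv 1) + ((35 * E2 ^ 4 - 14 * E2 ^ 2 * E4 - 16 * E2 * E6 - 5 * E4 ^ 2) / 110592) * pr4 F (Hv 0) := by
  simp only [pr4_eq, Zv]
  ring

theorem pr4_Zv_0 : pr4 (Fh 0) Zv = 0 := by
  rw [pr4_Zv, N_0_4, N_0_3, N_0_2, N_0_1, N_0_0]
  ring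

theorem pr4_Zv_1 : pr4 (Fh 1) Zv = 0 := by
  rw [pr4_Zv, N_1_4, N_1_3, N_1_2, N_1_1, N_1_0]
  ring

theorem pr4_Zv_2 : pr4 (Fh 2) Zv = 0 := by
  rw [pr4_Zv, N_2_4, N_2_3, N_2_2, N_2_1, N_2_0]
  ring

theorem pr4_Zv_3 : pr4 (Fh 3) Zv = 0 := by
  rw [pr4_Zv, N_3_4, N_3_3, N_3_2, N_3_1, N_3_0]
  ring

theorem detN {F : Type} [Field F] (N : Matrix (Fin 4) (Fin 4) F) (h00 : N 0 0 = 0) (h01 : N 0 1 = 0)
    (h02 : N 0 2 = 0) (h10 : N 1 0 = 0) (h11 : N 1 1 = 0) (h20 : N 2 0 = 0) :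
    N.det = N 0 3 * N 1 2 * N 2 1 * N 3 0 := by
  rw [Matrix.det_succ_row_zero]
  simp only [Fin.sum_univ_succ, Matrix.det_succ_row_zero, Matrix.submatrix_apply, Fin.succAbove,
    Matrix.det_fin_one, Finset.univ_unique, Finset.sum_singleton]
  simp [h00, h01, h02, h10, h11, h20, Fin.succAbove, Fin.lt_def]
  try ring

/-- the matrix of the derivatives of `Fv` -/
def MF : Matrix (Fin 4) (Fin 4) K := fun k r => mv r * Fh (k : ℕ) r

theorem MF_det : MF.det ≠ 0 := by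
  let B : Matrix (Fin 4) (Fin 4) K := fun r j => Hv (j : ℕ) r
  have hN : ∀ k j : Fin 4, (MF * B) k j = pr4 (Fh (k : ℕ)) (Hv (j : ℕ)) := by
    intro k j
    rw [Matrix.mul_apply]
    rfl
  have h := detN (MF * B) ((hN 0 0).trans N_0_0) ((hN 0 1).trans N_0_1) ((hN 0 2).trans N_0_2)
    ((hN 1 0).trans N_1_0) ((hN 1 1).trans N_1_1) ((hN 2 0).trans N_2_0)
  have e1 := (hN 0 3).trans N_0_3
  have e2 := (hN 1 2).trans N_1_2
  have e3 := (hN 2 1).trans N_2_1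
  have e4 := (hN 3 0).trans N_3_0
  rw [e1, e2, e3, e4, Matrix.det_mul] at h
  have hφ := φ_ne
  intro h0
  rw [h0, zero_mul] at h
  have h1 : φ ^ 48 = 0 := by linear_combination (-20736 / 625) * h
  exact pow_ne_zero _ hφ h1

theorem Zv_zero (r : Fin 4) : Zv r = 0 := by
  have h : MF.mulVec Zv = 0 := by
    funext k
    have hk : MF.mulVec Zv k = pr4 (Fh (k : ℕ)) Zv := rfl
    rw [hk]
    fin_cases k
    · exact pr4_Zv_0
    · exact pr4_Zv_1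
    · exact pr4_Zv_2
    · exact pr4_Zv_3
  exact congrFun (Matrix.eq_zero_of_mulVec_eq_zero MF_det h) r

/-- Serre derivatives of the unary theta series -/
def sv : ℕ → Fin 4 → K
  | 0 => Hv 0
  | k + 1 => fun r => D (sv k r) + rr r * sv k r - (4 * (k : K) + 1) / 24 * E2 * sv k r

theorem sv_succ (k : ℕ) (r : Fin 4) :
    sv (k + 1) r = D (sv k r) + rr r * sv k r - (4 * (k : K) + 1) / 24 * E2 * sv k r := rfl

theorem D_Hv (j : ℕ) (r : Fin 4) : D (Hv j r) = Hv (j + 1) r - rr r * Hv j r := by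
  rw [Hv_succ]; ring

theorem D_rr (r : Fin 4) : D (rr r) = 0 := by
  fin_cases r
  · exact map_zero D
  · change D (1 / 12 : K) = 0
    rw [D_div_ofNat, D_one, zero_div]
  · change D (4 / 12 : K) = 0
    rw [D_div_ofNat, D_ofNat, zero_div]
  · change D (9 / 12 : K) = 0
    rw [D_div_ofNat, D_ofNat, zero_div]

theorem sv_0 (r : Fin 4) : sv 0 r = Hv 0 r := rfl

theorem sv_1 (r : Fin 4) : sv 1 r = Hv 1 r + ((-E2) / 24) * Hv 0 r := by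
  rw [sv_succ, sv_0]
  simp only [map_add, map_sub, map_neg, D_mul, D_pow', D_ofNat', D_div_ofNat, D_one, D_Hv, DE2, DE4, DE6, D_ofNat_mul]
  push_cast
  ring

theorem sv_2 (r : Fin 4) : sv 2 r = Hv 2 r + ((-E2) / 4) * Hv 1 r + ((3 * E2 ^ 2 + 2 * E4) / 576) * Hv 0 r := by
  rw [sv_succ, sv_1]
  simp only [map_add, map_sub, map_neg, D_mul, D_pow', D_ofNat', D_div_ofNat, D_one, D_Hv, DE2, DE4, DE6, D_ofNat_mul]
  push_cast
  ring

theorem sv_3 (r : Fin 4) : sv 3 r = Hv 3 r + ((-5 * E2) / 8) * Hv 2 r + ((45 * E2 ^ 2 + 14 * E4) / 576) * Hv 1 r + ((-15 * E2 ^ 3 - 14 * E2 * E4 - 16 * E6) / 13824) * Hv 0 r := by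
  rw [sv_succ, sv_2]
  simp only [map_add, map_sub, map_neg, D_mul, D_pow', D_ofNat', D_div_ofNat, D_one, D_Hv, DE2, DE4, DE6, D_ofNat_mul]
  push_cast
  ring

theorem sv_4 (r : Fin 4) : sv 4 r = Hv 4 r + ((-7 * E2) / 6) * Hv 3 r + ((105 * E2 ^ 2 + 22 * E4) / 288) * Hv 2 r + ((-105 * E2 ^ 3 - 66 * E2 * E4 - 32 * E6) / 3456) * Hv 1 r + ((105 * E2 ^ 4 + 132 * E2 ^ 2 * E4 + 128 * E2 * E6 + 220 * E4 ^ 2) / 331776) * Hv 0 r := by
  rw [sv_succ, sv_3]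
  simp only [map_add, map_sub, map_neg, D_mul, D_pow', D_ofNat', D_div_ofNat, D_one, D_Hv, DE2, DE4, DE6, D_ofNat_mul]
  push_cast
  ring

theorem sv_mode (r : Fin 4) : sv 4 r = 29 / 288 * E4 * sv 2 r - 11 / 864 * E6 * sv 1 r +
    119 / 331776 * E4 ^ 2 * sv 0 r := by
  have h := Zv_zero r
  rw [Zv] at h
  rw [sv_4, sv_2, sv_1, sv_0]
  linear_combination h

end

end Pool.Agent.H47.Fad
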