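import Pool.Agent.H47.Fad.Mode

/-!
# The transformation of the theta vector under `q ↦ q^7`
-/

set_option autoImplicit false
set_option linter.unusedSimpArgs false
set_option linter.unusedVariables false

namespace Pool.Agent.H47.Fad

noncomputable section

/-- evaluation of coefficient lists at the Hauptmodul -/
def evL (l : List ℤ) : K := l.foldr (fun c x => (c : K) + t * x) 0

@[simp] theorem evL_nil : evL [] = 0 := rfl
@[simp] theorem evL_cons (c : ℤ) (l : List ℤ) : evL (c :: l) = (c : K) + t * evL l := rfl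

/-- `t d/dt` on coefficient lists -/
def dL : ℕ → List ℤ → List ℤ
  | _, [] => []
  | n, c :: l => ((n : ℤ) * c) :: dL (n + 1) l

theorem D_evL_aux (l : List ℤ) : ∀ n : ℕ, D (t ^ n * evL l) = Y * (t ^ n * evL (dL n l)) := by
  induction l with
  | nil => intro n; simp [dL]
  | cons c l ih =>
    intro n
    have h1 : t ^ n * evL (c :: l) = (c : K) * t ^ n + t ^ (n + 1) * evL l := by
      rw [evL_cons]; ring
    rw [h1, map_add, ih (n + 1), D_mul, D_intCast, D_pow', Dt, dL, evL_cons]
    rcases n with _ | n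
    · simp
    · push_cast
      ring

theorem D_evL (l : List ℤ) : D (evL l) = Y * evL (dL 0 l) := by
  have := D_evL_aux l 0
  simpa using this

/-- `-1 + 39 t + 343 t^2` -/
def dd : K := -1 + 39 * t + 343 * t ^ 2

theorem lead_dd : Lead dd (-1) :=
  ((lead_neg_one.add ((lead_ofNat 39).mul lead_t)).add ((lead_ofNat 343).mul (lead_t.pow 2))).cast
    (by norm_num)

theorem DW' : D W = Y * (dd + W) / 4 := by
  rw [DW, dd, W]; ring

theorem DYd : D Y = Y * (E2 / 6 + Y * dd / (6 * W)) := by
  rw [DY, dd]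

/-- coefficients -/
def n00 : List ℤ := [32256, -40214016, -1704278016, -48492670464, -637540872192, -3904937842176, -9111521631744]
/-- derivative -/
def n00' : List ℤ := [0, -40214016, -3408556032, -145478011392, -2550163488768, -19524689210880, -54669129790464]

theorem D_n00 : D (evL n00) = Y * evL n00' := by
  rw [D_evL]
  congr 2

/-- coefficients -/
def n01 : List ℤ := [-1437696, -812961792, -31600558080, -604539113472, -5992512454656, -29600111923200, -58016219369472]
/-- derivative -/
def n01' : List ℤ := [0, -812961792, -63201116160, -1813617340416, -23970049818624, -148000559616000, -348097316216832]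

theorem D_n01 : D (evL n01) = Y * evL n01' := by
  rw [D_evL]
  congr 2

/-- coefficients -/
def n02 : List ℤ := [13271040, -1778319360, -56574443520, -509820272640, -1561324584960]
/-- derivative -/
def n02' : List ℤ := [0, -1778319360, -113148887040, -1529460817920, -6245298339840]

theorem D_n02 : D (evL n02) = Y * evL n02' := by
  rw [D_evL]
  congr 2

/-- coefficients -/
def n03 : List ℤ := [63700992, 3121348608, 21849440256]
/-- derivative -/
def n03' : List ℤ := [0, 3121348608, 43698880512]

theorem D_n03 : D (evL n03) = Y * evL n03' := by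
  rw [D_evL]
  congr 2

/-- coefficients -/
def n10 : List ℤ := [-1344, 1759296, 47615232, 901766208, 6324810240, 7747892544, -54235247808]
/-- derivative -/
def n10' : List ℤ := [0, 1759296, 95230464, 2705298624, 25299240960, 38739462720, -325411486848]

theorem D_n10 : D (evL n10) = Y * evL n10' := by
  rw [D_evL]
  congr 2

/-- coefficients -/
def n11 : List ℤ := [59904, 27772416, 732174336, 9028744704, 44874805248, 21142937088, -345334639104]
/-- derivative -/
def n11' : List ℤ := [0, 27772416, 1464348672, 27086234112, 179499220992, 105714685440, -2072007834624]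

theorem D_n11 : D (evL n11) = Y * evL n11' := by
  rw [D_evL]
  congr 2

/-- coefficients -/
def n12 : List ℤ := [-552960, 63037440, 855429120, 2275983360, -9293598720]
/-- derivative -/
def n12' : List ℤ := [0, 63037440, 1710858240, 6827950080, -37174394880]

theorem D_n12 : D (evL n12) = Y * evL n12' := by
  rw [D_evL]
  congr 2

/-- coefficients -/
def n13 : List ℤ := [-2654208, -55738368, 130056192]
/-- derivative -/
def n13' : List ℤ := [0, -55738368, 260112384]

theorem D_n13 : D (evL n13) = Y * evL n13' := by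
  rw [D_evL]
  congr 2

/-- coefficients -/
def n20 : List ℤ := [280, -360736, -13878848, -324388944, -4099377240, -27455185296, -94727210032, -150438246896, -79093069720]
/-- derivative -/
def n20' : List ℤ := [0, -360736, -27757696, -973166832, -16397508960, -137275926480, -568363260192, -1053067728272, -632744557760]

theorem D_n20 : D (evL n20) = Y * evL n20' := by
  rw [D_evL]
  congr 2

/-- coefficients -/
def n21 : List ℤ := [-12480, -6142464, -225778944, -4001516928, -39512144448, -222373452672, -680517312384, -999003777408, -503613015360]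
/-- derivative -/
def n21' : List ℤ := [0, -6142464, -451557888, -12004550784, -158048577792, -1111867263360, -4083103874304, -6993026441856, -4028904122880]

theorem D_n21 : D (evL n21) = Y * evL n21' := by
  rw [D_evL]
  congr 2

/-- coefficients -/
def n22 : List ℤ := [115200, -12648960, -349194240, -3295572480, -13737185280, -24395696640, -13553164800]
/-- derivative -/
def n22' : List ℤ := [0, -12648960, -698388480, -9886717440, -54948741120, -121978483200, -81318988800]

theorem D_n22 : D (evL n22) = Y * evL n22' := by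
  rw [D_evL]
  congr 2

/-- coefficients -/
def n23 : List ℤ := [552960, 19243008, 134590464, 306561024, 189665280]
/-- derivative -/
def n23' : List ℤ := [0, 19243008, 269180928, 919683072, 758661120]

theorem D_n23 : D (evL n23) = Y * evL n23' := by
  rw [D_evL]
  congr 2

/-- coefficients -/
def n30 : List ℤ := [-105, 133923, 6499731, 177055914, 2874921567, 27961097829, 162339012969, 538458060882, 885732849645, 427950002235, -207619308015]
/-- derivative -/
def n30' : List ℤ := [0, 133923, 12999462, 531167742, 11499686268, 139805489145, 974034077814, 3769206426174, 7085862797160, 3851550020115, -2076193080150]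

theorem D_n30 : D (evL n30) = Y * evL n30' := by
  rw [D_evL]
  congr 2

/-- coefficients -/
def n31 : List ℤ := [4680, 2376072, 108371880, 2408451696, 31603525128, 257886312120, 1304998418808, 3884592536496, 5864412055320, 2616989061960, -1321984165320]
/-- derivative -/
def n31' : List ℤ := [0, 2376072, 216743760, 7225355088, 126414100512, 1289431560600, 7829990512848, 27192147755472, 46915296442560, 23552901557640, -13219841653200]

theorem D_n31 : D (evL n31) = Y * evL n31' := by
  rw [D_evL]
  congr 2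

/-- coefficients -/
def n32 : List ℤ := [-43200, 4423680, 180368640, 2661448320, 19786507200, 77543222400, 143938166400, 76962614400, -35577057600]
/-- derivative -/
def n32' : List ℤ := [0, 4423680, 360737280, 7984344960, 79146028800, 387716112000, 863628998400, 538738300800, -284616460800]

theorem D_n32 : D (evL n32) = Y * evL n32' := by
  rw [D_evL]
  congr 2

/-- coefficients -/
def n33 : List ℤ := [-207360, -9414144, -127899648, -745625088, -1803202560, -1168473600, 497871360]
/-- derivative -/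
def n33' : List ℤ := [0, -9414144, -255799296, -2236875264, -7212810240, -5842368000, 2987228160]

theorem D_n33 : D (evL n33) = Y * evL n33' := by
  rw [D_evL]
  congr 2

theorem id00 : W * evL n00' + evL n03 * (119 / 331776 * W * pa ^ 2) =
    3 / 4 * W * evL n00 + (W / 4) * evL n00 + (7 * W) * evL n10 := by
  simp only [n00, n00', n03, n10, evL_cons, evL_nil, W, dd, pa, pb, pr, pr7]
  push_cast
  ring

theorem id01 : W * evL n01' + evL n00 * W + evL n01 * (-dd / 6) + evL n03 * (-11 / 864 * W * pr) =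
    3 / 4 * W * evL n01 + (W / 4) * evL n01 + (7 * W) * evL n11 := by
  simp only [n00, n01, n01', n03, n11, evL_cons, evL_nil, W, dd, pa, pb, pr, pr7]
  push_cast
  ring

theorem id02 : W * evL n02' + evL n01 * 1 + evL n02 * (-dd / 12 + W / 4) + evL n03 * (29 / 288 * W * pa) =
    3 / 4 * W * evL n02 + (W / 4) * evL n02 + (7 * W) * evL n12 := by
  simp only [n01, n02, n02', n03, n12, evL_cons, evL_nil, W, dd, pa, pb, pr, pr7]
  push_cast
  ring

theorem id03 : W * evL n03' + evL n02 * 1 + evL n03 * (W / 2) =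
    3 / 4 * W * evL n03 + (W / 4) * evL n03 + (7 * W) * evL n13 := by
  simp only [n02, n03, n03', n13, evL_cons, evL_nil, W, dd, pa, pb, pr, pr7]
  push_cast
  ring

theorem id10 : W * evL n10' + evL n13 * (119 / 331776 * W * pa ^ 2) =
    3 / 4 * W * evL n10 + (-dd / 6 + 5 / 4 * W) * evL n10 + 7 * evL n20 := by
  simp only [n10, n10', n13, n20, evL_cons, evL_nil, W, dd, pa, pb, pr, pr7]
  push_cast
  ring

theorem id11 : W * evL n11' + evL n10 * W + evL n11 * (-dd / 6) + evL n13 * (-11 / 864 * W * pr) =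
    3 / 4 * W * evL n11 + (-dd / 6 + 5 / 4 * W) * evL n11 + 7 * evL n21 := by
  simp only [n10, n11, n11', n13, n21, evL_cons, evL_nil, W, dd, pa, pb, pr, pr7]
  push_cast
  ring

theorem id12 : W * evL n12' + evL n11 * 1 + evL n12 * (-dd / 12 + W / 4) + evL n13 * (29 / 288 * W * pa) =
    3 / 4 * W * evL n12 + (-dd / 6 + 5 / 4 * W) * evL n12 + 7 * evL n22 := by
  simp only [n11, n12, n12', n13, n22, evL_cons, evL_nil, W, dd, pa, pb, pr, pr7]
  push_cast
  ring

theorem id13 : W * evL n13' + evL n12 * 1 + evL n13 * (W / 2) =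
    3 / 4 * W * evL n13 + (-dd / 6 + 5 / 4 * W) * evL n13 + 7 * evL n23 := by
  simp only [n12, n13, n13', n23, evL_cons, evL_nil, W, dd, pa, pb, pr, pr7]
  push_cast
  ring

theorem id20 : W * evL n20' + evL n23 * (119 / 331776 * W * pa ^ 2) =
    3 / 4 * W * evL n20 + (-dd / 12 + 5 / 2 * W) * evL n20 + 7 * evL n30 := by
  simp only [n20, n20', n23, n30, evL_cons, evL_nil, W, dd, pa, pb, pr, pr7]
  push_cast
  ring

theorem id21 : W * evL n21' + evL n20 * W + evL n21 * (-dd / 6) + evL n23 * (-11 / 864 * W * pr) =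
    3 / 4 * W * evL n21 + (-dd / 12 + 5 / 2 * W) * evL n21 + 7 * evL n31 := by
  simp only [n20, n21, n21', n23, n31, evL_cons, evL_nil, W, dd, pa, pb, pr, pr7]
  push_cast
  ring

theorem id22 : W * evL n22' + evL n21 * 1 + evL n22 * (-dd / 12 + W / 4) + evL n23 * (29 / 288 * W * pa) =
    3 / 4 * W * evL n22 + (-dd / 12 + 5 / 2 * W) * evL n22 + 7 * evL n32 := by
  simp only [n21, n22, n22', n23, n32, evL_cons, evL_nil, W, dd, pa, pb, pr, pr7]
  push_cast
  ring

theorem id23 : W * evL n23' + evL n22 * 1 + evL n23 * (W / 2) =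
    3 / 4 * W * evL n23 + (-dd / 12 + 5 / 2 * W) * evL n23 + 7 * evL n33 := by
  simp only [n22, n23, n23', n33, evL_cons, evL_nil, W, dd, pa, pb, pr, pr7]
  push_cast
  ring

theorem id30 : W * evL n30' + evL n33 * (119 / 331776 * W * pa ^ 2) =
    3 / 4 * W * evL n30 + (833 / 331776 * W * pb ^ 2) * evL n00 + (-77 / 864 * W * pr7) * evL n10 + (203 / 288 * W * pb) * evL n20 + (15 / 4 * W) * evL n30 := by
  simp only [n00, n10, n20, n30, n30', n33, evL_cons, evL_nil, W, dd, pa, pb, pr, pr7]
  push_cast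
  ring

theorem id31 : W * evL n31' + evL n30 * W + evL n31 * (-dd / 6) + evL n33 * (-11 / 864 * W * pr) =
    3 / 4 * W * evL n31 + (833 / 331776 * W * pb ^ 2) * evL n01 + (-77 / 864 * W * pr7) * evL n11 + (203 / 288 * W * pb) * evL n21 + (15 / 4 * W) * evL n31 := by
  simp only [n01, n11, n21, n30, n31, n31', n33, evL_cons, evL_nil, W, dd, pa, pb, pr, pr7]
  push_cast
  ring

theorem id32 : W * evL n32' + evL n31 * 1 + evL n32 * (-dd / 12 + W / 4) + evL n33 * (29 / 288 * W * pa) =
    3 / 4 * W * evL n32 + (833 / 331776 * W * pb ^ 2) * evL n02 + (-77 / 864 * W * pr7) * evL n12 + (203 / 288 * W * pb) * evL n22 + (15 / 4 * W) * evL n32 := by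
  simp only [n02, n12, n22, n31, n32, n32', n33, evL_cons, evL_nil, W, dd, pa, pb, pr, pr7]
  push_cast
  ring

theorem id33 : W * evL n33' + evL n32 * 1 + evL n33 * (W / 2) =
    3 / 4 * W * evL n33 + (833 / 331776 * W * pb ^ 2) * evL n03 + (-77 / 864 * W * pr7) * evL n13 + (203 / 288 * W * pb) * evL n23 + (15 / 4 * W) * evL n33 := by
  simp only [n03, n13, n23, n32, n33, n33', evL_cons, evL_nil, W, dd, pa, pb, pr, pr7]
  push_cast
  ring


/-- the system satisfied by `∂^k θ / g_k`, times `W` -/
structure Sys1 (ρ : K) (x : Fin 4 → K) : Prop where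
  h0 : W * D (x 0) = W * (E2 / 24 - ρ) * x 0 + Y * (W * x 1)
  h1 : W * D (x 1) = W * (E2 / 24 - ρ) * x 1 + Y * (-dd / 6 * x 1 + x 2)
  h2 : W * D (x 2) = W * (E2 / 24 - ρ) * x 2 + Y * ((-dd / 12 + W / 4) * x 2 + x 3)
  h3 : W * D (x 3) = W * (E2 / 24 - ρ) * x 3 + Y * (W / 2 * x 3 + 29 / 288 * W * pa * x 2 +
    -11 / 864 * W * pr * x 1 + 119 / 331776 * W * pa ^ 2 * x 0)

/-- the transformed system, times `W` -/
structure Sys2 (ρ : K) (x : Fin 4 → K) : Prop where
  h0 : W * D (x 0) = W * (E2 / 24 - ρ + 3 / 4 * Y) * x 0 + Y * (W / 4 * x 0 + 7 * W * x 1)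
  h1 : W * D (x 1) = W * (E2 / 24 - ρ + 3 / 4 * Y) * x 1 + Y * ((-dd / 6 + 5 / 4 * W) * x 1 + 7 * x 2)
  h2 : W * D (x 2) = W * (E2 / 24 - ρ + 3 / 4 * Y) * x 2 + Y * ((-dd / 12 + 5 / 2 * W) * x 2 + 7 * x 3)
  h3 : W * D (x 3) = W * (E2 / 24 - ρ + 3 / 4 * Y) * x 3 + Y * (15 / 4 * W * x 3 + 203 / 288 * W * pb * x 2 +
    -77 / 864 * W * pr7 * x 1 + 833 / 331776 * W * pb ^ 2 * x 0)

/-- the linear combinations -/
def RR4 (x : Fin 4 → K) : Fin 4 → K := ![
  evL n00 * x 0 + evL n01 * x 1 + evL n02 * x 2 + evL n03 * x 3,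
  evL n10 * x 0 + evL n11 * x 1 + evL n12 * x 2 + evL n13 * x 3,
  evL n20 * x 0 + evL n21 * x 1 + evL n22 * x 2 + evL n23 * x 3,
  evL n30 * x 0 + evL n31 * x 1 + evL n32 * x 2 + evL n33 * x 3]

theorem RR4_sys {ρ : K} {x : Fin 4 → K} (h : Sys1 ρ x) : Sys2 ρ (RR4 x) := by
  obtain ⟨h0, h1, h2, h3⟩ := h
  constructor
  · simp only [RR4, Matrix.cons_val, Fin.isValue]
    simp only [map_add, D_mul, D_n00, D_n01, D_n02, D_n03]
    linear_combination evL n00 * h0 + evL n01 * h1 + evL n02 * h2 + evL n03 * h3 +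
      Y * x 0 * id00 + Y * x 1 * id01 + Y * x 2 * id02 + Y * x 3 * id03
  · simp only [RR4, Matrix.cons_val, Fin.isValue]
    simp only [map_add, D_mul, D_n10, D_n11, D_n12, D_n13]
    linear_combination evL n10 * h0 + evL n11 * h1 + evL n12 * h2 + evL n13 * h3 +
      Y * x 0 * id10 + Y * x 1 * id11 + Y * x 2 * id12 + Y * x 3 * id13
  · simp only [RR4, Matrix.cons_val, Fin.isValue]
    simp only [map_add, D_mul, D_n20, D_n21, D_n22, D_n23]
    linear_combination evL n20 * h0 + evL n21 * h1 + evL n22 * h2 + evL n23 * h3 +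
      Y * x 0 * id20 + Y * x 1 * id21 + Y * x 2 * id22 + Y * x 3 * id23
  · simp only [RR4, Matrix.cons_val, Fin.isValue]
    simp only [map_add, D_mul, D_n30, D_n31, D_n32, D_n33]
    linear_combination evL n30 * h0 + evL n31 * h1 + evL n32 * h2 + evL n33 * h3 +
      Y * x 0 * id30 + Y * x 1 * id31 + Y * x 2 * id32 + Y * x 3 * id33

/-- normalised derivatives of the theta series -/
def zv (r : Fin 4) : Fin 4 → K := ![sv 0 r, sv 1 r / Y, sv 2 r * W / Y ^ 2, sv 3 r * W ^ 2 / Y ^ 3]

theorem D_sv (k : ℕ) (r : Fin 4) : D (sv k r) = sv (k + 1) r - rr r * sv k r +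
    (4 * (k : K) + 1) / 24 * E2 * sv k r := by
  rw [sv_succ]; ring

theorem zv_sys (r : Fin 4) : Sys1 (rr r) (zv r) := by
  have hY := Y_ne
  have hW := W_ne
  constructor
  · simp only [zv, Matrix.cons_val, Fin.isValue]
    rw [D_sv]
    push_cast
    field_simp
    ring
  · simp only [zv, Matrix.cons_val, Fin.isValue]
    rw [D_div _ _ hY, D_sv, DYd]
    push_cast
    field_simp
    ring
  · simp only [zv, Matrix.cons_val, Fin.isValue]
    rw [D_div _ _ (pow_ne_zero _ hY), D_mul, D_sv, D_pow', DYd, DW']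
    push_cast
    field_simp
    ring
  · simp only [zv, Matrix.cons_val, Fin.isValue]
    rw [D_div _ _ (pow_ne_zero _ hY), D_mul, D_sv, D_pow', D_pow', DYd, DW', sv_mode, E4_eq, E6_eq]
    push_cast
    field_simp
    ring

/-- the factor -/
def Cr (r : Fin 4) : K := (![-1, 1, -1, 1] : Fin 4 → K) r * qq ^ ((![6, 3, 1, 0] : Fin 4 → ℕ) r) *
  (φ7 / φ) ^ 3

/-- the reflected index -/
def rf (r : Fin 4) : Fin 4 := (![3, 2, 1, 0] : Fin 4 → Fin 4) r

/-- the transformed theta vector -/
def lv (r : Fin 4) : Fin 4 → K := ![Cr r * V (sv 0 (rf r)), Cr r * V (sv 1 (rf r)) / Y,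
  Cr r * V (sv 2 (rf r)) * W / Y ^ 2, Cr r * V (sv 3 (rf r)) * W ^ 2 / Y ^ 3]

theorem D_Cr (r : Fin 4) : D (Cr r) = Cr r * (3 / 4 * Y - rr r + 7 * rr (rf r)) := by
  have h1 := φ_ne
  have key : ∀ n : ℕ, D (qq ^ n * (φ7 / φ) ^ 3) = qq ^ n * (φ7 / φ) ^ 3 * (n + 3 / 4 * (Y - 1)) := by
    intro n
    rw [D_mul, D_pow', D_pow', D_div _ _ h1, D_qq, Dφ, Dφ7, F2_eq]
    rcases n with _ | n
    · push_cast
      field_simp
      ring
    · simp only [Nat.add_sub_cancel]
      push_cast
      field_simp
      ring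
  have k6 := key 6
  have k3 := key 3
  have k1 := key 1
  have k0 := key 0
  push_cast at k6 k3 k1 k0
  fin_cases r
  · simp only [Cr, rf, rr, Matrix.cons_val, Fin.zero_eta, Fin.isValue]
    rw [mul_assoc, D_mul, map_neg, D_one, k6]
    ring
  · simp only [Cr, rf, rr, Matrix.cons_val, Fin.mk_one, Fin.isValue]
    rw [mul_assoc, D_mul, D_one, k3]
    ring
  · simp only [Cr, rf, rr, Matrix.cons_val, Fin.reduceFinMk, Fin.isValue]
    rw [mul_assoc, D_mul, map_neg, D_one, k1]
    ring
  · simp only [Cr, rf, rr, Matrix.cons_val, Fin.reduceFinMk, Fin.isValue]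
    rw [mul_assoc, D_mul, D_one, k0]
    ring

theorem V_rr (r : Fin 4) : V (rr r) = rr r := by
  fin_cases r
  · exact map_zero V
  · change V (1 / 12 : K) = 1 / 12
    rw [map_div₀, map_one, map_ofNat]
  · change V (4 / 12 : K) = 4 / 12
    rw [map_div₀, map_ofNat, map_ofNat]
  · change V (9 / 12 : K) = 9 / 12
    rw [map_div₀, map_ofNat, map_ofNat]

theorem D_V_sv (k : ℕ) (r : Fin 4) : D (V (sv k r)) = 7 * V (sv (k + 1) r) -
    7 * rr r * V (sv k r) + (4 * (k : K) + 1) / 24 * (E2 + 6 * Y) * V (sv k r) := by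
  rw [D_V, D_sv, map_add, map_sub, map_mul, map_mul, map_mul, V_rr, map_div₀, map_add, map_mul,
    map_one, map_ofNat, map_ofNat, map_natCast]
  change 7 * (V (sv (k + 1) r) - rr r * V (sv k r) + (4 * (k : K) + 1) / 24 * F2 * V (sv k r)) = _
  rw [F2_eq]
  ring

theorem V_sv_mode (r : Fin 4) : V (sv 4 r) = 29 / 288 * F4 * V (sv 2 r) -
    11 / 864 * F6 * V (sv 1 r) + 119 / 331776 * F4 ^ 2 * V (sv 0 r) := by
  rw [sv_mode]
  simp only [map_add, map_sub, map_mul, map_div₀, map_pow, map_ofNat]
  rfl

theorem lv_sys (r : Fin 4) : Sys2 (rr r) (lv r) := by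
  have hY := Y_ne
  have hW := W_ne
  constructor
  · simp only [lv, Matrix.cons_val, Fin.isValue]
    rw [D_mul, D_V_sv, D_Cr]
    push_cast
    field_simp
    ring
  · simp only [lv, Matrix.cons_val, Fin.isValue]
    rw [D_div _ _ hY, D_mul, D_V_sv, D_Cr, DYd]
    push_cast
    field_simp
    ring
  · simp only [lv, Matrix.cons_val, Fin.isValue]
    rw [D_div _ _ (pow_ne_zero _ hY), D_mul, D_mul, D_V_sv, D_Cr, D_pow', DYd, DW']
    push_cast
    field_simp
    ring
  · simp only [lv, Matrix.cons_val, Fin.isValue]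
    rw [D_div _ _ (pow_ne_zero _ hY), D_mul, D_mul, D_V_sv, D_Cr, D_pow', D_pow', DYd, DW', V_sv_mode,
      F4_eq, F6_eq]
    push_cast
    field_simp
    ring

end

end Pool.Agent.H47.Fad
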