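import Pool.Agent.H47.Fad.Base

/-!
# Leading coefficients and uniqueness for linear differential systems over `ℚ((q))`
-/

set_option autoImplicit false

namespace Pool.Agent.H47.Fad

open HahnSeries

noncomputable section

/-- no negative powers -/
def Ps (f : K) : Prop := ∀ n : ℤ, n < 0 → f.coeff n = 0

/-- a power series with constant term `c` -/
def Lead (f : K) (c : ℚ) : Prop := Ps f ∧ f.coeff 0 = c

theorem coeff_mul_low {a b : K} {e : ℤ} (ha : Ps a) (hb : ∀ n < e, b.coeff n = 0) :
    (a * b).coeff e = a.coeff 0 * b.coeff e ∧ ∀ n < e, (a * b).coeff n = 0 := by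
  constructor
  · rw [coeff_mul]
    rw [Finset.sum_eq_single (0, e)]
    · rintro ⟨i, j⟩ hp hne
      simp only [Finset.mem_antidiagonal, mem_support] at hp
      obtain ⟨h1, h2, h3⟩ := hp
      have hi : 0 ≤ i := by
        by_contra h
        exact h1 (ha i (by omega))
      have hj : e ≤ j := by
        by_contra h
        exact h2 (hb j (by omega))
      exfalso
      apply hne
      rw [Prod.mk.injEq]
      constructor <;> omega
    · intro h
      simp only [Finset.mem_antidiagonal, mem_support, not_and] at h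
      by_cases h1 : a.coeff 0 = 0
      · rw [h1, zero_mul]
      · by_cases h2 : b.coeff e = 0
        · rw [h2, mul_zero]
        · exact absurd (by simp) (h h1 h2)
  · intro n hn
    rw [coeff_mul]
    refine Finset.sum_eq_zero ?_
    rintro ⟨i, j⟩ hp
    simp only [Finset.mem_antidiagonal, mem_support] at hp
    obtain ⟨h1, h2, h3⟩ := hp
    exfalso
    have hi : 0 ≤ i := by
      by_contra h
      exact h1 (ha i (by omega))
    have hj : e ≤ j := by
      by_contra h
      exact h2 (hb j (by omega))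
    omega

theorem Ps.coe (g : A) : Ps (ofPowerSeries ℤ ℚ g) := by
  intro n hn
  rw [PowerSeries.coeff_coe, if_pos hn]

theorem Ps.exists {f : K} (h : Ps f) : ∃ g : A, ofPowerSeries ℤ ℚ g = f := by
  refine ⟨PowerSeries.mk fun n => f.coeff n, ?_⟩
  ext n
  rw [PowerSeries.coeff_coe]
  split_ifs with hn
  · rw [h n hn]
  · rw [PowerSeries.coeff_mk]
    congr 1
    omega

theorem Lead.add {f g : K} {a b : ℚ} (hf : Lead f a) (hg : Lead g b) : Lead (f + g) (a + b) :=
  ⟨fun n hn => by rw [HahnSeries.coeff_add, hf.1 n hn, hg.1 n hn, add_zero], by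
    rw [HahnSeries.coeff_add, hf.2, hg.2]⟩

theorem Lead.neg {f : K} {a : ℚ} (hf : Lead f a) : Lead (-f) (-a) :=
  ⟨fun n hn => by rw [HahnSeries.coeff_neg, hf.1 n hn, neg_zero], by
    rw [HahnSeries.coeff_neg, hf.2]⟩

theorem Lead.sub {f g : K} {a b : ℚ} (hf : Lead f a) (hg : Lead g b) : Lead (f - g) (a - b) := by
  rw [sub_eq_add_neg, sub_eq_add_neg]
  exact hf.add hg.neg

theorem Lead.mul {f g : K} {a b : ℚ} (hf : Lead f a) (hg : Lead g b) : Lead (f * g) (a * b) := by
  have h := coeff_mul_low hf.1 hg.1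
  exact ⟨h.2, by rw [h.1, hf.2, hg.2]⟩

theorem lead_C (r : ℚ) : Lead (HahnSeries.C r) r := by
  constructor
  · intro n hn
    rw [HahnSeries.C_apply, HahnSeries.coeff_single_of_ne (by omega)]
  · rw [HahnSeries.C_apply, HahnSeries.coeff_single_same]

theorem lead_rat (r : ℚ) : Lead (r : K) r := by
  have h : (r : K) = HahnSeries.C r := (map_ratCast HahnSeries.C r).symm
  rw [h]
  exact lead_C r

theorem lead_one : Lead (1 : K) 1 := by simpa using lead_rat 1

theorem lead_zero : Lead (0 : K) 0 := by simpa using lead_rat 0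

theorem lead_ofNat (n : ℕ) [n.AtLeastTwo] : Lead (OfNat.ofNat n : K) (OfNat.ofNat n) := by
  have := lead_rat (n : ℚ)
  rw [Rat.cast_natCast] at this
  exact this

theorem Lead.pow {f : K} {a : ℚ} (hf : Lead f a) (n : ℕ) : Lead (f ^ n) (a ^ n) := by
  induction n with
  | zero => simpa using lead_one
  | succ n ih =>
    rw [pow_succ, pow_succ]
    exact ih.mul hf

theorem Lead.coe (g : A) : Lead (ofPowerSeries ℤ ℚ g) (PowerSeries.constantCoeff g) := by
  refine ⟨Ps.coe g, ?_⟩
  have := LaurentSeries.coeff_coe_powerSeries g 0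
  rw [PowerSeries.coeff_zero_eq_constantCoeff_apply] at this
  exact_mod_cast this

theorem Lead.ne {f : K} {a : ℚ} (hf : Lead f a) (ha : a ≠ 0) : f ≠ 0 := by
  rintro rfl
  apply ha
  rw [← hf.2]
  rfl

theorem Lead.inv {f : K} {a : ℚ} (hf : Lead f a) (ha : a ≠ 0) : Lead f⁻¹ a⁻¹ := by
  obtain ⟨g, rfl⟩ := hf.1.exists
  have hg : PowerSeries.constantCoeff g = a := by
    rw [← (Lead.coe g).2]
    exact hf.2
  have h1 : g * g⁻¹ = 1 := PowerSeries.mul_inv_cancel g (by rw [hg]; exact ha)
  have h2 : (ofPowerSeries ℤ ℚ g)⁻¹ = ofPowerSeries ℤ ℚ g⁻¹ := by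
    apply inv_eq_of_mul_eq_one_right
    rw [← map_mul, h1, map_one]
  rw [h2]
  have h3 := Lead.coe g⁻¹
  rwa [PowerSeries.constantCoeff_inv, hg] at h3

theorem Lead.div {f g : K} {a b : ℚ} (hf : Lead f a) (hg : Lead g b) (hb : b ≠ 0) :
    Lead (f / g) (a / b) := by
  rw [div_eq_mul_inv, div_eq_mul_inv]
  exact hf.mul (hg.inv hb)

theorem Lead.cast {f : K} {a b : ℚ} (hf : Lead f a) (h : a = b) : Lead f b := h ▸ hf

theorem Lead.V {f : K} {a : ℚ} (hf : Lead f a) : Lead (V f) a := by
  constructor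
  · intro n hn
    by_cases h : (7 : ℤ) ∣ n
    · obtain ⟨m, rfl⟩ := h
      rw [coeff_V_mul]
      exact hf.1 m (by omega)
    · exact coeff_V_of_not_dvd _ h
  · have := coeff_V_mul f 0
    rw [mul_zero] at this
    rw [this, hf.2]

theorem exists_low {ι : Type*} [Fintype ι] (y : ι → K) :
    ∃ L : ℤ, ∀ i, ∀ n < L, (y i).coeff n = 0 := by
  classical
  refine ⟨-(∑ i, |(y i).order|), fun i n hn => coeff_eq_zero_of_lt_order ?_⟩
  have h1 : |(y i).order| ≤ ∑ i, |(y i).order| :=
    Finset.single_le_sum (f := fun i => |(y i).order|) (fun i _ => abs_nonneg _)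
      (Finset.mem_univ i)
  have h2 := neg_abs_le (y i).order
  linarith

theorem coeff_sum' {ι : Type*} (s : Finset ι) (f : ι → K) (n : ℤ) :
    (∑ i ∈ s, f i).coeff n = ∑ i ∈ s, (f i).coeff n := by
  classical
  induction s using Finset.induction_on with
  | empty => simp
  | insert a s ha ih => rw [Finset.sum_insert ha, Finset.sum_insert ha, HahnSeries.coeff_add, ih]

/-- uniqueness for linear systems `D y = Λ y` -/
theorem ode_uniq {ι : Type*} [Fintype ι] (y : ι → K) (Λ : ι → ι → K) (hΛ : ∀ i j, Ps (Λ i j))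
    (h : ∀ i, D (y i) = ∑ j, Λ i j * y j)
    (hinj : ∀ e : ℤ, (∀ i, ∀ n < e, (y i).coeff n = 0) →
      (∀ i, (e : ℚ) * (y i).coeff e = ∑ j, (Λ i j).coeff 0 * (y j).coeff e) →
      ∀ i, (y i).coeff e = 0) : ∀ i, y i = 0 := by
  obtain ⟨L, hL⟩ := exists_low y
  have key : ∀ k : ℕ, ∀ i, ∀ n < L + k, (y i).coeff n = 0 := by
    intro k
    induction k with
    | zero => simpa using hL
    | succ k ih =>
      intro i n hn
      rcases lt_or_eq_of_le (show n ≤ L + k by push_cast at hn; omega) with h1 | h1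
      · exact ih i n h1
      · subst h1
        refine hinj (L + k) ih (fun j => ?_) i
        have h2 := congrArg (fun f => HahnSeries.coeff f (L + k)) (h j)
        simp only [coeff_D, coeff_sum'] at h2
        rw [h2]
        refine Finset.sum_congr rfl fun l _ => ?_
        rw [(coeff_mul_low (hΛ j l) (ih l)).1]
  intro i
  ext n
  have := key (n - L + 1).toNat i n (by omega)
  rw [this]
  rfl

/-- one equation -/
theorem ode_uniq1 {y l : K} {c : ℚ} (hl : Lead l c) (h : D y = l * y)
    (h0 : ∀ e : ℤ, (e : ℚ) = c → (∀ n < e, y.coeff n = 0) → y.coeff e = 0) : y = 0 := by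
  refine ode_uniq (ι := Unit) (fun _ => y) (fun _ _ => l) (fun _ _ => hl.1) (fun _ => by simp [h])
    (fun e hlow he _ => ?_) ()
  have h1 := he ()
  simp only [Finset.univ_unique, Finset.sum_const, Finset.card_singleton, one_smul, hl.2] at h1
  by_cases h2 : (e : ℚ) = c
  · exact h0 e h2 (hlow ())
  · have h3 : ((e : ℚ) - c) * y.coeff e = 0 := by linear_combination h1
    rcases mul_eq_zero.1 h3 with h4 | h4
    · exact absurd (sub_eq_zero.1 h4) h2
    · exact h4

/-- `D f = 0` implies `f` constant -/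
theorem eq_const_of_D {f : K} (h : D f = 0) : f = HahnSeries.C (f.coeff 0) := by
  ext n
  rw [HahnSeries.C_apply]
  by_cases hn : n = 0
  · subst hn
    rw [HahnSeries.coeff_single_same]
  · rw [HahnSeries.coeff_single_of_ne hn]
    have h1 := congrArg (fun f => HahnSeries.coeff f n) h
    simp only [coeff_D, HahnSeries.coeff_zero] at h1
    rcases mul_eq_zero.1 h1 with h2 | h2
    · exact absurd (by exact_mod_cast h2) hn
    · exact h2

end

end Pool.Agent.H47.Fad
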