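import Pool.Agent.H47.Fad.Gpoly

/-!
# The operators on coefficient vectors
-/

set_option autoImplicit false

namespace Pool.Agent.H47.Fad

open Polynomial

noncomputable section

/-- the lattice weights -/
def wt (j : Fin 4) (a : ℕ) : ℕ := if j = 1 then a else if a ≤ 1 then 0 else if j = 3 then a - 1 else a

/-- the coefficient lists of the transformation matrix -/
def Nl (j k : Fin 4) : List ℤ := (([[n00, n01, n02, n03], [n10, n11, n12, n13],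
  [n20, n21, n22, n23], [n30, n31, n32, n33]] : List (List (List ℤ))).getD (j : ℕ) []).getD (k : ℕ) []

/-- the transformation matrix -/
def Np (j k : Fin 4) : ℤ[X] := pl (Nl j k)

theorem RR4_eq (x : Fin 4 → K) (j : Fin 4) : RR4 x j = ∑ k, ev (Np j k) * x k := by
  rw [Fin.sum_univ_four]
  simp only [Np, ev_pl]
  fin_cases j <;> rfl

theorem coeff_divX_iter (n : ℕ) (p : ℤ[X]) (a : ℕ) : (divX^[n] p).coeff a = p.coeff (n + a) := by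
  induction n generalizing p a with
  | zero => simp
  | succ n ih =>
    rw [Function.iterate_succ_apply, ih, coeff_divX]
    congr 1
    ring

theorem X_pow_mul_divX_iter (n : ℕ) (p : ℤ[X]) (h : ∀ b < n, p.coeff b = 0) :
    X ^ n * divX^[n] p = p := by
  ext b
  rw [coeff_X_pow_mul', coeff_divX_iter]
  split_ifs with h1
  · congr 1
    omega
  · rw [h b (by omega)]

/-- the quotients -/
def qg (c : ℕ) (j : Fin 4) (n : ℕ) : ℤ[X] := divX^[n] (ge j (4 * n + 2 - c))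

theorem coeff_qg (c : ℕ) (j : Fin 4) (n a : ℕ) :
    (qg c j n).coeff a = (ge j (4 * n + 2 - c)).coeff (n + a) := coeff_divX_iter _ _ _

theorem X_pow_qg (c : ℕ) (hc : c ≤ 2) (j : Fin 4) (n : ℕ) :
    X ^ n * qg c j n = ge j (4 * n + 2 - c) :=
  X_pow_mul_divX_iter _ _ fun b hb => ge_zero j _ b (by omega)

/-- the operator `f(t) ↦ U(v^{-c} R_j f(t))` -/
def Lam (c : ℕ) (j : Fin 4) : ℤ[X] →ₗ[ℤ] ℤ[X] :=
  Polynomial.lsum fun n => LinearMap.toSpanSingleton ℤ ℤ[X] (qg c j n)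

theorem Lam_monomial (c : ℕ) (j : Fin 4) (n : ℕ) (x : ℤ) :
    Lam c j (monomial n x) = x • qg c j n := by
  rw [Lam, lsum_apply, sum_monomial_index]
  · rfl
  · simp

theorem Lam_X_pow (c : ℕ) (j : Fin 4) (n : ℕ) : Lam c j (X ^ n) = qg c j n := by
  rw [← monomial_one_right_eq_X_pow, Lam_monomial, one_smul]

theorem U_Lam (c : ℕ) (hc : c ≤ 2) (j : Fin 4) (p : ℤ[X]) :
    U (vv ^ (-(c : ℤ)) * Rj j * ev p) = ev (Lam c j p) := by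
  induction p using Polynomial.induction_on' with
  | add p q hp hq => rw [map_add, mul_add, map_add, map_add, map_add, hp, hq]
  | monomial n x =>
    have ht := t_ne
    have h1 : ev (monomial n x) = (x : K) * t ^ n := by
      rw [← C_mul_X_pow_eq_monomial, map_mul, map_pow, ev_C, ev_X]
    have h2 : t ^ n = vv ^ (4 * (n : ℤ)) * V (t⁻¹ ^ n) := by
      have hT := T_ne
      rw [map_pow, map_inv₀, V_t, zpow_mul, zpow_natCast]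
      have h4 : vv ^ (4 : ℤ) = t * T := by rw [tT]; norm_cast
      rw [h4, mul_pow, inv_pow, mul_assoc, mul_inv_cancel₀ (pow_ne_zero _ hT), mul_one]
    have h3 : vv ^ (-(c : ℤ)) * Rj j * ((x : K) * t ^ n) =
        V ((x : K) * t⁻¹ ^ n) * (Rj j * vv ^ (4 * (n : ℤ) - c)) := by
      rw [h2, map_mul, map_intCast, sub_eq_add_neg (4 * (n : ℤ)), zpow_add₀ vv_ne]
      ring
    rw [h1, h3, U_V_mul, Lam_monomial, zsmul_eq_mul, map_mul ev, map_intCast ev]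
    have h5 : ev (ge j (4 * n + 2 - c)) = t ^ n * ev (qg c j n) := by
      rw [← X_pow_qg c hc j n, map_mul, map_pow, ev_X]
    have h6 := ev_ge j (4 * n + 2 - c)
    rw [h5] at h6
    have h7 : (((4 * n + 2 - c : ℕ) : ℤ)) - 2 = 4 * (n : ℤ) - c := by omega
    rw [h7, Gs] at h6
    rw [← h6]
    rw [inv_pow]
    field_simp

/-- the operator on vectors -/
def Rop (c : ℕ) (b : Fin 4 → ℤ[X]) (j : Fin 4) : ℤ[X] := ∑ k, Lam c j (Np j k * b k)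

/-- matrix entries -/
def Ee4 (c : ℕ) (k : Fin 4) (i : ℕ) (j : Fin 4) (a : ℕ) : ℤ := (Lam c j (Np j k * X ^ i)).coeff a

theorem lin_coeff (L : ℤ[X] →ₗ[ℤ] ℤ[X]) (p : ℤ[X]) (a : ℕ) :
    (L p).coeff a = ∑ i ∈ p.support, p.coeff i * (L (X ^ i)).coeff a := by
  conv_lhs => rw [p.as_sum_support_C_mul_X_pow]
  rw [map_sum, finsetSum_coeff]
  refine Finset.sum_congr rfl fun i _ => ?_
  rw [← smul_eq_C_mul, map_smul, coeff_smul, smul_eq_mul]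

theorem Rop_coeff (c : ℕ) (b : Fin 4 → ℤ[X]) (j : Fin 4) (a : ℕ) :
    (Rop c b j).coeff a = ∑ k, ∑ i ∈ (b k).support, (b k).coeff i * Ee4 c k i j a := by
  rw [Rop, finsetSum_coeff]
  refine Finset.sum_congr rfl fun k _ => ?_
  exact lin_coeff ((Lam c j).comp (LinearMap.mulLeft ℤ (Np j k))) (b k) a

theorem Rop_sub (c : ℕ) (b b' : Fin 4 → ℤ[X]) : Rop c (b - b') = Rop c b - Rop c b' := by
  funext j
  simp only [Rop, Pi.sub_apply, mul_sub, map_sub, Finset.sum_sub_distrib]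

theorem Rop_add (c : ℕ) (b b' : Fin 4 → ℤ[X]) : Rop c (b + b') = Rop c b + Rop c b' := by
  funext j
  simp only [Rop, Pi.add_apply, mul_add, map_add, Finset.sum_add_distrib]

theorem Rop_smul (c : ℕ) (x : ℤ) (b : Fin 4 → ℤ[X]) : Rop c (x • b) = x • Rop c b := by
  funext j
  simp only [Rop, Pi.smul_apply, mul_smul_comm, map_smul, Finset.smul_sum]

theorem Np_eq (j k : Fin 4) : Np j k = ∑ d ∈ Finset.range 11, C ((Nl j k).getD d 0) * X ^ d := by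
  ext b
  rw [Np, coeff_pl, finsetSum_coeff]
  simp only [coeff_C_mul_X_pow]
  rw [Finset.sum_ite_eq]
  split_ifs with h
  · rfl
  · have hl : ∀ j k : Fin 4, (Nl j k).length < 12 := by decide +kernel
    rw [Finset.mem_range] at h
    rw [List.getD_eq_default _ _ (by have := hl j k; omega)]

theorem Ee4_eq (c : ℕ) (k : Fin 4) (i : ℕ) (j : Fin 4) (a : ℕ) : Ee4 c k i j a =
    ∑ d ∈ Finset.range 11, (Nl j k).getD d 0 * (ge j (4 * (i + d) + 2 - c)).coeff (i + d + a) := by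
  rw [Ee4, Np_eq, Finset.sum_mul, map_sum, finsetSum_coeff]
  refine Finset.sum_congr rfl fun d _ => ?_
  rw [mul_assoc, ← pow_add, ← smul_eq_C_mul, map_smul, Lam_X_pow, coeff_smul, smul_eq_mul,
    coeff_qg, add_comm d i]

/-! ### numerical facts -/

/-- table of the coefficients modulo `7^5` -/
def tabL : List (List (List ℤ)) := [
  [[1, 0, 0, 0, 0, 0, 0, 0, 0, 0, 0, 0],
   [16806, 0, 0, 0, 0, 0, 0, 0, 0, 0, 0, 0],
   [1, 0, 0, 0, 0, 0, 0, 0, 0, 0, 0, 0],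
   [0, 7, 49, 0, 0, 0, 0, 0, 0, 0, 0, 0],
   [0, 10, 441, 4802, 0, 0, 0, 0, 0, 0, 0, 0],
   [0, 3, 798, 12348, 0, 0, 0, 0, 0, 0, 0, 0],
   [0, 0, 574, 9947, 12005, 0, 0, 0, 0, 0, 0, 0],
   [0, 0, 190, 11564, 12005, 0, 0, 0, 0, 0, 0, 0],
   [0, 0, 27, 2450, 8232, 0, 0, 0, 0, 0, 0, 0],
   [0, 0, 1, 12397, 12005, 0, 0, 0, 0, 0, 0, 0],
   [0, 0, 0, 2464, 2548, 12005, 0, 0, 0, 0, 0, 0],
   [0, 0, 0, 255, 15239, 2401, 0, 0, 0, 0, 0, 0],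
   [0, 0, 0, 10, 10913, 2058, 0, 0, 0, 0, 0, 0],
   [0, 0, 0, 0, 12376, 3087, 0, 0, 0, 0, 0, 0],
   [0, 0, 0, 0, 2535, 16317, 7203, 0, 0, 0, 0, 0],
   [0, 0, 0, 0, 104, 15582, 12005, 0, 0, 0, 0, 0],
   [0, 0, 0, 0, 1, 14259, 7203, 0, 0, 0, 0, 0],
   [0, 0, 0, 0, 0, 9086, 5831, 0, 0, 0, 0, 0],
   [0, 0, 0, 0, 0, 1088, 15288, 2401, 0, 0, 0, 0],
   [0, 0, 0, 0, 0, 17, 5299, 4802, 0, 0, 0, 0],
   [0, 0, 0, 0, 0, 0, 413, 12691, 2401, 0, 0, 0],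
   [0, 0, 0, 0, 0, 0, 11495, 3969, 12005, 0, 0, 0],
   [0, 0, 0, 0, 0, 0, 230, 2009, 15778, 0, 0, 0],
   [0, 0, 0, 0, 0, 0, 1, 13818, 12005, 0, 0, 0],
   [0, 0, 0, 0, 0, 0, 0, 4781, 15386, 9604, 0, 0],
   [0, 0, 0, 0, 0, 0, 0, 2852, 12250, 2401, 0, 0],
   [0, 0, 0, 0, 0, 0, 0, 24, 9338, 13034, 0, 0],
   [0, 0, 0, 0, 0, 0, 0, 0, 1729, 14406, 0, 0],
   [0, 0, 0, 0, 0, 0, 0, 0, 316, 5047, 4802, 0],
   [0, 0, 0, 0, 0, 0, 0, 0, 405, 13181, 7203, 0]],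
  [[16800, 0, 0, 0, 0, 0, 0, 0, 0, 0, 0, 0],
   [7, 0, 0, 0, 0, 0, 0, 0, 0, 0, 0, 0],
   [1, 0, 0, 0, 0, 0, 0, 0, 0, 0, 0, 0],
   [0, 147, 2401, 0, 0, 0, 0, 0, 0, 0, 0, 0],
   [0, 70, 9261, 0, 0, 0, 0, 0, 0, 0, 0, 0],
   [0, 7, 9310, 7203, 0, 0, 0, 0, 0, 0, 0, 0],
   [0, 0, 4018, 4802, 0, 0, 0, 0, 0, 0, 0, 0],
   [0, 0, 798, 2401, 0, 0, 0, 0, 0, 0, 0, 0],
   [0, 0, 63, 343, 12005, 0, 0, 0, 0, 0, 0, 0],
   [0, 0, 1, 11564, 7203, 0, 0, 0, 0, 0, 0, 0],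
   [0, 0, 0, 8624, 1029, 0, 0, 0, 0, 0, 0, 0],
   [0, 0, 0, 595, 12005, 0, 0, 0, 0, 0, 0, 0],
   [0, 0, 0, 14, 15582, 14406, 0, 0, 0, 0, 0, 0],
   [0, 0, 0, 0, 8820, 2401, 0, 0, 0, 0, 0, 0],
   [0, 0, 0, 0, 5915, 8918, 0, 0, 0, 0, 0, 0],
   [0, 0, 0, 0, 168, 9604, 0, 0, 0, 0, 0, 0],
   [0, 0, 0, 0, 1, 9163, 2401, 0, 0, 0, 0, 0],
   [0, 0, 0, 0, 0, 9996, 14406, 0, 0, 0, 0, 0],
   [0, 0, 0, 0, 0, 1904, 3087, 0, 0, 0, 0, 0],
   [0, 0, 0, 0, 0, 21, 11319, 0, 0, 0, 0, 0],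
   [0, 0, 0, 0, 0, 0, 6566, 12005, 0, 0, 0, 0],
   [0, 0, 0, 0, 0, 0, 4368, 3430, 0, 0, 0, 0],
   [0, 0, 0, 0, 0, 0, 322, 12348, 2401, 0, 0, 0],
   [0, 0, 0, 0, 0, 0, 1, 15435, 4802, 0, 0, 0],
   [0, 0, 0, 0, 0, 0, 0, 15239, 6174, 0, 0, 0],
   [0, 0, 0, 0, 0, 0, 0, 4340, 6517, 0, 0, 0],
   [0, 0, 0, 0, 0, 0, 0, 28, 10584, 12005, 0, 0],
   [0, 0, 0, 0, 0, 0, 0, 0, 1372, 0, 0, 0],
   [0, 0, 0, 0, 0, 0, 0, 0, 4389, 5831, 0, 0],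
   [0, 0, 0, 0, 0, 0, 0, 0, 525, 2744, 0, 0]],
  [[0, 0, 2401, 0, 0, 0, 0, 0, 0, 0, 0, 0],
   [8, 0, 14406, 0, 0, 0, 0, 0, 0, 0, 0, 0],
   [1, 245, 2058, 0, 0, 0, 0, 0, 0, 0, 0, 0],
   [0, 16751, 16464, 0, 0, 0, 0, 0, 0, 0, 0, 0],
   [0, 0, 49, 0, 0, 0, 0, 0, 0, 0, 0, 0],
   [0, 16805, 16758, 0, 0, 0, 0, 0, 0, 0, 0, 0],
   [0, 0, 16800, 0, 0, 0, 0, 0, 0, 0, 0, 0],
   [0, 0, 7, 0, 0, 0, 0, 0, 0, 0, 0, 0],
   [0, 0, 1, 0, 0, 0, 0, 0, 0, 0, 0, 0],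
   [0, 0, 1, 0, 0, 0, 0, 0, 0, 0, 0, 0],
   [0, 0, 0, 35, 343, 0, 0, 0, 0, 0, 0, 0],
   [0, 0, 0, 28, 2107, 12005, 0, 0, 0, 0, 0, 0],
   [0, 0, 0, 5, 2842, 2401, 0, 0, 0, 0, 0, 0],
   [0, 0, 0, 0, 1582, 13377, 0, 0, 0, 0, 0, 0],
   [0, 0, 0, 0, 406, 14406, 12005, 0, 0, 0, 0, 0],
   [0, 0, 0, 0, 43, 13965, 14406, 0, 0, 0, 0, 0],
   [0, 0, 0, 0, 1, 11662, 5831, 0, 0, 0, 0, 0],
   [0, 0, 0, 0, 0, 4732, 9947, 0, 0, 0, 0, 0],
   [0, 0, 0, 0, 0, 399, 12838, 4802, 0, 0, 0, 0],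
   [0, 0, 0, 0, 0, 12, 5782, 12005, 0, 0, 0, 0],
   [0, 0, 0, 0, 0, 0, 2632, 12691, 0, 0, 0, 0],
   [0, 0, 0, 0, 0, 0, 3941, 14063, 0, 0, 0, 0],
   [0, 0, 0, 0, 0, 0, 134, 4165, 4802, 0, 0, 0],
   [0, 0, 0, 0, 0, 0, 1, 14994, 4802, 0, 0, 0],
   [0, 0, 0, 0, 0, 0, 0, 6489, 5145, 0, 0, 0],
   [0, 0, 0, 0, 0, 0, 0, 1456, 343, 0, 0, 0],
   [0, 0, 0, 0, 0, 0, 0, 19, 12887, 12005, 0, 0],
   [0, 0, 0, 0, 0, 0, 0, 0, 12747, 13720, 0, 0],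
   [0, 0, 0, 0, 0, 0, 0, 0, 15757, 8232, 2401, 0],
   [0, 0, 0, 0, 0, 0, 0, 0, 274, 14504, 12005, 0]],
  [[260, 0, 0, 0, 0, 0, 0, 0, 0, 0, 0, 0],
   [90, 15827, 2744, 0, 0, 0, 0, 0, 0, 0, 0, 0],
   [1, 16317, 12005, 0, 0, 0, 0, 0, 0, 0, 0, 0],
   [0, 728, 11466, 12005, 0, 0, 0, 0, 0, 0, 0, 0],
   [0, 16719, 0, 0, 0, 0, 0, 0, 0, 0, 0, 0],
   [0, 16796, 16730, 3773, 0, 0, 0, 0, 0, 0, 0, 0],
   [0, 0, 0, 0, 2401, 0, 0, 0, 0, 0, 0, 0],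
   [0, 0, 16717, 15925, 14406, 0, 0, 0, 0, 0, 0, 0],
   [0, 0, 20, 0, 16464, 0, 0, 0, 0, 0, 0, 0],
   [0, 0, 1, 49, 0, 0, 0, 0, 0, 0, 0, 0],
   [0, 0, 0, 0, 49, 0, 0, 0, 0, 0, 0, 0],
   [0, 0, 0, 10, 49, 0, 0, 0, 0, 0, 0, 0],
   [0, 0, 0, 16803, 16800, 0, 0, 0, 0, 0, 0, 0],
   [0, 0, 0, 0, 16800, 0, 0, 0, 0, 0, 0, 0],
   [0, 0, 0, 0, 1, 0, 0, 0, 0, 0, 0, 0],
   [0, 0, 0, 0, 16806, 0, 0, 0, 0, 0, 0, 0],
   [0, 0, 0, 0, 1, 0, 0, 0, 0, 0, 0, 0],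
   [0, 0, 0, 0, 0, 7, 49, 0, 0, 0, 0, 0],
   [0, 0, 0, 0, 0, 10, 441, 4802, 0, 0, 0, 0],
   [0, 0, 0, 0, 0, 3, 798, 12348, 0, 0, 0, 0],
   [0, 0, 0, 0, 0, 0, 574, 9947, 12005, 0, 0, 0],
   [0, 0, 0, 0, 0, 0, 190, 11564, 12005, 0, 0, 0],
   [0, 0, 0, 0, 0, 0, 27, 2450, 8232, 0, 0, 0],
   [0, 0, 0, 0, 0, 0, 1, 12397, 12005, 0, 0, 0],
   [0, 0, 0, 0, 0, 0, 0, 2464, 2548, 12005, 0, 0],
   [0, 0, 0, 0, 0, 0, 0, 255, 15239, 2401, 0, 0],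
   [0, 0, 0, 0, 0, 0, 0, 10, 10913, 2058, 0, 0],
   [0, 0, 0, 0, 0, 0, 0, 0, 12376, 3087, 0, 0],
   [0, 0, 0, 0, 0, 0, 0, 0, 2535, 16317, 7203, 0],
   [0, 0, 0, 0, 0, 0, 0, 0, 104, 15582, 12005, 0]]]

/-- table lookup -/
def tab (j s b : ℕ) : ℤ := ((tabL.getD j []).getD s []).getD b 0

theorem tab_init : ∀ j : Fin 4, ∀ s : ℕ, s < 7 → ∀ b : ℕ, b < 12 →
    (16807 : ℤ) ∣ (gi j s).getD b 0 - tab j s b := by decide +kernel

theorem tab_rec : ∀ j : Fin 4, ∀ s : ℕ, s < 23 → ∀ b : ℕ, b < 12 → (16807 : ℤ) ∣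
    ((if 2 ≤ b then tab j s (b - 2) + 7 * tab j (s + 1) (b - 2) +
      21 * tab j (s + 2) (b - 2) + 49 * tab j (s + 3) (b - 2) +
      147 * tab j (s + 4) (b - 2) + 343 * tab j (s + 5) (b - 2) +
      343 * tab j (s + 6) (b - 2) else 0) +
    (if 1 ≤ b then 7 * tab j (s + 4) (b - 1) + 35 * tab j (s + 5) (b - 1) +
      49 * tab j (s + 6) (b - 1) else 0)) - tab j (s + 7) b := by decide +kernel

theorem tab_ok (j : Fin 4) (s : ℕ) : s < 30 → ∀ b : ℕ, b < 12 →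
    (16807 : ℤ) ∣ (ge j s).coeff b - tab j s b := by
  induction s using Nat.strong_induction_on with
  | _ s ih =>
    intro hs b hb
    rcases lt_or_ge s 7 with h7 | h7
    · rw [ge_low j h7, coeff_pl]
      exact tab_init j s h7 b hb
    · obtain ⟨s, rfl⟩ : ∃ s', s = s' + 7 := ⟨s - 7, by omega⟩
      have h := tab_rec j s (by omega) b hb
      rw [ge_coeff]
      have hh := fun (x : ℕ) (hx : x < 7) (b' : ℕ) (hb' : b' < 12) =>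
        ih (s + x) (by omega) (by omega) b' hb'
      have e1 : (16807 : ℤ) ∣ (if 2 ≤ b then (ge j s).coeff (b - 2) + 7 * (ge j (s + 1)).coeff (b - 2) +
          21 * (ge j (s + 2)).coeff (b - 2) + 49 * (ge j (s + 3)).coeff (b - 2) +
          147 * (ge j (s + 4)).coeff (b - 2) + 343 * (ge j (s + 5)).coeff (b - 2) +
          343 * (ge j (s + 6)).coeff (b - 2) else 0) -
          (if 2 ≤ b then tab j s (b - 2) + 7 * tab j (s + 1) (b - 2) +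
          21 * tab j (s + 2) (b - 2) + 49 * tab j (s + 3) (b - 2) +
          147 * tab j (s + 4) (b - 2) + 343 * tab j (s + 5) (b - 2) +
          343 * tab j (s + 6) (b - 2) else 0) := by
        split_ifs with h1
        · have i0 := hh 0 (by norm_num) (b - 2) (by omega)
          have i1 := hh 1 (by norm_num) (b - 2) (by omega)
          have i2 := hh 2 (by norm_num) (b - 2) (by omega)
          have i3 := hh 3 (by norm_num) (b - 2) (by omega)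
          have i4 := hh 4 (by norm_num) (b - 2) (by omega)
          have i5 := hh 5 (by norm_num) (b - 2) (by omega)
          have i6 := hh 6 (by norm_num) (b - 2) (by omega)
          rw [add_zero] at i0
          obtain ⟨u0, i0⟩ := i0
          obtain ⟨u1, i1⟩ := i1
          obtain ⟨u2, i2⟩ := i2
          obtain ⟨u3, i3⟩ := i3
          obtain ⟨u4, i4⟩ := i4
          obtain ⟨u5, i5⟩ := i5
          obtain ⟨u6, i6⟩ := i6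
          exact ⟨u0 + 7 * u1 + 21 * u2 + 49 * u3 + 147 * u4 + 343 * u5 + 343 * u6, by
            linear_combination i0 + 7 * i1 + 21 * i2 + 49 * i3 + 147 * i4 + 343 * i5 + 343 * i6⟩
        · simp
      have e2 : (16807 : ℤ) ∣ (if 1 ≤ b then 7 * (ge j (s + 4)).coeff (b - 1) +
          35 * (ge j (s + 5)).coeff (b - 1) + 49 * (ge j (s + 6)).coeff (b - 1) else 0) -
          (if 1 ≤ b then 7 * tab j (s + 4) (b - 1) + 35 * tab j (s + 5) (b - 1) +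
          49 * tab j (s + 6) (b - 1) else 0) := by
        split_ifs with h1
        · have i4 := hh 4 (by norm_num) (b - 1) (by omega)
          have i5 := hh 5 (by norm_num) (b - 1) (by omega)
          have i6 := hh 6 (by norm_num) (b - 1) (by omega)
          obtain ⟨u4, i4⟩ := i4
          obtain ⟨u5, i5⟩ := i5
          obtain ⟨u6, i6⟩ := i6
          exact ⟨7 * u4 + 35 * u5 + 49 * u6, by
            linear_combination 7 * i4 + 35 * i5 + 49 * i6⟩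
        · simp
      obtain ⟨u1, e1⟩ := e1
      obtain ⟨u2, e2⟩ := e2
      obtain ⟨u3, h⟩ := h
      exact ⟨u1 + u2 + u3, by linear_combination e1 + e2 + h⟩

/-- the computable approximations to the matrix entries -/
def Et (c : ℕ) (k : Fin 4) (i : ℕ) (j : Fin 4) (a : ℕ) : ℤ :=
  ((List.range 8).map fun d => if i + d ≤ 7 then
    (Nl j k).getD d 0 * tab j (4 * (i + d) + 2 - c) (i + d + a) else 0).sum

theorem Et_eq (c : ℕ) (k : Fin 4) (i : ℕ) (j : Fin 4) (a : ℕ) : Et c k i j a =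
    ∑ d ∈ Finset.range 11, if i + d ≤ 7 then
    (Nl j k).getD d 0 * tab j (4 * (i + d) + 2 - c) (i + d + a) else 0 := by
  rw [Et, sum_map_range, Finset.sum_range_succ _ 10, Finset.sum_range_succ _ 9,
    Finset.sum_range_succ _ 8]
  rw [if_neg (by omega), if_neg (by omega), if_neg (by omega)]
  ring

theorem drop_ok : ∀ k j : Fin 4, ∀ i : ℕ, i < 5 → ∀ a : ℕ, a < 5 → i + a < 5 → ∀ d : ℕ, d < 11 →
    7 < i + d → (7 : ℤ) ^ (wt j a + 1) ∣ 7 ^ wt k i * (Nl j k).getD d 0 := by decide +kernel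

theorem wt_le (j : Fin 4) (a : ℕ) : wt j a ≤ a := by
  unfold wt; split_ifs <;> omega

theorem le_wt (j : Fin 4) (a : ℕ) : a ≤ wt j a + 1 := by
  unfold wt; split_ifs <;> omega

theorem Ee4_approx (c : ℕ) (hc1 : 1 ≤ c) (hc : c ≤ 2) (k : Fin 4) (i : ℕ) (j : Fin 4) (a : ℕ) (h : i + a < 5) :
    (7 : ℤ) ^ (wt j a + 1) ∣ 7 ^ wt k i * (Ee4 c k i j a - Et c k i j a) := by
  rw [Ee4_eq, Et_eq, ← Finset.sum_sub_distrib, Finset.mul_sum]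
  refine Finset.dvd_sum fun d hd => ?_
  rw [Finset.mem_range] at hd
  split_ifs with h1
  · rw [← mul_sub]
    have h2 := tab_ok j (4 * (i + d) + 2 - c) (by omega) (i + d + a) (by omega)
    have h3 : (7 : ℤ) ^ (wt j a + 1) ∣ 16807 := by
      have : (16807 : ℤ) = 7 ^ 5 := by norm_num
      rw [this]
      exact pow_dvd_pow 7 (by have := wt_le j a; omega)
    exact ((h3.trans h2).mul_left _).mul_left _
  · rw [sub_zero, ← mul_assoc]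
    exact (drop_ok k j i (by omega) a (by omega) h d hd (by omega)).mul_right _

theorem nl_val : ∀ k j : Fin 4, ∀ d : ℕ, d < 11 → (7 : ℤ) ^ ((d - 2) / 4) ∣ (Nl j k).getD d 0 := by
  decide +kernel

theorem Ee4_high (c : ℕ) (hc : 1 ≤ c) (hc2 : c ≤ 2) (k : Fin 4) (i : ℕ) (j : Fin 4) (a : ℕ)
    (h : 5 ≤ i + a) : (7 : ℤ) ^ (wt j a + 1) ∣ 7 ^ wt k i * Ee4 c k i j a := by
  rw [Ee4_eq, Finset.mul_sum]
  refine Finset.dvd_sum fun d hd => ?_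
  rw [Finset.mem_range] at hd
  have h1 := nl_val k j d hd
  have h2 := le_wt k i
  have h3 := wt_le j a
  refine dvd_mul_aux (v := wt k i) (dvd_refl _) fun h4 => ?_
  refine dvd_mul_aux (v := (d - 2) / 4) h1 fun h5 => ?_
  refine ge_val j _ _ _ ?_
  omega

end

end Pool.Agent.H47.Fad
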