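import Pool.Agent.H47.Fad.Lattice

/-!
# The two operators on the theta components
-/

set_option autoImplicit false

namespace Pool.Agent.H47.Fad

open HahnSeries

noncomputable section

/-- `φ(q^7)/φ(q)` -/
def sg : K := φ7 / φ

theorem sg_ne : sg ≠ 0 := div_ne_zero φ7_ne φ_ne

theorem V_sg : V sg = φ49 / φ7 := by rw [sg, map_div₀, V_φ7, V_φ]

/-- `r(r+1)/2` -/
def er (r : Fin 4) : ℕ := (![0, 1, 3, 6] : Fin 4 → ℕ) r

/-- signs -/
def sr (r : Fin 4) : K := (![1, -1, 1, -1] : Fin 4 → K) r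

/-- the operator -/
def stepU (c : ℕ) (F : Fin 4 → K) (r : Fin 4) : K := sr r * U (qq ^ er r * F (rf r) / qq ^ (2 * c))

/-- the pairing with the normalised theta derivatives -/
def PJ (F : Fin 4 → K) (j : Fin 4) : K := pr4 F (fun r => zv r j)

theorem V_sr (r : Fin 4) : V (sr r) = sr r := by
  fin_cases r
  · change V 1 = 1
    exact map_one V
  · change V (-1) = -1
    rw [map_neg, map_one]
  · change V 1 = 1
    exact map_one V
  · change V (-1) = -1
    rw [map_neg, map_one]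

theorem Cr_rf (r : Fin 4) : Cr (rf r) = sr r * qq ^ er r * sg ^ 3 := by
  fin_cases r <;> rfl

theorem lv_V (r j : Fin 4) : Cr r * V (zv (rf r) j) = lv r j * Rj j := by
  have hY := Y_ne
  have hW := W_ne
  have hVY := VY_ne
  have hVW : V W ≠ 0 := lead_W.V.ne one_ne_zero
  fin_cases j
  · change Cr r * V (sv 0 (rf r)) = Cr r * V (sv 0 (rf r)) * 1
    ring
  · change Cr r * V (sv 1 (rf r) / Y) = Cr r * V (sv 1 (rf r)) / Y * (Y / V Y)
    rw [map_div₀]
    field_simp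
  · change Cr r * V (sv 2 (rf r) * W / Y ^ 2) = Cr r * V (sv 2 (rf r)) * W / Y ^ 2 *
      ((Y ^ 2 / W) / V (Y ^ 2 / W))
    rw [map_div₀, map_mul, map_pow, map_div₀, map_pow]
    field_simp
  · change Cr r * V (sv 3 (rf r) * W ^ 2 / Y ^ 3) = Cr r * V (sv 3 (rf r)) * W ^ 2 / Y ^ 3 *
      ((Y ^ 3 / W ^ 2) / V (Y ^ 3 / W ^ 2))
    rw [map_div₀, map_mul, map_pow, map_pow, map_div₀, map_pow, map_pow]
    field_simp

theorem lv_eq (r j : Fin 4) : 26542080 * lv r j = ∑ k, ev (Np j k) * zv r k := by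
  have h := uv_zero r j
  rw [uv, sub_eq_zero] at h
  rw [h, RR4_eq]

theorem rf_rf (r : Fin 4) : rf (rf r) = r := by
  fin_cases r <;> rfl

/-- the reflection as a permutation -/
def rfE : Fin 4 ≃ Fin 4 := ⟨rf, rf, rf_rf, rf_rf⟩

theorem mv_rf (r : Fin 4) : mv (rf r) = mv r := by
  fin_cases r <;> rfl

/-- key identity before applying `U` -/
theorem step_aux (F : Fin 4 → K) (j : Fin 4) :
    ∑ r, mv r * (sr r * (qq ^ er r * F (rf r)) * V (zv r j)) =
      Rj j * (∑ k, ev (Np j k) * PJ F k) / (26542080 * sg ^ 3) := by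
  have hs := sg_ne
  rw [eq_div_iff (mul_ne_zero (by norm_num) (pow_ne_zero _ hs))]
  rw [← Equiv.sum_comp rfE]
  simp only [rfE, Equiv.coe_fn_mk, rf_rf, mv_rf]
  have h1 : ∀ r : Fin 4, mv r * (sr (rf r) * (qq ^ er (rf r) * F r) * V (zv (rf r) j)) *
      (26542080 * sg ^ 3) = mv r * F r * (Rj j * ∑ k, ev (Np j k) * zv r k) := by
    intro r
    have h2 := Cr_rf (rf r)
    rw [rf_rf] at h2
    have h3 := lv_V r j
    rw [h2] at h3
    rw [← lv_eq]
    linear_combination 26542080 * mv r * F r * h3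
  rw [Finset.sum_mul, Finset.sum_congr rfl fun r _ => h1 r]
  simp only [PJ, pr4, Finset.mul_sum]
  rw [Finset.sum_comm]
  refine Finset.sum_congr rfl fun k _ => Finset.sum_congr rfl fun r _ => ?_
  ring

theorem PJ_stepU (c : ℕ) (F : Fin 4 → K) (j : Fin 4) :
    PJ (stepU c F) j = U (Rj j * (∑ k, ev (Np j k) * PJ F k) / (26542080 * sg ^ 3) / qq ^ (2 * c)) := by
  rw [← step_aux, PJ, pr4, Finset.sum_div, map_sum]
  refine Finset.sum_congr rfl fun r _ => ?_
  have hm : V (mv r * sr r) = mv r * sr r := by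
    rw [map_mul, V_sr]
    congr 1
    fin_cases r
    · change V 1 = 1
      exact map_one V
    · change V 2 = 2
      rw [map_ofNat]
    · change V 2 = 2
      rw [map_ofNat]
    · change V 1 = 1
      exact map_one V
  have h1 : mv r * (sr r * (qq ^ er r * F (rf r)) * V (zv r j)) / qq ^ (2 * c) =
      V (mv r * sr r * zv r j) * (qq ^ er r * F (rf r) / qq ^ (2 * c)) := by
    rw [map_mul V (mv r * sr r), hm]
    ring
  rw [h1, U_V_mul, stepU]
  ring

/-- the operator in terms of polynomials -/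
theorem PJ_step (c : ℕ) (hc : c ≤ 2) (F : Fin 4 → K) (κ : K) (hκ : V κ = κ)
    (b : Fin 4 → Polynomial ℤ) (h : ∀ k, PJ F k = sg ^ (3 - c) * κ * ev (b k)) (j : Fin 4) :
    PJ (stepU c F) j = sg ^ c * (κ / 26542080) * ev (Rop c b j) := by
  have hs := sg_ne
  have h1 : ∑ k, ev (Np j k) * PJ F k = sg ^ (3 - c) * κ * ev (∑ k, Np j k * b k) := by
    rw [map_sum, Finset.mul_sum]
    refine Finset.sum_congr rfl fun k _ => ?_
    rw [h, map_mul]
    ring
  have hq : vv ^ (-(c : ℤ)) * V (sg ^ c) = 1 / (sg ^ c * qq ^ (2 * c)) := by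
    have e1 := φ_ne
    have e2 := φ7_ne
    have e3 := φ49_ne
    have e4 := qq_ne
    rw [zpow_neg, zpow_natCast, vv, map_pow, V_sg, sg, pow_mul, ← inv_pow, ← mul_pow, ← mul_pow,
      one_div, ← inv_pow]
    congr 1
    field_simp
  have h3 : sg ^ 3 = sg ^ (3 - c) * sg ^ c := by
    rw [← _root_.pow_add]
    congr 1
    omega
  have h2 : Rj j * (∑ k, ev (Np j k) * PJ F k) / (26542080 * sg ^ 3) / qq ^ (2 * c) =
      V (sg ^ c * (κ / 26542080)) * (vv ^ (-(c : ℤ)) * Rj j * ev (∑ k, Np j k * b k)) := by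
    rw [h1, map_mul, map_div₀, hκ, map_ofNat, h3]
    have h4 : Rj j * (sg ^ (3 - c) * κ * ev (∑ k, Np j k * b k)) / (26542080 * (sg ^ (3 - c) * sg ^ c)) /
        qq ^ (2 * c) = κ / 26542080 * Rj j * ev (∑ k, Np j k * b k) * (1 / (sg ^ c * qq ^ (2 * c))) := by
      have := pow_ne_zero (3 - c) hs
      have := pow_ne_zero c hs
      have := pow_ne_zero (2 * c) qq_ne
      field_simp
    rw [h4, ← hq]
    ring
  rw [PJ_stepU, h2, U_V_mul, U_Lam c hc, map_sum (Lam c j)]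
  rfl

/-! ### the iteration -/

theorem PJ_Fv (k : Fin 4) : PJ Fv k = sg ^ (3 - 1) * (-5 / 12) * ev (es 3 k) := by
  have hY := Y_ne
  have hW := W_ne
  have p0 : pr4 Fv (sv 0) = 0 := T_0
  have p1 : pr4 Fv (sv 1) = 0 := by
    have e : pr4 Fv (sv 1) = pr4 Fv (Hv 1) + ((-E2) / 24) * pr4 Fv (Hv 0) := by
      rw [pr4_eq, pr4_eq, pr4_eq, sv_1, sv_1, sv_1, sv_1]
      ring
    rw [e, T_0, T_1]
    ring
  have p2 : pr4 Fv (sv 2) = 0 := by
    have e : pr4 Fv (sv 2) = pr4 Fv (Hv 2) + ((-E2) / 4) * pr4 Fv (Hv 1) +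
        ((3 * E2 ^ 2 + 2 * E4) / 576) * pr4 Fv (Hv 0) := by
      rw [pr4_eq, pr4_eq, pr4_eq, pr4_eq, sv_2, sv_2, sv_2, sv_2]
      ring
    rw [e, T_0, T_1, T_2]
    ring
  have p3 : pr4 Fv (sv 3) = φ ^ 12 * ((-5) / 12) := by
    have e : pr4 Fv (sv 3) = pr4 Fv (Hv 3) + ((-5 * E2) / 8) * pr4 Fv (Hv 2) +
        ((45 * E2 ^ 2 + 14 * E4) / 576) * pr4 Fv (Hv 1) +
        ((-15 * E2 ^ 3 - 14 * E2 * E4 - 16 * E6) / 13824) * pr4 Fv (Hv 0) := by
      rw [pr4_eq, pr4_eq, pr4_eq, pr4_eq, pr4_eq, sv_3, sv_3, sv_3, sv_3]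
      ring
    rw [e, T_0, T_1, T_2, T_3]
    ring
  have e0 : ev (es 3 0) = 0 := by
    rw [es, if_neg (by decide), map_zero]
  have e1 : ev (es 3 1) = 0 := by
    rw [es, if_neg (by decide), map_zero]
  have e2 : ev (es 3 2) = 0 := by
    rw [es, if_neg (by decide), map_zero]
  have e3 : ev (es 3 3) = 1 := by
    rw [es, if_pos rfl, map_one]
  fin_cases k
  · change pr4 Fv (fun r => sv 0 r) = sg ^ (3 - 1) * (-5 / 12) * ev (es 3 0)
    rw [e0, mul_zero]
    exact p0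
  · change pr4 Fv (fun r => sv 1 r / Y) = sg ^ (3 - 1) * (-5 / 12) * ev (es 3 1)
    have e : pr4 Fv (fun r => sv 1 r / Y) = pr4 Fv (sv 1) / Y := by
      rw [pr4_eq, pr4_eq]; ring
    rw [e1, mul_zero, e, p1, zero_div]
  · change pr4 Fv (fun r => sv 2 r * W / Y ^ 2) = sg ^ (3 - 1) * (-5 / 12) * ev (es 3 2)
    have e : pr4 Fv (fun r => sv 2 r * W / Y ^ 2) = pr4 Fv (sv 2) * W / Y ^ 2 := by
      rw [pr4_eq, pr4_eq]; ring
    rw [e2, mul_zero, e, p2, zero_mul, zero_div]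
  · change pr4 Fv (fun r => sv 3 r * W ^ 2 / Y ^ 3) = sg ^ (3 - 1) * (-5 / 12) * ev (es 3 3)
    have e : pr4 Fv (fun r => sv 3 r * W ^ 2 / Y ^ 3) = pr4 Fv (sv 3) * W ^ 2 / Y ^ 3 := by
      rw [pr4_eq, pr4_eq]; ring
    have hφ := φ_ne
    have hφ7 := φ7_ne
    have hE := Ee_ne
    rw [e3, mul_one, e, p3, Y3_eq, sg, Ee, show 3 - 1 = 2 from rfl]
    field_simp

/-- the sequence of vectors -/
def Av : ℕ → Fin 4 → K
  | 0 => stepU 1 Fv
  | α + 1 => stepU 1 (stepU 2 (Av α))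

/-- the constants -/
def κv : ℕ → K
  | 0 => -5 / 12 / 26542080
  | α + 1 => κv α / 26542080 / 26542080

theorem V_κv (α : ℕ) : V (κv α) = κv α := by
  induction α with
  | zero =>
    change V (-5 / 12 / 26542080) = -5 / 12 / 26542080
    rw [map_div₀, map_div₀, map_neg, map_ofNat, map_ofNat, map_ofNat]
  | succ α ih =>
    change V (κv α / 26542080 / 26542080) = κv α / 26542080 / 26542080
    rw [map_div₀, map_div₀, ih, map_ofNat]

theorem PJ_Av (α : ℕ) (j : Fin 4) : PJ (Av α) j = sg ^ 1 * κv α * ev (TT^[α] wv j) := by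
  induction α generalizing j with
  | zero =>
    refine PJ_step 1 (by norm_num) Fv (-5 / 12) ?_ (es 3) PJ_Fv j
    rw [map_div₀, map_neg, map_ofNat, map_ofNat]
  | succ α ih =>
    have h1 := fun k => PJ_step 2 le_rfl (Av α) (κv α) (V_κv α) (TT^[α] wv) ih k
    have h2 := PJ_step 1 (by norm_num) (stepU 2 (Av α)) (κv α / 26542080)
      (by rw [map_div₀, V_κv, map_ofNat]) (Rop 2 (TT^[α] wv)) h1 j
    rw [Function.iterate_succ_apply' TT]
    exact h2

/-! ### coefficients -/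

theorem coeff_qq_mul (e : ℕ) (f : K) (m : ℤ) : (qq ^ e * f).coeff m = f.coeff (m - e) := by
  have h1 : (qq ^ e * f / qq ^ e).coeff (m - e) = (qq ^ e * f).coeff (m - e + e) := coeff_div_qq _ _ _
  rw [sub_add_cancel] at h1
  rw [← h1, mul_div_cancel_left₀ _ (pow_ne_zero _ qq_ne)]

/-- signs as rationals -/
def sq (r : Fin 4) : ℚ := (![1, -1, 1, -1] : Fin 4 → ℚ) r

theorem coeff_sr_mul (r : Fin 4) (f : K) (n : ℤ) : (sr r * f).coeff n = sq r * f.coeff n := by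
  have h1 : sr r = HahnSeries.C (sq r) := by
    fin_cases r
    · change (1 : K) = HahnSeries.C 1
      rw [map_one]
    · change (-1 : K) = HahnSeries.C (-1)
      rw [map_neg, map_one]
    · change (1 : K) = HahnSeries.C 1
      rw [map_one]
    · change (-1 : K) = HahnSeries.C (-1)
      rw [map_neg, map_one]
  rw [h1, coeff_C_mul']

theorem coeff_stepU (c : ℕ) (F : Fin 4 → K) (r : Fin 4) (n : ℤ) :
    (stepU c F r).coeff n = sq r * (F (rf r)).coeff (7 * n + 2 * c - er r) := by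
  rw [stepU, coeff_sr_mul, coeff_U, coeff_div_qq, coeff_qq_mul]
  push_cast
  rfl

theorem sq_rf (r : Fin 4) : sq r * sq (rf r) = -1 := by
  fin_cases r
  · change (1 : ℚ) * -1 = -1
    norm_num
  · change (-1 : ℚ) * 1 = -1
    norm_num
  · change (1 : ℚ) * -1 = -1
    norm_num
  · change (-1 : ℚ) * 1 = -1
    norm_num

theorem coeff_Av_zero (r : Fin 4) (n : ℤ) : (Av 0 r).coeff n =
    -(CC ((3 : ℤ) - (r : ℕ))).coeff (7 * n + 2 - er r) := by
  have h : Av 0 = stepU 1 Fv := rfl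
  rw [h, coeff_stepU]
  have h2 : Fv (rf r) = sr (rf r) * CC ((3 : ℤ) - (r : ℕ)) := by
    fin_cases r
    · change -CC 3 = -1 * CC (3 - 0)
      norm_num
    · change CC 2 = 1 * CC (3 - 1)
      norm_num
    · change -CC 1 = -1 * CC (3 - 2)
      norm_num
    · change CC 0 = 1 * CC (3 - 3)
      norm_num
  rw [h2, coeff_sr_mul]
  have h3 := sq_rf r
  rw [← mul_assoc, h3]
  push_cast
  ring_nf

theorem er_rf (r : Fin 4) : 7 * (er r : ℤ) + er (rf r) = 4 * ((r : ℕ) : ℤ) ^ 2 + 6 := by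
  have h : ∀ r : Fin 4, 7 * (er r : ℤ) + er (rf r) = 4 * ((r : ℕ) : ℤ) ^ 2 + 6 := by decide
  exact h r

theorem coeff_Av_succ (α : ℕ) (r : Fin 4) (n : ℤ) : (Av (α + 1) r).coeff n =
    -(Av α r).coeff (49 * n + 12 - 4 * ((r : ℕ) : ℤ) ^ 2) := by
  have h : Av (α + 1) = stepU 1 (stepU 2 (Av α)) := rfl
  rw [h, coeff_stepU, coeff_stepU, rf_rf, ← mul_assoc]
  have h3 := sq_rf r
  rw [h3]
  have h4 := er_rf r
  have h5 : 7 * (7 * n + 2 * ((1 : ℕ) : ℤ) - er r) + 2 * ((2 : ℕ) : ℤ) - er (rf r) =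
      49 * n + 12 - 4 * ((r : ℕ) : ℤ) ^ 2 := by
    push_cast
    linarith
  rw [h5]
  ring

theorem er_eq (r : Fin 4) : 2 * (er r : ℤ) = ((r : ℕ) : ℤ) ^ 2 + ((r : ℕ) : ℤ) := by
  fin_cases r <;> norm_num [er]

/-- coefficients in terms of the generating functions -/
theorem coeff_Av (α : ℕ) (r : Fin 4) (n N : ℤ)
    (h : 12 * N + 6 - (3 - ((r : ℕ) : ℤ)) ^ 2 = 7 ^ (2 * α + 1) * (12 * n + 3 - ((r : ℕ) : ℤ) ^ 2)) :
    (Av α r).coeff n = (-1) ^ (α + 1) * (CC ((3 : ℤ) - (r : ℕ))).coeff N := by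
  induction α generalizing n with
  | zero =>
    rw [coeff_Av_zero]
    have h1 := er_eq r
    have h2 : 7 * n + 2 - (er r : ℤ) = N := by
      norm_num at h
      nlinarith
    rw [h2]
    ring
  | succ α ih =>
    rw [coeff_Av_succ, ih (49 * n + 12 - 4 * ((r : ℕ) : ℤ) ^ 2)]
    · ring
    · rw [h]
      ring

end

end Pool.Agent.H47.Fad
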