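import Pool.Agent.H47.Fad.Theta
import Pool.Agent.H47.Fad.Level7

/-!
# Taylor coefficients of the sixth power of the theta function
-/

set_option autoImplicit false
set_option linter.unusedSimpArgs false

namespace Pool.Agent.H47.Fad

open PowerSeries Q279.QS

noncomputable section

/-! ### exchanging the two variables -/

/-- exchange of the variables -/
def swap : PowerSeries (PowerSeries ℚ) →+* PowerSeries (PowerSeries ℚ) where
  toFun f := mk fun k => mk fun n => coeff k (coeff n f)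
  map_one' := by
    ext k n
    rw [coeff_mk, coeff_mk, coeff_one, coeff_one]
    by_cases hn : n = 0 <;> by_cases hk : k = 0 <;> simp [hn, hk, coeff_one]
  map_zero' := by ext k n; simp
  map_add' f g := by ext k n; simp
  map_mul' f g := by
    ext k n
    rw [coeff_mk, coeff_mk, coeff_mul, map_sum, coeff_mul, map_sum]
    simp only [coeff_mul, coeff_mk]
    rw [Finset.sum_comm]

theorem coeff_swap (f : PowerSeries (PowerSeries ℚ)) (k n : ℕ) :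
    coeff n (coeff k (swap f)) = coeff k (coeff n f) := by
  change coeff n (coeff k (mk fun k => mk fun n => coeff k (coeff n f))) = _
  rw [coeff_mk, coeff_mk]

theorem coeff_swap_TS {ι : Type} {e : ι → ℤ} (he : FF e) (c : ι → PowerSeries ℚ) (k : ℕ) :
    coeff k (swap (TS e c)) = TS e (fun i => coeff k (c i)) := by
  ext n
  rw [coeff_swap, coeff_TS' he, coeff_TS' he, map_sum]

/-! ### the theta function -/

/-- `(-1)^m e^{(m+1/2)x}` -/
def cc (m : ℤ) : PowerSeries ℚ := C ((-1 : ℚ) ^ m) * rescale ((m : ℚ) + 1 / 2) (exp ℚ)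

theorem coeff_res (a : ℚ) (k : ℕ) : coeff k (rescale a (exp ℚ)) = a ^ k / k.factorial := by
  rw [coeff_rescale, coeff_exp]
  simp
  ring

theorem coeff_cc (m : ℤ) (k : ℕ) :
    coeff k (cc m) = (-1 : ℚ) ^ m * (((m : ℚ) + 1 / 2) ^ k / k.factorial) := by
  rw [cc, coeff_C_mul, coeff_res]

theorem cc_mul (a b : ℚ) (m n : ℤ) :
    C ((-1 : ℚ) ^ m) * rescale a (exp ℚ) * (C ((-1 : ℚ) ^ n) * rescale b (exp ℚ)) =
      C ((-1 : ℚ) ^ (m + n)) * rescale (a + b) (exp ℚ) := by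
  rw [zpow_add₀ (by norm_num), map_mul, ← exp_mul_exp_eq_exp_add]
  ring

theorem cc_six (p : I6) : cc p.1 * (cc p.2.1 * (cc p.2.2.1 * (cc p.2.2.2.1 *
      (cc p.2.2.2.2.1 * cc p.2.2.2.2.2)))) =
    C ((-1 : ℚ) ^ (s6 p)) * rescale ((s6 p + 3 : ℤ) : ℚ) (exp ℚ) := by
  unfold cc
  rw [cc_mul, cc_mul, cc_mul, cc_mul, cc_mul, s6]
  congr 3
  push_cast
  ring

/-- the theta function -/
def Th : PowerSeries (PowerSeries ℚ) := TS e1 cc

theorem coeff_Th_six (k : ℕ) : coeff k (swap (Th ^ 6)) =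
    TS e6 (fun p => (-1 : ℚ) ^ (s6 p) * (((s6 p + 3 : ℤ) : ℚ) ^ k / k.factorial)) := by
  rw [Th, TS_pow_six, coeff_swap_TS FF_e6]
  refine TS_congr (fun _ => rfl) fun p => ?_
  rw [cc_six, coeff_C_mul, coeff_res]

theorem coeff_Th (k : ℕ) : coeff k (swap Th) =
    TS e1 (fun m => (-1 : ℚ) ^ m * (((m : ℚ) + 1 / 2) ^ k / k.factorial)) := by
  rw [Th, coeff_swap_TS FF_e1]
  refine TS_congr (fun _ => rfl) fun m => ?_
  rw [coeff_cc]

/-- the involution `m ↦ -1 - m` -/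
def rf1 : ℤ ≃ ℤ where
  toFun m := -1 - m
  invFun m := -1 - m
  left_inv m := by ring
  right_inv m := by ring

theorem neg_one_rf (m : ℤ) : (-1 : ℚ) ^ (-1 - m) = -(-1) ^ m := by
  rw [zpow_sub₀ (by norm_num)]
  rcases Int.even_or_odd m with h | h
  · rw [h.neg_one_zpow]; norm_num
  · rw [h.neg_one_zpow]; norm_num

theorem coeff_Th_even (l : ℕ) : coeff (2 * l) (swap Th) = 0 := by
  have h : coeff (2 * l) (swap Th) = - coeff (2 * l) (swap Th) := by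
    rw [coeff_Th, ← TS_neg]
    nth_rw 1 [← TS_equiv rf1 e1]
    refine TS_congr e1_rf fun m => ?_
    change (-1 : ℚ) ^ (-1 - m) * ((((-1 - m : ℤ) : ℚ) + 1 / 2) ^ (2 * l) / _) = _
    rw [neg_one_rf]
    have : (((-1 - m : ℤ) : ℚ) + 1 / 2) ^ (2 * l) = ((m : ℚ) + 1 / 2) ^ (2 * l) := by
      push_cast
      rw [show (-1 - (m : ℚ) + 1 / 2) = -((m : ℚ) + 1 / 2) by ring, Even.neg_pow (even_two_mul l)]
    rw [this]
    ring
  ext n
  have h2 := congrArg (coeff n) h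
  rw [map_neg] at h2
  rw [map_zero]
  linarith

/-- odd moments -/
def SS (l : ℕ) : PowerSeries ℚ := TS e1 (fun m => (-1 : ℚ) ^ m * ((m : ℚ) + 1 / 2) ^ (2 * l + 1))

theorem coeff_Th_odd (l : ℕ) :
    coeff (2 * l + 1) (swap Th) = C (1 / ((2 * l + 1).factorial : ℚ)) * SS l := by
  rw [coeff_Th, SS, ← TS_smul _ FF_e1]
  refine TS_congr (fun _ => rfl) fun m => ?_
  ring

/-- inclusion of power series -/
def kk : PowerSeries ℚ →+* K := HahnSeries.ofPowerSeries ℤ ℚ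

theorem coeff_kk (f : PowerSeries ℚ) (n : ℕ) : (kk f).coeff (n : ℤ) = coeff n f := by
  rw [kk, LaurentSeries.coeff_coe_powerSeries]

theorem ps_kk (f : PowerSeries ℚ) : Ps (kk f) := Ps.coe f

theorem kk_C (r : ℚ) : kk (C r) = (r : K) := by
  rw [kk, HahnSeries.ofPowerSeries_C]
  exact map_ratCast HahnSeries.C r

theorem D_kk_TS {ι : Type} {e : ι → ℤ} (he : FF e) (c : ι → ℚ) :
    D (kk (TS e c)) = kk (TS e (fun i => (e i : ℚ) * c i)) := by
  refine ps_ext (ps_kk _).D (ps_kk _) fun n => ?_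
  rw [coeff_D, coeff_kk, coeff_kk, coeff_TS' he, coeff_TS' he, Finset.mul_sum]
  refine Finset.sum_congr rfl fun i hi => ?_
  have : e i = n := by
    rw [Set.Finite.mem_toFinset] at hi
    exact hi
  rw [this]

theorem kk_TS_add {ι : Type} {e : ι → ℤ} (he : FF e) (c c' : ι → ℚ) :
    kk (TS e (fun i => c i + c' i)) = kk (TS e c) + kk (TS e c') := by
  rw [TS_add he, map_add]

theorem kk_TS_smul {ι : Type} (a : ℚ) {e : ι → ℤ} (he : FF e) (c : ι → ℚ) :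
    kk (TS e (fun i => a * c i)) = (a : K) * kk (TS e c) := by
  rw [TS_smul _ he, map_mul, kk_C]

theorem SS_succ (l : ℕ) : kk (SS (l + 1)) = 2 * D (kk (SS l)) + kk (SS l) / 4 := by
  rw [SS, SS, D_kk_TS FF_e1]
  have h : TS e1 (fun m => (-1 : ℚ) ^ m * ((m : ℚ) + 1 / 2) ^ (2 * (l + 1) + 1)) =
      TS e1 (fun m => (2 * ((e1 m : ℚ) * ((-1 : ℚ) ^ m * ((m : ℚ) + 1 / 2) ^ (2 * l + 1)))) +
        (1 / 4) * ((-1 : ℚ) ^ m * ((m : ℚ) + 1 / 2) ^ (2 * l + 1))) := by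
    refine TS_congr (fun _ => rfl) fun m => ?_
    have h2 : 2 * (e1 m : ℚ) = m * (m + 1) := by exact_mod_cast two_e1 m
    have h3 : ((m : ℚ) + 1 / 2) ^ (2 * (l + 1) + 1) =
        ((m : ℚ) + 1 / 2) ^ (2 * l + 1) * (m * (m + 1) + 1 / 4) := by ring
    rw [h3, ← h2]
    ring
  rw [h, kk_TS_add FF_e1, kk_TS_smul _ FF_e1, kk_TS_smul _ FF_e1]
  push_cast
  ring

theorem e1_nat (n : ℕ) : e1 (n : ℤ) = (((n + 1).choose 2 : ℕ) : ℤ) := by
  have h1 := two_e1 n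
  have h2 := two_c2 (n + 1)
  push_cast at h2
  linarith

theorem SS_zero : kk (SS 0) = φ ^ 3 := by
  have h1 := congrArg (PowerSeries.map (Int.castRingHom ℚ)) Q279.QS.jacobi
  have hF : FF (fun n : ℕ => (((n + 1).choose 2 : ℕ) : ℤ)) := FF_nat fun n => by
    exact_mod_cast Pool.Agent.Y246.Z700.k_le_tri n
  rw [map_TS _ hF, map_pow] at h1
  have h2 : SS 0 = TS (fun n : ℕ => (((n + 1).choose 2 : ℕ) : ℤ))
      (fun n : ℕ => (Int.castRingHom ℚ) ((-1) ^ n * (2 * (n : ℤ) + 1))) := by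
    rw [SS, TS_int FF_e1]
    have e1' : (fun n : ℕ => e1 (n : ℤ)) = fun n : ℕ => (((n + 1).choose 2 : ℕ) : ℤ) :=
      funext e1_nat
    have e2' : (fun n : ℕ => e1 (-((n : ℤ) + 1))) = fun n : ℕ => (((n + 1).choose 2 : ℕ) : ℤ) :=
      funext fun n => by rw [← e1_nat, ← e1_rf]; congr 1; ring
    rw [e1', e2', ← TS_add hF]
    refine TS_congr (fun _ => rfl) fun n => ?_
    have h5 : (-1 : ℚ) ^ (-((n : ℤ) + 1)) = -(-1) ^ n := by
      rw [show -((n : ℤ) + 1) = -1 - (n : ℤ) by ring, neg_one_rf, zpow_natCast]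
    rw [h5, zpow_natCast, eq_intCast]
    push_cast
    ring
  rw [h2, ← h1, map_pow]
  rfl

/-! ### moments -/

/-- even series -/
structure Ev (f : PowerSeries K) (a0 a1 a2 a3 a4 : K) : Prop where
  c0 : coeff 0 f = a0
  c1 : coeff 1 f = 0
  c2 : coeff 2 f = a1
  c3 : coeff 3 f = 0
  c4 : coeff 4 f = a2
  c5 : coeff 5 f = 0
  c6 : coeff 6 f = a3
  c7 : coeff 7 f = 0
  c8 : coeff 8 f = a4

theorem Ev.mul {f g : PowerSeries K} {a0 a1 a2 a3 a4 b0 b1 b2 b3 b4 : K}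
    (hf : Ev f a0 a1 a2 a3 a4) (hg : Ev g b0 b1 b2 b3 b4) :
    Ev (f * g) (a0 * b0) (a0 * b1 + a1 * b0) (a0 * b2 + a1 * b1 + a2 * b0)
      (a0 * b3 + a1 * b2 + a2 * b1 + a3 * b0)
      (a0 * b4 + a1 * b3 + a2 * b2 + a3 * b1 + a4 * b0) := by
  obtain ⟨f0, f1, f2, f3, f4, f5, f6, f7, f8⟩ := hf
  obtain ⟨g0, g1, g2, g3, g4, g5, g6, g7, g8⟩ := hg
  constructor <;>
  · rw [coeff_mul, Finset.Nat.sum_antidiagonal_eq_sum_range_succ_mk]
    simp only [Finset.sum_range_succ, Finset.sum_range_zero, f0, f1, f2, f3, f4, f5, f6, f7, f8,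
      g0, g1, g2, g3, g4, g5, g6, g7, g8, Nat.sub_zero, Nat.reduceSub, Nat.reduceAdd, Nat.sub_self]
    ring

/-- the theta function over `K` -/
def Tx : PowerSeries K := PowerSeries.map kk (swap Th)

/-- divided by `x` -/
def Px : PowerSeries K := mk fun k => coeff (k + 1) Tx

theorem Tx_eq : Tx = X * Px := by
  ext k
  rcases k with _ | k
  · rw [coeff_zero_X_mul, Tx, coeff_map]
    have := coeff_Th_even 0
    rw [mul_zero] at this
    rw [this, map_zero]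
  · rw [coeff_succ_X_mul, Px, coeff_mk]

theorem coeff_Px_odd (l : ℕ) : coeff (2 * l + 1) Px = 0 := by
  rw [Px, coeff_mk, Tx, coeff_map, show 2 * l + 1 + 1 = 2 * (l + 1) by ring, coeff_Th_even, map_zero]

theorem coeff_Px_even (l : ℕ) :
    coeff (2 * l) Px = kk (SS l) / ((2 * l + 1).factorial : K) := by
  rw [Px, coeff_mk, Tx, coeff_map, coeff_Th_odd, map_mul, kk_C]
  push_cast
  ring

theorem D_ofNat_mul (m : ℕ) [m.AtLeastTwo] (x : K) :
    D (ofNat(m) * x) = ofNat(m) * D x := by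
  rw [D_mul, D_ofNat, zero_mul, zero_add]

theorem D_div_ofNat (m : ℕ) [m.AtLeastTwo] (x : K) :
    D (x / ofNat(m)) = D x / ofNat(m) := by
  have h : (OfNat.ofNat m : K) ≠ 0 := OfNat.ofNat_ne_zero m
  rw [D_div _ _ h, D_ofNat]
  field_simp
  ring

theorem SSk_1 : kk (SS 1) = φ ^ 3 * ((E2) / 4) := by
  rw [SS_succ, SS_zero]
  rw [D_pow', Dφ]
  push_cast
  ring

theorem SSk_2 : kk (SS 2) = φ ^ 3 * ((5 * E2 ^ 2 - 2 * E4) / 48) := by
  rw [SS_succ, SSk_1]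
  simp only [D_ofNat_mul, D_div_ofNat, D_mul, D_pow', Dφ, map_add, map_sub, map_neg, DE2, DE4, DE6]
  push_cast
  ring

theorem SSk_3 : kk (SS 3) = φ ^ 3 * ((35 * E2 ^ 3 - 42 * E2 * E4 + 16 * E6) / 576) := by
  rw [SS_succ, SSk_2]
  simp only [D_ofNat_mul, D_div_ofNat, D_mul, D_pow', Dφ, map_add, map_sub, map_neg, DE2, DE4, DE6]
  push_cast
  ring

theorem SSk_4 : kk (SS 4) = φ ^ 3 * ((35 * E2 ^ 4 - 84 * E2 ^ 2 * E4 + 64 * E2 * E6 - 12 * E4 ^ 2) / 768) := by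
  rw [SS_succ, SSk_3]
  simp only [D_ofNat_mul, D_div_ofNat, D_mul, D_pow', Dφ, map_add, map_sub, map_neg, DE2, DE4, DE6]
  push_cast
  ring

theorem Ev_Px : Ev Px (φ ^ 3) (φ ^ 3 * ((E2) / 24)) (φ ^ 3 * ((5 * E2 ^ 2 - 2 * E4) / 5760))
    (φ ^ 3 * ((35 * E2 ^ 3 - 42 * E2 * E4 + 16 * E6) / 2903040))
    (φ ^ 3 * ((35 * E2 ^ 4 - 84 * E2 ^ 2 * E4 + 64 * E2 * E6 - 12 * E4 ^ 2) / 278691840)) := by
  constructor
  · have := coeff_Px_even 0
    rw [mul_zero, SS_zero] at this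
    rw [this]
    norm_num [Nat.factorial]
  · exact coeff_Px_odd 0
  · have := coeff_Px_even 1
    rw [SSk_1] at this
    rw [this]
    norm_num [Nat.factorial]
    ring
  · exact coeff_Px_odd 1
  · have := coeff_Px_even 2
    rw [SSk_2] at this
    rw [this]
    norm_num [Nat.factorial]
    ring
  · exact coeff_Px_odd 2
  · have := coeff_Px_even 3
    rw [SSk_3] at this
    rw [this]
    norm_num [Nat.factorial]
    ring
  · exact coeff_Px_odd 3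
  · have := coeff_Px_even 4
    rw [SSk_4] at this
    rw [this]
    norm_num [Nat.factorial]
    ring

theorem Ev_Px6 : Ev (Px ^ 6) (φ ^ 18) (φ ^ 18 * ((E2) / 4)) (φ ^ 18 * ((15 * E2 ^ 2 - E4) / 480))
    (φ ^ 18 * ((315 * E2 ^ 3 - 63 * E2 * E4 + 4 * E6) / 120960))
    (φ ^ 18 * ((315 * E2 ^ 4 - 126 * E2 ^ 2 * E4 + 16 * E2 * E6 + 3 * E4 ^ 2) / 1935360)) := by
  have h2 := Ev_Px.mul Ev_Px
  have h3 := h2.mul Ev_Px
  have h6 := h3.mul h3
  have e : Px * Px * Px * (Px * Px * Px) = Px ^ 6 := by ring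
  rw [e] at h6
  refine ⟨h6.c0.trans ?_, h6.c1, h6.c2.trans ?_, h6.c3, h6.c4.trans ?_, h6.c5, h6.c6.trans ?_,
    h6.c7, h6.c8.trans ?_⟩ <;> ring

theorem coeff_Tx6_low (k : ℕ) (hk : k < 6) : coeff k (Tx ^ 6) = 0 := by
  rw [Tx_eq, mul_pow, coeff_X_pow_mul', if_neg (by omega)]

theorem coeff_Tx6_high (k : ℕ) : coeff (k + 6) (Tx ^ 6) = coeff k (Px ^ 6) := by
  rw [Tx_eq, mul_pow, coeff_X_pow_mul]

/-! ### the pairing -/

/-- multiplicities -/
def mv : Fin 4 → K := ![1, 2, 2, 1]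

/-- exponents -/
def rr : Fin 4 → K := ![0, 1 / 12, 4 / 12, 9 / 12]

/-- the pairing -/
def pr4 (F G : Fin 4 → K) : K := ∑ r, mv r * F r * G r

theorem pr4_eq (F G : Fin 4 → K) : pr4 F G = F 0 * G 0 + 2 * F 1 * G 1 + 2 * F 2 * G 2 + F 3 * G 3 := by
  rw [pr4, Fin.sum_univ_four]
  simp only [mv, Matrix.cons_val, Fin.isValue]
  ring

/-- the derivatives of the unary theta series -/
def Hv (j : ℕ) : Fin 4 → K := fun r =>
  kk (TS (u (r : ℕ)) (fun k => ((6 * (k : ℚ) + (r : ℕ)) ^ 2 / 12) ^ j))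

/-- the generating functions of `cψ_{6,β}` -/
def CC (r : ℤ) : K := kk (num ℚ r) / φ ^ 6

/-- the vector -/
def Fv : Fin 4 → K := ![CC 0, -CC 1, CC 2, -CC 3]

theorem FF_u4 (r : Fin 4) : FF (u (r : ℕ)) := by
  have := r.2
  exact FF_u (by omega) (by omega)

theorem Hv_succ (j : ℕ) (r : Fin 4) : Hv (j + 1) r = D (Hv j r) + rr r * Hv j r := by
  have hr : rr r = (((r : ℕ) : ℚ) ^ 2 / 12 : ℚ) := by
    fin_cases r <;> norm_num [rr]
  rw [Hv, Hv, D_kk_TS (FF_u4 r), hr, ← kk_TS_smul _ (FF_u4 r), ← kk_TS_add (FF_u4 r)]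
  congr 1
  refine TS_congr (fun _ => rfl) fun k => ?_
  rw [u]
  push_cast
  ring

theorem neg_one_zpow_six (k : ℤ) (r : ℤ) : (-1 : ℚ) ^ (6 * k + r) = (-1) ^ r := by
  rw [zpow_add₀ (by norm_num), zpow_mul]
  norm_num

theorem pr4_Fv (j : ℕ) : pr4 Fv (Hv j) =
    -(((2 * j).factorial : K) / 12 ^ j) * coeff (2 * j) (Tx ^ 6) / φ ^ 6 := by
  have h := theta_decomp (R := ℚ) (fun β : ℤ => (-1 : ℚ) ^ β * ((β : ℚ) ^ 2 / 12) ^ j) (fun β => by
    have h1 : (-1 : ℚ) ^ (-β) = (-1) ^ β := by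
      rcases Int.even_or_odd β with h | h
      · rw [h.neg_one_zpow, h.neg.neg_one_zpow]
      · rw [h.neg_one_zpow, h.neg.neg_one_zpow]
    rw [h1]
    push_cast
    rw [neg_sq])
  have h2 : TS e6 (fun p => (-1 : ℚ) ^ (s6 p + 3) * ((((s6 p + 3 : ℤ)) : ℚ) ^ 2 / 12) ^ j) =
      C (-(((2 * j).factorial : ℚ) / 12 ^ j)) * coeff (2 * j) (swap (Th ^ 6)) := by
    rw [coeff_Th_six, ← TS_smul _ FF_e6]
    refine TS_congr (fun _ => rfl) fun p => ?_
    have hf : (((2 * j).factorial : ℕ) : ℚ) ≠ 0 := by exact_mod_cast Nat.factorial_ne_zero _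
    rw [zpow_add₀ (by norm_num), div_pow, ← pow_mul]
    field_simp
  have h3 : coeff (2 * j) (Tx ^ 6) = kk (coeff (2 * j) (swap (Th ^ 6))) := by
    rw [Tx, ← map_pow, ← map_pow, coeff_map]
  have h4 := congrArg kk h
  rw [h2] at h4
  simp only [map_add, map_mul, kk_C, neg_one_zpow_six] at h4
  rw [← h3] at h4
  have hT : ∀ r : Fin 4, kk (TS (u ((r : ℕ) : ℤ)) (fun k => (-1 : ℚ) ^ ((r : ℕ) : ℤ) *
      (((6 * k + ((r : ℕ) : ℤ) : ℤ) : ℚ) ^ 2 / 12) ^ j)) = (((-1 : ℚ) ^ (r : ℕ) : ℚ) : K) * Hv j r := by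
    intro r
    rw [kk_TS_smul _ (FF_u4 r), Hv, zpow_natCast]
    push_cast
    rfl
  have t0 := hT 0
  have t1 := hT 1
  have t2 := hT 2
  have t3 := hT 3
  simp only [Fin.val_zero, Fin.val_one, Fin.val_two, Fin.isValue, Nat.cast_zero, Nat.cast_one,
    Nat.cast_ofNat, Fin.coe_ofNat_eq_mod, Nat.reduceMod] at t0 t1 t2 t3
  rw [t0, t1, t2, t3] at h4
  have h2' : kk 2 = 2 := by rw [map_ofNat]
  have hφ := φ_ne
  rw [pr4_eq, Fv]
  simp only [Matrix.cons_val, Fin.isValue, CC]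
  rw [eq_div_iff (pow_ne_zero _ hφ)]
  rw [h2'] at h4
  push_cast at h4
  rw [h4]
  field_simp

theorem T_0 : pr4 Fv (Hv 0) = 0 := by
  rw [pr4_Fv, coeff_Tx6_low _ (by norm_num)]
  simp

theorem T_1 : pr4 Fv (Hv 1) = 0 := by
  rw [pr4_Fv, coeff_Tx6_low _ (by norm_num)]
  simp

theorem T_2 : pr4 Fv (Hv 2) = 0 := by
  rw [pr4_Fv, coeff_Tx6_low _ (by norm_num)]
  simp

theorem T_3 : pr4 Fv (Hv 3) = φ ^ 12 * ((-5) / 12) := by
  have h := coeff_Tx6_high 0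
  rw [Ev_Px6.c0] at h
  have hφ := φ_ne
  rw [pr4_Fv, show 2 * 3 = 0 + 6 by norm_num, h]
  norm_num [Nat.factorial]
  field_simp
  try ring

theorem T_4 : pr4 Fv (Hv 4) = φ ^ 12 * ((-35 * E2) / 72) := by
  have h := coeff_Tx6_high 2
  rw [Ev_Px6.c2] at h
  have hφ := φ_ne
  rw [pr4_Fv, show 2 * 4 = 2 + 6 by norm_num, h]
  norm_num [Nat.factorial]
  field_simp
  try ring

theorem T_5 : pr4 Fv (Hv 5) = φ ^ 12 * ((-525 * E2 ^ 2 + 35 * E4) / 1152) := by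
  have h := coeff_Tx6_high 4
  rw [Ev_Px6.c4] at h
  have hφ := φ_ne
  rw [pr4_Fv, show 2 * 5 = 4 + 6 by norm_num, h]
  norm_num [Nat.factorial]
  field_simp
  try ring

theorem T_6 : pr4 Fv (Hv 6) = φ ^ 12 * ((-17325 * E2 ^ 3 + 3465 * E2 * E4 - 220 * E6) / 41472) := by
  have h := coeff_Tx6_high 6
  rw [Ev_Px6.c6] at h
  have hφ := φ_ne
  rw [pr4_Fv, show 2 * 6 = 6 + 6 by norm_num, h]
  norm_num [Nat.factorial]
  field_simp
  try ring

theorem T_7 : pr4 Fv (Hv 7) = φ ^ 12 * ((-1576575 * E2 ^ 4 + 630630 * E2 ^ 2 * E4 - 80080 * E2 * E6 - 15015 * E4 ^ 2) / 3981312) := by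
  have h := coeff_Tx6_high 8
  rw [Ev_Px6.c8] at h
  have hφ := φ_ne
  rw [pr4_Fv, show 2 * 7 = 8 + 6 by norm_num, h]
  norm_num [Nat.factorial]
  field_simp
  try ring


end

end Pool.Agent.H47.Fad
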