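import Pool.Agent.H47.Fad.ModEq
import Pool.Agent.H47.Fad.Taylor

/-!
# Supports in residue classes modulo 7
-/

set_option autoImplicit false

namespace Pool.Agent.H47.Fad

open HahnSeries Q279.QS

noncomputable section

theorem coeff_kk_TS {e : ℤ → ℤ} (he : FF e) (h0 : ∀ i, 0 ≤ e i) (f : ℤ → ℚ) (m : ℤ) :
    (kk (TS e f)).coeff m = ∑ i ∈ (he m).toFinset, f i := by
  rcases lt_or_ge m 0 with hm | hm
  · rw [ps_kk _ m hm]
    symm
    refine Finset.sum_eq_zero fun i hi => ?_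
    rw [Set.Finite.mem_toFinset] at hi
    have h1 : e i = m := hi
    have h2 := h0 i
    omega
  · obtain ⟨n, rfl⟩ := Int.eq_ofNat_of_zero_le hm
    rw [coeff_kk, coeff_TS' he]

/-- extraction of a residue class -/
theorem class_TS {e : ℤ → ℤ} (he : FF e) (h0 : ∀ i, 0 ≤ e i) (f : ℤ → ℚ) (c r : ℤ) (lam : ℚ)
    (h1 : ∀ k, e (7 * k + r) = 49 * e k + c) (h2 : ∀ m, e m % 7 = c % 7 → m % 7 = r % 7)
    (h3 : ∀ k, f (7 * k + r) = lam * f k) (n : ℤ) :
    (kk (TS e f)).coeff (7 * n + c) = lam * (V (kk (TS e f))).coeff n := by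
  rw [coeff_kk_TS he h0]
  by_cases hn : (7 : ℤ) ∣ n
  · obtain ⟨n', rfl⟩ := hn
    rw [coeff_V_mul, coeff_kk_TS he h0, Finset.mul_sum]
    refine Finset.sum_nbij' (fun m => (m - r) / 7) (fun k => 7 * k + r) ?_ ?_ ?_ ?_ ?_
    · intro m hm
      rw [Set.Finite.mem_toFinset] at hm ⊢
      have hm' : e m = 7 * (7 * n') + c := hm
      have h4 := h2 m (by rw [hm']; omega)
      obtain ⟨k, hk⟩ : ∃ k, m = 7 * k + r := ⟨(m - r) / 7, by omega⟩
      subst hk
      have h5 : (7 * k + r - r) / 7 = k := by omega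
      rw [h1] at hm'
      change e ((7 * k + r - r) / 7) = n'
      rw [h5]
      omega
    · intro k hk
      rw [Set.Finite.mem_toFinset] at hk ⊢
      have hk' : e k = n' := hk
      change e (7 * k + r) = 7 * (7 * n') + c
      rw [h1, hk']
      ring
    · intro m hm
      rw [Set.Finite.mem_toFinset] at hm
      have hm' : e m = 7 * (7 * n') + c := hm
      have h4 := h2 m (by rw [hm']; omega)
      omega
    · intro k _
      omega
    · intro m hm
      rw [Set.Finite.mem_toFinset] at hm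
      have hm' : e m = 7 * (7 * n') + c := hm
      have h4 := h2 m (by rw [hm']; omega)
      obtain ⟨k, hk⟩ : ∃ k, m = 7 * k + r := ⟨(m - r) / 7, by omega⟩
      subst hk
      have h5 : (7 * k + r - r) / 7 = k := by omega
      rw [h3, h5]
  · rw [coeff_V_of_not_dvd _ hn, mul_zero]
    refine Finset.sum_eq_zero fun m hm => ?_
    rw [Set.Finite.mem_toFinset] at hm
    have hm' : e m = 7 * n + c := hm
    have h4 := h2 m (by rw [hm']; omega)
    obtain ⟨k, hk⟩ : ∃ k, m = 7 * k + r := ⟨(m - r) / 7, by omega⟩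
    subst hk
    rw [h1] at hm'
    exfalso
    apply hn
    exact ⟨7 * e k, by omega⟩

/-- support in residue classes -/
def Cl (A : Finset ℤ) (f : K) : Prop := ∀ n : ℤ, f.coeff n ≠ 0 → n % 7 ∈ A

theorem Cl.mono {A B : Finset ℤ} {f : K} (h : Cl A f) (hAB : A ⊆ B) : Cl B f :=
  fun n hn => hAB (h n hn)

theorem cl_V (f : K) : Cl {0} (V f) := by
  intro n hn
  rw [Finset.mem_singleton]
  by_contra h
  exact hn (coeff_V_of_not_dvd f (fun hd => h (by omega)))

theorem Cl.mul {A B C : Finset ℤ} {f g : K} (hf : Cl A f) (hg : Cl B g)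
    (h : ∀ a ∈ A, ∀ b ∈ B, (a + b) % 7 ∈ C) : Cl C (f * g) := by
  intro n hn
  by_contra hC
  apply hn
  rw [coeff_mul]
  refine Finset.sum_eq_zero ?_
  rintro ⟨i, j⟩ hp
  simp only [Finset.mem_antidiagonal, mem_support] at hp
  obtain ⟨h1, h2, h3⟩ := hp
  exfalso
  have h4 := h _ (hf i h1) _ (hg j h2)
  apply hC
  rw [← h3]
  have h5 : (i + j) % 7 = (i % 7 + j % 7) % 7 := by omega
  rwa [h5]

theorem Cl.U_zero {A : Finset ℤ} {f : K} (hf : Cl A f) (h : (0 : ℤ) ∉ A) : U f = 0 := by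
  ext n
  rw [coeff_U, HahnSeries.coeff_zero]
  by_contra hn
  apply h
  have := hf _ hn
  have h2 : (7 * n) % 7 = 0 := by omega
  rwa [h2] at this

/-- removing the class of zero -/
theorem Cl.sub_V {A : Finset ℤ} {f : K} (hf : Cl A f) : Cl (A.erase 0) (f - V (U f)) := by
  intro n hn
  rw [HahnSeries.coeff_sub] at hn
  by_cases h : (7 : ℤ) ∣ n
  · exfalso
    obtain ⟨m, rfl⟩ := h
    rw [coeff_V_mul, coeff_U, sub_self] at hn
    exact hn rfl
  · rw [coeff_V_of_not_dvd _ h, sub_zero] at hn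
    rw [Finset.mem_erase]
    exact ⟨fun h0 => h (Int.dvd_of_emod_eq_zero h0), hf n hn⟩

theorem cl_TS {e : ℤ → ℤ} (he : FF e) (h0 : ∀ i, 0 ≤ e i) (f : ℤ → ℚ) {A : Finset ℤ}
    (hA : ∀ m, e m % 7 ∈ A) : Cl A (kk (TS e f)) := by
  intro n hn
  rw [coeff_kk_TS he h0] at hn
  obtain ⟨m, hm, _⟩ := Finset.exists_ne_zero_of_sum_ne_zero hn
  rw [Set.Finite.mem_toFinset] at hm
  have hm' : e m = n := hm
  rw [← hm']
  exact hA m

theorem qq_pow (k : ℕ) : (qq ^ k : K) = HahnSeries.single (k : ℤ) (1 : ℚ) := by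
  rw [qq, HahnSeries.single_pow, one_pow]
  simp

theorem coeff_div_qq (f : K) (k : ℕ) (n : ℤ) : (f / qq ^ k).coeff n = f.coeff (n + k) := by
  have h1 : f = HahnSeries.single (k : ℤ) (1 : ℚ) * (f / qq ^ k) := by
    rw [← qq_pow]
    have := pow_ne_zero k qq_ne
    field_simp
  conv_rhs => rw [h1]
  rw [HahnSeries.coeff_single_mul_add, one_mul]

theorem Cl.div_qq {A B : Finset ℤ} {f : K} (hf : Cl A f) (k : ℕ)
    (h : ∀ a ∈ A, (a - k) % 7 ∈ B) : Cl B (f / qq ^ k) := by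
  intro n hn
  rw [coeff_div_qq] at hn
  have h1 := h _ (hf _ hn)
  have h2 : ((n + (k : ℤ)) % 7 - k) % 7 = n % 7 := by omega
  rwa [h2] at h1

/-! ### the two series -/

theorem two_te (m : ℤ) : 2 * te 1 2 m = m * (3 * m - 1) := by
  rw [te]
  have h : 2 * tri m = m * (m - 1) := by
    exact two_tri m
  push_cast
  linarith [show m * (3 * m - 1) = 2 * m + 3 * (m * (m - 1)) by ring]

theorem te12_nonneg (m : ℤ) : 0 ≤ te 1 2 m := by
  have h := two_te m
  rcases le_or_gt 1 m with h1 | h1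
  · nlinarith
  · rcases le_or_gt m (-1) with h2 | h2
    · nlinarith
    · have : m = 0 := by omega
      subst this
      linarith

theorem φ_TS : φ = kk (TS (te 1 2) (fun n : ℤ => (-1 : ℚ) ^ n.natAbs)) := by
  have h1 := congrArg (PowerSeries.map (Int.castRingHom ℚ)) Q279.QS.pentagonal
  rw [map_TS _ (FF_te le_rfl (by norm_num))] at h1
  have h2 : φ = kk (PowerSeries.map (Int.castRingHom ℚ) (eul 1)) := rfl
  rw [h2, h1]
  congr 1
  refine TS_congr (fun _ => rfl) fun n => ?_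
  simp

theorem sq_cls (m : ℤ) : (m * (3 * m - 1)) % 7 = (m % 7 * (3 * (m % 7) - 1)) % 7 := by
  have h : m = 7 * (m / 7) + m % 7 := by omega
  generalize m / 7 = a at h
  generalize m % 7 = b at h
  subst h
  have : (7 * a + b) * (3 * (7 * a + b) - 1) = b * (3 * b - 1) + 7 * (a * (3 * (7 * a + b) - 1) + 3 * a * b) := by
    ring
  rw [this, Int.add_mul_emod_self_left]

theorem sq_cls' (m : ℤ) : (m * (m + 1)) % 7 = (m % 7 * (m % 7 + 1)) % 7 := by
  have h : m = 7 * (m / 7) + m % 7 := by omega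
  generalize m / 7 = a at h
  generalize m % 7 = b at h
  subst h
  have : (7 * a + b) * (7 * a + b + 1) = b * (b + 1) + 7 * (a * (7 * a + b + 1) + a * b) := by
    ring
  rw [this, Int.add_mul_emod_self_left]

theorem te_cases (m : ℤ) : (te 1 2 m % 7 = 0 ∨ te 1 2 m % 7 = 1 ∨ te 1 2 m % 7 = 2 ∨ te 1 2 m % 7 = 5)
    ∧ (te 1 2 m % 7 = 2 → m % 7 = 6) := by
  have h := two_te m
  have h1 := sq_cls m
  rw [← h] at h1
  have h2 : m % 7 = 0 ∨ m % 7 = 1 ∨ m % 7 = 2 ∨ m % 7 = 3 ∨ m % 7 = 4 ∨ m % 7 = 5 ∨ m % 7 = 6 := by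
    omega
  rcases h2 with h2 | h2 | h2 | h2 | h2 | h2 | h2 <;> rw [h2] at h1 <;> norm_num at h1 <;> omega

theorem e1_cases (m : ℤ) : (e1 m % 7 = 0 ∨ e1 m % 7 = 1 ∨ e1 m % 7 = 3 ∨ e1 m % 7 = 6)
    ∧ (e1 m % 7 = 6 → m % 7 = 3) := by
  have h := two_e1 m
  have h1 := sq_cls' m
  rw [← h] at h1
  have h2 : m % 7 = 0 ∨ m % 7 = 1 ∨ m % 7 = 2 ∨ m % 7 = 3 ∨ m % 7 = 4 ∨ m % 7 = 5 ∨ m % 7 = 6 := by
    omega
  rcases h2 with h2 | h2 | h2 | h2 | h2 | h2 | h2 <;> rw [h2] at h1 <;> norm_num at h1 <;> omega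

theorem U_φ : U (φ / qq ^ 2) = -φ7 := by
  ext n
  rw [coeff_U, coeff_div_qq, HahnSeries.coeff_neg, φ7, φ_TS]
  have h := class_TS (FF_te le_rfl (by norm_num)) te12_nonneg (fun n : ℤ => (-1 : ℚ) ^ n.natAbs) 2 (-1) (-1)
    (fun k => by
      have h1 := two_te (7 * k + -1)
      have h2 := two_te k
      linarith [show (7 * k + -1) * (3 * (7 * k + -1) - 1) = 49 * (k * (3 * k - 1)) + 4 by ring])
    (fun m hm => by
      have h1 := (te_cases m).2 (by omega)
      omega)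
    (fun k => by
      have h1 : ((-1 : ℚ)) ^ (7 * k + -1).natAbs = (-1) ^ (7 * k + -1) := by
        rcases Int.even_or_odd (7 * k + -1) with h | h
        · rw [h.neg_one_zpow, (Int.natAbs_even.2 h).neg_one_pow]
        · rw [h.neg_one_zpow, (Int.natAbs_odd.2 h).neg_one_pow]
      have h2 : ((-1 : ℚ)) ^ k.natAbs = (-1) ^ k := by
        rcases Int.even_or_odd k with h | h
        · rw [h.neg_one_zpow, (Int.natAbs_even.2 h).neg_one_pow]
        · rw [h.neg_one_zpow, (Int.natAbs_odd.2 h).neg_one_pow]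
      rw [h1, h2, zpow_add₀ (by norm_num), zpow_mul]
      norm_num) n
  push_cast
  rw [h]
  ring

theorem U_φ3 : U (φ ^ 3 / qq ^ 6) = -7 * φ7 ^ 3 := by
  ext n
  have h7 : (-7 * φ7 ^ 3 : K) = HahnSeries.C (-7 : ℚ) * V (φ ^ 3) := by
    rw [map_neg, map_ofNat, map_pow, V_φ]
  rw [coeff_U, coeff_div_qq, h7, coeff_C_mul', ← SS_zero, SS]
  have h := class_TS FF_e1 e1_nonneg (fun m : ℤ => (-1 : ℚ) ^ m * ((m : ℚ) + 1 / 2) ^ (2 * 0 + 1)) 6 3 (-7)
    (fun k => by
      have h1 := two_e1 (7 * k + 3)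
      have h2 := two_e1 k
      linarith [show (7 * k + 3) * (7 * k + 3 + 1) = 49 * (k * (k + 1)) + 12 by ring])
    (fun m hm => by
      have h1 := (e1_cases m).2 (by omega)
      omega)
    (fun k => by
      rw [zpow_add₀ (by norm_num), zpow_mul]
      norm_num
      ring) n
  exact_mod_cast h

theorem cl_φ : Cl {0, 1, 2, 5} φ := by
  rw [φ_TS]
  refine cl_TS (FF_te le_rfl (by norm_num)) te12_nonneg _ fun m => ?_
  have h := (te_cases m).1
  simp only [Finset.mem_insert, Finset.mem_singleton]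
  exact h

theorem cl_φ3 : Cl {0, 1, 3, 6} (φ ^ 3) := by
  rw [← SS_zero, SS]
  refine cl_TS FF_e1 e1_nonneg _ fun m => ?_
  have h := (e1_cases m).1
  simp only [Finset.mem_insert, Finset.mem_singleton]
  exact h

end

end Pool.Agent.H47.Fad
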