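import Pool.Agent.H47.Fad.Lib.Eta

/-!
# Six-fold products of theta series
-/

set_option autoImplicit false

namespace Pool.Agent.H47.Fad

open PowerSeries Q279.QS

noncomputable section

/-- `m(m+1)/2` -/
def e1 (m : ℤ) : ℤ := m * (m + 1) / 2

theorem two_e1 (m : ℤ) : 2 * e1 m = m * (m + 1) := by
  unfold e1
  exact Int.mul_ediv_cancel' (Int.even_mul_succ_self m).two_dvd

theorem e1_nonneg (m : ℤ) : 0 ≤ e1 m := by
  have h := two_e1 m
  rcases le_or_gt 0 m with h1 | h1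
  · nlinarith
  · nlinarith [mul_nonneg (show (0 : ℤ) ≤ -m by omega) (show (0 : ℤ) ≤ -(m + 1) by omega)]

theorem e1_bound (m : ℤ) : -(e1 m) - 1 ≤ m ∧ m ≤ e1 m := by
  have h := two_e1 m
  rcases le_or_gt 1 m with h1 | h1
  · constructor
    · nlinarith
    · nlinarith
  · rcases le_or_gt (-1) m with h2 | h2
    · have : m = 0 ∨ m = -1 := by omega
      rcases this with rfl | rfl
      · constructor <;> linarith
      · constructor <;> linarith
    · constructor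
      · nlinarith [mul_nonneg (show (0 : ℤ) ≤ -m - 2 by omega) (show (0 : ℤ) ≤ -m - 1 by omega)]
      · nlinarith [e1_nonneg m]

theorem FF_e1 : FF e1 := fun n => (Set.finite_Icc (-n - 1) n).subset fun m hm => by
  have h := e1_bound m
  have h2 : e1 m = n := hm
  rw [Set.mem_Icc]
  omega

/-- exponents for products -/
def e2 (p : ℤ × ℤ) : ℤ := e1 p.1 + e1 p.2
def e3 (p : ℤ × ℤ × ℤ) : ℤ := e1 p.1 + e2 p.2
def e4 (p : ℤ × ℤ × ℤ × ℤ) : ℤ := e1 p.1 + e3 p.2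
def e5 (p : ℤ × ℤ × ℤ × ℤ × ℤ) : ℤ := e1 p.1 + e4 p.2
def e6 (p : ℤ × ℤ × ℤ × ℤ × ℤ × ℤ) : ℤ := e1 p.1 + e5 p.2

/-- the index set -/
abbrev I6 := ℤ × ℤ × ℤ × ℤ × ℤ × ℤ

/-- the sum of the coordinates -/
def s6 (p : I6) : ℤ := p.1 + (p.2.1 + (p.2.2.1 + (p.2.2.2.1 + (p.2.2.2.2.1 + p.2.2.2.2.2))))

theorem e2_nonneg (p) : 0 ≤ e2 p := add_nonneg (e1_nonneg _) (e1_nonneg _)
theorem e3_nonneg (p) : 0 ≤ e3 p := add_nonneg (e1_nonneg _) (e2_nonneg _)
theorem e4_nonneg (p) : 0 ≤ e4 p := add_nonneg (e1_nonneg _) (e3_nonneg _)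
theorem e5_nonneg (p) : 0 ≤ e5 p := add_nonneg (e1_nonneg _) (e4_nonneg _)
theorem e6_nonneg (p) : 0 ≤ e6 p := add_nonneg (e1_nonneg _) (e5_nonneg _)

theorem FF_e2 : FF e2 := FF_e1.add FF_e1 e1_nonneg e1_nonneg
theorem FF_e3 : FF e3 := FF_e1.add FF_e2 e1_nonneg e2_nonneg
theorem FF_e4 : FF e4 := FF_e1.add FF_e3 e1_nonneg e3_nonneg
theorem FF_e5 : FF e5 := FF_e1.add FF_e4 e1_nonneg e4_nonneg
theorem FF_e6 : FF e6 := FF_e1.add FF_e5 e1_nonneg e5_nonneg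

/-- sixth powers -/
theorem TS_pow_six {R : Type} [CommRing R] (c : ℤ → R) :
    TS e1 c ^ 6 = TS e6 (fun p => c p.1 * (c p.2.1 * (c p.2.2.1 * (c p.2.2.2.1 *
      (c p.2.2.2.2.1 * c p.2.2.2.2.2))))) := by
  have h2 : TS e1 c * TS e1 c = TS e2 (fun p => c p.1 * c p.2) :=
    TS_mul FF_e1 FF_e1 e1_nonneg e1_nonneg c c
  have h3 : TS e1 c * (TS e1 c * TS e1 c) = TS e3 (fun p => c p.1 * (c p.2.1 * c p.2.2)) := by
    rw [h2]; exact TS_mul FF_e1 FF_e2 e1_nonneg e2_nonneg c _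
  have h4 : TS e1 c * (TS e1 c * (TS e1 c * TS e1 c)) =
      TS e4 (fun p => c p.1 * (c p.2.1 * (c p.2.2.1 * c p.2.2.2))) := by
    rw [h3]; exact TS_mul FF_e1 FF_e3 e1_nonneg e3_nonneg c _
  have h5 : TS e1 c * (TS e1 c * (TS e1 c * (TS e1 c * TS e1 c))) =
      TS e5 (fun p => c p.1 * (c p.2.1 * (c p.2.2.1 * (c p.2.2.2.1 * c p.2.2.2.2)))) := by
    rw [h4]; exact TS_mul FF_e1 FF_e4 e1_nonneg e4_nonneg c _
  have h6 : TS e1 c * (TS e1 c * (TS e1 c * (TS e1 c * (TS e1 c * TS e1 c)))) =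
      TS e6 (fun p => c p.1 * (c p.2.1 * (c p.2.2.1 * (c p.2.2.2.1 *
        (c p.2.2.2.2.1 * c p.2.2.2.2.2))))) := by
    rw [h5]; exact TS_mul FF_e1 FF_e5 e1_nonneg e5_nonneg c _
  rw [← h6]
  ring

/-- shift by `k (1,…,1)` -/
def sh6 (k : ℤ) (p : I6) : I6 :=
  (p.1 + k, p.2.1 + k, p.2.2.1 + k, p.2.2.2.1 + k, p.2.2.2.2.1 + k, p.2.2.2.2.2 + k)

theorem s6_sh6 (k : ℤ) (p : I6) : s6 (sh6 k p) = s6 p + 6 * k := by
  simp only [s6, sh6]; ring

theorem e6_sh6 (k : ℤ) (p : I6) : e6 (sh6 k p) = e6 p + k * (s6 p + 3) + 3 * k ^ 2 := by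
  obtain ⟨a, b, c, d, e, f⟩ := p
  simp only [e6, e5, e4, e3, e2, s6, sh6]
  have h : ∀ m : ℤ, 2 * e1 (m + k) = 2 * e1 m + 2 * k * m + k * (k + 1) := fun m => by
    rw [two_e1, two_e1]; ring
  linarith [h a, h b, h c, h d, h e, h f]

theorem sh6_neg (k : ℤ) (p : I6) : sh6 (-k) (sh6 k p) = p := by
  obtain ⟨a, b, c, d, e, f⟩ := p
  simp [sh6]

theorem sh6_neg' (k : ℤ) (p : I6) : sh6 k (sh6 (-k) p) = p := by
  obtain ⟨a, b, c, d, e, f⟩ := p
  simp [sh6]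

/-- the numerator of the generating function of `cψ_{6,β}`, over any ring -/
def num (R : Type) [CommRing R] (β : ℤ) : R⟦X⟧ := TS e6 (fun p => if s6 p + 3 = β then 1 else 0)

/-- reflection -/
def rf6 : I6 ≃ I6 where
  toFun p := (-1 - p.1, -1 - p.2.1, -1 - p.2.2.1, -1 - p.2.2.2.1, -1 - p.2.2.2.2.1, -1 - p.2.2.2.2.2)
  invFun p := (-1 - p.1, -1 - p.2.1, -1 - p.2.2.1, -1 - p.2.2.2.1, -1 - p.2.2.2.2.1, -1 - p.2.2.2.2.2)
  left_inv p := by
    obtain ⟨a, b, c, d, e, f⟩ := p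
    simp
  right_inv p := by
    obtain ⟨a, b, c, d, e, f⟩ := p
    simp

theorem e1_rf (m : ℤ) : e1 (-1 - m) = e1 m := by
  have h1 := two_e1 m
  have h2 := two_e1 (-1 - m)
  linarith [show (-1 - m) * (-1 - m + 1) = m * (m + 1) by ring]

theorem e6_rf6 (p : I6) : e6 (rf6 p) = e6 p := by
  obtain ⟨a, b, c, d, e, f⟩ := p
  simp only [e6, e5, e4, e3, e2, rf6, Equiv.coe_fn_mk, e1_rf]

theorem s6_rf6 (p : I6) : s6 (rf6 p) = -6 - s6 p := by
  obtain ⟨a, b, c, d, e, f⟩ := p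
  simp only [s6, rf6, Equiv.coe_fn_mk]
  ring

theorem num_neg (R : Type) [CommRing R] (β : ℤ) : num R (-β) = num R β := by
  unfold num
  rw [← TS_equiv rf6 e6]
  refine TS_congr e6_rf6 fun p => ?_
  rw [s6_rf6]
  refine if_congr ?_ rfl rfl
  constructor <;> intro h <;> omega

/-- exponents of the unary theta series -/
def u (r : ℤ) (k : ℤ) : ℤ := 3 * k ^ 2 + k * r

theorem u_nonneg {r : ℤ} (h1 : -3 ≤ r) (h2 : r ≤ 3) (k : ℤ) : 0 ≤ u r k := by
  unfold u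
  rcases le_or_gt 0 k with h | h
  · nlinarith [mul_nonneg h (show (0 : ℤ) ≤ r + 3 by omega), mul_nonneg h h,
      mul_nonneg h (Int.le_self_sq k |> sub_nonneg.2)]
  · have hk : (0 : ℤ) ≤ -k - 1 := by omega
    have hk' : (0 : ℤ) ≤ -k := by omega
    nlinarith [mul_nonneg hk' (show (0 : ℤ) ≤ 3 - r by omega), mul_nonneg hk' hk]

theorem FF_u {r : ℤ} (h1 : -3 ≤ r) (h2 : r ≤ 3) : FF (u r) := fun n =>
  (Set.finite_Icc (-|n| - 1) (|n| + 1)).subset fun k hk => by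
    have h3 : u r k = n := hk
    unfold u at h3
    rw [Set.mem_Icc]
    have h5 := le_abs_self n
    by_contra hcon
    rw [not_and_or, not_le, not_le] at hcon
    rcases hcon with h6 | h6
    · have h7 : |n| + 1 < -k := by linarith
      have h8 : (0 : ℤ) ≤ |n| := abs_nonneg n
      nlinarith [mul_nonneg (show (0 : ℤ) ≤ -k - 2 by omega) (show (0 : ℤ) ≤ -k by omega),
        mul_nonneg (show (0 : ℤ) ≤ -k by omega) (show (0 : ℤ) ≤ 3 - r by omega)]
    · have h8 : (0 : ℤ) ≤ |n| := abs_nonneg n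
      nlinarith [mul_nonneg (show (0 : ℤ) ≤ k - 2 by omega) (show (0 : ℤ) ≤ k by omega),
        mul_nonneg (show (0 : ℤ) ≤ k by omega) (show (0 : ℤ) ≤ r + 3 by omega)]

/-- one residue class modulo six -/
theorem class_sum {R : Type} [CommRing R] (ψ : ℤ → R) {r : ℤ} (h1 : -3 ≤ r) (h2 : r ≤ 3) :
    TS e6 (fun p => if (6 : ℤ) ∣ s6 p + 3 - r then ψ (s6 p + 3) else 0) =
      num R r * TS (u r) (fun k => ψ (6 * k + r)) := by
  have hFF := FF_e6.add (FF_u h1 h2) e6_nonneg (u_nonneg h1 h2)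
  rw [num, TS_mul FF_e6 (FF_u h1 h2) e6_nonneg (u_nonneg h1 h2)]
  ext n
  rw [coeff_TS' FF_e6, coeff_TS' hFF, ← Finset.sum_filter]
  simp only [ite_mul, one_mul, zero_mul]
  rw [← Finset.sum_filter]
  refine Finset.sum_bij' (fun p _ => (sh6 (-((s6 p + 3 - r) / 6)) p, (s6 p + 3 - r) / 6))
    (fun x _ => sh6 x.2 x.1) ?_ ?_ ?_ ?_ ?_
  · intro p hp
    simp only [Finset.mem_filter, Set.Finite.mem_toFinset, Set.mem_ofPred_eq] at hp ⊢
    obtain ⟨h3, h4⟩ := hp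
    obtain ⟨k, hk⟩ := h4
    have e : (s6 p + 3 - r) / 6 = k := by omega
    rw [e, s6_sh6, e6_sh6, u]
    refine ⟨?_, by linarith⟩
    have : s6 p + 3 = 6 * k + r := by linarith
    rw [this, h3]
    ring
  · rintro ⟨p, k⟩ hp
    simp only [Finset.mem_filter, Set.Finite.mem_toFinset, Set.mem_ofPred_eq] at hp ⊢
    obtain ⟨h3, h4⟩ := hp
    rw [s6_sh6, e6_sh6]
    refine ⟨?_, ⟨k, by linarith⟩⟩
    rw [h4, ← h3, u]
    ring
  · intro p hp
    exact sh6_neg' _ _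
  · rintro ⟨p, k⟩ hp
    simp only [Finset.mem_filter, Set.Finite.mem_toFinset, Set.mem_ofPred_eq] at hp ⊢
    obtain ⟨h3, h4⟩ := hp
    have e : (s6 (sh6 k p) + 3 - r) / 6 = k := by rw [s6_sh6]; omega
    rw [e, sh6_neg]
  · intro p hp
    simp only [Finset.mem_filter, Set.Finite.mem_toFinset, Set.mem_ofPred_eq] at hp ⊢
    obtain ⟨h3, h4⟩ := hp
    obtain ⟨k, hk⟩ := h4
    have e : (s6 p + 3 - r) / 6 = k := by omega
    rw [e]
    congr 1
    linarith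

theorem TS_u_neg {R : Type} [CommRing R] (ψ : ℤ → R) (hψ : ∀ n, ψ (-n) = ψ n) (r : ℤ) :
    TS (u (-r)) (fun k => ψ (6 * k + -r)) = TS (u r) (fun k => ψ (6 * k + r)) := by
  rw [← TS_equiv (Equiv.neg ℤ) (u (-r))]
  refine TS_congr (fun k => ?_) fun k => ?_
  · simp only [u, Equiv.neg_apply]; ring
  · rw [Equiv.neg_apply, ← hψ]
    congr 1
    ring

/-- the theta decomposition -/
theorem theta_decomp {R : Type} [CommRing R] (ψ : ℤ → R) (hψ : ∀ n, ψ (-n) = ψ n) :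
    TS e6 (fun p => ψ (s6 p + 3)) =
      num R 0 * TS (u 0) (fun k => ψ (6 * k + 0)) + 2 * (num R 1 * TS (u 1) (fun k => ψ (6 * k + 1))) +
      2 * (num R 2 * TS (u 2) (fun k => ψ (6 * k + 2))) + num R 3 * TS (u 3) (fun k => ψ (6 * k + 3)) := by
  have h0 := class_sum ψ (r := 0) (by norm_num) (by norm_num)
  have h1 := class_sum ψ (r := 1) (by norm_num) (by norm_num)
  have h2 := class_sum ψ (r := 2) (by norm_num) (by norm_num)
  have h3 := class_sum ψ (r := 3) (by norm_num) (by norm_num)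
  have h1' := class_sum ψ (r := -1) (by norm_num) (by norm_num)
  have h2' := class_sum ψ (r := -2) (by norm_num) (by norm_num)
  rw [num_neg, TS_u_neg ψ hψ 1, ← h1] at h1'
  rw [num_neg, TS_u_neg ψ hψ 2, ← h2] at h2'
  rw [← h0, ← h1, ← h2, ← h3]
  have key : TS e6 (fun p => ψ (s6 p + 3)) =
      TS e6 (fun p => if (6 : ℤ) ∣ s6 p + 3 - 0 then ψ (s6 p + 3) else 0) +
      (TS e6 (fun p => if (6 : ℤ) ∣ s6 p + 3 - 1 then ψ (s6 p + 3) else 0) +
       TS e6 (fun p => if (6 : ℤ) ∣ s6 p + 3 - -1 then ψ (s6 p + 3) else 0)) +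
      (TS e6 (fun p => if (6 : ℤ) ∣ s6 p + 3 - 2 then ψ (s6 p + 3) else 0) +
       TS e6 (fun p => if (6 : ℤ) ∣ s6 p + 3 - -2 then ψ (s6 p + 3) else 0)) +
      TS e6 (fun p => if (6 : ℤ) ∣ s6 p + 3 - 3 then ψ (s6 p + 3) else 0) := by
    rw [← TS_add FF_e6, ← TS_add FF_e6, ← TS_add FF_e6, ← TS_add FF_e6, ← TS_add FF_e6]
    refine TS_congr (fun _ => rfl) fun p => ?_
    generalize s6 p + 3 = N
    have hN : N % 6 = 0 ∨ N % 6 = 1 ∨ N % 6 = 2 ∨ N % 6 = 3 ∨ N % 6 = 4 ∨ N % 6 = 5 := by omega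
    rcases hN with h | h | h | h | h | h
    · rw [if_pos (by omega), if_neg (by omega), if_neg (by omega), if_neg (by omega),
        if_neg (by omega), if_neg (by omega)]; simp
    · rw [if_neg (by omega), if_pos (by omega), if_neg (by omega), if_neg (by omega),
        if_neg (by omega), if_neg (by omega)]; simp
    · rw [if_neg (by omega), if_neg (by omega), if_neg (by omega), if_pos (by omega),
        if_neg (by omega), if_neg (by omega)]; simp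
    · rw [if_neg (by omega), if_neg (by omega), if_neg (by omega), if_neg (by omega),
        if_neg (by omega), if_pos (by omega)]; simp
    · rw [if_neg (by omega), if_neg (by omega), if_neg (by omega), if_neg (by omega),
        if_pos (by omega), if_neg (by omega)]; simp
    · rw [if_neg (by omega), if_neg (by omega), if_pos (by omega), if_neg (by omega),
        if_neg (by omega), if_neg (by omega)]; simp
  rw [key, h1', h2']
  ring

end

end Pool.Agent.H47.Fad
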