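import Pool.Agent.H47.Fad.Ode

/-!
# Truncated expansions: the first eight coefficients
-/

set_option autoImplicit false

namespace Pool.Agent.H47.Fad

open HahnSeries

noncomputable section

/-- product of truncated series -/
def mulL (a b : List ℤ) : List ℤ :=
  (List.range 8).map fun k => ((List.range (k + 1)).map fun i => a.getD i 0 * b.getD (k - i) 0).sum

/-- sum of truncated series -/
def addL (a b : List ℤ) : List ℤ := (List.range 8).map fun k => a.getD k 0 + b.getD k 0

/-- scalar multiple -/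
def smulL (r : ℤ) (a : List ℤ) : List ℤ := (List.range 8).map fun k => r * a.getD k 0

/-- derivative -/
def derL (a : List ℤ) : List ℤ := (List.range 8).map fun k : ℕ => (k : ℤ) * a.getD k 0

/-- the first eight coefficients of `f` are given by the list `l` -/
def Tr (f : K) (l : List ℤ) : Prop := Ps f ∧ ∀ i : ℕ, i < 8 → f.coeff (i : ℤ) = (l.getD i 0 : ℤ)

theorem getD_map_range (g : ℕ → ℤ) {i : ℕ} (hi : i < 8) :
    ((List.range 8).map g).getD i 0 = g i := by
  rw [List.getD_eq_getElem?_getD, List.getElem?_map, List.getElem?_range hi]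
  rfl

theorem sum_map_range (g : ℕ → ℤ) (n : ℕ) :
    ((List.range n).map g).sum = ∑ i ∈ Finset.range n, g i := by
  induction n with
  | zero => simp
  | succ n ih => rw [List.range_succ, List.map_append, List.sum_append, ih, Finset.sum_range_succ]; simp

theorem Ps.mul {f g : K} (hf : Ps f) (hg : Ps g) : Ps (f * g) := (coeff_mul_low hf hg).2

theorem Ps.add {f g : K} (hf : Ps f) (hg : Ps g) : Ps (f + g) := fun n hn => by
  rw [HahnSeries.coeff_add, hf n hn, hg n hn, add_zero]

theorem Ps.sub {f g : K} (hf : Ps f) (hg : Ps g) : Ps (f - g) := fun n hn => by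
  rw [HahnSeries.coeff_sub, hf n hn, hg n hn, sub_zero]

theorem coeff_mul_nat {f g : K} (hf : Ps f) (hg : Ps g) (k : ℕ) :
    (f * g).coeff (k : ℤ) = ∑ i ∈ Finset.range (k + 1), f.coeff (i : ℤ) * g.coeff ((k - i : ℕ) : ℤ) := by
  obtain ⟨F, rfl⟩ := hf.exists
  obtain ⟨G, rfl⟩ := hg.exists
  rw [← map_mul, LaurentSeries.coeff_coe_powerSeries, PowerSeries.coeff_mul,
    Finset.Nat.sum_antidiagonal_eq_sum_range_succ_mk]
  refine Finset.sum_congr rfl fun i _ => ?_
  rw [LaurentSeries.coeff_coe_powerSeries, LaurentSeries.coeff_coe_powerSeries]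

theorem Tr.mul {f g : K} {a b c : List ℤ} (hf : Tr f a) (hg : Tr g b) (h : mulL a b = c) :
    Tr (f * g) c := by
  subst h
  refine ⟨hf.1.mul hg.1, fun k hk => ?_⟩
  rw [mulL, getD_map_range _ hk, sum_map_range, coeff_mul_nat hf.1 hg.1, Int.cast_sum]
  refine Finset.sum_congr rfl fun i hi => ?_
  rw [Finset.mem_range] at hi
  rw [hf.2 i (by omega), hg.2 (k - i) (by omega), Int.cast_mul]

theorem Tr.add {f g : K} {a b c : List ℤ} (hf : Tr f a) (hg : Tr g b) (h : addL a b = c) :
    Tr (f + g) c := by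
  subst h
  refine ⟨hf.1.add hg.1, fun k hk => ?_⟩
  rw [addL, getD_map_range _ hk, HahnSeries.coeff_add, hf.2 k hk, hg.2 k hk, Int.cast_add]

theorem Tr.smul {f : K} {a c : List ℤ} (r : ℤ) (hf : Tr f a) (h : smulL r a = c) :
    Tr ((r : K) * f) c := by
  subst h
  have h1 : (r : K) = HahnSeries.C (r : ℚ) := (map_intCast HahnSeries.C r).symm
  refine ⟨?_, fun k hk => ?_⟩
  · rw [h1]
    exact (lead_C _).1.mul hf.1
  · rw [smulL, getD_map_range _ hk, h1, coeff_C_mul', hf.2 k hk, Int.cast_mul]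

theorem Tr.D {f : K} {a c : List ℤ} (hf : Tr f a) (h : derL a = c) : Tr (D f) c := by
  subst h
  refine ⟨fun n hn => by rw [coeff_D, hf.1 n hn, mul_zero], fun k hk => ?_⟩
  rw [derL, getD_map_range _ hk, coeff_D, hf.2 k hk]
  simp

theorem Tr.congr {f g : K} {a : List ℤ} (hf : Tr f a) (h : f = g) : Tr g a := h ▸ hf

theorem tr_one : Tr 1 [1] := ⟨lead_one.1, fun i hi => by
  rw [HahnSeries.coeff_one]
  rcases Nat.eq_zero_or_pos i with h | h
  · simp [h]
  · rw [if_neg (by omega)]
    interval_cases i <;> simp⟩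

end

end Pool.Agent.H47.Fad
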