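import Pool.Agent.H47.Fad.Supp

/-!
# The sequences `U(R v^m)`
-/

set_option autoImplicit false

namespace Pool.Agent.H47.Fad

open HahnSeries Q279.QS

noncomputable section

/-- `U (R v^m)` -/
def Gs (R : K) (m : ℤ) : K := U (R * vv ^ m)

theorem U_V_mul' (f g : K) : U (g * V f) = f * U g := by
  rw [mul_comm, U_V_mul]

theorem V_t : V t = T := rfl

theorem zpow_step (m : ℤ) (k : ℕ) : vv ^ (m + (k : ℤ)) = vv ^ m * vv ^ k := by
  rw [zpow_add₀ vv_ne, zpow_natCast]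

theorem Gs_rec (R : K) (m : ℤ) : Gs R (m + 7) = t ^ 2 * Gs R m + 7 * t ^ 2 * Gs R (m + 1) +
    21 * t ^ 2 * Gs R (m + 2) + 49 * t ^ 2 * Gs R (m + 3) + (147 * t ^ 2 + 7 * t) * Gs R (m + 4) +
    (343 * t ^ 2 + 35 * t) * Gs R (m + 5) + (343 * t ^ 2 + 49 * t) * Gs R (m + 6) := by
  have e1 := zpow_step m 1
  have e2 := zpow_step m 2
  have e3 := zpow_step m 3
  have e4 := zpow_step m 4
  have e5 := zpow_step m 5
  have e6 := zpow_step m 6
  have e7 := zpow_step m 7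
  rw [Nat.cast_one, pow_one] at e1
  rw [Nat.cast_ofNat] at e2 e3 e4 e5 e6 e7
  have h : R * vv ^ (m + 7) = V (t ^ 2) * (R * vv ^ m) + V (7 * t ^ 2) * (R * vv ^ (m + 1)) +
      V (21 * t ^ 2) * (R * vv ^ (m + 2)) + V (49 * t ^ 2) * (R * vv ^ (m + 3)) +
      V (147 * t ^ 2 + 7 * t) * (R * vv ^ (m + 4)) +
      V (343 * t ^ 2 + 35 * t) * (R * vv ^ (m + 5)) +
      V (343 * t ^ 2 + 49 * t) * (R * vv ^ (m + 6)) := by
    simp only [map_add, map_mul, map_pow, map_ofNat, V_t]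
    rw [e1, e2, e3, e4, e5, e6, e7, mod_eq]
    generalize vv ^ m = x
    ring
  unfold Gs
  rw [h, map_add, map_add, map_add, map_add, map_add, map_add, U_V_mul, U_V_mul, U_V_mul, U_V_mul,
    U_V_mul, U_V_mul, U_V_mul]

theorem U_sum_mul (f g : K) : U (V f * g) = f * U g := U_V_mul f g

theorem g0_0 : Gs 1 0 = 1 := by
  rw [Gs, zpow_zero, mul_one, U_one]

theorem vinv (k : ℕ) : vv ^ (-(k : ℤ)) = V (φ7⁻¹ ^ k) * (φ ^ k / qq ^ (2 * k)) := by
  have h1 := φ_ne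
  have h2 := φ7_ne
  have h3 := φ49_ne
  have h4 := qq_ne
  rw [zpow_neg, zpow_natCast, vv, map_pow, map_inv₀, V_φ7, pow_mul]
  rw [← inv_pow, ← div_pow, ← mul_pow]
  congr 1
  field_simp

theorem Gs_neg (k : ℕ) : Gs 1 (-(k : ℤ)) = φ7⁻¹ ^ k * U (φ ^ k / qq ^ (2 * k)) := by
  rw [Gs, one_mul, vinv, U_V_mul]

theorem g0_m1 : Gs 1 (-1) = -1 := by
  have h := Gs_neg 1
  have h2 := φ7_ne
  simp only [Nat.cast_one, pow_one, mul_one] at h
  rw [h, U_φ]
  field_simp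

theorem g0_m3 : Gs 1 (-3) = -7 := by
  have h := Gs_neg 3
  have h2 := φ7_ne
  have h3 : (-((3 : ℕ) : ℤ)) = -3 := by norm_num
  rw [h3] at h
  rw [h, show 2 * 3 = 6 by norm_num, U_φ3]
  field_simp

theorem cl_v1 : Cl {0, 3, 5, 6} (vv ^ (-1 : ℤ)) := by
  have h := vinv 1
  simp only [Nat.cast_one] at h
  rw [h]
  refine (cl_V _).mul (B := {0, 3, 5, 6}) ?_ (by decide)
  rw [pow_one]
  exact cl_φ.div_qq 2 (by decide)

theorem cl_v3 : Cl {0, 1, 2, 4} (vv ^ (-3 : ℤ)) := by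
  have h := vinv 3
  have h3 : (-((3 : ℕ) : ℤ)) = -3 := by norm_num
  rw [h3] at h
  rw [h]
  refine (cl_V _).mul (B := {0, 1, 2, 4}) ?_ (by decide)
  exact cl_φ3.div_qq 6 (by decide)

theorem g0_m2 : Gs 1 (-2) = 1 := by
  have h1 := cl_v1.sub_V
  have h2 : U (vv ^ (-1 : ℤ)) = -1 := by rw [← g0_m1, Gs, one_mul]
  rw [h2, map_neg, map_one, sub_neg_eq_add] at h1
  have h3 : U ((vv ^ (-1 : ℤ) + 1) * (vv ^ (-1 : ℤ) + 1)) = 0 :=
    (h1.mul h1 (C := {1, 2, 3, 4, 5, 6}) (by decide)).U_zero (by decide)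
  have h4 : (vv ^ (-1 : ℤ) + 1) * (vv ^ (-1 : ℤ) + 1) = vv ^ (-2 : ℤ) + vv ^ (-1 : ℤ) + vv ^ (-1 : ℤ) + 1 := by
    have : vv ^ (-2 : ℤ) = vv ^ (-1 : ℤ) * vv ^ (-1 : ℤ) := by
      rw [← zpow_add₀ vv_ne]; norm_num
    rw [this]; ring
  rw [h4, map_add, map_add, map_add, h2, U_one] at h3
  rw [Gs, one_mul]
  linear_combination h3

theorem g0_m6 : Gs 1 (-6) = 49 := by
  have h1 := cl_v3.sub_V
  have h2 : U (vv ^ (-3 : ℤ)) = -7 := by rw [← g0_m3, Gs, one_mul]
  rw [h2, map_neg, map_ofNat, sub_neg_eq_add] at h1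
  have h3 : U ((vv ^ (-3 : ℤ) + 7) * (vv ^ (-3 : ℤ) + 7)) = 0 :=
    (h1.mul h1 (C := {1, 2, 3, 4, 5, 6}) (by decide)).U_zero (by decide)
  have h4 : (vv ^ (-3 : ℤ) + 7) * (vv ^ (-3 : ℤ) + 7) = vv ^ (-6 : ℤ) + V 14 * vv ^ (-3 : ℤ) + V 49 * 1 := by
    have : vv ^ (-6 : ℤ) = vv ^ (-3 : ℤ) * vv ^ (-3 : ℤ) := by
      rw [← zpow_add₀ vv_ne]; norm_num
    rw [this, map_ofNat, map_ofNat]; ring
  rw [h4, map_add, map_add, U_V_mul, U_V_mul, h2, U_one] at h3
  rw [Gs, one_mul]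
  linear_combination h3

/-! ### the weight two sequence -/

/-- `Y / Y(q^7)` -/
def R1 : K := Y / V Y

theorem VY_ne : V Y ≠ 0 := lead_Y.V.ne one_ne_zero

theorem D_vv4 : 4 * D vv = vv * (Y + 7 * V Y) := by
  have h1 : D (vv ^ 4) = D (t * T) := by rw [tT]
  have h2 : D T = 7 * V Y * T := by
    rw [T, D_V, Dt, map_mul]; ring
  rw [D_mul, D_pow', Dt, h2] at h1
  have h3 := vv_ne
  have h4 : vv ^ 3 * (4 * D vv - vv * (Y + 7 * V Y)) = 0 := by
    push_cast at h1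
    linear_combination h1 + (Y + 7 * V Y) * tT
  rcases mul_eq_zero.1 h4 with h5 | h5
  · exact absurd h5 (pow_ne_zero _ h3)
  · exact sub_eq_zero.1 h5

theorem D_zpow (f : K) (hf : f ≠ 0) (m : ℤ) : D (f ^ m) * f = m * f ^ m * D f := by
  rcases Int.eq_nat_or_neg m with ⟨n, rfl | rfl⟩
  · rw [zpow_natCast, D_pow']
    rcases n with _ | n
    · simp
    · push_cast
      ring
  · rw [zpow_neg, zpow_natCast, D_inv, D_pow']
    rcases n with _ | n
    · simp
    · push_cast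
      simp
      field_simp
      ring

theorem D_vm (m : ℤ) : 4 * D (vv ^ m) = m * vv ^ m * (Y + 7 * V Y) := by
  have h1 := D_zpow vv vv_ne m
  have h2 := D_vv4
  have h3 := vv_ne
  have h4 : vv * (4 * D (vv ^ m) - m * vv ^ m * (Y + 7 * V Y)) = 0 := by
    linear_combination 4 * h1 + (m : K) * vv ^ m * h2
  rcases mul_eq_zero.1 h4 with h5 | h5
  · exact absurd h5 h3
  · exact sub_eq_zero.1 h5

theorem U_intCast_mul (m : ℤ) (f : K) : U (m * f) = m * U f := by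
  have := U_V_mul (m : K) f
  rwa [map_intCast] at this

/-- the relation between the two sequences -/
theorem g1_rel (m : ℤ) : m * (Y * Gs R1 m + 7 * Y * Gs 1 m) = 28 * D (Gs 1 m) := by
  have h1 : U (4 * D (vv ^ m)) = 28 * D (Gs 1 m) := by
    have h4 : (4 : K) = ((4 : ℤ) : K) := by norm_num
    rw [h4, U_intCast_mul, U_D, Gs, one_mul]
    push_cast
    ring
  have h2 : U (m * vv ^ m * (Y + 7 * V Y)) = m * (Y * Gs R1 m + 7 * Y * Gs 1 m) := by
    have hV := VY_ne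
    have e : m * vv ^ m * (Y + 7 * V Y) = m * (V Y * (R1 * vv ^ m) + V (7 * Y) * vv ^ m) := by
      rw [R1, map_mul, map_ofNat]
      field_simp
    rw [e, U_intCast_mul, map_add, U_V_mul, U_V_mul, Gs, Gs, one_mul]
  rw [← h1, D_vm, h2]

/-! ### `U E_2` -/

theorem sigma_seven (n : ℕ) (hn : n ≠ 0) : (∑ d ∈ (7 * n).divisors, d) +
    7 * (if 7 ∣ n then ∑ d ∈ (n / 7).divisors, d else 0) = 8 * ∑ d ∈ n.divisors, d := by
  have h7 : (7 * n).divisors = n.divisors ∪ n.divisors.image (fun d => 7 * d) := by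
    ext d
    rw [Finset.mem_union, Finset.mem_image, Nat.mem_divisors, Nat.mem_divisors]
    constructor
    · rintro ⟨h1, h2⟩
      by_cases h : 7 ∣ d
      · right
        obtain ⟨e, rfl⟩ := h
        exact ⟨e, Nat.mem_divisors.2 ⟨Nat.dvd_of_mul_dvd_mul_left (by norm_num) h1, hn⟩, rfl⟩
      · left
        exact ⟨(Nat.Coprime.dvd_of_dvd_mul_left
          ((Nat.coprime_comm.1 ((Nat.Prime.coprime_iff_not_dvd (by norm_num)).2 h))) h1), hn⟩
    · rintro (⟨h1, h2⟩ | ⟨e, h1, rfl⟩)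
      · exact ⟨h1.mul_left 7, by omega⟩
      · rw [Nat.mem_divisors] at h1
        exact ⟨Nat.mul_dvd_mul_left 7 h1.1, by omega⟩
  have hsum : ∑ d ∈ n.divisors.image (fun d => 7 * d), d = 7 * ∑ d ∈ n.divisors, d := by
    rw [Finset.sum_image (fun a _ b _ h => by simpa using h), Finset.mul_sum]
  have hint : ∑ d ∈ n.divisors ∩ n.divisors.image (fun d => 7 * d), d =
      7 * (if 7 ∣ n then ∑ d ∈ (n / 7).divisors, d else 0) := by
    split_ifs with h
    · obtain ⟨m, rfl⟩ := h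
      rw [Nat.mul_div_cancel_left _ (by norm_num)]
      have : (7 * m).divisors ∩ (7 * m).divisors.image (fun d => 7 * d) =
          m.divisors.image (fun d => 7 * d) := by
        ext d
        rw [Finset.mem_inter, Finset.mem_image, Finset.mem_image, Nat.mem_divisors]
        constructor
        · rintro ⟨⟨h1, h2⟩, e, h3, rfl⟩
          exact ⟨e, Nat.mem_divisors.2 ⟨Nat.dvd_of_mul_dvd_mul_left (by norm_num) h1, by omega⟩, rfl⟩
        · rintro ⟨e, h3, rfl⟩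
          rw [Nat.mem_divisors] at h3
          exact ⟨⟨Nat.mul_dvd_mul_left 7 h3.1, hn⟩, e,
            Nat.mem_divisors.2 ⟨h3.1.mul_left 7, hn⟩, rfl⟩
      rw [this, Finset.sum_image (fun a _ b _ h => by simpa using h), Finset.mul_sum]
    · rw [mul_zero]
      refine Finset.sum_eq_zero fun d hd => ?_
      rw [Finset.mem_inter, Finset.mem_image, Nat.mem_divisors] at hd
      obtain ⟨⟨h1, h2⟩, e, h3, rfl⟩ := hd
      exact absurd (Dvd.dvd.trans (Dvd.intro e rfl) h1) h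
  have := Finset.sum_union_inter (s₁ := n.divisors) (s₂ := n.divisors.image (fun d => 7 * d))
    (f := fun d => d)
  rw [← h7, hint, hsum] at this
  omega

theorem coeff_E2 (n : ℕ) : E2.coeff (n : ℤ) =
    (if n = 0 then 1 else 0) - 24 * ((∑ d ∈ n.divisors, d : ℕ) : ℚ) := by
  rw [E2, coeff_ofZ, coeff_z2]
  push_cast
  rfl

theorem U_E2 : U E2 = 8 * E2 - 7 * F2 := by
  have h8 : (8 : K) = HahnSeries.C (8 : ℚ) := by rw [map_ofNat]
  have h7 : (7 : K) = HahnSeries.C (7 : ℚ) := by rw [map_ofNat]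
  ext n
  rw [HahnSeries.coeff_sub, h8, h7, coeff_C_mul', coeff_C_mul', coeff_U]
  rcases lt_or_ge n 0 with hn | hn
  · rw [tr_E2.1 _ hn, tr_E2.1 _ (by omega), lead_F2.1 _ hn]
    norm_num
  · obtain ⟨m, rfl⟩ := Int.eq_ofNat_of_zero_le hn
    by_cases hm : m = 0
    · subst hm
      have h1 := lead_E2.2
      have h2 := lead_F2.2
      simp only [Nat.cast_zero, mul_zero]
      rw [h1, h2]
      norm_num
    · have h1 := coeff_E2 (7 * m)
      rw [if_neg (by omega)] at h1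
      push_cast at h1
      rw [h1, coeff_E2 m, if_neg hm]
      have h2 := sigma_seven m hm
      have h3 : F2.coeff (m : ℤ) = -24 * (((if 7 ∣ m then ∑ d ∈ (m / 7).divisors, d else 0 : ℕ)) : ℚ) := by
        split_ifs with h
        · obtain ⟨k, rfl⟩ := h
          have h4 := coeff_V_mul E2 k
          rw [Nat.mul_div_cancel_left _ (by norm_num), F2]
          push_cast
          rw [h4, coeff_E2, if_neg (by omega)]
          push_cast
          ring
        · rw [F2, coeff_V_of_not_dvd]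
          · simp
          · intro h5
            exact h (by exact_mod_cast h5)
      rw [h3]
      have h4 : (((∑ d ∈ (7 * m).divisors, d) +
        7 * (if 7 ∣ m then ∑ d ∈ (m / 7).divisors, d else 0) : ℕ) : ℚ) = ((8 * ∑ d ∈ m.divisors, d : ℕ) : ℚ) := by
        rw [h2]
      push_cast at h4 ⊢
      linear_combination (-24) * h4

theorem U_Y : U Y = Y := by
  have h6 : U (6 * Y) = 6 * Y := by
    have h1 : 6 * Y = V (7 * E2) - E2 := by
      rw [Y, F2, map_mul, map_ofNat]; ring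
    rw [h1, map_sub, U_V, U_E2, map_mul, map_ofNat, ← F2]
    ring
  have h2 : U (6 * Y) = 6 * U Y := by
    have := U_intCast_mul 6 Y
    exact_mod_cast this
  rw [h2] at h6
  exact mul_left_cancel₀ (by norm_num) h6

theorem g1_0 : Gs R1 0 = 1 := by
  have h : U (V Y * (R1 * vv ^ (0 : ℤ))) = Y := by
    have hV := VY_ne
    rw [R1, zpow_zero, mul_one, mul_div_cancel₀ _ hV, U_Y]
  rw [U_V_mul, ← Gs] at h
  exact mul_left_cancel₀ Y_ne (by rw [h, mul_one])

end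

end Pool.Agent.H47.Fad
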