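import Pool.Agent.H47.Fad.Useq

/-!
# The values `U(v^{-4})` and `U(v^{-5})`
-/

set_option autoImplicit false

namespace Pool.Agent.H47.Fad

open HahnSeries Q279.QS

noncomputable section

/-- `U(v^m)` -/
def g0 (m : ℤ) : K := Gs 1 m
/-- `U(R_1 v^m)` -/
def g1 (m : ℤ) : K := Gs R1 m
/-- `D(U(v^m))/Y` -/
def dg (m : ℤ) : K := D (g0 m) / Y

theorem D_g0 (m : ℤ) : D (g0 m) = Y * dg m := by
  rw [dg, mul_div_cancel₀ _ Y_ne]

theorem g1_eq (m : ℤ) : m * (g1 m + 7 * g0 m) = 28 * dg m := by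
  have h := g1_rel m
  have hY := Y_ne
  change m * (Y * g1 m + 7 * Y * g0 m) = 28 * D (g0 m) at h
  rw [D_g0] at h
  have h2 : Y * (m * (g1 m + 7 * g0 m) - 28 * dg m) = 0 := by linear_combination h
  rcases mul_eq_zero.1 h2 with h3 | h3
  · exact absurd h3 hY
  · exact sub_eq_zero.1 h3

theorem dg_const {m : ℤ} {c : ℚ} (h : g0 m = (c : K)) : dg m = 0 := by
  rw [dg, h, D_ratCast, zero_div]

theorem rec0 (m : ℤ) : g0 (m + 7) = t ^ 2 * g0 m + 7 * t ^ 2 * g0 (m + 1) +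
    21 * t ^ 2 * g0 (m + 2) + 49 * t ^ 2 * g0 (m + 3) + (147 * t ^ 2 + 7 * t) * g0 (m + 4) +
    (343 * t ^ 2 + 35 * t) * g0 (m + 5) + (343 * t ^ 2 + 49 * t) * g0 (m + 6) := Gs_rec 1 m

theorem rec1 (m : ℤ) : g1 (m + 7) = t ^ 2 * g1 m + 7 * t ^ 2 * g1 (m + 1) +
    21 * t ^ 2 * g1 (m + 2) + 49 * t ^ 2 * g1 (m + 3) + (147 * t ^ 2 + 7 * t) * g1 (m + 4) +
    (343 * t ^ 2 + 35 * t) * g1 (m + 5) + (343 * t ^ 2 + 49 * t) * g1 (m + 6) := Gs_rec R1 m

theorem w0 : g0 0 = 1 := g0_0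
theorem w1 : g0 (-1) = -1 := g0_m1
theorem w2 : g0 (-2) = 1 := g0_m2
theorem w3 : g0 (-3) = -7 := g0_m3
theorem w6 : g0 (-6) = 49 := g0_m6
theorem j0 : g1 0 = 1 := g1_0

theorem d0 : dg 0 = 0 := dg_const (c := 1) (by rw [w0]; simp)
theorem d1 : dg (-1) = 0 := dg_const (c := -1) (by rw [w1]; simp)
theorem d2 : dg (-2) = 0 := dg_const (c := 1) (by rw [w2]; simp)
theorem d3 : dg (-3) = 0 := dg_const (c := -7) (by rw [w3]; simp)
theorem d6 : dg (-6) = 0 := dg_const (c := 49) (by rw [w6]; simp)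

/-- the differentiated recurrence -/
theorem rec0' (m : ℤ) : dg (m + 7) = t ^ 2 * dg m + 7 * t ^ 2 * dg (m + 1) +
    21 * t ^ 2 * dg (m + 2) + 49 * t ^ 2 * dg (m + 3) + (147 * t ^ 2 + 7 * t) * dg (m + 4) +
    (343 * t ^ 2 + 35 * t) * dg (m + 5) + (343 * t ^ 2 + 49 * t) * dg (m + 6) +
    2 * t ^ 2 * g0 m + 14 * t ^ 2 * g0 (m + 1) +
    42 * t ^ 2 * g0 (m + 2) + 98 * t ^ 2 * g0 (m + 3) + (294 * t ^ 2 + 7 * t) * g0 (m + 4) +
    (686 * t ^ 2 + 35 * t) * g0 (m + 5) + (686 * t ^ 2 + 49 * t) * g0 (m + 6) := by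
  have hY := Y_ne
  have h := congrArg D (rec0 m)
  have n7 : D (7 : K) = 0 := D_ofNat 7
  have n21 : D (21 : K) = 0 := D_ofNat 21
  have n49 : D (49 : K) = 0 := D_ofNat 49
  have n147 : D (147 : K) = 0 := D_ofNat 147
  have n343 : D (343 : K) = 0 := D_ofNat 343
  have n35 : D (35 : K) = 0 := D_ofNat 35
  simp only [map_add, D_mul, D_pow', n7, n21, n49, n147, n343, n35, Dt, D_g0] at h
  push_cast at h
  refine mul_left_cancel₀ hY ?_
  linear_combination h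

/-- the relations -/
theorem B0 : -252 * t + 147 * t ^ 2 * dg (-4) + 168 / 5 * t ^ 2 * dg (-5) = 0 := by
  have r0 := rec0' (-7)
  have r1 := rec1 (-7)
  have q0 := rec0 (-7)
  norm_num only [Int.reduceNeg, Int.reduceAdd] at r0 r1 q0
  have a7 := g1_eq (-7)
  have a6 := g1_eq (-6)
  have a5 := g1_eq (-5)
  have a4 := g1_eq (-4)
  have a3 := g1_eq (-3)
  have a2 := g1_eq (-2)
  have a1 := g1_eq (-1)
  push_cast at a7 a6 a5 a4 a3 a2 a1
  rw [w6, d6] at a6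
  rw [w3, d3] at a3
  rw [w2, d2] at a2
  rw [w1, d1] at a1
  rw [w0, w1, w2, w3, w6] at q0
  rw [d0, d1, d2, d3, d6, w1, w2, w3, w6] at r0
  rw [j0] at r1
  linear_combination (-1) * q0 + 4 * r0 + r1 + (t ^ 2 / (-7)) * a7 + (7 * t ^ 2 / (-6)) * a6 +
    (21 * t ^ 2 / (-5)) * a5 + (49 * t ^ 2 / (-4)) * a4 + ((147 * t ^ 2 + 7 * t) / (-3)) * a3 +
    ((343 * t ^ 2 + 35 * t) / (-2)) * a2 + ((343 * t ^ 2 + 49 * t) / (-1)) * a1

theorem Bm1 : 196 * t - 10976 * t ^ 2 + 1176 * t ^ 2 * g0 (-4) + 735 * t ^ 2 * dg (-4) +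
    392 * t ^ 2 * g0 (-5) + 1176 / 5 * t ^ 2 * dg (-5) = 0 := by
  have r0 := rec0' (-6)
  have r1 := rec1 (-6)
  have q0 := rec0 (-6)
  norm_num only [Int.reduceNeg, Int.reduceAdd] at r0 r1 q0
  have ap := g1_eq 1
  have a6 := g1_eq (-6)
  have a5 := g1_eq (-5)
  have a4 := g1_eq (-4)
  have a3 := g1_eq (-3)
  have a2 := g1_eq (-2)
  have a1 := g1_eq (-1)
  push_cast at ap a6 a5 a4 a3 a2 a1
  rw [w6, d6] at a6
  rw [w3, d3] at a3
  rw [w2, d2] at a2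
  rw [w1, d1] at a1
  rw [w0, w1, w2, w3, w6] at q0
  rw [d0, d1, d2, d3, d6, w0, w1, w2, w3, w6] at r0
  rw [j0] at r1
  linear_combination 7 * q0 - 28 * r0 + r1 - ap + (t ^ 2 / (-6)) * a6 +
    (7 * t ^ 2 / (-5)) * a5 + (21 * t ^ 2 / (-4)) * a4 + (49 * t ^ 2 / (-3)) * a3 +
    ((147 * t ^ 2 + 7 * t) / (-2)) * a2 + ((343 * t ^ 2 + 35 * t) / (-1)) * a1

theorem B1 : -(1813 / 2) * t + (49 / 2 * t + 343 * t ^ 2) * dg (-4) + 49 / 2 * t * g0 (-4) +
    147 / 5 * t ^ 2 * dg (-5) = 0 := by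
  have r0 := rec0' (-8)
  have r1 := rec1 (-8)
  have q0 := rec0 (-8)
  have r0' := rec0' (-7)
  have q0' := rec0 (-7)
  norm_num only [Int.reduceNeg, Int.reduceAdd] at r0 r1 q0 r0' q0'
  have a8 := g1_eq (-8)
  have a7 := g1_eq (-7)
  have a6 := g1_eq (-6)
  have a5 := g1_eq (-5)
  have a4 := g1_eq (-4)
  have a3 := g1_eq (-3)
  have a2 := g1_eq (-2)
  have a1 := g1_eq (-1)
  push_cast at a8 a7 a6 a5 a4 a3 a2 a1
  rw [w6, d6] at a6
  rw [w3, d3] at a3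
  rw [w2, d2] at a2
  rw [w1, d1] at a1
  rw [w1, w2, w3, w6] at q0
  rw [d1, d2, d3, d6, w2, w3, w6] at r0
  rw [w0, w1, w2, w3, w6] at q0'
  rw [d0, d1, d2, d3, d6, w1, w2, w3, w6] at r0'
  linear_combination (7 / 2) * r0 + (7 / 2) * r0' - 7 * q0' + r1 + a1 + (t ^ 2 / (-8)) * a8 + (7 * t ^ 2 / (-7)) * a7 +
    (21 * t ^ 2 / (-6)) * a6 + (49 * t ^ 2 / (-5)) * a5 + ((147 * t ^ 2 + 7 * t) / (-4)) * a4 +
    ((343 * t ^ 2 + 35 * t) / (-3)) * a3 + ((343 * t ^ 2 + 49 * t) / (-2)) * a2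

/-! ### the value at `-4` -/

theorem tr_φ49 : Tr φ49 [1, 0, 0, 0, 0, 0, 0, 0] := tr_φ7.V

theorem coeff_w4 : (g0 (-4)).coeff (-1) = -4 := by
  have h1 : qq ^ 8 * vv ^ (-4 : ℤ) = (φ / φ49) ^ 4 := by
    have h1 := φ_ne
    have h3 := φ49_ne
    have h4 := qq_ne
    have h5 : vv ^ (-4 : ℤ) = (vv ^ 4)⁻¹ := by rw [zpow_neg]; norm_cast
    rw [h5, vv]
    field_simp
  have hx := (lead_φ.div lead_φ49 one_ne_zero).pow 4
  have h2 : ((φ / φ49) ^ 4).coeff 1 = -4 := by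
    have h4 : (φ / φ49) ^ 4 * (φ49 * φ49 * (φ49 * φ49)) = PP := by
      have h3 := φ49_ne
      rw [PP]
      field_simp
    have h5 : Tr (φ49 * φ49 * (φ49 * φ49)) [1, 0, 0, 0, 0, 0, 0, 0] :=
      (tr_φ49.mul tr_φ49 rfl).mul (tr_φ49.mul tr_φ49 rfl) (by decide +kernel)
    have h6 := coeff_mul_nat hx.1 h5.1 1
    rw [h4, tr_PP.2 1 (by norm_num), Finset.sum_range_succ, Finset.sum_range_one,
      h5.2 (1 - 0) (by norm_num), h5.2 (1 - 1) (by norm_num)] at h6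
    norm_num at h6
    linarith
  rw [g0, Gs, one_mul, coeff_U, ← h2, ← h1, qq_pow]
  have := HahnSeries.coeff_single_mul_add (r := (1 : ℚ)) (x := vv ^ (-4 : ℤ)) (a := -7) (b := 8)
  norm_num at this ⊢
  exact this.symm

theorem coeff_t_inv : (4 / t : K).coeff (-1) = 4 := by
  have h1 : 4 / t = HahnSeries.C (4 : ℚ) * ((φ / φ7) ^ 4 / qq ^ 1) := by
    have h1 := φ_ne
    have h3 := φ7_ne
    have h4 := qq_ne
    rw [t, map_ofNat]
    field_simp
  have hx := (lead_φ.div lead_φ7 one_ne_zero).pow 4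
  rw [h1, coeff_C_mul', coeff_div_qq]
  norm_num
  rw [hx.2]
  norm_num

theorem coeff_w4_low (n : ℤ) (hn : n < -1) : (g0 (-4)).coeff n = 0 := by
  have h1 : vv ^ (-4 : ℤ) = (φ / φ49) ^ 4 / qq ^ 8 := by
    have h1 := φ_ne
    have h3 := φ49_ne
    have h4 := qq_ne
    have h5 : vv ^ (-4 : ℤ) = (vv ^ 4)⁻¹ := by rw [zpow_neg]; norm_cast
    rw [h5, vv]
    field_simp
  have hx := (lead_φ.div lead_φ49 one_ne_zero).pow 4
  rw [g0, Gs, one_mul, coeff_U, h1, coeff_div_qq]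
  exact hx.1 _ (by push_cast; omega)

theorem w4 : g0 (-4) = -7 - 4 / t := by
  have ht := t_ne
  have hY := Y_ne
  have hl : Lead (1 + 35 / 4 * t) 1 :=
    (lead_one.add (((lead_ofNat 35).div (lead_ofNat 4) (by norm_num)).mul lead_t)).cast (by norm_num)
  have hne := hl.ne one_ne_zero
  have hode : (1 + 35 / 4 * t) * dg (-4) + g0 (-4) = 28 := by
    have h : t * ((1 + 35 / 4 * t) * dg (-4) + g0 (-4) - 28) = 0 := by
      linear_combination (2 / 49) * B1 - (1 / 28) * B0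
    rcases mul_eq_zero.1 h with h3 | h3
    · exact absurd h3 ht
    · exact sub_eq_zero.1 h3
  have hD : D (4 / t) = -(Y * (4 / t)) := by
    rw [D_div _ _ ht, D_ofNat, Dt]
    field_simp
    ring
  have hy : g0 (-4) + 7 + 4 / t = 0 := by
    refine ode_uniq1 (l := -Y / (1 + 35 / 4 * t)) (c := -1)
      ((lead_Y.neg.div hl one_ne_zero).cast (by norm_num)) ?_ ?_
    · have e : t * (4 / t) = 4 := by field_simp
      rw [map_add, map_add, D_ofNat, hD, D_g0, div_mul_eq_mul_div, eq_div_iff hne]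
      linear_combination Y * hode - (35 / 4) * Y * e
    · intro e he _
      have he0 : e = -1 := by exact_mod_cast he
      subst he0
      rw [HahnSeries.coeff_add, HahnSeries.coeff_add, coeff_w4, coeff_t_inv, (lead_ofNat 7).1 _ (by norm_num)]
      norm_num
  linear_combination hy

theorem d4 : dg (-4) = 4 / t := by
  have ht := t_ne
  have hY := Y_ne
  have hD : D (4 / t) = -(Y * (4 / t)) := by
    rw [D_div _ _ ht, D_ofNat, Dt]
    field_simp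
    ring
  rw [dg, w4, map_sub, map_neg, D_ofNat, hD]
  field_simp
  ring

theorem d5 : dg (-5) = -10 / t := by
  have ht := t_ne
  have h := B0
  rw [d4] at h
  have e : t ^ 2 * (4 / t) = 4 * t := by field_simp
  have h2 : t * (t * dg (-5) + 10) = 0 := by
    linear_combination (5 / 168) * h - (35 / 8) * e
  have h3 := (mul_eq_zero.1 h2).resolve_left ht
  rw [eq_div_iff ht]
  linear_combination h3

theorem w5 : g0 (-5) = 49 + 10 / t := by
  have ht := t_ne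
  have h := Bm1
  rw [d4, d5, w4] at h
  have e : t ^ 2 * (4 / t) = 4 * t := by field_simp
  have e2 : t ^ 2 * (10 / t) = 10 * t := by field_simp
  have h2 : t ^ 2 * (g0 (-5) - (49 + 10 / t)) = 0 := by
    linear_combination (1 / 392) * h + (9 / 8) * e - (2 / 5) * e2
  have h3 := (mul_eq_zero.1 h2).resolve_left (pow_ne_zero _ ht)
  linear_combination h3

end

end Pool.Agent.H47.Fad
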