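import Pool.Agent.H47.Fad.Wfour

/-!
# Tables of values
-/

set_option autoImplicit false

namespace Pool.Agent.H47.Fad

open HahnSeries Q279.QS

noncomputable section

theorem w7 : g0 (-7) = 1 / t ^ 2 + 49 / t := by
  have ht := t_ne
  have h := rec0 (-7)
  norm_num only [Int.reduceNeg, Int.reduceAdd] at h
  have h2 : g0 (-7) = (g0 0 - (7 * t ^ 2 * g0 (-6) + 21 * t ^ 2 * g0 (-5) +
      49 * t ^ 2 * g0 (-4) + (147 * t ^ 2 + 7 * t) * g0 (-3) +
      (343 * t ^ 2 + 35 * t) * g0 (-2) + (343 * t ^ 2 + 49 * t) * g0 (-1))) / t ^ 2 := by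
    rw [eq_div_iff (pow_ne_zero _ ht)]
    linear_combination -h
  rw [h2, w6, w5, w4, w3, w2, w1, w0]
  field_simp
  ring

theorem w8 : g0 (-8) = 20 / t ^ 2 - 343 := by
  have ht := t_ne
  have h := rec0 (-8)
  norm_num only [Int.reduceNeg, Int.reduceAdd] at h
  have h2 : g0 (-8) = (g0 (-1) - (7 * t ^ 2 * g0 (-7) + 21 * t ^ 2 * g0 (-6) +
      49 * t ^ 2 * g0 (-5) + (147 * t ^ 2 + 7 * t) * g0 (-4) +
      (343 * t ^ 2 + 35 * t) * g0 (-3) + (343 * t ^ 2 + 49 * t) * g0 (-2))) / t ^ 2 := by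
    rw [eq_div_iff (pow_ne_zero _ ht)]
    linear_combination -h
  rw [h2, w7, w6, w5, w4, w3, w2, w1]
  field_simp
  ring

theorem w9 : g0 (-9) = -90 / t ^ 2 - 882 / t - 2401 := by
  have ht := t_ne
  have h := rec0 (-9)
  norm_num only [Int.reduceNeg, Int.reduceAdd] at h
  have h2 : g0 (-9) = (g0 (-2) - (7 * t ^ 2 * g0 (-8) + 21 * t ^ 2 * g0 (-7) +
      49 * t ^ 2 * g0 (-6) + (147 * t ^ 2 + 7 * t) * g0 (-5) +
      (343 * t ^ 2 + 35 * t) * g0 (-4) + (343 * t ^ 2 + 49 * t) * g0 (-3))) / t ^ 2 := by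
    rw [eq_div_iff (pow_ne_zero _ ht)]
    linear_combination -h
  rw [h2, w8, w7, w6, w5, w4, w3, w2]
  field_simp
  ring

theorem w10 : g0 (-10) = 2401 := by
  have ht := t_ne
  have h := rec0 (-10)
  norm_num only [Int.reduceNeg, Int.reduceAdd] at h
  have h2 : g0 (-10) = (g0 (-3) - (7 * t ^ 2 * g0 (-9) + 21 * t ^ 2 * g0 (-8) +
      49 * t ^ 2 * g0 (-7) + (147 * t ^ 2 + 7 * t) * g0 (-6) +
      (343 * t ^ 2 + 35 * t) * g0 (-5) + (343 * t ^ 2 + 49 * t) * g0 (-4))) / t ^ 2 := by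
    rw [eq_div_iff (pow_ne_zero _ ht)]
    linear_combination -h
  rw [h2, w9, w8, w7, w6, w5, w4, w3]
  field_simp
  ring

theorem w11 : g0 (-11) = -11 / t ^ 3 - 77 / t ^ 2 + 3773 / t + 16807 := by
  have ht := t_ne
  have h := rec0 (-11)
  norm_num only [Int.reduceNeg, Int.reduceAdd] at h
  have h2 : g0 (-11) = (g0 (-4) - (7 * t ^ 2 * g0 (-10) + 21 * t ^ 2 * g0 (-9) +
      49 * t ^ 2 * g0 (-8) + (147 * t ^ 2 + 7 * t) * g0 (-7) +
      (343 * t ^ 2 + 35 * t) * g0 (-6) + (343 * t ^ 2 + 49 * t) * g0 (-5))) / t ^ 2 := by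
    rw [eq_div_iff (pow_ne_zero _ ht)]
    linear_combination -h
  rw [h2, w10, w9, w8, w7, w6, w5, w4]
  field_simp
  ring

theorem w12 : g0 (-12) = -88 / t ^ 3 - 16807 := by
  have ht := t_ne
  have h := rec0 (-12)
  norm_num only [Int.reduceNeg, Int.reduceAdd] at h
  have h2 : g0 (-12) = (g0 (-5) - (7 * t ^ 2 * g0 (-11) + 21 * t ^ 2 * g0 (-10) +
      49 * t ^ 2 * g0 (-9) + (147 * t ^ 2 + 7 * t) * g0 (-8) +
      (343 * t ^ 2 + 35 * t) * g0 (-7) + (343 * t ^ 2 + 49 * t) * g0 (-6))) / t ^ 2 := by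
    rw [eq_div_iff (pow_ne_zero _ ht)]
    linear_combination -h
  rw [h2, w11, w10, w9, w8, w7, w6, w5]
  field_simp
  ring

theorem w13 : g0 (-13) = 728 / t ^ 3 + 11466 / t ^ 2 + 62426 / t + 117649 := by
  have ht := t_ne
  have h := rec0 (-13)
  norm_num only [Int.reduceNeg, Int.reduceAdd] at h
  have h2 : g0 (-13) = (g0 (-6) - (7 * t ^ 2 * g0 (-12) + 21 * t ^ 2 * g0 (-11) +
      49 * t ^ 2 * g0 (-10) + (147 * t ^ 2 + 7 * t) * g0 (-9) +
      (343 * t ^ 2 + 35 * t) * g0 (-8) + (343 * t ^ 2 + 49 * t) * g0 (-7))) / t ^ 2 := by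
    rw [eq_div_iff (pow_ne_zero _ ht)]
    linear_combination -h
  rw [h2, w12, w11, w10, w9, w8, w7, w6]
  field_simp
  ring

theorem w14 : g0 (-14) = 1 / t ^ 4 - 490 / t ^ 3 - 21609 / t ^ 2 - 235298 / t - 705894 := by
  have ht := t_ne
  have h := rec0 (-14)
  norm_num only [Int.reduceNeg, Int.reduceAdd] at h
  have h2 : g0 (-14) = (g0 (-7) - (7 * t ^ 2 * g0 (-13) + 21 * t ^ 2 * g0 (-12) +
      49 * t ^ 2 * g0 (-11) + (147 * t ^ 2 + 7 * t) * g0 (-10) +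
      (343 * t ^ 2 + 35 * t) * g0 (-9) + (343 * t ^ 2 + 49 * t) * g0 (-8))) / t ^ 2 := by
    rw [eq_div_iff (pow_ne_zero _ ht)]
    linear_combination -h
  rw [h2, w13, w12, w11, w10, w9, w8, w7]
  field_simp
  ring

theorem w15 : g0 (-15) = 90 / t ^ 4 - 980 / t ^ 3 - 30870 / t ^ 2 + 823543 := by
  have ht := t_ne
  have h := rec0 (-15)
  norm_num only [Int.reduceNeg, Int.reduceAdd] at h
  have h2 : g0 (-15) = (g0 (-8) - (7 * t ^ 2 * g0 (-14) + 21 * t ^ 2 * g0 (-13) +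
      49 * t ^ 2 * g0 (-12) + (147 * t ^ 2 + 7 * t) * g0 (-11) +
      (343 * t ^ 2 + 35 * t) * g0 (-10) + (343 * t ^ 2 + 49 * t) * g0 (-9))) / t ^ 2 := by
    rw [eq_div_iff (pow_ne_zero _ ht)]
    linear_combination -h
  rw [h2, w14, w13, w12, w11, w10, w9, w8]
  field_simp
  ring

theorem w16 : g0 (-16) = 260 / t ^ 4 - 823543 := by
  have ht := t_ne
  have h := rec0 (-16)
  norm_num only [Int.reduceNeg, Int.reduceAdd] at h
  have h2 : g0 (-16) = (g0 (-9) - (7 * t ^ 2 * g0 (-15) + 21 * t ^ 2 * g0 (-14) +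
      49 * t ^ 2 * g0 (-13) + (147 * t ^ 2 + 7 * t) * g0 (-12) +
      (343 * t ^ 2 + 35 * t) * g0 (-11) + (343 * t ^ 2 + 49 * t) * g0 (-10))) / t ^ 2 := by
    rw [eq_div_iff (pow_ne_zero _ ht)]
    linear_combination -h
  rw [h2, w15, w14, w13, w12, w11, w10, w9]
  field_simp
  ring

theorem wm1 : g0 1 = 7 * t + 49 * t ^ 2 := by
  have ht := t_ne
  have h := rec0 (-6)
  norm_num only [Int.reduceNeg, Int.reduceAdd] at h
  rw [h, w0, w1, w2, w3, w4, w5, w6]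
  field_simp
  ring

theorem wm2 : g0 2 = 10 * t + 441 * t ^ 2 + 4802 * t ^ 3 + 16807 * t ^ 4 := by
  have ht := t_ne
  have h := rec0 (-5)
  norm_num only [Int.reduceNeg, Int.reduceAdd] at h
  rw [h, wm1, w0, w1, w2, w3, w4, w5]
  field_simp
  ring

theorem wm3 : g0 3 = 3 * t + 798 * t ^ 2 + 29155 * t ^ 3 + 403368 * t ^ 4 + 2470629 * t ^ 5 + 5764801 * t ^ 6 := by
  have ht := t_ne
  have h := rec0 (-4)
  norm_num only [Int.reduceNeg, Int.reduceAdd] at h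
  rw [h, wm2, wm1, w0, w1, w2, w3, w4]
  field_simp
  ring

theorem wm4 : g0 4 = 574 * t ^ 2 + 60368 * t ^ 3 + 2028845 * t ^ 4 + 32000528 * t ^ 5 + 265180846 * t ^ 6 + 1129900996 * t ^ 7 + 1977326743 * t ^ 8 := by
  have ht := t_ne
  have h := rec0 (-3)
  norm_num only [Int.reduceNeg, Int.reduceAdd] at h
  rw [h, wm3, wm2, wm1, w0, w1, w2, w3]
  field_simp
  ring

theorem D_num (n : ℕ) [n.AtLeastTwo] : D (OfNat.ofNat n : K) = 0 := D_ofNat n

theorem j2 : g1 (-2) = -7 := by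
  have h := g1_eq (-2)
  rw [w2, d2] at h
  push_cast at h
  linear_combination (-1 / 2) * h

theorem j1 : g1 (-1) = 7 := by
  have h := g1_eq (-1)
  rw [w1, d1] at h
  push_cast at h
  linear_combination (-1) * h

theorem djm1 : dg 1 = 7 * t + 98 * t ^ 2 := by
  have hY := Y_ne
  have n7 : D (7 : K) = 0 := D_ofNat 7
  have n49 : D (49 : K) = 0 := D_ofNat 49
  rw [dg, wm1, div_eq_iff hY]
  simp only [map_add, D_mul, D_pow', n7, n49, Dt]
  push_cast
  ring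

theorem jm1 : g1 1 = 147 * t + 2401 * t ^ 2 := by
  have h := g1_eq 1
  rw [wm1, djm1] at h
  push_cast at h
  linear_combination (1) * h

theorem djm2 : dg 2 = 10 * t + 882 * t ^ 2 + 14406 * t ^ 3 + 67228 * t ^ 4 := by
  have hY := Y_ne
  have n10 : D (10 : K) = 0 := D_ofNat 10
  have n441 : D (441 : K) = 0 := D_ofNat 441
  have n4802 : D (4802 : K) = 0 := D_ofNat 4802
  have n16807 : D (16807 : K) = 0 := D_ofNat 16807
  rw [dg, wm2, div_eq_iff hY]
  simp only [map_add, D_mul, D_pow', n10, n441, n4802, n16807, Dt]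
  push_cast
  ring

theorem jm2 : g1 2 = 70 * t + 9261 * t ^ 2 + 168070 * t ^ 3 + 823543 * t ^ 4 := by
  have h := g1_eq 2
  rw [wm2, djm2] at h
  push_cast at h
  linear_combination (1 / 2) * h

theorem djm3 : dg 3 = 3 * t + 1596 * t ^ 2 + 87465 * t ^ 3 + 1613472 * t ^ 4 + 12353145 * t ^ 5 + 34588806 * t ^ 6 := by
  have hY := Y_ne
  have n3 : D (3 : K) = 0 := D_ofNat 3
  have n798 : D (798 : K) = 0 := D_ofNat 798
  have n29155 : D (29155 : K) = 0 := D_ofNat 29155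
  have n403368 : D (403368 : K) = 0 := D_ofNat 403368
  have n2470629 : D (2470629 : K) = 0 := D_ofNat 2470629
  have n5764801 : D (5764801 : K) = 0 := D_ofNat 5764801
  rw [dg, wm3, div_eq_iff hY]
  simp only [map_add, D_mul, D_pow', n3, n798, n29155, n403368, n2470629, n5764801, Dt]
  push_cast
  ring

theorem jm3 : g1 3 = 7 * t + 9310 * t ^ 2 + 612255 * t ^ 3 + 12235496 * t ^ 4 + 98001617 * t ^ 5 + 282475249 * t ^ 6 := by
  have h := g1_eq 3
  rw [wm3, djm3] at h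
  push_cast at h
  linear_combination (1 / 3) * h

theorem djm4 : dg 4 = 1148 * t ^ 2 + 181104 * t ^ 3 + 8115380 * t ^ 4 + 160002640 * t ^ 5 + 1591085076 * t ^ 6 + 7909306972 * t ^ 7 + 15818613944 * t ^ 8 := by
  have hY := Y_ne
  have n574 : D (574 : K) = 0 := D_ofNat 574
  have n60368 : D (60368 : K) = 0 := D_ofNat 60368
  have n2028845 : D (2028845 : K) = 0 := D_ofNat 2028845
  have n32000528 : D (32000528 : K) = 0 := D_ofNat 32000528
  have n265180846 : D (265180846 : K) = 0 := D_ofNat 265180846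
  have n1129900996 : D (1129900996 : K) = 0 := D_ofNat 1129900996
  have n1977326743 : D (1977326743 : K) = 0 := D_ofNat 1977326743
  rw [dg, wm4, div_eq_iff hY]
  simp only [map_add, D_mul, D_pow', n574, n60368, n2028845, n32000528, n265180846, n1129900996, n1977326743, Dt]
  push_cast
  ring

theorem jm4 : g1 4 = 4018 * t ^ 2 + 845152 * t ^ 3 + 42605745 * t ^ 4 + 896014784 * t ^ 5 + 9281329610 * t ^ 6 + 47455841832 * t ^ 7 + 96889010407 * t ^ 8 := by
  have h := g1_eq 4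
  rw [wm4, djm4] at h
  push_cast at h
  linear_combination (1 / 4) * h

end

end Pool.Agent.H47.Fad
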